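import Pool.Agent.Lib_MP_418a80_ab.Tr

set_option autoImplicit false
set_option linter.unusedVariables false
set_option linter.unusedSectionVars false

open Topology Filter MeasureTheory

namespace Pool.Agent.AbCoc

universe u v w

section
variable {A : Type u} [CStarAlgebra A] {K : Type v} [NormedAddCommGroup K]
  [InnerProductSpace ℂ K] [CompleteSpace K]
variable {G : Type w} [Group G] [TopologicalSpace G] {T : TrAlg A K} (S : TrAct G T)

namespace TrAct

/-- a finite average of `a` over the orbit -/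
noncomputable def avg (F : Finset G) (w : G → ℝ) (a : A) : A := ∑ g ∈ F, w g • S.α g a

theorem norm_avg_le (F : Finset G) (w : G → ℝ) (hw : ∀ g, 0 ≤ w g) (hs : ∑ g ∈ F, w g = 1)
    (a : A) : ‖S.avg F w a‖ ≤ ‖a‖ := by
  unfold avg
  calc ‖∑ g ∈ F, w g • S.α g a‖ ≤ ∑ g ∈ F, ‖w g • S.α g a‖ := norm_sum_le _ _
    _ ≤ ∑ g ∈ F, w g * ‖a‖ := by
        refine Finset.sum_le_sum fun g _ => ?_
        rw [norm_smul, Real.norm_eq_abs, abs_of_nonneg (hw g)]
        exact mul_le_mul_of_nonneg_left (S.norm_le g a) (hw g)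
    _ = ‖a‖ := by rw [← Finset.sum_mul, hs, one_mul]

theorem ι_avg (F : Finset G) (w : G → ℝ) (a : A) :
    T.ι (S.avg F w a) = ∑ g ∈ F, w g • S.U.U g (T.ι a) := by
  unfold avg
  rw [map_sum]
  refine Finset.sum_congr rfl fun g _ => ?_
  have : w g • S.α g a = (w g : ℂ) • S.α g a := rfl
  rw [this, map_smul, S.U_ι]
  rfl

theorem W_U (g : G) : S.W.U g = S.U.U g := rfl

/-- elements of the hull come from `A` -/
theorem hull_ι (a : A) (η : K) (hη : η ∈ S.W.hull (T.ι a)) : ∃ y : A, T.ι y = η := by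
  have h : ∀ n : ℕ, ∃ (F : Finset G) (w : G → ℝ), (∀ g, 0 ≤ w g) ∧ ∑ g ∈ F, w g = 1 ∧
      ‖(∑ g ∈ F, w g • S.W.U g (T.ι a)) - η‖ < 1 / ((n : ℝ) + 1) := fun n =>
    S.W.exists_average (T.ι a) η hη _ (by positivity)
  choose F w h1 h2 h3 using h
  have hlim : Tendsto (fun n => T.ι (S.avg (F n) (w n) a)) atTop (𝓝 η) := by
    rw [tendsto_iff_norm_sub_tendsto_zero]
    refine squeeze_zero (fun n => norm_nonneg _) (fun n => ?_) tendsto_one_div_add_atTop_nhds_zero_nat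
    rw [S.ι_avg]
    exact (h3 n).le
  obtain ⟨y, hy⟩ := T.complete ‖a‖ (fun n => S.avg (F n) (w n) a)
    (fun n => S.norm_avg_le (F n) (w n) (h1 n) (h2 n) a) hlim.cauchySeq
  exact ⟨y, tendsto_nhds_unique hy hlim⟩

theorem exists_cond (a : A) : ∃ p : A, S.Fixed p ∧ T.ι p ∈ S.W.hull (T.ι a) := by
  obtain ⟨η, hη, hf⟩ := S.W.exists_fixed (T.ι a)
  obtain ⟨y, rfl⟩ := S.hull_ι a η hη
  exact ⟨y, S.fixedVec_ι.1 hf, hη⟩

/-- the conditional expectation onto the fixed point algebra -/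
noncomputable def E (a : A) : A := (S.exists_cond a).choose

theorem E_fixed (a : A) : S.Fixed (S.E a) := (S.exists_cond a).choose_spec.1

theorem E_hull (a : A) : T.ι (S.E a) ∈ S.W.hull (T.ι a) := (S.exists_cond a).choose_spec.2

theorem inner_E (a : A) (ζ : K) (hζ : S.FixedVec ζ) :
    inner ℂ ζ (T.ι (S.E a)) = inner ℂ ζ (T.ι a) :=
  S.W.inner_hull (T.ι a) (T.ι (S.E a)) ζ (S.E_hull a) hζ

theorem fixedVec_of_fixed {p : A} (hp : S.Fixed p) : S.FixedVec (T.ι p) := S.fixedVec_ι.2 hp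

theorem eq_E_of (a q : A) (hq : S.Fixed q)
    (h : ∀ p, S.Fixed p → inner ℂ (T.ι p) (T.ι q) = inner ℂ (T.ι p) (T.ι a)) : q = S.E a := by
  have hd : S.Fixed (q - S.E a) := fun g => by rw [map_sub, hq g, S.E_fixed a g]
  have h1 := h _ hd
  rw [← S.inner_E a _ (S.fixedVec_of_fixed hd)] at h1
  have h2 : inner ℂ (T.ι (q - S.E a)) (T.ι (q - S.E a)) = (0 : ℂ) := by
    conv_lhs => rw [map_sub T.ι q (S.E a), inner_sub_right]
    rw [← map_sub, h1, sub_self]
  have h3 : T.ι (q - S.E a) = T.ι 0 := by rw [inner_self_eq_zero.1 h2, map_zero]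
  exact sub_eq_zero.1 (T.inj h3)

theorem Fixed.add {p q : A} (hp : S.Fixed p) (hq : S.Fixed q) : S.Fixed (p + q) :=
  fun g => by rw [map_add, hp g, hq g]

theorem Fixed.sub {p q : A} (hp : S.Fixed p) (hq : S.Fixed q) : S.Fixed (p - q) :=
  fun g => by rw [map_sub, hp g, hq g]

theorem Fixed.neg {p : A} (hp : S.Fixed p) : S.Fixed (-p) := fun g => by rw [map_neg, hp g]

theorem Fixed.mul {p q : A} (hp : S.Fixed p) (hq : S.Fixed q) : S.Fixed (p * q) :=
  fun g => by rw [map_mul, hp g, hq g]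

theorem Fixed.star {p : A} (hp : S.Fixed p) : S.Fixed (star p) := fun g => by rw [map_star, hp g]

theorem Fixed.smul {p : A} (hp : S.Fixed p) (c : ℂ) : S.Fixed (c • p) :=
  fun g => by rw [map_smul, hp g]

theorem Fixed.one : S.Fixed 1 := fun g => map_one _

theorem Fixed.zero : S.Fixed 0 := fun g => map_zero _

theorem E_of_fixed {p : A} (hp : S.Fixed p) : S.E p = p :=
  (S.eq_E_of p p hp fun _ _ => rfl).symm

theorem E_add (a b : A) : S.E (a + b) = S.E a + S.E b := by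
  refine (S.eq_E_of _ _ (Fixed.add S (S.E_fixed a) (S.E_fixed b)) fun p hp => ?_).symm
  rw [map_add, map_add, inner_add_right, inner_add_right, S.inner_E a _ (S.fixedVec_of_fixed hp),
    S.inner_E b _ (S.fixedVec_of_fixed hp)]

theorem E_smul (c : ℂ) (a : A) : S.E (c • a) = c • S.E a := by
  refine (S.eq_E_of _ _ (Fixed.smul S (S.E_fixed a) c) fun p hp => ?_).symm
  rw [map_smul, map_smul, inner_smul_right, inner_smul_right,
    S.inner_E a _ (S.fixedVec_of_fixed hp)]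

theorem E_neg (a : A) : S.E (-a) = -S.E a := by
  have := S.E_smul (-1) a
  simpa using this

theorem E_sub (a b : A) : S.E (a - b) = S.E a - S.E b := by
  rw [sub_eq_add_neg, S.E_add, S.E_neg, ← sub_eq_add_neg]

theorem E_zero : S.E 0 = 0 := S.E_of_fixed (Fixed.zero S)

theorem E_sum {J : Type*} (s : Finset J) (f : J → A) : S.E (∑ j ∈ s, f j) = ∑ j ∈ s, S.E (f j) := by
  classical
  induction s using Finset.induction_on with
  | empty => simp [S.E_zero]
  | insert j s hj ih => rw [Finset.sum_insert hj, Finset.sum_insert hj, S.E_add, ih]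

theorem E_mul_left {p : A} (hp : S.Fixed p) (a : A) : S.E (p * a) = p * S.E a := by
  refine (S.eq_E_of _ _ (Fixed.mul S hp (S.E_fixed a)) fun q hq => ?_).symm
  rw [← T.left', ← T.left', S.inner_E a _
    (S.fixedVec_of_fixed (Fixed.mul S (Fixed.star S hp) hq))]

theorem E_mul_right {p : A} (hp : S.Fixed p) (a : A) : S.E (a * p) = S.E a * p := by
  refine (S.eq_E_of _ _ (Fixed.mul S (S.E_fixed a) hp) fun q hq => ?_).symm
  rw [← T.right', ← T.right', S.inner_E a _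
    (S.fixedVec_of_fixed (Fixed.mul S hq (Fixed.star S hp)))]

theorem E_star (a : A) : S.E (star a) = star (S.E a) := by
  refine (S.eq_E_of _ _ (Fixed.star S (S.E_fixed a)) fun q hq => ?_).symm
  rw [T.tr, T.tr (q) (star a), star_star, star_star, ← inner_conj_symm,
    S.inner_E a _ (S.fixedVec_of_fixed (Fixed.star S hq)), inner_conj_symm]

theorem E_α (g : G) (a : A) : S.E (S.α g a) = S.E a := by
  refine (S.eq_E_of _ _ (S.E_fixed a) fun q hq => ?_).symm
  rw [S.inner_E a _ (S.fixedVec_of_fixed hq)]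
  conv_rhs => rw [← hq g]
  rw [S.inner_map]

theorem τ_E (a : A) : T.τ (S.E a) = T.τ a := S.inner_E a _ (S.fixedVec_of_fixed (Fixed.one S))

theorem norm_E_le (a : A) : ‖T.ι (S.E a)‖ ≤ ‖T.ι a‖ := by
  have h1 : inner ℂ (T.ι (S.E a)) (T.ι (S.E a)) = inner ℂ (T.ι (S.E a)) (T.ι a) :=
    S.inner_E a _ (S.fixedVec_of_fixed (S.E_fixed a))
  rw [inner_self_eq_norm_sq_to_K] at h1
  have h2 : ‖T.ι (S.E a)‖ ^ 2 ≤ ‖T.ι (S.E a)‖ * ‖T.ι a‖ := by
    calc ‖T.ι (S.E a)‖ ^ 2 = ‖((‖T.ι (S.E a)‖ : ℂ)) ^ 2‖ := by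
          rw [norm_pow, Complex.norm_real, norm_norm]
      _ = ‖inner ℂ (T.ι (S.E a)) (T.ι a)‖ := by rw [← h1]; rfl
      _ ≤ _ := norm_inner_le_norm _ _
  by_cases h0 : ‖T.ι (S.E a)‖ = 0
  · rw [h0]; exact norm_nonneg _
  · have : 0 < ‖T.ι (S.E a)‖ := lt_of_le_of_ne (norm_nonneg _) (Ne.symm h0)
    nlinarith

theorem E_isSelfAdjoint {a : A} (ha : IsSelfAdjoint a) : IsSelfAdjoint (S.E a) := by
  rw [isSelfAdjoint_iff, ← S.E_star, ha.star_eq]

/-- `E` as a linear contraction for the `2`-norm -/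
theorem norm_E_sub_le (a b : A) : ‖T.ι (S.E a) - T.ι (S.E b)‖ ≤ ‖T.ι a - T.ι b‖ := by
  rw [← map_sub, ← map_sub, ← S.E_sub]
  exact S.norm_E_le _

/-- family version of the mean ergodic theorem, in terms of `E` -/
theorem exists_avg_family (J : Type) [Fintype J] (y : J → A) (ε : ℝ) (hε : 0 < ε) :
    ∃ (F : Finset G) (w : G → ℝ), (∀ g, 0 ≤ w g) ∧ ∑ g ∈ F, w g = 1 ∧
      ∑ j, ‖T.ι (S.avg F w (y j) - S.E (y j))‖ ^ 2 < ε := by
  obtain ⟨η, h1, h2, h3, h4⟩ := S.W.exists_fixed_family J (fun j => T.ι (y j))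
  have hη : ∀ j, η j = T.ι (S.E (y j)) := by
    intro j
    have hfd : ∀ g, S.W.U g (η j - T.ι (S.E (y j))) = η j - T.ι (S.E (y j)) := by
      intro g
      rw [map_sub, h1 j g]
      congr 1
      exact S.fixedVec_of_fixed (S.E_fixed (y j)) g
    have h5 := h2 j _ hfd
    rw [← S.inner_E (y j) _ hfd] at h5
    have h6 : inner ℂ (η j - T.ι (S.E (y j))) (η j - T.ι (S.E (y j))) = (0 : ℂ) := by
      rw [inner_sub_right, h5, sub_self]
    exact sub_eq_zero.1 (inner_self_eq_zero.1 h6)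
  obtain ⟨F, w, hw1, hw2, hw3⟩ := h4 ε hε
  refine ⟨F, w, hw1, hw2, ?_⟩
  refine lt_of_eq_of_lt ?_ hw3
  refine Finset.sum_congr rfl fun j _ => ?_
  rw [map_sub, S.ι_avg, hη j]
  rfl

/-- a linear inequality along the orbit passes to `E` -/
theorem re_inner_family_le (J : Type) [Fintype J] (y z : J → A) (c : ℝ)
    (h : ∀ g, ∑ j, (inner ℂ (T.ι (z j)) (T.ι (S.α g (y j)))).re ≤ c) :
    ∑ j, (inner ℂ (T.ι (z j)) (T.ι (S.E (y j)))).re ≤ c := by
  obtain ⟨η, h1, h2, h3, h4⟩ := S.W.exists_fixed_family J (fun j => T.ι (y j))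
  have hη : ∀ j, η j = T.ι (S.E (y j)) := by
    intro j
    have hfd : ∀ g, S.W.U g (η j - T.ι (S.E (y j))) = η j - T.ι (S.E (y j)) := by
      intro g
      rw [map_sub, h1 j g]
      congr 1
      exact S.fixedVec_of_fixed (S.E_fixed (y j)) g
    have h5 := h2 j _ hfd
    rw [← S.inner_E (y j) _ hfd] at h5
    have h6 : inner ℂ (η j - T.ι (S.E (y j))) (η j - T.ι (S.E (y j))) = (0 : ℂ) := by
      rw [inner_sub_right, h5, sub_self]
    exact sub_eq_zero.1 (inner_self_eq_zero.1 h6)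
  have := h3 (fun j => T.ι (z j)) c (by
    intro g
    refine le_of_eq_of_le ?_ (h g)
    refine Finset.sum_congr rfl fun j _ => ?_
    rw [S.W_U, S.U_ι])
  simpa only [hη] using this

end TrAct
end

end Pool.Agent.AbCoc
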