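import Pool.Agent.Lib_MP_418a80_ab.Tr

/-! PIECE W5: automorphisms of a factor with a faithful normal tracial state preserve the trace. -/

set_option autoImplicit false

open Topology Filter

namespace Pool.Agent.AbCoc

universe u v w

section order
variable {A : Type u} [CStarAlgebra A] [PartialOrder A] [StarOrderedRing A] {K : Type v}
  [NormedAddCommGroup K] [InnerProductSpace ℂ K] (T : TrAlg A K)

/-- faithfulness of the trace on positive elements -/
private theorem tu_faithful {a : A} (ha : 0 ≤ a) (h : (T.τ a).re ≤ 0) : a = 0 := by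
  obtain ⟨c, rfl⟩ := CStarAlgebra.nonneg_iff_eq_star_mul_self.1 ha
  rw [← T.norm_sq] at h
  have h1 : ‖T.ι c‖ = 0 := by
    have := sq_nonneg ‖T.ι c‖
    exact pow_eq_zero_iff two_ne_zero |>.1 (le_antisymm h this)
  have h2 : c = 0 := T.inj (by rw [norm_eq_zero.1 h1, map_zero])
  rw [h2, mul_zero]

private theorem tu_mono {a b : A} (h : a ≤ b) : (T.τ a).re ≤ (T.τ b).re := by
  have := T.re_τ_nonneg (b - a) (sub_nonneg.2 h)
  rw [T.τ_sub, Complex.sub_re] at this
  linarith

/-- positivity is closed under limits in the `2`-norm -/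
private theorem tu_pos {x : ℕ → A} {y : A} (hx : ∀ᶠ n in atTop, 0 ≤ x n)
    (h : Tendsto (fun n => T.ι (x n)) atTop (𝓝 (T.ι y))) : 0 ≤ y := by
  have hsa : IsSelfAdjoint y := by
    have h1 := T.tendsto_star h
    have h2 : Tendsto (fun n => T.ι (x n)) atTop (𝓝 (T.ι (star y))) := by
      refine h1.congr' ?_
      filter_upwards [hx] with n hn
      rw [hn.isSelfAdjoint.star_eq]
    exact (T.tendsto_unique h2 h)
  set n : A := y⁻ with hn
  have hn0 : 0 ≤ n := CFC.negPart_nonneg y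
  have hns : star n = n := hn0.isSelfAdjoint.star_eq
  have hy : y = y⁺ - n := (CFC.posPart_sub_negPart y hsa).symm
  have hny : n * y⁺ = 0 := CFC.negPart_mul_posPart y
  have h1 : ∀ᶠ k in atTop, 0 ≤ (inner ℂ (T.ι n) (T.ι (x k * n))).re := by
    filter_upwards [hx] with k hk
    rw [T.inner_eq_τ, ← mul_assoc]
    exact T.re_τ_conj_nonneg n (x k) hk
  have h2 : Tendsto (fun k => T.ι (x k * n)) atTop (𝓝 (T.ι (y * n))) := by
    rw [tendsto_iff_norm_sub_tendsto_zero] at h ⊢
    have h3 := h.mul_const ‖n‖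
    rw [zero_mul] at h3
    refine squeeze_zero (fun _ => norm_nonneg _) (fun k => ?_) h3
    rw [← map_sub, ← map_sub, ← sub_mul]
    exact T.mul_le' _ _
  have h3 : 0 ≤ (inner ℂ (T.ι n) (T.ι (y * n))).re := by
    have h4 : Tendsto (fun k => (inner ℂ (T.ι n) (T.ι (x k * n))).re) atTop
        (𝓝 (inner ℂ (T.ι n) (T.ι (y * n))).re) :=
      (Complex.continuous_re.tendsto _).comp (tendsto_const_nhds.inner h2)
    exact ge_of_tendsto h4 h1
  have h4 : star n * (y * n) = -(n * n * n) := by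
    rw [hns, hy, sub_mul, mul_sub, ← mul_assoc, hny, zero_mul, zero_sub, mul_assoc]
  rw [T.inner_eq_τ, h4, T.τ_neg, Complex.neg_re] at h3
  have h5 : 0 ≤ n * n * n := by
    have := star_left_conjugate_nonneg hn0 n
    rwa [hns] at this
  have h6 : n * n * n = 0 := tu_faithful T h5 (by linarith)
  have h7 : star (n * n) * (n * n) = 0 := by
    rw [star_mul, hns, ← mul_assoc, h6, zero_mul]
  have h8 : n * n = 0 := CStarRing.star_mul_self_eq_zero_iff _ |>.1 h7
  have h9 : star n * n = 0 := by rw [hns, h8]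
  have h10 : n = 0 := CStarRing.star_mul_self_eq_zero_iff _ |>.1 h9
  exact (CFC.negPart_eq_zero_iff y hsa).1 h10

private theorem tu_le {x y : ℕ → A} {a b : A} (h : ∀ᶠ n in atTop, x n ≤ y n)
    (hx : Tendsto (fun n => T.ι (x n)) atTop (𝓝 (T.ι a)))
    (hy : Tendsto (fun n => T.ι (y n)) atTop (𝓝 (T.ι b))) : a ≤ b := by
  rw [← sub_nonneg]
  refine tu_pos T (x := fun n => y n - x n) ?_ ?_
  · filter_upwards [h] with n hn
    exact sub_nonneg.2 hn
  · have := hy.sub hx
    rw [← map_sub] at this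
    refine this.congr fun n => ?_
    rw [map_sub]

/-- `‖d‖₂² ≤ τ(d)` for `0 ≤ d ≤ 1` -/
private theorem tu_sq_le {d : A} (h0 : 0 ≤ d) (h1 : d ≤ 1) : ‖T.ι d‖ ^ 2 ≤ (T.τ d).re := by
  have hs : star d = d := h0.isSelfAdjoint.star_eq
  have hs' : star (1 - d) = 1 - d := by rw [star_sub, star_one, hs]
  have e : d - star d * d = star d * (1 - d) * d + star (1 - d) * d * (1 - d) := by
    rw [hs, hs']
    noncomm_ring
  have h2 : 0 ≤ d - star d * d := by
    rw [e]
    exact add_nonneg (star_left_conjugate_nonneg (sub_nonneg.2 h1) d)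
      (star_left_conjugate_nonneg h0 (1 - d))
  rw [T.norm_sq]
  exact tu_mono T (sub_nonneg.1 h2)

/-- monotone convergence -/
private theorem tu_monoconv {y : ℕ → A} (hm : Monotone y) (h0 : ∀ n, 0 ≤ y n)
    (h1 : ∀ n, y n ≤ 1) :
    ∃ z, Tendsto (fun n => T.ι (y n)) atTop (𝓝 (T.ι z)) ∧ (∀ n, y n ≤ z) ∧
      ∀ u, (∀ n, y n ≤ u) → z ≤ u := by
  have hf : Monotone fun n => (T.τ (y n)).re := fun m n hmn => tu_mono T (hm hmn)
  have hb : BddAbove (Set.range fun n => (T.τ (y n)).re) := by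
    refine ⟨(T.τ (1 : A)).re, ?_⟩
    rintro _ ⟨n, rfl⟩
    exact tu_mono T (h1 n)
  have hc : CauchySeq fun n => (T.τ (y n)).re := (tendsto_atTop_ciSup hf hb).cauchySeq
  have hc2 : CauchySeq fun n => T.ι (y n) := by
    rw [Metric.cauchySeq_iff'] at hc ⊢
    intro ε hε
    obtain ⟨N, hN⟩ := hc (ε ^ 2) (by positivity)
    refine ⟨N, fun n hn => ?_⟩
    have h2 := hN n hn
    rw [Real.dist_eq] at h2
    rw [dist_eq_norm, ← map_sub]
    have h3 : ‖T.ι (y n - y N)‖ ^ 2 ≤ (T.τ (y n - y N)).re :=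
      tu_sq_le T (sub_nonneg.2 (hm hn)) ((sub_le_self _ (h0 N)).trans (h1 n))
    rw [T.τ_sub, Complex.sub_re] at h3
    have h4 : ‖T.ι (y n - y N)‖ ^ 2 < ε ^ 2 := h3.trans_lt ((le_abs_self _).trans_lt h2)
    exact lt_of_pow_lt_pow_left₀ 2 hε.le h4
  obtain ⟨z, hz⟩ := T.complete 1 y (fun n => (CStarAlgebra.norm_le_one_iff_of_nonneg _ (h0 n)).2
    (h1 n)) hc2
  refine ⟨z, hz, fun n => ?_, fun u hu => ?_⟩
  · refine tu_le T (x := fun _ => y n) ?_ tendsto_const_nhds hz
    filter_upwards [eventually_ge_atTop n] with m hm'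
    exact hm hm'
  · exact tu_le T (y := fun _ => u) (Eventually.of_forall hu) hz tendsto_const_nhds

private theorem tu_map_nonneg (φ : A →⋆ₐ[ℂ] A) {a : A} (ha : 0 ≤ a) : 0 ≤ φ a := by
  obtain ⟨c, rfl⟩ := CStarAlgebra.nonneg_iff_eq_star_mul_self.1 ha
  rw [map_mul, map_star]
  exact star_mul_self_nonneg _

private theorem tu_map_mono (φ : A →⋆ₐ[ℂ] A) {a b : A} (h : a ≤ b) : φ a ≤ φ b := by
  rw [← sub_nonneg, ← map_sub]
  exact tu_map_nonneg φ (sub_nonneg.2 h)

/-- automorphisms preserve limits of monotone sequences -/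
private theorem tu_image (φ ψ : A →⋆ₐ[ℂ] A) (h1 : ∀ a, φ (ψ a) = a) (h2 : ∀ a, ψ (φ a) = a)
    {y : ℕ → A} {z : A} (hm : Monotone y) (hy0 : ∀ n, 0 ≤ y n) (hy1 : ∀ n, y n ≤ 1)
    (h : Tendsto (fun n => T.ι (y n)) atTop (𝓝 (T.ι z))) :
    Tendsto (fun n => T.ι (φ (y n))) atTop (𝓝 (T.ι (φ z))) := by
  obtain ⟨z', hz', hub, hlub⟩ := tu_monoconv T hm hy0 hy1
  have hzz : z' = z := T.tendsto_unique hz' h
  subst hzz
  obtain ⟨w, hw, hwub, hwlub⟩ := tu_monoconv T (y := fun n => φ (y n))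
    (fun m n hmn => tu_map_mono φ (hm hmn)) (fun n => tu_map_nonneg φ (hy0 n))
    (fun n => by rw [← map_one φ]; exact tu_map_mono φ (hy1 n))
  have h3 : w = φ z' := by
    refine le_antisymm (hwlub _ fun n => tu_map_mono φ (hub n)) ?_
    have h4 : z' ≤ ψ w := hlub _ fun n => by
      rw [← h2 (y n)]
      exact tu_map_mono ψ (hwub n)
    rw [← h1 w]
    exact tu_map_mono φ h4
  rw [← h3]
  exact hw

/-- the resolvent `(1 + z)⁻¹` -/
private noncomputable def tuV (z : A) : A := Ring.inverse (1 + z)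

private theorem tu_isUnit {z : A} (hz : 0 ≤ z) : IsUnit (1 + z) := by
  have h : (-1 : ℝ) ∉ spectrum ℝ z := fun h => by
    have := spectrum_nonneg_of_nonneg hz h
    linarith
  rw [spectrum.notMem_iff, map_neg, map_one] at h
  have h2 : (1 + z : A) = -(-1 - z) := by abel
  rw [h2]
  exact h.neg

private theorem tuV_mul {z : A} (hz : 0 ≤ z) : tuV z * (1 + z) = 1 :=
  Ring.inverse_mul_cancel _ (tu_isUnit hz)

private theorem mul_tuV {z : A} (hz : 0 ≤ z) : (1 + z) * tuV z = 1 :=
  Ring.mul_inverse_cancel _ (tu_isUnit hz)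

private theorem tuV_star {z : A} (hz : 0 ≤ z) : star (tuV z) = tuV z := by
  have hs : star (1 + z) = 1 + z := by
    rw [star_add, star_one, hz.isSelfAdjoint.star_eq]
  have h1 : star (tuV z) * (1 + z) = 1 := by
    have := congrArg star (mul_tuV hz)
    rwa [star_mul, star_one, hs] at this
  calc star (tuV z) = star (tuV z) * ((1 + z) * tuV z) := by rw [mul_tuV hz, mul_one]
    _ = tuV z := by rw [← mul_assoc, h1, one_mul]

private theorem tuV_nonneg {z : A} (hz : 0 ≤ z) : 0 ≤ tuV z := by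
  have h := star_left_conjugate_nonneg (add_nonneg zero_le_one hz) (tuV z)
  rwa [tuV_star hz, tuV_mul hz, one_mul] at h

private theorem tuV_anti {z z' : A} (hz : 0 ≤ z) (h : z ≤ z') : tuV z' ≤ tuV z := by
  have hz' : 0 ≤ z' := hz.trans h
  set v := tuV z with hv
  set v' := tuV z' with hv'
  set d := z' - z with hd
  have hd0 : 0 ≤ d := sub_nonneg.2 h
  have hds : star d = d := hd0.isSelfAdjoint.star_eq
  have e1 : (1 + z') * v = 1 + d * v := by
    have : (1 + z') = (1 + z) + d := by rw [hd]; abel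
    rw [this, add_mul, mul_tuV hz]
  have e2 : v * (1 + z') = 1 + v * d := by
    have : (1 + z') = (1 + z) + d := by rw [hd]; abel
    rw [this, mul_add, tuV_mul hz]
  have e3 : (1 + z') * v * (1 + z') - (1 + z') = d + star d * v * d := by
    rw [e1, add_mul, one_mul, mul_assoc, e2, hds]
    noncomm_ring
  have e4 : v - v' = star v' * (d + star d * v * d) * v' := by
    rw [← e3, tuV_star hz']
    calc v - v' = (v' * (1 + z')) * v * ((1 + z') * v') - (v' * (1 + z')) * v' := by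
          rw [tuV_mul hz', mul_tuV hz', one_mul, mul_one, one_mul]
      _ = _ := by noncomm_ring
  rw [← sub_nonneg, e4]
  exact star_left_conjugate_nonneg
    (add_nonneg hd0 (star_left_conjugate_nonneg (tuV_nonneg hz) d)) v'

private theorem tuV_le_one {z : A} (hz : 0 ≤ z) : tuV z ≤ 1 := by
  have h := tuV_anti le_rfl hz
  have h0 : tuV (0 : A) = 1 := by
    have := tuV_mul (le_refl (0 : A))
    rwa [add_zero, mul_one] at this
  rwa [h0] at h

/-- `1 - (1 + z)⁻¹ ≤ z` -/
private theorem tuV_sub_le {z : A} (hz : 0 ≤ z) : 1 - tuV z ≤ z := by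
  have hs : star z = z := hz.isSelfAdjoint.star_eq
  have e : z - (1 - tuV z) = star z * tuV z * z := by
    have h1 : tuV z + tuV z * z = 1 := by
      have := tuV_mul hz
      rwa [mul_add, mul_one] at this
    have h2 : tuV z + z * tuV z = 1 := by
      have := mul_tuV hz
      rwa [add_mul, one_mul] at this
    have h3 : tuV z * z = 1 - tuV z := by rw [← h1]; abel
    have h4 : z * tuV z = 1 - tuV z := by rw [← h2]; abel
    rw [hs, h4, sub_mul, one_mul, h3]
  rw [← sub_nonneg, e]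
  exact star_left_conjugate_nonneg (tuV_nonneg hz) z

/-- automorphisms are normal: positive elements with summable traces -/
private theorem tu_normal (φ ψ : A →⋆ₐ[ℂ] A) (h1 : ∀ a, φ (ψ a) = a) (h2 : ∀ a, ψ (φ a) = a)
    (x : ℕ → A) (hx : ∀ k, 0 ≤ x k) (B : ℝ) (hB : ∀ k, ‖x k‖ ≤ B)
    (hτ : ∀ k, (T.τ (x k)).re ≤ (1 / 2) ^ k) :
    Tendsto (fun k => ‖T.τ (φ (x k))‖) atTop (𝓝 0) := by
  set z : ℕ → ℕ → A := fun k m => ∑ j ∈ Finset.Ico k m, x j with hz
  have hz0 : ∀ k m, 0 ≤ z k m := fun k m => Finset.sum_nonneg fun j _ => hx j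
  have hzm : ∀ k m m', m ≤ m' → z k m ≤ z k m' := fun k m m' h =>
    Finset.sum_le_sum_of_subset_of_nonneg (Finset.Ico_subset_Ico le_rfl h) fun j _ _ => hx j
  have hzk : ∀ k m, z (k + 1) m ≤ z k m := fun k m =>
    Finset.sum_le_sum_of_subset_of_nonneg (Finset.Ico_subset_Ico (Nat.le_succ k) le_rfl)
      fun j _ _ => hx j
  set w : ℕ → ℕ → A := fun k m => 1 - tuV (z k m) with hw
  have hw0 : ∀ k m, 0 ≤ w k m := fun k m => sub_nonneg.2 (tuV_le_one (hz0 k m))
  have hw1 : ∀ k m, w k m ≤ 1 := fun k m => sub_le_self _ (tuV_nonneg (hz0 k m))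
  have hwm : ∀ k, Monotone (w k) := fun k m m' h =>
    sub_le_sub_left (tuV_anti (hz0 k m) (hzm k m m' h)) 1
  have hwk : ∀ k m, w (k + 1) m ≤ w k m := fun k m =>
    sub_le_sub_left (tuV_anti (hz0 (k + 1) m) (hzk k m)) 1
  choose W hW hWub hWlub using fun k => tu_monoconv T (hwm k) (hw0 k) (hw1 k)
  have hW0 : ∀ k, 0 ≤ W k := fun k => (hw0 k 0).trans (hWub k 0)
  have hW1 : ∀ k, W k ≤ 1 := fun k => hWlub k 1 (hw1 k)
  have hWk : ∀ k, W (k + 1) ≤ W k := fun k =>
    hWlub (k + 1) (W k) fun m => (hwk k m).trans (hWub k m)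
  have hτw : ∀ k m, (T.τ (w k m)).re ≤ 2 * (1 / 2) ^ k := by
    intro k m
    refine (tu_mono T (tuV_sub_le (hz0 k m))).trans ?_
    have h3 : ∀ m, (T.τ (z k m)).re = ∑ j ∈ Finset.Ico k m, (T.τ (x j)).re := by
      intro m
      have : T.τ (z k m) = ∑ j ∈ Finset.Ico k m, T.τ (x j) := by
        unfold TrAlg.τ
        rw [hz, map_sum, inner_sum]
      rw [this, Complex.re_sum]
    rw [h3]
    refine (Finset.sum_le_sum fun j _ => hτ j).trans ?_
    rw [Finset.sum_Ico_eq_sum_range]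
    have h4 : ∀ n : ℕ, ∑ j ∈ Finset.range n, (1 / 2 : ℝ) ^ (k + j) ≤ 2 * (1 / 2) ^ k := by
      intro n
      have h5 : ∑ j ∈ Finset.range n, (1 / 2 : ℝ) ^ (k + j)
          = (1 / 2) ^ k * ∑ j ∈ Finset.range n, (1 / 2 : ℝ) ^ j := by
        rw [Finset.mul_sum]
        exact Finset.sum_congr rfl fun j _ => pow_add _ _ _
      have h6 : ∑ j ∈ Finset.range n, (1 / 2 : ℝ) ^ j ≤ 2 := by
        have h7 := (summable_geometric_two).sum_le_tsum (Finset.range n)
          (fun i _ => by positivity)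
        rwa [tsum_geometric_two] at h7
      rw [h5, mul_comm]
      exact mul_le_mul_of_nonneg_right h6 (by positivity)
    exact h4 _
  have hτW : ∀ k, (T.τ (W k)).re ≤ 2 * (1 / 2) ^ k := by
    intro k
    have h3 : Tendsto (fun m => (T.τ (w k m)).re) atTop (𝓝 (T.τ (W k)).re) := by
      unfold TrAlg.τ
      exact (Complex.continuous_re.tendsto _).comp (tendsto_const_nhds.inner (hW k))
    exact le_of_tendsto' h3 (hτw k)
  have hpow : Tendsto (fun k : ℕ => 2 * (1 / 2 : ℝ) ^ k) atTop (𝓝 0) := by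
    have := (tendsto_pow_atTop_nhds_zero_of_lt_one (r := (1 / 2 : ℝ)) (by norm_num)
      (by norm_num)).const_mul 2
    rwa [mul_zero] at this
  -- `sq` tends to zero implies norm tends to zero
  have hsq : ∀ f : ℕ → ℝ, (∀ k, 0 ≤ f k) → Tendsto (fun k => f k ^ 2) atTop (𝓝 0) →
      Tendsto f atTop (𝓝 0) := by
    intro f hf hf2
    have h3 := (Real.continuous_sqrt.tendsto 0).comp hf2
    rw [Real.sqrt_zero] at h3
    refine h3.congr fun k => ?_
    exact Real.sqrt_sq (hf k)
  have hWlim : Tendsto (fun k => T.ι (1 - W k)) atTop (𝓝 (T.ι 1)) := by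
    rw [tendsto_iff_norm_sub_tendsto_zero]
    refine hsq _ (fun k => norm_nonneg _) ?_
    refine squeeze_zero (fun k => by positivity) (fun k => ?_) hpow
    rw [← map_sub, sub_sub_cancel_left, map_neg, norm_neg]
    exact (tu_sq_le T (hW0 k) (hW1 k)).trans (hτW k)
  have hφW := tu_image T φ ψ h1 h2 (y := fun k => 1 - W k)
    (monotone_nat_of_le_succ fun k => sub_le_sub_left (hWk k) 1)
    (fun k => sub_nonneg.2 (hW1 k)) (fun k => sub_le_self _ (hW0 k)) hWlim
  have hφW2 : Tendsto (fun k => (T.τ (φ (W k))).re) atTop (𝓝 0) := by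
    have h3 : Tendsto (fun k => (T.τ (φ (1 - W k))).re) atTop (𝓝 (T.τ (φ 1)).re) := by
      unfold TrAlg.τ
      exact (Complex.continuous_re.tendsto _).comp (tendsto_const_nhds.inner hφW)
    have h4 := h3.const_sub 1
    rw [map_one, T.τ_one, Complex.one_re, sub_self] at h4
    refine h4.congr fun k => ?_
    rw [map_sub, map_one, T.τ_sub, T.τ_one, Complex.sub_re, Complex.one_re]
    ring
  have hφw : Tendsto (fun k => ‖T.ι (φ (w k (k + 1)))‖) atTop (𝓝 0) := by
    refine hsq _ (fun k => norm_nonneg _) ?_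
    refine squeeze_zero (fun k => by positivity) (fun k => ?_) hφW2
    refine (tu_sq_le T (tu_map_nonneg φ (hw0 k (k + 1))) ?_).trans
      (tu_mono T (tu_map_mono φ (hWub k (k + 1))))
    rw [← map_one φ]
    exact tu_map_mono φ (hw1 k (k + 1))
  have hfin := hφw.mul_const (1 + B)
  rw [zero_mul] at hfin
  refine squeeze_zero (fun k => norm_nonneg _) (fun k => ?_) hfin
  have hzz : z k (k + 1) = x k := by
    rw [hz]
    simp
  have e : x k = w k (k + 1) * (1 + x k) := by
    rw [hw]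
    simp only [hzz]
    rw [sub_mul, one_mul, tuV_mul (hx k)]
    abel
  have h3 : ‖T.τ (φ (x k))‖ ≤ ‖T.ι (φ (x k))‖ := by
    unfold TrAlg.τ
    refine (norm_inner_le_norm _ _).trans ?_
    rw [T.norm_one, one_mul]
  refine h3.trans ?_
  have h4 : T.ι (φ (x k)) = T.ι (φ (w k (k + 1)) * φ (1 + x k)) := by
    rw [← map_mul, ← e]
  rw [h4]
  refine (T.mul_le' _ _).trans ?_
  apply mul_le_mul_of_nonneg_left _ (norm_nonneg _)
  refine (NonUnitalStarAlgHom.norm_apply_le φ _).trans ?_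
  refine (norm_add_le _ _).trans ?_
  exact add_le_add (CStarAlgebra.norm_le_one_iff_of_nonneg _ zero_le_one |>.2 le_rfl) (hB k)

end order

section
variable {A : Type u} [CStarAlgebra A] {K : Type v} [NormedAddCommGroup K]
  [InnerProductSpace ℂ K] [CompleteSpace K] (T : TrAlg A K)

/-- conjugation by a unitary -/
private def tuConj (u : unitary A) : A →⋆ₐ[ℂ] A where
  toFun a := (u : A) * a * star (u : A)
  map_one' := by
    rw [mul_one]
    exact Unitary.mul_star_self_of_mem u.2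
  map_mul' a b := by
    have h : star (u : A) * u = 1 := Unitary.coe_star_mul_self u
    calc (u : A) * (a * b) * star (u : A) = u * a * 1 * b * star (u : A) := by noncomm_ring
      _ = u * a * (star (u : A) * u) * b * star (u : A) := by rw [h]
      _ = _ := by noncomm_ring
  map_zero' := by rw [mul_zero, zero_mul]
  map_add' a b := by rw [mul_add, add_mul]
  commutes' c := by
    rw [Algebra.algebraMap_eq_smul_one, mul_smul_comm, mul_one, smul_mul_assoc,
      Unitary.mul_star_self_of_mem u.2]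
  map_star' a := by rw [star_mul, star_mul, star_star, mul_assoc]

private theorem tuConj_apply (u : unitary A) (a : A) :
    tuConj u a = (u : A) * a * star (u : A) := rfl

/-- averages over the unitary group tend to the trace in the `2`-norm -/
private theorem tu_hull (hfac : ∀ x : A, (∀ y, x * y = y * x) → ∃ c : ℂ, x = c • (1 : A))
    (a : A) (ε : ℝ) (hε : 0 < ε) :
    ∃ y : A, ‖y‖ ≤ ‖a‖ ∧ ‖T.ι (y - T.τ a • (1 : A))‖ < ε ∧
      ∀ φ : A →⋆ₐ[ℂ] A, T.τ (φ y) = T.τ (φ a) := by
  classical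
  let _ : TopologicalSpace (unitary A) := ⊥
  let S : TrAct (unitary A) T :=
    { α := tuConj
      one := fun a => by
        rw [tuConj_apply, OneMemClass.coe_one, star_one, one_mul, mul_one]
      mul := fun g h a => by
        simp only [tuConj_apply, Submonoid.coe_mul, star_mul]
        noncomm_ring
      norm_map := fun g a => by
        rw [tuConj_apply, T.norm_mul_unitary _ (by rw [star_star]; exact Unitary.coe_star_mul_self g),
          T.norm_unitary_mul _ (Unitary.coe_star_mul_self g)]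
      cont := fun a => continuous_bot }
  have hU : ∀ g a, S.W.U g (T.ι a) = T.ι (tuConj g a) := fun g a => S.U_ι g a
  obtain ⟨η, hη, hfix⟩ := S.W.exists_fixed (T.ι a)
  -- averages
  have key : ∀ ε : ℝ, 0 < ε → ∃ y : A, ‖y‖ ≤ ‖a‖ ∧ ‖T.ι y - η‖ < ε ∧
      ∀ φ : A →⋆ₐ[ℂ] A, T.τ (φ y) = T.τ (φ a) := by
    intro ε hε
    obtain ⟨F, w, hw0, hw1, hd⟩ := S.W.exists_average (T.ι a) η hη ε hε
    refine ⟨∑ g ∈ F, (w g : ℂ) • tuConj g a, ?_, ?_, ?_⟩
    · refine (norm_sum_le _ _).trans ?_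
      have h1 : ∀ g ∈ F, ‖(w g : ℂ) • tuConj g a‖ ≤ w g * ‖a‖ := by
        intro g _
        rw [norm_smul, Complex.norm_real, Real.norm_of_nonneg (hw0 g)]
        exact mul_le_mul_of_nonneg_left (NonUnitalStarAlgHom.norm_apply_le _ _) (hw0 g)
      refine (Finset.sum_le_sum h1).trans ?_
      rw [← Finset.sum_mul, hw1, one_mul]
    · refine lt_of_eq_of_lt ?_ hd
      congr 2
      rw [map_sum]
      refine Finset.sum_congr rfl fun g _ => ?_
      rw [map_smul, hU]
      rfl
    · intro φ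
      have h1 : ∀ g : unitary A, T.τ (φ (tuConj g a)) = T.τ (φ a) := by
        intro g
        rw [tuConj_apply, map_mul, T.τ_mul_comm, map_mul, ← mul_assoc, ← map_mul,
          Unitary.coe_star_mul_self, map_one, one_mul]
      have h2 : T.τ (φ (∑ g ∈ F, (w g : ℂ) • tuConj g a)) =
          ∑ g ∈ F, (w g : ℂ) * T.τ (φ (tuConj g a)) := by
        unfold TrAlg.τ
        rw [map_sum, map_sum, inner_sum]
        refine Finset.sum_congr rfl fun g _ => ?_
        rw [map_smul, map_smul, inner_smul_right]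
      rw [h2]
      simp only [h1]
      rw [← Finset.sum_mul, ← Complex.ofReal_sum, hw1, Complex.ofReal_one, one_mul]
  -- the fixed vector comes from `A`
  choose y hy1 hy2 hy3 using fun n : ℕ => key (1 / ((n : ℝ) + 1)) (by positivity)
  have hlim : Tendsto (fun n => T.ι (y n)) atTop (𝓝 η) := by
    rw [tendsto_iff_norm_sub_tendsto_zero]
    exact squeeze_zero (fun n => norm_nonneg _) (fun n => (hy2 n).le)
      tendsto_one_div_add_atTop_nhds_zero_nat
  obtain ⟨b, hb⟩ := T.complete ‖a‖ y hy1 hlim.cauchySeq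
  have hηb : η = T.ι b := tendsto_nhds_unique hlim hb
  have hfixb : ∀ g : unitary A, tuConj g b = b := by
    intro g
    have h1 := hfix g
    rw [hηb, hU] at h1
    exact T.inj h1
  have hcomm : ∀ g : unitary A, b * (g : A) = (g : A) * b := by
    intro g
    have h1 := hfixb g
    rw [tuConj_apply] at h1
    calc b * (g : A) = ((g : A) * b * star (g : A)) * g := by rw [h1]
      _ = (g : A) * b * (star (g : A) * g) := by rw [mul_assoc]
      _ = (g : A) * b := by rw [Unitary.coe_star_mul_self, mul_one]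
  have hall : ∀ x, b * x = x * b := by
    intro x
    have hx : x ∈ Submodule.span ℂ (unitary A : Set A) := by
      rw [CStarAlgebra.span_unitary]
      exact Submodule.mem_top
    induction hx using Submodule.span_induction with
    | mem x hx => exact hcomm ⟨x, hx⟩
    | zero => rw [mul_zero, zero_mul]
    | add x y _ _ hx hy => rw [mul_add, add_mul, hx, hy]
    | smul c x _ hx => rw [mul_smul_comm, smul_mul_assoc, hx]
  obtain ⟨c, hc⟩ := hfac b hall
  have hτb : T.τ b = T.τ a := by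
    have h1 := S.W.inner_hull (T.ι a) η (T.ι 1) hη (fun g => by
      rw [hU, map_one])
    rw [hηb] at h1
    exact h1
  have hca : c = T.τ a := by
    rw [← hτb, hc, T.τ_smul, T.τ_one, mul_one]
  obtain ⟨z, hz1, hz2, hz3⟩ := key ε hε
  refine ⟨z, hz1, ?_, hz3⟩
  rw [map_sub, ← hca, ← hc, ← hηb]
  exact hz2

/-- W5: automorphisms of a factor with a faithful normal tracial state preserve the trace -/
theorem trace_aut (hfac : ∀ x : A, (∀ y, x * y = y * x) → ∃ c : ℂ, x = c • (1 : A))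
    (φ ψ : A →⋆ₐ[ℂ] A) (h1 : ∀ a, φ (ψ a) = a) (h2 : ∀ a, ψ (φ a) = a) (a : A) :
    T.τ (φ a) = T.τ a := by
  let _ : PartialOrder A := CStarAlgebra.spectralOrder A
  have : StarOrderedRing A := CStarAlgebra.spectralOrderedRing A
  set c : ℂ := T.τ a with hc
  choose y hy1 hy2 hy3 using fun k : ℕ => tu_hull T hfac a (Real.sqrt ((1 / 2) ^ k))
    (Real.sqrt_pos.2 (by positivity))
  set b : ℕ → A := fun k => y k - c • (1 : A) with hb
  have hbn : ∀ k, ‖b k‖ ≤ ‖a‖ + ‖c‖ := by
    intro k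
    refine (norm_sub_le _ _).trans (add_le_add (hy1 k) ?_)
    rw [norm_smul]
    have : ‖(1 : A)‖ ≤ 1 := CStarAlgebra.norm_le_one_iff_of_nonneg _ zero_le_one |>.2 le_rfl
    exact mul_le_of_le_one_right (norm_nonneg _) this
  have hlim := tu_normal T φ ψ h1 h2 (fun k => star (b k) * b k)
    (fun k => star_mul_self_nonneg _) ((‖a‖ + ‖c‖) * (‖a‖ + ‖c‖))
    (fun k => by
      refine (norm_mul_le _ _).trans ?_
      rw [norm_star]
      exact mul_le_mul (hbn k) (hbn k) (norm_nonneg _) (by positivity))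
    (fun k => by
      rw [← T.norm_sq]
      have h3 := pow_le_pow_left₀ (norm_nonneg _) (hy2 k).le 2
      rwa [Real.sq_sqrt (by positivity)] at h3)
  have hle : ∀ k, ‖T.τ (φ a) - c‖ ^ 2 ≤ ‖T.τ (φ (star (b k) * b k))‖ := by
    intro k
    have h3 : T.τ (φ a) - c = inner ℂ (T.ι 1) (T.ι (φ (b k))) := by
      change _ = T.τ (φ (b k))
      rw [hb]
      simp only
      rw [map_sub, T.τ_sub, hy3 k φ, map_smul, map_one, T.τ_smul, T.τ_one, mul_one]
    rw [h3]
    have h4 : ‖inner ℂ (T.ι 1) (T.ι (φ (b k)))‖ ≤ ‖T.ι (φ (b k))‖ := by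
      refine (norm_inner_le_norm _ _).trans ?_
      rw [T.norm_one, one_mul]
    refine (pow_le_pow_left₀ (norm_nonneg _) h4 2).trans ?_
    rw [T.norm_sq, map_mul, map_star]
    exact Complex.re_le_norm _
  have hfin : ‖T.τ (φ a) - c‖ ^ 2 ≤ 0 := ge_of_tendsto' hlim hle
  have h5 : ‖T.τ (φ a) - c‖ = 0 :=
    pow_eq_zero_iff two_ne_zero |>.1 (le_antisymm hfin (by positivity))
  exact sub_eq_zero.1 (norm_eq_zero.1 h5)

theorem norm_aut (hfac : ∀ x : A, (∀ y, x * y = y * x) → ∃ c : ℂ, x = c • (1 : A))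
    (φ ψ : A →⋆ₐ[ℂ] A) (h1 : ∀ a, φ (ψ a) = a) (h2 : ∀ a, ψ (φ a) = a) (a : A) :
    ‖T.ι (φ a)‖ = ‖T.ι a‖ := by
  have h : ‖T.ι (φ a)‖ ^ 2 = ‖T.ι a‖ ^ 2 := by
    rw [T.norm_sq, T.norm_sq, ← map_star, ← map_mul, trace_aut T hfac φ ψ h1 h2]
  exact (pow_left_inj₀ (norm_nonneg _) (norm_nonneg _) two_ne_zero).1 h

end

end Pool.Agent.AbCoc
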