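import Pool.Agent.Lib_MP_418a80_ab.Conc
import Pool.Agent.Lib_MP_418a80_ab.TraceUniq
import Pool.Agent.Lib_MP_418a80_ab.Cond

set_option autoImplicit false
set_option linter.unusedVariables false
set_option linter.unusedSectionVars false

open MeasureTheory Topology Filter

namespace Pool.Agent.AbCoc

universe u v w

variable {H : Type u} [NormedAddCommGroup H] [InnerProductSpace ℂ H] [CompleteSpace H]
variable {G : Type v} [Group G] [TopologicalSpace G] {M : VonNeumannAlgebra H}
  {α : G → (H →L[ℂ] H) → (H →L[ℂ] H)}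

theorem Alg.factor (hfac : ∀ x ∈ M, (∀ y ∈ M, x * y = y * x) → ∃ c : ℂ, x = c • (1 : H →L[ℂ] H))
    (x : Alg M) (h : ∀ y, x * y = y * x) : ∃ c : ℂ, x = c • (1 : Alg M) := by
  obtain ⟨c, hc⟩ := hfac x x.2 fun y hy => congrArg Subtype.val (h ⟨y, hy⟩)
  exact ⟨c, Subtype.ext hc⟩

/-- the action on the tracial algebra of a II₁ factor -/
noncomputable def actOf (ξ : ℕ → H) (h : IsTracialFamily M ξ)
    (hfac : ∀ x ∈ M, (∀ y ∈ M, x * y = y * x) → ∃ c : ℂ, x = c • (1 : H →L[ℂ] H))
    (hα : IsAction M α) : TrAct G (trAlgOf M ξ h) where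
  α := actHom hα
  one := actHom_one hα
  mul := actHom_mul hα
  norm_map := fun g a => norm_aut (trAlgOf M ξ h) (Alg.factor hfac) (actHom hα g) (actHom hα g⁻¹)
    (fun b => by rw [← actHom_mul, mul_inv_cancel, actHom_one])
    (fun b => by rw [← actHom_mul, inv_mul_cancel, actHom_one]) a
  cont := fun a => two_of_strong M ξ h (fun g => actHom hα g a) ‖a‖
    (fun g => actHom_norm_le hα g a) (fun η => act_strong hα a a.2 η)

theorem actOf_α (ξ : ℕ → H) (h : IsTracialFamily M ξ)
    (hfac : ∀ x ∈ M, (∀ y ∈ M, x * y = y * x) → ∃ c : ℂ, x = c • (1 : H →L[ℂ] H))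
    (hα : IsAction M α) (g : G) (x : Alg M) :
    (actOf ξ h hfac hα).α g x = actHom hα g x := rfl

/-- restriction of a representation to an invariant subspace -/
noncomputable def URep.restrict {K : Type w} [NormedAddCommGroup K] [InnerProductSpace ℂ K]
    (W : URep G K) (L : Submodule ℂ K) (hL : ∀ s, ∀ ξ ∈ L, W.U s ξ ∈ L) : URep G L where
  U := fun s => ((W.U s).comp L.subtypeL).codRestrict L fun ξ => hL s ξ ξ.2
  one := by
    ext1 ξ
    apply Subtype.ext
    change W.U 1 (ξ : K) = ξ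
    rw [W.one]
    rfl
  mul := by
    intro s t
    ext1 ξ
    apply Subtype.ext
    change W.U (s * t) (ξ : K) = W.U s (W.U t ξ)
    rw [W.mul]
    rfl
  inner_map := fun s ξ η => W.inner_map s ξ η
  cont := fun ξ => Continuous.subtype_mk (W.cont ξ) _

theorem URep.restrict_coe {K : Type w} [NormedAddCommGroup K] [InnerProductSpace ℂ K]
    (W : URep G K) (L : Submodule ℂ K) (hL : ∀ s, ∀ ξ ∈ L, W.U s ξ ∈ L) (s : G) (ξ : L) :
    (((W.restrict L hL).U s ξ : L) : K) = W.U s ξ := rfl

end Pool.Agent.AbCoc
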