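import Mathlib

set_option autoImplicit false
set_option linter.unusedVariables false
set_option linter.unusedSectionVars false

open Topology Filter

namespace Pool.Agent.AbCoc

universe u v

section
variable {K : Type v} [NormedAddCommGroup K] [InnerProductSpace ℂ K] [CompleteSpace K]
variable {X : Type u} (e : X → K) (f : X → ℝ)

/-- linear perturbation of `f` -/
noncomputable def bpF (z : K) (y : X) : ℝ := f y - 2 * (inner ℂ z (e y)).re

theorem bp_step (hnorm : ∀ x, ‖e x‖ = 1) (hf0 : ∀ x, 0 ≤ f x) (z : K) (x : X) (η : ℝ)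
    (hη : 0 < η) : ∃ x' : X, (∀ y, bpF e f z x' ≤ bpF e f z y + η) ∧ bpF e f z x' ≤ bpF e f z x := by
  have hbd : ∀ y, -(2 * ‖z‖) ≤ bpF e f z y := by
    intro y
    unfold bpF
    have h1 : (inner ℂ z (e y)).re ≤ ‖z‖ := by
      refine (Complex.re_le_norm _).trans ((norm_inner_le_norm _ _).trans ?_)
      rw [hnorm, mul_one]
    have := hf0 y
    linarith
  have hB : BddBelow (Set.range (bpF e f z)) := ⟨_, by rintro _ ⟨y, rfl⟩; exact hbd y⟩
  haveI : Nonempty X := ⟨x⟩
  obtain ⟨y, hy⟩ := exists_lt_of_ciInf_lt (show (⨅ y, bpF e f z y) < (⨅ y, bpF e f z y) + η by linarith)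
  by_cases h : bpF e f z y ≤ bpF e f z x
  · exact ⟨y, fun w => by have := ciInf_le hB w; linarith, h⟩
  · push Not at h
    exact ⟨x, fun w => by have := ciInf_le hB w; linarith, le_rfl⟩

/-- Borwein-Preiss smooth variational principle on a `2`-complete set of unit vectors -/
theorem exists_smooth_min (hnorm : ∀ x, ‖e x‖ = 1)
    (hcomp : ∀ s : ℕ → X, CauchySeq (fun n => e (s n)) →
      ∃ x, Tendsto (fun n => e (s n)) atTop (𝓝 (e x)))
    (hf0 : ∀ x, 0 ≤ f x)
    (hfc : ∀ (s : ℕ → X) (x : X), Tendsto (fun n => e (s n)) atTop (𝓝 (e x)) →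
      Tendsto (fun n => f (s n)) atTop (𝓝 (f x)))
    (ε : ℝ) (hε : 0 < ε) (x0 : X) :
    ∃ (x : ℕ → X) (u : X), ∀ z : K, HasSum (fun i => (ε / 2 ^ (i + 1)) • e (x i)) z →
      ∀ y, f u - 2 * (inner ℂ z (e u)).re ≤ f y - 2 * (inner ℂ z (e y)).re := by
  classical
  set m : ℕ → ℝ := fun i => ε / 2 ^ (i + 1) with hm
  have hmpos : ∀ i, 0 < m i := fun i => by positivity
  set δ : ℕ → ℝ := fun i => m i * (1 / 4 ^ i) with hδ
  have hδpos : ∀ i, 0 < δ i := fun i => by have := hmpos i; positivity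
  choose nxt hn1 hn2 using fun (z : K) (x : X) (n : ℕ) =>
    bp_step e f hnorm hf0 z x (δ n) (hδpos n)
  let s : ℕ → X × K := fun n => Nat.rec (nxt 0 x0 0, 0)
    (fun k p => (nxt (p.2 + m k • e p.1) p.1 (k + 1), p.2 + m k • e p.1)) n
  have hs : ∀ k, s (k + 1) = (nxt ((s k).2 + m k • e (s k).1) (s k).1 (k + 1),
      (s k).2 + m k • e (s k).1) := fun k => rfl
  set x : ℕ → X := fun k => (s k).1 with hx
  set z : ℕ → K := fun k => (s k).2 with hz
  have hzs : ∀ k, z (k + 1) = z k + m k • e (x k) := fun k => rfl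
  have hz0 : z 0 = 0 := rfl
  have hzsum : ∀ k, z k = ∑ i ∈ Finset.range k, m i • e (x i) := by
    intro k
    induction k with
    | zero => simp [hz0]
    | succ k ih => rw [Finset.sum_range_succ, hzs, ih]
  have hmin : ∀ k y, bpF e f (z k) (x k) ≤ bpF e f (z k) y + δ k := by
    intro k
    cases k with
    | zero => exact fun y => hn1 0 x0 0 y
    | succ k => exact fun y => hn1 _ _ (k + 1) y
  have hdec : ∀ k, bpF e f (z (k + 1)) (x (k + 1)) ≤ bpF e f (z (k + 1)) (x k) :=
    fun k => hn2 _ _ (k + 1)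
  have hrel : ∀ k y, bpF e f (z (k + 1)) y
      = bpF e f (z k) y + m k * ‖e y - e (x k)‖ ^ 2 - 2 * m k := by
    intro k y
    unfold bpF
    rw [hzs, inner_add_left]
    have e1 : m k • e (x k) = (m k : ℂ) • e (x k) := rfl
    have h2 := @norm_sub_sq ℂ K _ _ _ (e y) (e (x k))
    rw [hnorm, hnorm] at h2
    simp only [RCLike.re_to_complex] at h2
    have h3 : (inner ℂ (e y) (e (x k))).re = (inner ℂ (e (x k)) (e y)).re := by
      rw [← inner_conj_symm, Complex.conj_re]
    rw [h3] at h2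
    rw [e1, inner_smul_left, Complex.conj_ofReal, Complex.add_re, Complex.re_ofReal_mul, h2]
    ring
  have hstep : ∀ k, ‖e (x (k + 1)) - e (x k)‖ ≤ (1 / 2) ^ k := by
    intro k
    have h1 := hdec k
    rw [hrel k (x (k + 1)), hrel k (x k), sub_self, norm_zero] at h1
    have h2 := hmin k (x (k + 1))
    have h3 : m k * ‖e (x (k + 1)) - e (x k)‖ ^ 2 ≤ m k * (1 / 4 ^ k) := by
      have : δ k = m k * (1 / 4 ^ k) := rfl
      nlinarith
    have h4 : ‖e (x (k + 1)) - e (x k)‖ ^ 2 ≤ ((1 / 2 : ℝ) ^ k) ^ 2 := by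
      have h5 := le_of_mul_le_mul_left h3 (hmpos k)
      refine h5.trans (le_of_eq ?_)
      rw [← pow_mul, mul_comm k 2, pow_mul, one_div, ← inv_pow]
      norm_num
    exact (pow_le_pow_iff_left₀ (norm_nonneg _) (by positivity) two_ne_zero).1 h4
  have hcauchy : CauchySeq (fun k => e (x k)) := by
    refine cauchySeq_of_le_geometric (1 / 2) 1 (by norm_num) fun k => ?_
    rw [dist_eq_norm, norm_sub_rev, one_mul]
    exact hstep k
  obtain ⟨u, hu⟩ := hcomp x hcauchy
  refine ⟨x, u, fun Z hZ y => ?_⟩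
  have hzlim : Tendsto z atTop (𝓝 Z) := by
    have := hZ.tendsto_sum_nat
    refine this.congr fun k => ?_
    rw [hzsum k]
  have hδlim : Tendsto δ atTop (𝓝 0) := by
    have h1 : ∀ k, ‖δ k‖ ≤ ε * (1 / 2) ^ k := by
      intro k
      rw [Real.norm_eq_abs, abs_of_pos (hδpos k)]
      have h4 : (1 : ℝ) / 4 ^ k ≤ 1 := by
        rw [div_le_one (by positivity)]
        exact one_le_pow₀ (by norm_num)
      have h5 : m k ≤ ε * (1 / 2) ^ k := by
        change ε / 2 ^ (k + 1) ≤ ε * (1 / 2) ^ k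
        rw [one_div, inv_pow, ← div_eq_mul_inv]
        apply div_le_div_of_nonneg_left hε.le (by positivity)
        exact pow_le_pow_right₀ (by norm_num) (Nat.le_succ k)
      calc δ k = m k * (1 / 4 ^ k) := rfl
        _ ≤ m k * 1 := mul_le_mul_of_nonneg_left h4 (hmpos k).le
        _ ≤ _ := by rw [mul_one]; exact h5
    refine squeeze_zero_norm h1 ?_
    have := (tendsto_pow_atTop_nhds_zero_of_lt_one (r := (1 / 2 : ℝ)) (by norm_num)
      (by norm_num)).const_mul ε
    simpa using this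
  have hL : Tendsto (fun k => bpF e f (z k) (x k)) atTop (𝓝 (f u - 2 * (inner ℂ Z (e u)).re)) := by
    unfold bpF
    exact (hfc x u hu).sub (((Complex.continuous_re.tendsto _).comp
      (hzlim.inner hu)).const_mul 2)
  have hR : Tendsto (fun k => bpF e f (z k) y + δ k) atTop
      (𝓝 (f y - 2 * (inner ℂ Z (e y)).re + 0)) := by
    unfold bpF
    exact (tendsto_const_nhds.sub (((Complex.continuous_re.tendsto _).comp
      (hzlim.inner tendsto_const_nhds)).const_mul 2)).add hδlim
  rw [add_zero] at hR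
  exact le_of_tendsto_of_tendsto' hL hR fun k => hmin k y

end

end Pool.Agent.AbCoc
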