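import Pool.Agent.Lib_MP_418a80_ab.Defs

set_option autoImplicit false
set_option linter.unusedVariables false
set_option linter.unusedSectionVars false

open MeasureTheory Topology Filter

namespace Pool.Agent.AbCoc

universe u v w

variable {H : Type u} [NormedAddCommGroup H] [InnerProductSpace ℂ H] [CompleteSpace H]

theorem isClosed_centralizer (P : Set (H →L[ℂ] H)) : IsClosed (Set.centralizer P) := by
  have : Set.centralizer P = ⋂ p ∈ P, {x | p * x = x * p} := by
    ext x
    simp only [Set.mem_centralizer_iff, Set.mem_iInter, Set.mem_ofPred_eq]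
  rw [this]
  exact isClosed_biInter fun p _ => isClosed_eq (continuous_const.mul continuous_id)
    (continuous_id.mul continuous_const)

instance isClosed_vN (M : VonNeumannAlgebra H) :
    IsClosed ((M.toStarSubalgebra : StarSubalgebra ℂ (H →L[ℂ] H)) : Set (H →L[ℂ] H)) := by
  have h := M.centralizer_centralizer
  have h2 : ((M.toStarSubalgebra : StarSubalgebra ℂ (H →L[ℂ] H)) : Set (H →L[ℂ] H))
      = Set.centralizer (Set.centralizer (M : Set (H →L[ℂ] H))) := by
    rw [h]
    rfl
  rw [h2]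
  exact isClosed_centralizer _

/-- `M` as a C*-algebra -/
abbrev Alg (M : VonNeumannAlgebra H) : Type u := ↥(M.toStarSubalgebra)

noncomputable example (M : VonNeumannAlgebra H) : CStarAlgebra (Alg M) := inferInstance

theorem Alg.norm_coe {M : VonNeumannAlgebra H} (x : Alg M) : ‖x‖ = ‖(x : H →L[ℂ] H)‖ := rfl

theorem Alg.mem {M : VonNeumannAlgebra H} (x : Alg M) : (x : H →L[ℂ] H) ∈ M := x.2

variable {G : Type v} [Group G] [TopologicalSpace G] {M : VonNeumannAlgebra H}
  {α : G → (H →L[ℂ] H) → (H →L[ℂ] H)}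

/-- the `*`-homomorphism `α g` of `M` -/
noncomputable def actHom (hα : IsAction M α) (g : G) : Alg M →⋆ₐ[ℂ] Alg M where
  toFun := fun x => ⟨α g x, hα.map_mem g x x.2⟩
  map_one' := by
    apply Subtype.ext
    change α g 1 = 1
    have h1 : α g 1 * α g (α g⁻¹ 1) = α g (α g⁻¹ 1) := by
      rw [← hα.map_mul g 1 (one_mem M) _ (hα.map_mem _ _ (one_mem M)), one_mul]
    rw [← hα.mul_act g g⁻¹ 1 (one_mem M), mul_inv_cancel, hα.one_act 1 (one_mem M), mul_one] at h1
    exact h1
  map_mul' := fun x y => Subtype.ext (hα.map_mul g x x.2 y y.2)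
  map_zero' := by
    apply Subtype.ext
    change α g 0 = 0
    have := hα.map_smul g 0 0 (zero_mem M)
    rwa [zero_smul, zero_smul] at this
  map_add' := fun x y => Subtype.ext (hα.map_add g x x.2 y y.2)
  commutes' := by
    intro c
    apply Subtype.ext
    change α g (algebraMap ℂ (Alg M) c : Alg M) = _
    have h1 : ((algebraMap ℂ (Alg M) c : Alg M) : H →L[ℂ] H) = c • (1 : H →L[ℂ] H) := rfl
    have h2 : α g 1 = 1 := by
      have h1 : α g 1 * α g (α g⁻¹ 1) = α g (α g⁻¹ 1) := by
        rw [← hα.map_mul g 1 (one_mem M) _ (hα.map_mem _ _ (one_mem M)), one_mul]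
      rw [← hα.mul_act g g⁻¹ 1 (one_mem M), mul_inv_cancel, hα.one_act 1 (one_mem M),
        mul_one] at h1
      exact h1
    rw [h1, hα.map_smul g c 1 (one_mem M), h2]
  map_star' := fun x => Subtype.ext (hα.map_star g x x.2)

theorem actHom_coe (hα : IsAction M α) (g : G) (x : Alg M) :
    ((actHom hα g x : Alg M) : H →L[ℂ] H) = α g x := rfl

theorem actHom_one (hα : IsAction M α) (x : Alg M) : actHom hα 1 x = x :=
  Subtype.ext (hα.one_act x x.2)

theorem actHom_mul (hα : IsAction M α) (g h : G) (x : Alg M) :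
    actHom hα (g * h) x = actHom hα g (actHom hα h x) :=
  Subtype.ext (hα.mul_act g h x x.2)

theorem actHom_norm_le (hα : IsAction M α) (g : G) (x : Alg M) : ‖actHom hα g x‖ ≤ ‖x‖ :=
  NonUnitalStarAlgHom.norm_apply_le (actHom hα g) x

theorem act_norm_le (hα : IsAction M α) (g : G) (x : H →L[ℂ] H) (hx : x ∈ M) :
    ‖α g x‖ ≤ ‖x‖ := actHom_norm_le hα g ⟨x, hx⟩

/-- pointwise strong continuity -/
theorem act_strong (hα : IsAction M α) (x : H →L[ℂ] H) (hx : x ∈ M) (η : H) :
    Continuous fun g => α g x η := by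
  rw [continuous_iff_continuousAt]
  intro g0
  have h1 : Continuous fun g => (inner ℂ (α g0 x η) (α g x η)).re :=
    Complex.continuous_re.comp (hα.continuous_inner x hx η (α g0 x η))
  have h2 : Continuous fun g => (inner ℂ η (α g (star x * x) η)).re :=
    Complex.continuous_re.comp (hα.continuous_inner (star x * x) (mul_mem (star_mem hx) hx) η η)
  have h3 : ∀ g, ‖α g x η - α g0 x η‖ ^ 2 = (inner ℂ η (α g (star x * x) η)).re
      - 2 * (inner ℂ (α g0 x η) (α g x η)).re + ‖α g0 x η‖ ^ 2 := by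
    intro g
    have h4 : inner ℂ η (α g (star x * x) η) = inner ℂ (α g x η) (α g x η) := by
      rw [hα.map_mul g _ (star_mem hx) _ hx, hα.map_star g x hx]
      change inner ℂ η (star (α g x) (α g x η)) = _
      rw [ContinuousLinearMap.star_eq_adjoint, ContinuousLinearMap.adjoint_inner_right]
    have h5 : (inner ℂ (α g x η) (α g x η)).re = ‖α g x η‖ ^ 2 := by
      rw [inner_self_eq_norm_sq_to_K]
      norm_cast
    rw [h4, h5, @norm_sub_sq ℂ]
    simp only [RCLike.re_to_complex]
    rw [← inner_conj_symm, Complex.conj_re]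
  have h4 : Tendsto (fun g => ‖α g x η - α g0 x η‖ ^ 2) (𝓝 g0) (𝓝 0) := by
    have h5 : ContinuousAt (fun g => (inner ℂ η (α g (star x * x) η)).re
      - 2 * (inner ℂ (α g0 x η) (α g x η)).re + ‖α g0 x η‖ ^ 2) g0 :=
      ((h2.sub (h1.const_mul 2)).add continuous_const).continuousAt
    have h6 := h5.tendsto
    rw [← h3 g0, sub_self, norm_zero, zero_pow two_ne_zero] at h6
    simpa only [h3] using h6
  rw [ContinuousAt, tendsto_iff_norm_sub_tendsto_zero]
  have h5 : Tendsto (fun g => Real.sqrt (‖α g x η - α g0 x η‖ ^ 2)) (𝓝 g0) (𝓝 (Real.sqrt 0)) :=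
    (Real.continuous_sqrt.tendsto 0).comp h4
  rw [Real.sqrt_zero] at h5
  refine h5.congr fun g => ?_
  rw [Real.sqrt_sq (norm_nonneg _)]

/-- joint strong continuity -/
theorem act_joint (hα : IsAction M α) (x : H →L[ℂ] H) (hx : x ∈ M) :
    Continuous fun p : G × H => α p.1 x p.2 := by
  rw [continuous_iff_continuousAt]
  rintro ⟨g0, η0⟩
  rw [ContinuousAt, tendsto_iff_norm_sub_tendsto_zero]
  have h1 : Tendsto (fun p : G × H => ‖x‖ * ‖p.2 - η0‖ + ‖α p.1 x η0 - α g0 x η0‖)
      (𝓝 (g0, η0)) (𝓝 (‖x‖ * ‖η0 - η0‖ + ‖α g0 x η0 - α g0 x η0‖)) := by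
    refine Tendsto.add (Tendsto.const_mul _ (Tendsto.norm ?_)) (Tendsto.norm ?_)
    · exact (continuous_snd.sub continuous_const).tendsto (g0, η0)
    · exact (((act_strong hα x hx η0).comp continuous_fst).sub continuous_const).tendsto (g0, η0)
  simp only [sub_self, norm_zero, mul_zero, add_zero] at h1
  refine squeeze_zero (fun p => norm_nonneg _) (fun p => ?_) h1
  have e : α p.1 x p.2 - α g0 x η0 = α p.1 x (p.2 - η0) + (α p.1 x η0 - α g0 x η0) := by
    rw [map_sub]
    abel
  change ‖α p.1 x p.2 - α g0 x η0‖ ≤ _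
  rw [e]
  refine (norm_add_le _ _).trans (add_le_add ?_ le_rfl)
  exact ((α p.1 x).le_opNorm _).trans
    (mul_le_mul_of_nonneg_right (act_norm_le hα p.1 x hx) (norm_nonneg _))

end Pool.Agent.AbCoc
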