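import Pool.Agent.Lib_MP_418a80_ab.Cond

set_option autoImplicit false
set_option linter.unusedVariables false
set_option linter.unusedSectionVars false

open MeasureTheory Topology Filter

namespace Pool.Agent.AbCoc

universe u v w

variable {A : Type u} [CStarAlgebra A] {K : Type v} [NormedAddCommGroup K]
  [InnerProductSpace ℂ K] [CompleteSpace K]
  {G : Type w} [Group G] [TopologicalSpace G] {T : TrAlg A K}

/-- the KEY property -/
def TrAct.Key (S : TrAct G T) : Prop :=
  ∀ (J : Type) [Fintype J] (x : J → A), (∀ j, IsSelfAdjoint (x j)) → (∀ j, T.τ (x j) = 0) →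
    ∀ C : Set G, IsCompact C → ∀ ε : ℝ, 0 < ε →
      ∃ u : A, star u * u = 1 ∧ u * star u = 1 ∧ (∀ s ∈ C, ‖T.ι (S.α s u - u)‖ ≤ ε) ∧
        ∀ j, ‖T.ι (S.E (u * x j * star u))‖ ≤ ε

namespace TrAct
variable (S : TrAct G T)

/-- a `2`-dense sequence in the self-adjoint elements of trace zero -/
theorem exists_dense_seq (T : TrAlg A K) [TopologicalSpace.SeparableSpace K] :
    ∃ x : ℕ → A, (∀ j, IsSelfAdjoint (x j)) ∧ (∀ j, T.τ (x j) = 0) ∧
      ∀ y : A, IsSelfAdjoint y → T.τ y = 0 → ∀ ε : ℝ, 0 < ε → ∃ j, ‖T.ι (y - x j)‖ < ε := by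
  have : SecondCountableTopology K := UniformSpace.secondCountable_of_separable K
  let X : Set K := {k | ∃ a, IsSelfAdjoint a ∧ T.τ a = 0 ∧ T.ι a = k}
  have : Nonempty X := ⟨⟨T.ι 0, 0, IsSelfAdjoint.zero _, by
    have := T.τ_smul 0 0
    simpa using this, rfl⟩⟩
  have hs : ∀ n, ∃ a, IsSelfAdjoint a ∧ T.τ a = 0 ∧ T.ι a = (TopologicalSpace.denseSeq X n : K) :=
    fun n => (TopologicalSpace.denseSeq X n).2
  choose x h1 h2 h3 using hs
  refine ⟨x, h1, h2, ?_⟩
  intro y hy hy0 ε hε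
  obtain ⟨j, hj⟩ := (TopologicalSpace.denseRange_denseSeq X).exists_dist_lt
    (⟨T.ι y, y, hy, hy0, rfl⟩ : X) hε
  refine ⟨j, ?_⟩
  rw [map_sub, h3, ← dist_eq_norm]
  exact hj

theorem norm_unit_le (T : TrAlg A K) (u : A) (hu : star u * u = 1) : ‖u‖ ≤ 1 := by
  have : Nontrivial A := by
    refine ⟨⟨1, 0, fun h => ?_⟩⟩
    have := T.norm_one
    rw [h, map_zero, norm_zero] at this
    exact zero_ne_one this
  have h := CStarRing.norm_star_mul_self (x := u)
  rw [hu, CStarRing.norm_one] at h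
  nlinarith [norm_nonneg u]

/-- the elementary step -/
theorem step (hkey : S.Key) (x : ℕ → A) (hx : ∀ j, IsSelfAdjoint (x j))
    (hx0 : ∀ j, T.τ (x j) = 0) (C : Set G) (hC : IsCompact C) (D : Finset G) (w : A)
    (hw : star w * w = 1) (hw' : w * star w = 1) (n : ℕ) (ε : ℝ) (hε : 0 < ε) :
    ∃ (w' : A) (F : Finset G) (ρ : G → ℝ), star w' * w' = 1 ∧ w' * star w' = 1 ∧
      (∀ g, 0 ≤ ρ g) ∧ ∑ g ∈ F, ρ g = 1 ∧
      (∀ s, s ∈ C ∨ s ∈ D → ‖T.ι (star w' * S.α s w' - star w * S.α s w)‖ ≤ ε) ∧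
      ∀ j ≤ n, ‖T.ι (S.avg F ρ (w' * x j * star w'))‖ ≤ 2 * ε := by
  obtain ⟨u, hu, hu', hus, huE⟩ := hkey (Fin (n + 1)) (fun j => w * x j * star w)
    (fun j => by
      rw [isSelfAdjoint_iff, star_mul, star_mul, star_star, (hx j).star_eq, mul_assoc])
    (fun j => by
      rw [T.τ_mul_comm, ← mul_assoc, hw, one_mul, hx0])
    (C ∪ D) (hC.union D.finite_toSet.isCompact) ε hε
  obtain ⟨F, ρ, h1, h2, h3⟩ := S.exists_avg_family (Fin (n + 1))
    (fun j => (u * w) * x j * star (u * w)) (ε ^ 2) (by positivity)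
  refine ⟨u * w, F, ρ, ?_, ?_, h1, h2, ?_, ?_⟩
  · rw [star_mul, mul_assoc, ← mul_assoc (star u), hu, one_mul, hw]
  · rw [star_mul, mul_assoc, ← mul_assoc w, hw', one_mul, hu']
  · intro s hs
    have e : star (u * w) * S.α s (u * w) - star w * S.α s w
        = star w * ((star u * (S.α s u - u)) * S.α s w) := by
      rw [star_mul, map_mul, mul_sub, hu]
      noncomm_ring
    rw [e, T.norm_unitary_mul (star w) (by rw [star_star]; exact hw')]
    have hαw : S.α s w * star (S.α s w) = 1 := by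
      rw [← map_star, ← map_mul, hw', map_one]
    rw [T.norm_mul_unitary _ hαw, T.norm_unitary_mul (star u) (by rw [star_star]; exact hu')]
    exact hus s hs
  · intro j hj
    have h4 : ‖T.ι (S.avg F ρ ((u * w) * x j * star (u * w))
        - S.E ((u * w) * x j * star (u * w)))‖ ≤ ε := by
      have h5 := (Finset.single_le_sum (f := fun j : Fin (n + 1) =>
        ‖T.ι (S.avg F ρ ((u * w) * x j * star (u * w)) - S.E ((u * w) * x j * star (u * w)))‖ ^ 2)
        (fun j _ => by positivity) (Finset.mem_univ (⟨j, by omega⟩ : Fin (n + 1)))).trans h3.le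
      exact abs_le_of_sq_le_sq' h5 hε.le |>.2
    have h6 : ‖T.ι (S.E ((u * w) * x j * star (u * w)))‖ ≤ ε := by
      have := huE ⟨j, by omega⟩
      have e : (u * w) * x j * star (u * w) = u * (w * x j * star w) * star u := by
        rw [star_mul]
        noncomm_ring
      rw [e]
      exact this
    have e : T.ι (S.avg F ρ ((u * w) * x j * star (u * w)))
        = T.ι (S.avg F ρ ((u * w) * x j * star (u * w)) - S.E ((u * w) * x j * star (u * w)))
          + T.ι (S.E ((u * w) * x j * star (u * w))) := by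
      rw [← map_add, sub_add_cancel]
    rw [e]
    refine (norm_add_le _ _).trans ?_
    linarith

/-- the sequence -/
theorem exists_seq (hkey : S.Key) (x : ℕ → A) (hx : ∀ j, IsSelfAdjoint (x j))
    (hx0 : ∀ j, T.τ (x j) = 0) (C : ℕ → Set G) (hC : ∀ n, IsCompact (C n)) :
    ∃ (w : ℕ → A) (D : ℕ → Finset G) (F : ℕ → Finset G) (ρ : ℕ → G → ℝ),
      (∀ n, star (w n) * w n = 1) ∧ (∀ n, w n * star (w n) = 1) ∧
      (∀ n, F n ⊆ D (n + 1)) ∧ (∀ n, D n ⊆ D (n + 1)) ∧
      (∀ n g, 0 ≤ ρ n g) ∧ (∀ n, ∑ g ∈ F n, ρ n g = 1) ∧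
      (∀ n s, s ∈ C n ∨ s ∈ D n →
        ‖T.ι (star (w (n + 1)) * S.α s (w (n + 1)) - star (w n) * S.α s (w n))‖ ≤ (1 / 2) ^ n) ∧
      ∀ n, ∀ j ≤ n, ‖T.ι (S.avg (F n) (ρ n) (w (n + 1) * x j * star (w (n + 1))))‖
        ≤ 2 * (1 / 2) ^ n := by
  classical
  let St := {p : A × Finset G // star p.1 * p.1 = 1 ∧ p.1 * star p.1 = 1}
  have h : ∀ (n : ℕ) (p : St), _ := fun n p =>
    S.step hkey x hx hx0 (C n) (hC n) p.1.2 p.1.1 p.2.1 p.2.2 n ((1 / 2) ^ n) (by positivity)
  choose f F ρ h1 h2 h3 h4 h5 h6 using h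
  let p0 : St := ⟨(1, ∅), by simp, by simp⟩
  let P : ℕ → St := fun n => Nat.rec p0
    (fun n p => ⟨(f n p, p.1.2 ∪ F n p), h1 n p, h2 n p⟩) n
  have hP : ∀ n, P (n + 1) = ⟨(f n (P n), (P n).1.2 ∪ F n (P n)), h1 n (P n), h2 n (P n)⟩ :=
    fun n => rfl
  refine ⟨fun n => (P n).1.1, fun n => (P n).1.2, fun n => F n (P n), fun n => ρ n (P n),
    fun n => (P n).2.1, fun n => (P n).2.2, ?_, ?_, fun n => h3 n (P n), fun n => h4 n (P n),
    ?_, ?_⟩
  · intro n
    change F n (P n) ⊆ (P n).1.2 ∪ F n (P n)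
    exact Finset.subset_union_right
  · intro n
    change (P n).1.2 ⊆ (P n).1.2 ∪ F n (P n)
    exact Finset.subset_union_left
  · intro n s hs
    exact h5 n (P n) s hs
  · intro n j hj
    exact h6 n (P n) j hj

theorem norm_unit_le' (T : TrAlg A K) (u : A) (hu : star u * u = 1) : ‖star u‖ ≤ 1 := by
  rw [norm_star]
  exact norm_unit_le T u hu

/-- continuity of `g ↦ c α_g(a)` in the `2`-norm -/
theorem cont_mul (c a : A) : Continuous fun g => T.ι (c * S.α g a) := by
  rw [continuous_iff_continuousAt]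
  intro g
  have h1 : Tendsto (fun g' => T.ι (S.α g' a)) (𝓝 g) (𝓝 (T.ι (S.α g a))) := (S.cont a).continuousAt
  change Tendsto (fun g' => T.ι (c * S.α g' a)) (𝓝 g) (𝓝 (T.ι (c * S.α g a)))
  rw [tendsto_iff_norm_sub_tendsto_zero] at h1 ⊢
  have h2 := h1.const_mul ‖c‖
  rw [mul_zero] at h2
  refine squeeze_zero (fun _ => norm_nonneg _) (fun g' => ?_) h2
  rw [← map_sub, ← map_sub, ← mul_sub]
  exact T.mul_le _ _

theorem tendsto_α {x : ℕ → A} {y : A} (g : G)
    (h : Tendsto (fun n => T.ι (x n)) atTop (𝓝 (T.ι y))) :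
    Tendsto (fun n => T.ι (S.α g (x n))) atTop (𝓝 (T.ι (S.α g y))) := by
  rw [tendsto_iff_norm_sub_tendsto_zero] at h ⊢
  refine h.congr fun n => ?_
  rw [← map_sub, ← map_sub, ← map_sub, S.norm_map]

/-- the approximating cocycles -/
noncomputable def zc (w : A) (g : G) : A := star w * S.α g w

theorem zc_unitary {w : A} (hw : star w * w = 1) (hw' : w * star w = 1) (g : G) :
    star (S.zc w g) * S.zc w g = 1 := by
  have h1 : star (S.α g w) * S.α g w = 1 := by rw [← map_star, ← map_mul, hw, map_one]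
  unfold zc
  rw [star_mul, star_star, mul_assoc, ← mul_assoc w, hw', one_mul, h1]

theorem zc_unitary' {w : A} (hw : star w * w = 1) (hw' : w * star w = 1) (g : G) :
    S.zc w g * star (S.zc w g) = 1 := by
  have h1 : S.α g w * star (S.α g w) = 1 := by rw [← map_star, ← map_mul, hw', map_one]
  unfold zc
  rw [star_mul, star_star, mul_assoc, ← mul_assoc (S.α g w), h1, one_mul, hw]

theorem zc_mul {w : A} (hw' : w * star w = 1) (g h : G) :
    S.zc w (g * h) = S.zc w g * S.α g (S.zc w h) := by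
  have h1 : S.α g w * S.α g (star w) = 1 := by rw [← map_mul, hw', map_one]
  unfold zc
  rw [map_mul, mul_assoc (star w), ← mul_assoc (S.α g w), h1, one_mul, S.mul]

/-- conjugated averages -/
theorem avg_conj (F : Finset G) (ρ : G → ℝ) {w : A} (hw : star w * w = 1)
    (hw' : w * star w = 1) (x : A) :
    ∑ g ∈ F, ρ g • (S.zc w g * S.α g x * star (S.zc w g))
      = star w * S.avg F ρ (w * x * star w) * w := by
  unfold avg zc
  rw [Finset.mul_sum, Finset.sum_mul]
  refine Finset.sum_congr rfl fun g _ => ?_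
  rw [mul_smul_comm, smul_mul_assoc]
  congr 1
  rw [star_mul, star_star, map_mul, map_mul, map_star]
  noncomm_ring

/-- norm of a weighted sum -/
theorem norm_sum_le' (T : TrAlg A K) (F : Finset G) (ρ : G → ℝ) (h0 : ∀ g, 0 ≤ ρ g)
    (h1 : ∑ g ∈ F, ρ g = 1) (a : G → A) (c : ℝ) (h : ∀ g ∈ F, ‖T.ι (a g)‖ ≤ c) :
    ‖T.ι (∑ g ∈ F, ρ g • a g)‖ ≤ c := by
  rw [map_sum]
  calc ‖∑ g ∈ F, T.ι (ρ g • a g)‖ ≤ ∑ g ∈ F, ‖T.ι (ρ g • a g)‖ := norm_sum_le _ _
    _ ≤ ∑ g ∈ F, ρ g * c := by
        refine Finset.sum_le_sum fun g hg => ?_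
        have e : ρ g • a g = (ρ g : ℂ) • a g := rfl
        rw [e, map_smul, norm_smul, Complex.norm_real, Real.norm_eq_abs, abs_of_nonneg (h0 g)]
        exact mul_le_mul_of_nonneg_left (h g hg) (h0 g)
    _ = c := by rw [← Finset.sum_mul, h1, one_mul]

/-- conjugation by nearby unitaries -/
theorem conj_sub_le (T : TrAlg A K) (u z a : A) (hu : star u * u = 1) (hz : star z * z = 1) :
    ‖T.ι (u * a * star u - z * a * star z)‖ ≤ 2 * ‖a‖ * ‖T.ι z - T.ι u‖ := by
  have e : u * a * star u - z * a * star z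
      = (u - z) * (a * star u) + (z * a) * star (u - z) := by
    rw [star_sub]
    noncomm_ring
  have h1 : ‖a * star u‖ ≤ ‖a‖ := (norm_mul_le _ _).trans
    (mul_le_of_le_one_right (norm_nonneg _) (norm_unit_le' T u hu))
  have h2 : ‖z * a‖ ≤ ‖a‖ := (norm_mul_le _ _).trans
    (mul_le_of_le_one_left (norm_nonneg _) (norm_unit_le T z hz))
  have h3 : ‖T.ι (u - z)‖ = ‖T.ι z - T.ι u‖ := by rw [map_sub, norm_sub_rev]
  rw [e, map_add]
  refine (norm_add_le _ _).trans ?_
  have h4 : ‖T.ι ((u - z) * (a * star u))‖ ≤ ‖T.ι z - T.ι u‖ * ‖a‖ := by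
    refine (T.mul_le' _ _).trans ?_
    rw [h3]
    exact mul_le_mul_of_nonneg_left h1 (norm_nonneg _)
  have h5 : ‖T.ι ((z * a) * star (u - z))‖ ≤ ‖a‖ * ‖T.ι z - T.ι u‖ := by
    refine (T.mul_le _ _).trans ?_
    rw [T.norm_star, h3]
    exact mul_le_mul_of_nonneg_right h2 (norm_nonneg _)
  linarith

/-- W13: an ergodic cocycle perturbation from KEY -/
theorem exists_cocycle (S : TrAct G T) [IsTopologicalGroup G] [LocallyCompactSpace G]
    [SecondCountableTopology G] [TopologicalSpace.SeparableSpace K] (hkey : S.Key) :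
    ∃ v : G → A, (∀ g, star (v g) * v g = 1 ∧ v g * star (v g) = 1) ∧
      (∀ g h, v (g * h) = v g * S.α g (v h)) ∧ (Continuous fun g => T.ι (v g)) ∧
      ∀ x : A, (∀ g, v g * S.α g x * star (v g) = x) → ∃ c : ℂ, x = c • (1 : A) := by
  classical
  obtain ⟨x, hx, hx0, hdense⟩ := exists_dense_seq T
  let Ex : CompactExhaustion G := default
  obtain ⟨w, D, F, ρ, hw, hw', hFD, hDD, hρ0, hρ1, hstep, havg⟩ :=
    S.exists_seq hkey x hx hx0 Ex Ex.isCompact
  -- monotonicity
  have hD : Monotone D := monotone_nat_of_le_succ hDD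
  have hE : ∀ {m n : ℕ}, m ≤ n → Ex m ⊆ Ex n := fun h => Ex.subset h
  -- geometric estimate
  have hz : ∀ N g, (g ∈ Ex N ∨ g ∈ D N) → ∀ n,
      dist (T.ι (S.zc (w (N + n)) g)) (T.ι (S.zc (w (N + (n + 1))) g))
        ≤ (2 * (1 / 2) ^ N) / 2 / 2 ^ n := by
    intro N g hg n
    have h1 := hstep (N + n) g (hg.imp (fun h => hE (Nat.le_add_right _ _) h)
      (fun h => hD (Nat.le_add_right _ _) h))
    rw [dist_comm, dist_eq_norm, ← map_sub]
    refine h1.trans (le_of_eq ?_)
    rw [pow_add]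
    field_simp
    rw [← mul_pow]
    norm_num
  have hlim : ∀ g, ∃ y, Tendsto (fun n => T.ι (S.zc (w n) g)) atTop (𝓝 (T.ι y)) := by
    intro g
    obtain ⟨N, hN⟩ : ∃ N, g ∈ Ex N := by
      have : g ∈ ⋃ n, Ex n := by rw [Ex.iUnion_eq]; trivial
      simpa using this
    have hc : CauchySeq fun n => T.ι (S.zc (w (N + n)) g) :=
      cauchySeq_of_le_geometric_two (hz N g (Or.inl hN))
    obtain ⟨y, hy⟩ := T.complete 1 (fun n => S.zc (w (N + n)) g) (fun n =>
      norm_unit_le T _ (S.zc_unitary (hw _) (hw' _) g)) hc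
    refine ⟨y, ?_⟩
    have h2 : Tendsto (fun n => T.ι (S.zc (w (n + N)) g)) atTop (𝓝 (T.ι y)) := by
      simpa only [add_comm] using hy
    exact (tendsto_add_atTop_iff_nat N).1 h2
  choose v hv using hlim
  have hdist : ∀ N g, (g ∈ Ex N ∨ g ∈ D N) →
      ‖T.ι (S.zc (w N) g) - T.ι (v g)‖ ≤ 2 * (1 / 2) ^ N := by
    intro N g hg
    have h2 : Tendsto (fun n => T.ι (S.zc (w (N + n)) g)) atTop (𝓝 (T.ι (v g))) := by
      have := (tendsto_add_atTop_iff_nat N).2 (hv g)
      simpa only [add_comm] using this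
    have := dist_le_of_le_geometric_two_of_tendsto₀ (hz N g hg) h2
    rw [dist_eq_norm] at this
    simpa using this
  have hvu : ∀ g, star (v g) * v g = 1 := by
    intro g
    have h1 := T.tendsto_mul 1 (fun n => norm_unit_le' T _ (S.zc_unitary (hw n) (hw' n) g))
      (T.tendsto_star (hv g)) (hv g)
    have h2 : Tendsto (fun n : ℕ => T.ι (star (S.zc (w n) g) * S.zc (w n) g)) atTop
        (𝓝 (T.ι 1)) := by
      simp only [S.zc_unitary (hw _) (hw' _) g]
      exact tendsto_const_nhds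
    exact T.tendsto_unique h1 h2
  have hvu' : ∀ g, v g * star (v g) = 1 := by
    intro g
    have h1 := T.tendsto_mul 1 (fun n => norm_unit_le T _ (S.zc_unitary (hw n) (hw' n) g))
      (hv g) (T.tendsto_star (hv g))
    have h2 : Tendsto (fun n : ℕ => T.ι (S.zc (w n) g * star (S.zc (w n) g))) atTop
        (𝓝 (T.ι 1)) := by
      simp only [S.zc_unitary' (hw _) (hw' _) g]
      exact tendsto_const_nhds
    exact T.tendsto_unique h1 h2
  have hcoc : ∀ g h, v (g * h) = v g * S.α g (v h) := by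
    intro g h
    have h1 := T.tendsto_mul 1 (fun n => norm_unit_le T _ (S.zc_unitary (hw n) (hw' n) g))
      (hv g) (S.tendsto_α g (hv h))
    have h2 := hv (g * h)
    simp only [S.zc_mul (hw' _)] at h2
    exact T.tendsto_unique h2 h1
  have hcont : Continuous fun g => T.ι (v g) := by
    refine continuous_of_locally_uniform_approx_of_continuousAt fun g V hV => ?_
    obtain ⟨ε, hε, hV⟩ := Metric.mem_uniformity_dist.1 hV
    obtain ⟨N, hN⟩ : ∃ N, g ∈ interior (Ex N) := by
      have : g ∈ ⋃ n, Ex n := by rw [Ex.iUnion_eq]; trivial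
      obtain ⟨n, hn⟩ := Set.mem_iUnion.1 this
      exact ⟨n + 1, Ex.subset_interior_succ n hn⟩
    obtain ⟨M, hM⟩ : ∃ M : ℕ, 2 * (1 / 2 : ℝ) ^ M < ε := by
      obtain ⟨M, hM⟩ := exists_pow_lt_of_lt_one (show 0 < ε / 2 by positivity)
        (show (1 / 2 : ℝ) < 1 by norm_num)
      exact ⟨M, by linarith⟩
    refine ⟨interior (Ex N), isOpen_interior.mem_nhds hN, fun g => T.ι (S.zc (w (max N M)) g),
      (S.cont_mul _ _).continuousAt, fun y hy => hV ?_⟩
    rw [dist_comm, dist_eq_norm]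
    refine (hdist (max N M) y (Or.inl (hE (le_max_left _ _) (interior_subset hy)))).trans_lt ?_
    refine lt_of_le_of_lt ?_ hM
    have : (1 / 2 : ℝ) ^ (max N M) ≤ (1 / 2) ^ M :=
      pow_le_pow_of_le_one (by norm_num) (by norm_num) (le_max_right _ _)
    linarith
  -- ergodicity for self-adjoint elements of trace zero
  have herg : ∀ y : A, IsSelfAdjoint y → T.τ y = 0 →
      (∀ g, v g * S.α g y * star (v g) = y) → y = 0 := by
    intro y hy hy0 hfix
    have hsmall : ∀ ε : ℝ, 0 < ε → ‖T.ι y‖ ≤ ε := by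
      intro ε hε
      obtain ⟨j, hj⟩ := hdense y hy hy0 (ε / 2) (by positivity)
      obtain ⟨M, hM⟩ := exists_pow_lt_of_lt_one
        (show 0 < ε / (2 * (2 + 2 * ‖x j‖)) by positivity)
        (show (1 / 2 : ℝ) < 1 by norm_num)
      have hmj : j ≤ max j M := le_max_left _ _
      obtain ⟨m, hm⟩ : ∃ m, m = max j M := ⟨_, rfl⟩
      rw [← hm] at hmj
      have hpm : (1 / 2 : ℝ) ^ m ≤ (1 / 2) ^ M := by
        rw [hm]
        exact pow_le_pow_of_le_one (by norm_num) (by norm_num) (le_max_right _ _)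
      have hsum : y = ∑ g ∈ F m, ρ m g • (v g * S.α g y * star (v g)) := by
        simp only [hfix]
        rw [← Finset.sum_smul, hρ1, one_smul]
      have hsplit : y = ∑ g ∈ F m, ρ m g • (v g * S.α g (y - x j) * star (v g))
          + (∑ g ∈ F m, ρ m g • (v g * S.α g (x j) * star (v g)
              - S.zc (w (m + 1)) g * S.α g (x j) * star (S.zc (w (m + 1)) g))
            + ∑ g ∈ F m, ρ m g • (S.zc (w (m + 1)) g * S.α g (x j)
                * star (S.zc (w (m + 1)) g))) := by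
        rw [← Finset.sum_add_distrib, ← Finset.sum_add_distrib]
        refine hsum.trans (Finset.sum_congr rfl fun g _ => ?_)
        rw [← smul_add, ← smul_add]
        congr 1
        rw [map_sub]
        noncomm_ring
      have b1 : ‖T.ι (∑ g ∈ F m, ρ m g • (v g * S.α g (y - x j) * star (v g)))‖ ≤ ε / 2 := by
        refine norm_sum_le' T _ _ (hρ0 m) (hρ1 m) _ _ fun g _ => ?_
        rw [T.norm_mul_unitary (star (v g)) (by rw [star_star]; exact hvu g),
          T.norm_unitary_mul _ (hvu g), S.norm_map]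
        exact hj.le
      have b2 : ‖T.ι (∑ g ∈ F m, ρ m g • (v g * S.α g (x j) * star (v g)
          - S.zc (w (m + 1)) g * S.α g (x j) * star (S.zc (w (m + 1)) g)))‖
          ≤ 2 * ‖x j‖ * (1 / 2) ^ m := by
        refine norm_sum_le' T _ _ (hρ0 m) (hρ1 m) _ _ fun g hg => ?_
        refine (conj_sub_le T _ _ _ (hvu g) (S.zc_unitary (hw _) (hw' _) g)).trans ?_
        have h7 := hdist (m + 1) g (Or.inr (hFD m hg))
        have h8 : 2 * (1 / 2 : ℝ) ^ (m + 1) = (1 / 2) ^ m := by rw [pow_succ]; ring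
        rw [h8] at h7
        have h9 := S.norm_le g (x j)
        gcongr
      have b3 : ‖T.ι (∑ g ∈ F m, ρ m g • (S.zc (w (m + 1)) g * S.α g (x j)
          * star (S.zc (w (m + 1)) g)))‖ ≤ 2 * (1 / 2) ^ m := by
        rw [S.avg_conj _ _ (hw _) (hw' _), T.norm_mul_unitary _ (hw' _),
          T.norm_unitary_mul _ (by rw [star_star]; exact hw' _)]
        exact havg m j hmj
      have hb : ‖T.ι y‖ ≤ ε / 2 + (2 * ‖x j‖ * (1 / 2) ^ m + 2 * (1 / 2) ^ m) := by
        rw [hsplit, map_add, map_add]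
        exact (norm_add_le _ _).trans (add_le_add b1 ((norm_add_le _ _).trans (add_le_add b2 b3)))
      have hc : (2 + 2 * ‖x j‖) * (1 / 2 : ℝ) ^ M ≤ ε / 2 := by
        have h10 : (2 + 2 * ‖x j‖) * (1 / 2 : ℝ) ^ M
            ≤ (2 + 2 * ‖x j‖) * (ε / (2 * (2 + 2 * ‖x j‖))) :=
          mul_le_mul_of_nonneg_left hM.le (by positivity)
        refine h10.trans (le_of_eq ?_)
        field_simp
      have hd : (2 + 2 * ‖x j‖) * (1 / 2 : ℝ) ^ m ≤ (2 + 2 * ‖x j‖) * (1 / 2 : ℝ) ^ M :=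
        mul_le_mul_of_nonneg_left hpm (by positivity)
      linarith
    have h0 : ‖T.ι y‖ = 0 := le_antisymm (le_of_forall_pos_le_add fun ε hε => by
      rw [zero_add]; exact hsmall ε hε) (norm_nonneg _)
    refine T.inj ?_
    rw [map_zero]
    exact norm_eq_zero.1 h0
  refine ⟨v, fun g => ⟨hvu g, hvu' g⟩, hcoc, hcont, ?_⟩
  intro y hfix
  -- self-adjoint fixed points are scalars
  have hsa : ∀ b : A, IsSelfAdjoint b → (∀ g, v g * S.α g b * star (v g) = b) →
      b = T.τ b • (1 : A) := by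
    intro b hb hbf
    have hre : (starRingEnd ℂ) (T.τ b) = T.τ b := by
      rw [← T.τ_star, hb.star_eq]
    have h1 := herg (b - T.τ b • (1 : A)) (by
        rw [isSelfAdjoint_iff, star_sub, hb.star_eq, star_smul, star_one]
        rw [show star (T.τ b) = T.τ b from hre])
      (by rw [T.τ_sub, T.τ_smul, T.τ_one, mul_one, sub_self])
      (fun g => by
        rw [map_sub, map_smul, map_one, mul_sub, sub_mul, hbf g, mul_smul_comm, mul_one,
          smul_mul_assoc, hvu' g])
    exact sub_eq_zero.1 h1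
  have hstar : ∀ g, v g * S.α g (star y) * star (v g) = star y := by
    intro g
    have := congrArg star (hfix g)
    rw [star_mul, star_mul, star_star, ← map_star] at this
    rw [mul_assoc]
    exact this
  have h1 := hsa (y + star y) (by rw [isSelfAdjoint_iff, star_add, star_star, add_comm])
    (fun g => by rw [map_add, mul_add, add_mul, hfix g, hstar g])
  have h2 := hsa (Complex.I • (y - star y)) (by
      rw [isSelfAdjoint_iff, star_smul, star_sub, star_star, ← neg_sub y (star y), smul_neg]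
      simp)
    (fun g => by
      rw [map_smul, map_sub, mul_smul_comm, smul_mul_assoc, mul_sub, sub_mul, hfix g, hstar g])
  refine ⟨(1 / 2) * (T.τ (y + star y) - Complex.I * T.τ (Complex.I • (y - star y))), ?_⟩
  have h3 : (1 / 2 : ℂ) • ((y + star y) - Complex.I • (Complex.I • (y - star y))) = y := by
    rw [smul_smul, Complex.I_mul_I, neg_one_smul, sub_neg_eq_add]
    have : y + star y + (y - star y) = (2 : ℂ) • y := by
      rw [two_smul]
      abel
    rw [this, smul_smul]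
    norm_num
  conv_lhs => rw [← h3]
  rw [mul_smul, sub_smul, mul_smul, ← h1, ← h2]

end TrAct

end Pool.Agent.AbCoc
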