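import Mathlib

set_option autoImplicit false

namespace Pool.Agent.AbCoc

universe u v w

section
variable {E : Type v} [NormedAddCommGroup E] [InnerProductSpace ℂ E] [CompleteSpace E]

/-- W4a: the projection onto a closed subspace invariant under a self-adjoint set commutes
with it -/
theorem proj_commute (Z : Submodule ℂ E) [Z.HasOrthogonalProjection] (P : Set (E →L[ℂ] E))
    (hstar : ∀ p ∈ P, star p ∈ P) (hinv : ∀ p ∈ P, ∀ ξ ∈ Z, p ξ ∈ Z) :
    Z.starProjection ∈ Set.centralizer P := by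
  rw [Set.mem_centralizer_iff]
  intro p hp
  ext v
  simp only [ContinuousLinearMap.mul_apply]
  have h1 : p (Z.starProjection v) ∈ Z := hinv p hp _ (Z.starProjection_apply_mem v)
  have h2 : p (v - Z.starProjection v) ∈ Zᗮ := by
    rw [Submodule.mem_orthogonal]
    intro z hz
    have h3 : inner ℂ z (p (v - Z.starProjection v))
        = inner ℂ ((star p) z) (v - Z.starProjection v) := by
      rw [ContinuousLinearMap.star_eq_adjoint, ContinuousLinearMap.adjoint_inner_left]
    rw [h3]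
    have h4 : (star p) z ∈ Z := hinv _ (hstar p hp) z hz
    exact (Submodule.mem_orthogonal Z _).1 (Z.sub_starProjection_mem_orthogonal v) _ h4
  have h5 : p v = p (Z.starProjection v) + p (v - Z.starProjection v) := by
    rw [← map_add]
    congr 1
    abel
  have h6 : Z.starProjection (p (Z.starProjection v)) = p (Z.starProjection v) :=
    Submodule.starProjection_eq_self_iff.2 h1
  have h7 : Z.starProjection (p (v - Z.starProjection v)) = 0 :=
    Z.starProjection_apply_eq_zero_iff.2 h2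
  rw [h5, map_add, h6, h7, add_zero]

/-- W4b: factor argument -/
theorem factor_argument (P L : Set (E →L[ℂ] E)) (hP1 : 1 ∈ P)
    (hPmul : ∀ p ∈ P, ∀ q ∈ P, p * q ∈ P) (hPstar : ∀ p ∈ P, star p ∈ P) (hL1 : 1 ∈ L)
    (hLmul : ∀ l ∈ L, ∀ k ∈ L, l * k ∈ L) (hLstar : ∀ l ∈ L, star l ∈ L)
    (hLP : ∀ l ∈ L, ∀ p ∈ P, ∃ q ∈ P, l * p = q * l)
    (hfac : ∀ T ∈ Set.centralizer (Set.centralizer (P ∪ L)),
      (∀ S ∈ Set.centralizer (Set.centralizer (P ∪ L)), T * S = S * T) →
        ∃ c : ℂ, T = c • (1 : E →L[ℂ] E))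
    (B1 B2 k1 k2 : E →L[ℂ] E) (hB1 : B1 ∈ P) (hB2 : B2 ∈ P)
    (hB2L : ∀ l ∈ L, l * B2 = B2 * l) (hk2L : ∀ l ∈ L, l * k2 = k2 * l)
    (hkB : k2 * B2 = B2 * k2)
    (hk2 : k2 ∈ Set.centralizer (Set.centralizer (P ∪ L)))
    (h1 : k1 * B1 ≠ 0) (h2 : k2 * B2 ≠ 0) :
    ∃ p ∈ P, k1 * (B1 * p * B2) * k2 ≠ 0 := by
  by_contra hcon
  push Not at hcon
  let gen : Set E := {x | ∃ p ∈ P, ∃ l ∈ L, ∃ ξ : E, x = (p * l * (k2 * B2)) ξ}
  let Z : Submodule ℂ E := (Submodule.span ℂ gen).topologicalClosure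
  have hZc : IsClosed (Z : Set E) := (Submodule.span ℂ gen).isClosed_topologicalClosure
  haveI : CompleteSpace Z := hZc.completeSpace_coe
  have hinv : ∀ T : E →L[ℂ] E, (∀ x ∈ gen, T x ∈ gen) → ∀ ξ ∈ Z, T ξ ∈ Z := by
    intro T hT
    have hspan : ∀ ξ ∈ Submodule.span ℂ gen, T ξ ∈ Submodule.span ℂ gen := by
      intro ξ hξ
      induction hξ using Submodule.span_induction with
      | mem x hx => exact Submodule.subset_span (hT x hx)
      | zero => rw [map_zero]; exact Submodule.zero_mem _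
      | add x y _ _ hx hy => rw [map_add]; exact Submodule.add_mem _ hx hy
      | smul a x _ hx => rw [map_smul]; exact Submodule.smul_mem _ a hx
    intro ξ hξ
    have h3 : Set.MapsTo T (Submodule.span ℂ gen : Set E) (Submodule.span ℂ gen : Set E) :=
      fun ξ hξ => hspan ξ hξ
    exact h3.closure T.continuous hξ
  have hPinv : ∀ p ∈ P, ∀ ξ ∈ Z, p ξ ∈ Z := by
    intro p hp
    apply hinv
    rintro x ⟨q, hq, l, hl, ξ, rfl⟩
    exact ⟨p * q, hPmul p hp q hq, l, hl, ξ, by simp [ContinuousLinearMap.mul_apply]⟩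
  have hLinv : ∀ l ∈ L, ∀ ξ ∈ Z, l ξ ∈ Z := by
    intro k hk
    apply hinv
    rintro x ⟨q, hq, l, hl, ξ, rfl⟩
    obtain ⟨q', hq', he⟩ := hLP k hk q hq
    refine ⟨q', hq', k * l, hLmul k hk l hl, ξ, ?_⟩
    have : k * (q * l * (k2 * B2)) = q' * (k * l) * (k2 * B2) := by
      calc k * (q * l * (k2 * B2)) = (k * q) * l * (k2 * B2) := by simp only [mul_assoc]
        _ = (q' * k) * l * (k2 * B2) := by rw [he]
        _ = q' * (k * l) * (k2 * B2) := by simp only [mul_assoc]
    rw [← ContinuousLinearMap.mul_apply, this]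
  have hCinv : ∀ S ∈ Set.centralizer (P ∪ L), ∀ ξ ∈ Z, S ξ ∈ Z := by
    intro S hS
    apply hinv
    rintro x ⟨q, hq, l, hl, ξ, rfl⟩
    have e1 : q * S = S * q := Set.mem_centralizer_iff.1 hS q (Or.inl hq)
    have e2 : l * S = S * l := Set.mem_centralizer_iff.1 hS l (Or.inr hl)
    have e3 : S * k2 = k2 * S := Set.mem_centralizer_iff.1 hk2 S hS
    have e4 : B2 * S = S * B2 := Set.mem_centralizer_iff.1 hS B2 (Or.inl hB2)
    refine ⟨q, hq, l, hl, S ξ, ?_⟩
    have : S * (q * l * (k2 * B2)) = q * l * (k2 * B2) * S := by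
      calc S * (q * l * (k2 * B2)) = (S * q) * l * (k2 * B2) := by simp only [mul_assoc]
        _ = (q * S) * l * (k2 * B2) := by rw [e1]
        _ = q * (S * l) * (k2 * B2) := by simp only [mul_assoc]
        _ = q * (l * S) * (k2 * B2) := by rw [e2]
        _ = q * l * (S * k2) * B2 := by simp only [mul_assoc]
        _ = q * l * (k2 * S) * B2 := by rw [e3]
        _ = q * l * k2 * (S * B2) := by simp only [mul_assoc]
        _ = q * l * k2 * (B2 * S) := by rw [e4]
        _ = q * l * (k2 * B2) * S := by simp only [mul_assoc]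
    rw [← ContinuousLinearMap.mul_apply, this, ContinuousLinearMap.mul_apply]
  have hstarC : ∀ S ∈ Set.centralizer (P ∪ L), star S ∈ Set.centralizer (P ∪ L) := by
    intro S hS
    rw [Set.mem_centralizer_iff]
    intro m hm
    have hm' : star m ∈ P ∪ L := by
      rcases hm with hm | hm
      · exact Or.inl (hPstar m hm)
      · exact Or.inr (hLstar m hm)
    have e : star m * S = S * star m := Set.mem_centralizer_iff.1 hS _ hm'
    have e' := congrArg star e
    rw [star_mul, star_mul, star_star] at e'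
    exact e'.symm
  have hT1 : Z.starProjection ∈ Set.centralizer (P ∪ L) := by
    apply proj_commute Z (P ∪ L)
    · intro p hp
      rcases hp with hp | hp
      · exact Or.inl (hPstar p hp)
      · exact Or.inr (hLstar p hp)
    · intro p hp
      rcases hp with hp | hp
      · exact hPinv p hp
      · exact hLinv p hp
  have hT2 : Z.starProjection ∈ Set.centralizer (Set.centralizer (P ∪ L)) :=
    proj_commute Z _ hstarC hCinv
  obtain ⟨c, hc⟩ := hfac Z.starProjection hT2 (by
    intro S hS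
    exact Set.mem_centralizer_iff.1 hS _ hT1)
  have hgenZ : ∀ x ∈ gen, x ∈ Z := fun x hx =>
    Submodule.le_topologicalClosure _ (Submodule.subset_span hx)
  have hex : ∃ ξ : E, (k2 * B2) ξ ≠ 0 := by
    by_contra hno
    push Not at hno
    exact h2 (by ext ξ; simpa using hno ξ)
  obtain ⟨ξ0, hξ0⟩ := hex
  have hz0 : (k2 * B2) ξ0 ∈ Z := hgenZ _ ⟨1, hP1, 1, hL1, ξ0, by simp⟩
  have hc1 : c = 1 := by
    have e1 : Z.starProjection ((k2 * B2) ξ0) = (k2 * B2) ξ0 :=
      Submodule.starProjection_eq_self_iff.2 hz0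
    rw [hc] at e1
    have e2 : c • ((k2 * B2) ξ0) = (1 : ℂ) • ((k2 * B2) ξ0) := by
      rw [one_smul]
      simpa using e1
    have e3 : (c - 1) • ((k2 * B2) ξ0) = 0 := by
      rw [sub_smul, e2, sub_self]
    rcases smul_eq_zero.1 e3 with h | h
    · exact sub_eq_zero.1 h
    · exact absurd h hξ0
  have hZtop : ∀ ξ : E, ξ ∈ Z := by
    intro ξ
    rw [← Submodule.starProjection_eq_self_iff (K := Z), hc, hc1]
    simp
  apply h1
  have hker : ∀ x ∈ gen, (k1 * B1) x = 0 := by
    rintro x ⟨q, hq, l, hl, ξ, rfl⟩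
    have e : (k1 * B1) * (q * l * (k2 * B2)) = (k1 * (B1 * q * B2) * k2) * l := by
      calc (k1 * B1) * (q * l * (k2 * B2)) = (k1 * B1) * q * (l * (k2 * B2)) := by
            simp only [mul_assoc]
        _ = (k1 * B1) * q * (l * (B2 * k2)) := by rw [hkB]
        _ = (k1 * B1) * q * ((l * B2) * k2) := by simp only [mul_assoc]
        _ = (k1 * B1) * q * ((B2 * l) * k2) := by rw [hB2L l hl]
        _ = (k1 * B1) * q * (B2 * (l * k2)) := by simp only [mul_assoc]
        _ = (k1 * B1) * q * (B2 * (k2 * l)) := by rw [hk2L l hl]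
        _ = (k1 * (B1 * q * B2) * k2) * l := by simp only [mul_assoc]
    rw [← ContinuousLinearMap.mul_apply, e, hcon q hq, zero_mul,
      ContinuousLinearMap.zero_apply]
  have hle : Z ≤ LinearMap.ker (k1 * B1 : E →L[ℂ] E).toLinearMap := by
    apply Submodule.topologicalClosure_minimal
    · rw [Submodule.span_le]
      intro x hx
      exact hker x hx
    · exact (k1 * B1 : E →L[ℂ] E).isClosed_ker
  ext ξ
  exact hle (hZtop ξ)

end

end Pool.Agent.AbCoc
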