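import Mathlib

set_option autoImplicit false
set_option linter.unusedVariables false
set_option linter.unusedSectionVars false

open Topology Filter

namespace Pool.Agent.AbCoc

universe u v w

section
variable {G : Type u} [Group G] {K : Type v} [NormedAddCommGroup K] [InnerProductSpace ℂ K]

/-- a group of linear isometries (no continuity) -/
structure IsoRep (G : Type u) [Group G] (K : Type v) [NormedAddCommGroup K]
    [InnerProductSpace ℂ K] where
  U : G → K →L[ℂ] K
  one : U 1 = 1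
  mul : ∀ s t, U (s * t) = U s * U t
  inner_map : ∀ s ξ η, inner ℂ (U s ξ) (U s η) = inner ℂ ξ η

namespace IsoRep
variable (W : IsoRep G K)

theorem norm_map (s : G) (ξ : K) : ‖W.U s ξ‖ = ‖ξ‖ := by
  have h := W.inner_map s ξ ξ
  rw [inner_self_eq_norm_sq_to_K, inner_self_eq_norm_sq_to_K] at h
  have h2 : ‖W.U s ξ‖ ^ 2 = ‖ξ‖ ^ 2 := by exact_mod_cast h
  exact (pow_left_inj₀ (norm_nonneg _) (norm_nonneg _) two_ne_zero).1 h2

theorem mul_apply (s t : G) (ξ : K) : W.U (s * t) ξ = W.U s (W.U t ξ) := by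
  rw [W.mul]; rfl

/-- the hull of an orbit -/
def hull (ξ : K) : Set K := closure (convexHull ℝ (Set.range fun g => W.U g ξ))

theorem convex_hull (ξ : K) : Convex ℝ (W.hull ξ) := (convex_convexHull ℝ _).closure

theorem isClosed_hull (ξ : K) : IsClosed (W.hull ξ) := isClosed_closure

theorem orbit_mem_hull (ξ : K) (g : G) : W.U g ξ ∈ W.hull ξ :=
  subset_closure (subset_convexHull ℝ _ ⟨g, rfl⟩)

theorem map_hull (ξ η : K) (h : η ∈ W.hull ξ) (g : G) : W.U g η ∈ W.hull ξ := by
  have h1 : Set.MapsTo (W.U g) (convexHull ℝ (Set.range fun k => W.U k ξ))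
      (convexHull ℝ (Set.range fun k => W.U k ξ)) := by
    intro x hx
    have h2 : ((W.U g).restrictScalars ℝ) '' (convexHull ℝ (Set.range fun k => W.U k ξ))
        = convexHull ℝ (((W.U g).restrictScalars ℝ) '' (Set.range fun k => W.U k ξ)) :=
      ((W.U g).restrictScalars ℝ).toLinearMap.image_convexHull _
    have h3 : W.U g x ∈ convexHull ℝ (((W.U g).restrictScalars ℝ) '' (Set.range fun k => W.U k ξ)) := by
      rw [← h2]
      exact ⟨x, hx, rfl⟩
    refine convexHull_mono ?_ h3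
    rintro _ ⟨_, ⟨k, rfl⟩, rfl⟩
    exact ⟨g * k, W.mul_apply g k ξ⟩
  exact h1.closure (W.U g).continuous h

variable [CompleteSpace K]

/-- the minimal norm point of the hull is fixed -/
theorem exists_fixed (ξ : K) : ∃ η ∈ W.hull ξ, ∀ g, W.U g η = η := by
  letI : InnerProductSpace ℝ K := InnerProductSpace.rclikeToReal ℂ K
  have hne : (W.hull ξ).Nonempty := ⟨_, W.orbit_mem_hull ξ 1⟩
  have hco : IsComplete (W.hull ξ) := (W.isClosed_hull ξ).isComplete
  obtain ⟨η, hη, hmin⟩ := exists_norm_eq_iInf_of_complete_convex hne hco (W.convex_hull ξ) 0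
  have h1 := (norm_eq_iInf_iff_real_inner_le_zero (W.convex_hull ξ) hη).1 hmin
  refine ⟨η, hη, fun g => ?_⟩
  have h2 := h1 _ (W.map_hull ξ η hη g)
  rw [zero_sub, inner_neg_left, inner_sub_right, real_inner_self_eq_norm_sq] at h2
  have h3 : ‖W.U g η - η‖ ^ 2 = ‖W.U g η‖ ^ 2 - 2 * inner ℝ (W.U g η) η + ‖η‖ ^ 2 :=
    norm_sub_sq_real _ _
  rw [W.norm_map, real_inner_comm] at h3
  have h4 : ‖W.U g η - η‖ ^ 2 ≤ 0 := by linarith
  have h5 : ‖W.U g η - η‖ = 0 := by nlinarith [norm_nonneg (W.U g η - η)]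
  exact sub_eq_zero.1 (norm_eq_zero.1 h5)

theorem inner_hull (ξ η ζ : K) (hη : η ∈ W.hull ξ) (hζ : ∀ g, W.U g ζ = ζ) :
    inner ℂ ζ η = inner ℂ ζ ξ := by
  have h1 : W.hull ξ ⊆ {w | inner ℂ ζ w = inner ℂ ζ ξ} := by
    refine closure_minimal (convexHull_min ?_ ?_) ?_
    · rintro _ ⟨g, rfl⟩
      change inner ℂ ζ (W.U g ξ) = inner ℂ ζ ξ
      have := W.inner_map g ζ ξ
      rwa [hζ] at this
    · intro x hx y hy a b ha hb hab
      change inner ℂ ζ (a • x + b • y) = inner ℂ ζ ξ
      have hx' : inner ℂ ζ x = inner ℂ ζ ξ := hx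
      have hy' : inner ℂ ζ y = inner ℂ ζ ξ := hy
      have e1 : a • x = (a : ℂ) • x := rfl
      have e2 : b • y = (b : ℂ) • y := rfl
      rw [inner_add_right, e1, e2, inner_smul_right, inner_smul_right, hx', hy', ← add_mul,
        ← Complex.ofReal_add, hab, Complex.ofReal_one, one_mul]
    · exact isClosed_eq (continuous_const.inner continuous_id) continuous_const
  exact h1 hη

/-- a closed convex condition on the orbit passes to the hull -/
theorem hull_subset (ξ : K) (C : Set K) (hC : IsClosed C) (hco : Convex ℝ C)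
    (h : ∀ g, W.U g ξ ∈ C) : W.hull ξ ⊆ C :=
  closure_minimal (convexHull_min (by rintro _ ⟨g, rfl⟩; exact h g) hco) hC

theorem re_inner_hull_le (ξ η ζ : K) (hη : η ∈ W.hull ξ) (c : ℝ)
    (h : ∀ g, (inner ℂ ζ (W.U g ξ)).re ≤ c) : (inner ℂ ζ η).re ≤ c := by
  refine W.hull_subset ξ {w | (inner ℂ ζ w).re ≤ c} ?_ ?_ h hη
  · exact isClosed_le (Complex.continuous_re.comp (continuous_const.inner continuous_id))
      continuous_const
  · intro x hx y hy a b ha hb hab
    change (inner ℂ ζ (a • x + b • y)).re ≤ c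
    have hx' : (inner ℂ ζ x).re ≤ c := hx
    have hy' : (inner ℂ ζ y).re ≤ c := hy
    have e1 : a • x = (a : ℂ) • x := rfl
    have e2 : b • y = (b : ℂ) • y := rfl
    rw [inner_add_right, e1, e2, inner_smul_right, inner_smul_right, Complex.add_re,
      Complex.re_ofReal_mul, Complex.re_ofReal_mul]
    have : c = a * c + b * c := by rw [← add_mul, hab, one_mul]
    rw [this]
    exact add_le_add (mul_le_mul_of_nonneg_left hx' ha) (mul_le_mul_of_nonneg_left hy' hb)

/-- approximation by finite averages -/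
theorem exists_average (ξ η : K) (hη : η ∈ W.hull ξ) (ε : ℝ) (hε : 0 < ε) :
    ∃ (F : Finset G) (w : G → ℝ), (∀ g, 0 ≤ w g) ∧ ∑ g ∈ F, w g = 1 ∧
      ‖(∑ g ∈ F, w g • W.U g ξ) - η‖ < ε := by
  classical
  obtain ⟨y, hy, hd⟩ := Metric.mem_closure_iff.1 hη ε hε
  rw [convexHull_range_eq_exists_affineCombination] at hy
  obtain ⟨F, w, hw0, hw1, hy⟩ := hy
  refine ⟨F, fun g => if g ∈ F then w g else 0, ?_, ?_, ?_⟩
  · intro g
    by_cases hg : g ∈ F
    · simp [hg, hw0 g hg]
    · simp [hg]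
  · rw [← hw1]
    exact Finset.sum_congr rfl fun g hg => by simp [hg]
  · rw [Finset.affineCombination_eq_linear_combination _ _ _ hw1] at hy
    rw [← hy, dist_eq_norm, norm_sub_rev] at hd
    refine lt_of_eq_of_lt ?_ hd
    congr 2
    exact Finset.sum_congr rfl fun g hg => by simp [hg]

end IsoRep

/-- the diagonal representation on a finite power -/
noncomputable def IsoRep.diag (W : IsoRep G K) (J : Type) [Fintype J] :
    IsoRep G (PiLp 2 fun _ : J => K) where
  U := fun g => LinearMap.mkContinuous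
    { toFun := fun x => WithLp.toLp 2 fun j => W.U g (x j)
      map_add' := by
        intro x y
        ext j
        simp
      map_smul' := by
        intro c x
        ext j
        simp } 1 (by
    intro x
    rw [one_mul]
    change ‖(WithLp.toLp 2 fun j => W.U g (x j) : PiLp 2 fun _ : J => K)‖ ≤ ‖x‖
    rw [PiLp.norm_eq_of_L2, PiLp.norm_eq_of_L2]
    simp only [W.norm_map]
    exact le_rfl)
  one := by
    ext x j
    change W.U 1 (x j) = x j
    rw [W.one]
    rfl
  mul := by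
    intro s t
    ext x j
    change W.U (s * t) (x j) = W.U s (W.U t (x j))
    rw [W.mul]
    rfl
  inner_map := by
    intro s x y
    rw [PiLp.inner_apply, PiLp.inner_apply]
    exact Finset.sum_congr rfl fun j _ => W.inner_map s (x j) (y j)

theorem IsoRep.diag_apply (W : IsoRep G K) (J : Type) [Fintype J] (g : G)
    (x : PiLp 2 fun _ : J => K) (j : J) : (W.diag J).U g x j = W.U g (x j) := rfl

/-- simultaneous form of the mean ergodic theorem -/
theorem IsoRep.exists_fixed_family [CompleteSpace K] (W : IsoRep G K) (J : Type) [Fintype J]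
    (ξ : J → K) :
    ∃ η : J → K, (∀ j g, W.U g (η j) = η j) ∧
      (∀ j ζ, (∀ g, W.U g ζ = ζ) → inner ℂ ζ (η j) = inner ℂ ζ (ξ j)) ∧
      (∀ (ζ : J → K) (c : ℝ), (∀ g, ∑ j, (inner ℂ (ζ j) (W.U g (ξ j))).re ≤ c) →
        ∑ j, (inner ℂ (ζ j) (η j)).re ≤ c) ∧
      (∀ ε : ℝ, 0 < ε → ∃ (F : Finset G) (w : G → ℝ), (∀ g, 0 ≤ w g) ∧ ∑ g ∈ F, w g = 1 ∧
        ∑ j, ‖(∑ g ∈ F, w g • W.U g (ξ j)) - η j‖ ^ 2 < ε) := by
  classical
  set X : PiLp 2 fun _ : J => K := WithLp.toLp 2 ξ with hX
  obtain ⟨Y, hY, hfix⟩ := (W.diag J).exists_fixed X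
  have hfix' : ∀ j g, W.U g (Y j) = Y j := fun j g => by
    have := congrArg (fun Z : PiLp 2 fun _ : J => K => Z j) (hfix g)
    simpa [IsoRep.diag_apply] using this
  refine ⟨fun j => Y j, hfix', ?_, ?_, ?_⟩
  · intro j ζ hζ
    set Z : PiLp 2 fun _ : J => K := WithLp.toLp 2 (Pi.single j ζ) with hZ
    have hZfix : ∀ g, (W.diag J).U g Z = Z := by
      intro g
      ext i
      rw [IsoRep.diag_apply]
      by_cases h : i = j
      · subst h
        simp [hZ, hζ]
      · simp [hZ, h]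
    have h1 := (W.diag J).inner_hull X Y Z hY hZfix
    rw [PiLp.inner_apply, PiLp.inner_apply, Finset.sum_eq_single j, Finset.sum_eq_single j] at h1
    · simpa [hZ, hX] using h1
    · intro i _ hi
      simp [hZ, hi]
    · intro h; exact absurd (Finset.mem_univ _) h
    · intro i _ hi
      simp [hZ, hi]
    · intro h; exact absurd (Finset.mem_univ _) h
  · intro ζ c h
    set Z : PiLp 2 fun _ : J => K := WithLp.toLp 2 ζ with hZ
    have h1 := (W.diag J).re_inner_hull_le X Y Z hY c (by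
      intro g
      rw [PiLp.inner_apply, Complex.re_sum]
      exact h g)
    rw [PiLp.inner_apply, Complex.re_sum] at h1
    exact h1
  · intro ε hε
    obtain ⟨F, w, h1, h2, h3⟩ := (W.diag J).exists_average X Y hY (Real.sqrt ε)
      (Real.sqrt_pos.2 hε)
    refine ⟨F, w, h1, h2, ?_⟩
    have h4 : ‖(∑ g ∈ F, w g • (W.diag J).U g X) - Y‖ ^ 2 < ε := by
      have := pow_lt_pow_left₀ h3 (norm_nonneg _) two_ne_zero
      rwa [Real.sq_sqrt hε.le] at this
    rw [PiLp.norm_sq_eq_of_L2] at h4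
    refine lt_of_eq_of_lt ?_ h4
    refine Finset.sum_congr rfl fun j _ => ?_
    congr 2
    rw [PiLp.sub_apply]
    congr 1
    simp [hX, IsoRep.diag_apply]

end

end Pool.Agent.AbCoc
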