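import Pool.Agent.Lib_MP_418a80_ab.Rep
import Pool.Agent.Lib_MP_418a80_ab.Hull

set_option autoImplicit false
set_option linter.unusedVariables false
set_option linter.unusedSectionVars false

open Topology Filter MeasureTheory

namespace Pool.Agent.AbCoc

universe u v w

/-- A C*-algebra with a faithful tracial state, given through its GNS map `ι : A → K`, whose
norm-bounded `2`-norm Cauchy sequences converge in `A`. -/
structure TrAlg (A : Type u) [CStarAlgebra A] (K : Type v) [NormedAddCommGroup K]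
    [InnerProductSpace ℂ K] where
  ι : A →L[ℂ] K
  inj : Function.Injective ι
  dense : DenseRange ι
  norm_one : ‖ι 1‖ = 1
  left : ∀ a b c, inner ℂ (ι (c * a)) (ι b) = inner ℂ (ι a) (ι (star c * b))
  tr : ∀ a b, inner ℂ (ι a) (ι b) = inner ℂ (ι (star b)) (ι (star a))
  mul_le : ∀ a b, ‖ι (a * b)‖ ≤ ‖a‖ * ‖ι b‖
  complete : ∀ (C : ℝ) (x : ℕ → A), (∀ n, ‖x n‖ ≤ C) → CauchySeq (fun n => ι (x n)) →
    ∃ y, Tendsto (fun n => ι (x n)) atTop (𝓝 (ι y))

section
variable {A : Type u} [CStarAlgebra A] {K : Type v} [NormedAddCommGroup K]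
  [InnerProductSpace ℂ K]

namespace TrAlg
variable (T : TrAlg A K)

/-- the trace -/
noncomputable def τ (a : A) : ℂ := inner ℂ (T.ι 1) (T.ι a)

theorem inner_eq_τ (a b : A) : inner ℂ (T.ι a) (T.ι b) = T.τ (star a * b) := by
  have := T.left 1 b a
  rwa [mul_one] at this

theorem right (a b c : A) : inner ℂ (T.ι (a * c)) (T.ι b) = inner ℂ (T.ι a) (T.ι (b * star c)) := by
  rw [T.tr, star_mul, ← inner_conj_symm, T.left, inner_conj_symm, star_star, T.tr, star_star,
    star_mul, star_star]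

theorem left' (a b c : A) : inner ℂ (T.ι (star c * a)) (T.ι b) = inner ℂ (T.ι a) (T.ι (c * b)) := by
  rw [T.left, star_star]

theorem right' (a b c : A) : inner ℂ (T.ι (a * star c)) (T.ι b) = inner ℂ (T.ι a) (T.ι (b * c)) := by
  rw [T.right, star_star]

theorem norm_star (a : A) : ‖T.ι (star a)‖ = ‖T.ι a‖ := by
  have h := T.tr a a
  rw [inner_self_eq_norm_sq_to_K, inner_self_eq_norm_sq_to_K] at h
  have h2 : ‖T.ι a‖ ^ 2 = ‖T.ι (star a)‖ ^ 2 := by exact_mod_cast h
  exact ((pow_left_inj₀ (norm_nonneg _) (norm_nonneg _) two_ne_zero).1 h2).symm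

theorem mul_le' (a b : A) : ‖T.ι (a * b)‖ ≤ ‖T.ι a‖ * ‖b‖ := by
  rw [← T.norm_star, star_mul]
  refine (T.mul_le _ _).trans ?_
  rw [_root_.norm_star, T.norm_star, mul_comm]

theorem norm_le (a : A) : ‖T.ι a‖ ≤ ‖a‖ := by
  have := T.mul_le a 1
  rwa [mul_one, T.norm_one, mul_one] at this

theorem τ_one : T.τ 1 = 1 := by
  unfold τ
  rw [inner_self_eq_norm_sq_to_K, T.norm_one]
  simp

theorem τ_mul_comm (a b : A) : T.τ (a * b) = T.τ (b * a) := by
  unfold τ
  have h3 : inner ℂ (T.ι 1) (T.ι (a * b)) = inner ℂ (T.ι (star a)) (T.ι b) := by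
    have := T.left' 1 b a
    rw [mul_one] at this
    exact this.symm
  have h4 : inner ℂ (T.ι 1) (T.ι (b * a)) = inner ℂ (T.ι (star a)) (T.ι b) := by
    have := T.right' 1 b a
    rw [one_mul] at this
    exact this.symm
  rw [h3, h4]

theorem τ_star (a : A) : T.τ (star a) = (starRingEnd ℂ) (T.τ a) := by
  unfold τ
  rw [inner_conj_symm]
  have h := T.tr 1 (star a)
  rwa [star_star, star_one] at h

theorem τ_add (a b : A) : T.τ (a + b) = T.τ a + T.τ b := by
  unfold τ
  rw [map_add, inner_add_right]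

theorem τ_sub (a b : A) : T.τ (a - b) = T.τ a - T.τ b := by
  unfold τ
  rw [map_sub, inner_sub_right]

theorem τ_neg (a : A) : T.τ (-a) = -T.τ a := by
  unfold τ
  rw [map_neg, inner_neg_right]

theorem τ_smul (c : ℂ) (a : A) : T.τ (c • a) = c * T.τ a := by
  unfold τ
  rw [map_smul, inner_smul_right]

theorem norm_sq (a : A) : ‖T.ι a‖ ^ 2 = (T.τ (star a * a)).re := by
  rw [← T.inner_eq_τ, inner_self_eq_norm_sq_to_K]
  norm_cast

theorem norm_unitary_mul (u : A) (hu : star u * u = 1) (a : A) : ‖T.ι (u * a)‖ = ‖T.ι a‖ := by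
  have h : ‖T.ι (u * a)‖ ^ 2 = ‖T.ι a‖ ^ 2 := by
    rw [T.norm_sq, T.norm_sq, star_mul, mul_assoc, ← mul_assoc (star u), hu, one_mul]
  exact (pow_left_inj₀ (norm_nonneg _) (norm_nonneg _) two_ne_zero).1 h

theorem norm_mul_unitary (u : A) (hu : u * star u = 1) (a : A) : ‖T.ι (a * u)‖ = ‖T.ι a‖ := by
  rw [← T.norm_star, star_mul, T.norm_unitary_mul _ (by rw [star_star]; exact hu), T.norm_star]

theorem norm_unitary (u : A) (hu : star u * u = 1) : ‖T.ι u‖ = 1 := by
  have := T.norm_unitary_mul u hu 1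
  rwa [mul_one, T.norm_one] at this

/-- positivity of the trace on products `star x * a * x` with `a = star y * y` -/
theorem re_τ_conj_nonneg [PartialOrder A] [StarOrderedRing A] (x a : A) (ha : 0 ≤ a) :
    0 ≤ (T.τ (star x * a * x)).re := by
  obtain ⟨y, hy⟩ := CStarAlgebra.nonneg_iff_eq_star_mul_self.1 ha
  have : star x * a * x = star (y * x) * (y * x) := by
    rw [hy, star_mul]
    noncomm_ring
  rw [this, ← T.norm_sq]
  positivity

theorem re_τ_nonneg [PartialOrder A] [StarOrderedRing A] (a : A) (ha : 0 ≤ a) :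
    0 ≤ (T.τ a).re := by
  have := T.re_τ_conj_nonneg 1 a ha
  simpa using this

theorem tendsto_unique {x : ℕ → A} {y z : A} (h1 : Tendsto (fun n => T.ι (x n)) atTop (𝓝 (T.ι y)))
    (h2 : Tendsto (fun n => T.ι (x n)) atTop (𝓝 (T.ι z))) : y = z :=
  T.inj (tendsto_nhds_unique h1 h2)

theorem tendsto_star {x : ℕ → A} {y : A} (h : Tendsto (fun n => T.ι (x n)) atTop (𝓝 (T.ι y))) :
    Tendsto (fun n => T.ι (star (x n))) atTop (𝓝 (T.ι (star y))) := by
  rw [tendsto_iff_norm_sub_tendsto_zero] at h ⊢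
  refine h.congr fun n => ?_
  rw [← map_sub, ← map_sub, ← star_sub, T.norm_star]

theorem tendsto_mul {x y : ℕ → A} {a b : A} (C : ℝ) (hx : ∀ n, ‖x n‖ ≤ C)
    (h1 : Tendsto (fun n => T.ι (x n)) atTop (𝓝 (T.ι a)))
    (h2 : Tendsto (fun n => T.ι (y n)) atTop (𝓝 (T.ι b))) :
    Tendsto (fun n => T.ι (x n * y n)) atTop (𝓝 (T.ι (a * b))) := by
  rw [tendsto_iff_norm_sub_tendsto_zero] at h1 h2 ⊢
  have h3 : Tendsto (fun n => C * ‖T.ι (y n) - T.ι b‖ + ‖T.ι (x n) - T.ι a‖ * ‖b‖) atTop (𝓝 0) := by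
    have := (h2.const_mul C).add (h1.mul_const ‖b‖)
    simpa using this
  refine squeeze_zero (fun n => norm_nonneg _) (fun n => ?_) h3
  have e : T.ι (x n * y n) - T.ι (a * b) = T.ι (x n * (y n - b)) + T.ι ((x n - a) * b) := by
    rw [← map_sub, ← map_add]
    congr 1
    noncomm_ring
  rw [e, ← map_sub, ← map_sub]
  refine (norm_add_le _ _).trans (add_le_add ?_ (T.mul_le' _ _))
  exact (T.mul_le _ _).trans (mul_le_mul_of_nonneg_right (hx n) (norm_nonneg _))

end TrAlg

/-- a `2`-norm preserving, pointwise `2`-norm continuous action on a tracial algebra -/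
structure TrAct (G : Type w) [Group G] [TopologicalSpace G] (T : TrAlg A K) where
  α : G → A →⋆ₐ[ℂ] A
  one : ∀ a, α 1 a = a
  mul : ∀ g h a, α (g * h) a = α g (α h a)
  norm_map : ∀ g a, ‖T.ι (α g a)‖ = ‖T.ι a‖
  cont : ∀ a, Continuous fun g => T.ι (α g a)

namespace TrAct
variable {G : Type w} [Group G] [TopologicalSpace G] {T : TrAlg A K} (S : TrAct G T)

theorem norm_le (g : G) (a : A) : ‖S.α g a‖ ≤ ‖a‖ := NonUnitalStarAlgHom.norm_apply_le (S.α g) a

theorem inv_apply (g : G) (a : A) : S.α g⁻¹ (S.α g a) = a := by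
  rw [← S.mul, inv_mul_cancel, S.one]

theorem apply_inv (g : G) (a : A) : S.α g (S.α g⁻¹ a) = a := by
  rw [← S.mul, mul_inv_cancel, S.one]

variable [CompleteSpace K]

/-- the unitary implementation on `K` -/
noncomputable def U0 (g : G) : K →L[ℂ] K :=
  LinearMap.extendOfNorm (T.ι.toLinearMap ∘ₗ (S.α g).toAlgHom.toLinearMap) T.ι.toLinearMap

theorem U0_ι (g : G) (a : A) : S.U0 g (T.ι a) = T.ι (S.α g a) :=
  LinearMap.extendOfNorm_eq (f := T.ι.toLinearMap ∘ₗ (S.α g).toAlgHom.toLinearMap)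
    (e := T.ι.toLinearMap) T.dense ⟨1, fun x => by
      rw [one_mul]
      exact (S.norm_map g x).le⟩ a

theorem inner_map (g : G) (a b : A) :
    inner ℂ (T.ι (S.α g a)) (T.ι (S.α g b)) = inner ℂ (T.ι a) (T.ι b) := by
  have key : ∀ x y : A, (inner ℂ (T.ι (S.α g x)) (T.ι (S.α g y))).re
      = (inner ℂ (T.ι x) (T.ι y)).re := by
    intro x y
    have h1 := @norm_add_sq ℂ K _ _ _ (T.ι x) (T.ι y)
    have h2 := @norm_add_sq ℂ K _ _ _ (T.ι (S.α g x)) (T.ι (S.α g y))
    rw [← map_add, ← map_add, S.norm_map, S.norm_map, S.norm_map] at h2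
    rw [← map_add] at h1
    simp only [RCLike.re_to_complex] at h1 h2
    linarith
  apply Complex.ext
  · exact key a b
  · have h := key (Complex.I • a) b
    rw [map_smul, map_smul, map_smul, inner_smul_left, inner_smul_left] at h
    simpa using h

theorem U0_norm (g : G) (ξ : K) : ‖S.U0 g ξ‖ = ‖ξ‖ := by
  refine T.dense.induction_on (p := fun ξ => ‖S.U0 g ξ‖ = ‖ξ‖) ξ ?_ ?_
  · exact isClosed_eq (S.U0 g).continuous.norm continuous_norm
  · intro a
    rw [S.U0_ι, S.norm_map]

/-- the unitary representation implementing the action -/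
noncomputable def U : URep G K where
  U := S.U0
  one := by
    ext1 ξ
    refine T.dense.induction_on (p := fun ξ => S.U0 1 ξ = ξ) ξ ?_ ?_
    · exact isClosed_eq (S.U0 1).continuous continuous_id
    · intro a
      rw [S.U0_ι, S.one]
  mul := by
    intro s t
    ext1 ξ
    refine T.dense.induction_on (p := fun ξ => S.U0 (s * t) ξ = S.U0 s (S.U0 t ξ)) ξ ?_ ?_
    · exact isClosed_eq (S.U0 _).continuous ((S.U0 s).continuous.comp (S.U0 t).continuous)
    · intro a
      rw [S.U0_ι, S.U0_ι, S.U0_ι, S.mul]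
  inner_map := by
    intro s ξ η
    refine T.dense.induction_on (p := fun ξ => inner ℂ (S.U0 s ξ) (S.U0 s η) = inner ℂ ξ η) ξ ?_ ?_
    · exact isClosed_eq ((S.U0 s).continuous.inner continuous_const)
        (continuous_id.inner continuous_const)
    · intro a
      refine T.dense.induction_on
        (p := fun η => inner ℂ (S.U0 s (T.ι a)) (S.U0 s η) = inner ℂ (T.ι a) η) η ?_ ?_
      · exact isClosed_eq (continuous_const.inner (S.U0 s).continuous)
          (continuous_const.inner continuous_id)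
      · intro b
        rw [S.U0_ι, S.U0_ι, S.inner_map]
  cont := by
    intro ξ
    refine continuous_of_uniform_approx_of_continuous fun V hV => ?_
    obtain ⟨ε, hε, hV⟩ := Metric.mem_uniformity_dist.1 hV
    obtain ⟨a, ha⟩ := T.dense.exists_dist_lt ξ hε
    refine ⟨fun g => T.ι (S.α g a), S.cont a, fun g => hV ?_⟩
    change dist (S.U0 g ξ) (T.ι (S.α g a)) < ε
    rw [← S.U0_ι, dist_eq_norm, ← map_sub, S.U0_norm, ← dist_eq_norm]
    exact ha

theorem U_ι (g : G) (a : A) : S.U.U g (T.ι a) = T.ι (S.α g a) := S.U0_ι g a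

/-- the fixed point algebra -/
def Fixed (p : A) : Prop := ∀ g, S.α g p = p

/-- the fixed vectors -/
def FixedVec (ξ : K) : Prop := ∀ g, S.U.U g ξ = ξ

theorem fixedVec_ι {p : A} : S.FixedVec (T.ι p) ↔ S.Fixed p := by
  constructor
  · intro h g
    have := h g
    rw [S.U_ι] at this
    exact T.inj this
  · intro h g
    rw [S.U_ι, h g]

/-- the isometric representation underlying `U` -/
noncomputable def W : IsoRep G K where
  U := S.U.U
  one := S.U.one
  mul := S.U.mul
  inner_map := S.U.inner_map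

end TrAct
end

end Pool.Agent.AbCoc
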