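import Pool.Agent.Lib_MP_418a80_ab.Base
import Pool.Agent.Lib_MP_418a80_ab.Tr
import Pool.Agent.Lib_MP_418a80_ab.Factor

set_option autoImplicit false

open MeasureTheory Topology Filter

namespace Pool.Agent.AbCoc

universe u v w

variable {H : Type u} [NormedAddCommGroup H] [InnerProductSpace ℂ H] [CompleteSpace H]

private theorem Conc_sum (f : lp (fun _ : ℕ => H) 2) : HasSum (fun n => ‖(f : ℕ → H) n‖ ^ 2) (‖f‖ ^ 2) := by
  have h := lp.hasSum_norm (p := 2) (by simp) f
  simpa using h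

omit [InnerProductSpace ℂ H] [CompleteSpace H] in
private theorem Conc_mem {f : ℕ → H} (h : Summable fun n => ‖f n‖ ^ 2) : Memℓp f 2 := by
  refine memℓp_gen ?_
  simpa using h

private theorem Conc_summ (ξ : ℕ → H) (hξ : HasSum (fun n => ‖ξ n‖ ^ 2) 1) (x : H →L[ℂ] H) :
    Summable fun n => ‖x (ξ n)‖ ^ 2 := by
  refine Summable.of_nonneg_of_le (fun n => by positivity) (fun n => ?_)
    (hξ.summable.mul_left (‖x‖ ^ 2))
  rw [← mul_pow]
  exact pow_le_pow_left₀ (norm_nonneg _) (x.le_opNorm _) 2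

/-- W6a: `x ↦ (x ξ_n)_n`, a contraction into `ℓ²(ℕ, H)` -/
noncomputable def iota0 (ξ : ℕ → H) (hξ : HasSum (fun n => ‖ξ n‖ ^ 2) 1) :
    (H →L[ℂ] H) →L[ℂ] lp (fun _ : ℕ => H) 2 :=
  LinearMap.mkContinuous
    { toFun := fun x => ⟨fun n => x (ξ n), Conc_mem (Conc_summ ξ hξ x)⟩
      map_add' := fun x y => by
        apply lp.ext
        rfl
      map_smul' := fun c x => by
        apply lp.ext
        rfl } 1 (by
      intro x
      rw [one_mul]
      refine le_of_sq_le_sq ?_ (norm_nonneg _)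
      have h1 := Conc_sum (H := H) ⟨fun n => x (ξ n), Conc_mem (Conc_summ ξ hξ x)⟩
      have h2 : HasSum (fun n => ‖x‖ ^ 2 * ‖ξ n‖ ^ 2) (‖x‖ ^ 2 * 1) := hξ.mul_left _
      rw [mul_one] at h2
      refine hasSum_le (fun n => ?_) h1 h2
      rw [← mul_pow]
      exact pow_le_pow_left₀ (norm_nonneg _) (x.le_opNorm _) 2)

theorem iota0_apply (ξ : ℕ → H) (hξ : HasSum (fun n => ‖ξ n‖ ^ 2) 1) (x : H →L[ℂ] H) (n : ℕ) :
    (iota0 ξ hξ x : ℕ → H) n = x (ξ n) := rfl

/-- `L²(M)`: the closure of `{(x ξ_n)_n : x ∈ M}` -/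
noncomputable def L2 (M : VonNeumannAlgebra H) (ξ : ℕ → H) (h : IsTracialFamily M ξ) :
    Submodule ℂ (lp (fun _ : ℕ => H) 2) :=
  ((M.toStarSubalgebra.toSubalgebra.toSubmodule).map
    (iota0 ξ h.hasSum_norm_sq).toLinearMap).topologicalClosure

instance L2_complete (M : VonNeumannAlgebra H) (ξ : ℕ → H) (h : IsTracialFamily M ξ) :
    CompleteSpace (L2 M ξ h) :=
  (Submodule.isClosed_topologicalClosure _).completeSpace_coe

/-- W6b: the vectors `y ξ_n`, `y ∈ M'`, span a dense subspace -/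
theorem dense_commutant (M : VonNeumannAlgebra H) (ξ : ℕ → H) (h : IsTracialFamily M ξ)
    (Z : Submodule ℂ H) (hZ : IsClosed (Z : Set H))
    (hmem : ∀ y ∈ M.commutant, ∀ n, y (ξ n) ∈ Z) : Z = ⊤ := by
  let gen : Set H := {x | ∃ y ∈ M.commutant, ∃ n, x = y (ξ n)}
  let Z0 : Submodule ℂ H := (Submodule.span ℂ gen).topologicalClosure
  have hZc : IsClosed (Z0 : Set H) := (Submodule.span ℂ gen).isClosed_topologicalClosure
  have : CompleteSpace Z0 := hZc.completeSpace_coe
  have hle : Z0 ≤ Z := by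
    refine Submodule.topologicalClosure_minimal _ ?_ hZ
    rw [Submodule.span_le]
    rintro x ⟨y, hy, n, rfl⟩
    exact hmem y hy n
  have hinv : ∀ p ∈ (M.commutant : Set (H →L[ℂ] H)), ∀ ξ ∈ Z0, p ξ ∈ Z0 := by
    intro p hp
    have hspan : ∀ ζ ∈ Submodule.span ℂ gen, p ζ ∈ Submodule.span ℂ gen := by
      intro ζ hζ
      induction hζ using Submodule.span_induction with
      | mem x hx =>
        obtain ⟨y, hy, n, rfl⟩ := hx
        exact Submodule.subset_span ⟨p * y, mul_mem hp hy, n, rfl⟩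
      | zero => rw [map_zero]; exact Submodule.zero_mem _
      | add x y _ _ hx hy => rw [map_add]; exact Submodule.add_mem _ hx hy
      | smul a x _ hx => rw [map_smul]; exact Submodule.smul_mem _ a hx
    intro ζ hζ
    have h3 : Set.MapsTo p (Submodule.span ℂ gen : Set H) (Submodule.span ℂ gen : Set H) :=
      fun ζ hζ => hspan ζ hζ
    exact h3.closure p.continuous hζ
  have hpc : Z0.starProjection ∈ Set.centralizer (M.commutant : Set (H →L[ℂ] H)) :=
    proj_commute Z0 _ (fun p hp => star_mem hp) hinv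
  have hpM : Z0.starProjection ∈ M := by
    have h1 : Set.centralizer (M.commutant : Set (H →L[ℂ] H)) = (M : Set (H →L[ℂ] H)) := by
      rw [VonNeumannAlgebra.coe_commutant, VonNeumannAlgebra.centralizer_centralizer]
    rw [h1] at hpc
    exact hpc
  have hq : (1 : H →L[ℂ] H) - Z0.starProjection = 0 := by
    refine h.faithful _ (sub_mem (one_mem M) hpM) fun n => ?_
    have hn : ξ n ∈ Z0 := Submodule.le_topologicalClosure _
      (Submodule.subset_span ⟨1, one_mem _, n, rfl⟩)
    change ξ n - Z0.starProjection (ξ n) = 0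
    rw [Submodule.starProjection_eq_self_iff.2 hn, sub_self]
  rw [eq_top_iff]
  intro ζ _
  refine hle ?_
  rw [← Submodule.starProjection_eq_self_iff (K := Z0), ← sub_eq_zero.1 hq]
  rfl

private theorem Conc_mem_L2 (M : VonNeumannAlgebra H) (ξ : ℕ → H) (h : IsTracialFamily M ξ)
    (x : Alg M) : iota0 ξ h.hasSum_norm_sq (x : H →L[ℂ] H) ∈ L2 M ξ h :=
  Submodule.le_topologicalClosure _ (Submodule.mem_map_of_mem (f := (iota0 ξ
    h.hasSum_norm_sq).toLinearMap) x.2)

private noncomputable def Conc_iota (M : VonNeumannAlgebra H) (ξ : ℕ → H)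
    (h : IsTracialFamily M ξ) : Alg M →L[ℂ] L2 M ξ h :=
  LinearMap.mkContinuous
    { toFun := fun x => ⟨iota0 ξ h.hasSum_norm_sq (x : H →L[ℂ] H), Conc_mem_L2 M ξ h x⟩
      map_add' := fun x y => Subtype.ext (map_add (iota0 ξ h.hasSum_norm_sq) _ _)
      map_smul' := fun c x => Subtype.ext (map_smul (iota0 ξ h.hasSum_norm_sq) _ _) }
    ‖iota0 ξ h.hasSum_norm_sq‖ (by
      intro x
      exact (iota0 ξ h.hasSum_norm_sq).le_opNorm _)

private theorem Conc_iota_apply (M : VonNeumannAlgebra H) (ξ : ℕ → H) (h : IsTracialFamily M ξ)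
    (x : Alg M) (n : ℕ) :
    ((Conc_iota M ξ h x : lp (fun _ : ℕ => H) 2) : ℕ → H) n = (x : H →L[ℂ] H) (ξ n) := rfl

private theorem Conc_inner (M : VonNeumannAlgebra H) (ξ : ℕ → H) (h : IsTracialFamily M ξ)
    (x y : Alg M) : inner ℂ (Conc_iota M ξ h x) (Conc_iota M ξ h y) =
      ∑' n, inner ℂ ((x : H →L[ℂ] H) (ξ n)) ((y : H →L[ℂ] H) (ξ n)) :=
  lp.inner_eq_tsum _ _

private theorem Conc_norm (M : VonNeumannAlgebra H) (ξ : ℕ → H) (h : IsTracialFamily M ξ)
    (x : Alg M) : HasSum (fun n => ‖(x : H →L[ℂ] H) (ξ n)‖ ^ 2) (‖Conc_iota M ξ h x‖ ^ 2) :=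
  Conc_sum (Conc_iota M ξ h x : lp (fun _ : ℕ => H) 2)

private theorem Conc_adj (x : H →L[ℂ] H) (ζ η : H) : inner ℂ (x ζ) η = inner ℂ ζ ((star x) η) := by
  rw [ContinuousLinearMap.star_eq_adjoint, ContinuousLinearMap.adjoint_inner_right]

/-- pointwise convergence on the vectors `ξ n` gives pointwise convergence everywhere -/
private theorem Conc_cauchy (M : VonNeumannAlgebra H) (ξ : ℕ → H) (h : IsTracialFamily M ξ)
    (x : ℕ → Alg M) (C : ℝ) (hC : ∀ k, ‖x k‖ ≤ C)
    (hx : ∀ n, CauchySeq fun k => (x k : H →L[ℂ] H) (ξ n)) (η : H) :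
    CauchySeq fun k => (x k : H →L[ℂ] H) η := by
  let Z : Submodule ℂ H :=
    { carrier := {η | CauchySeq fun k => (x k : H →L[ℂ] H) η}
      add_mem' := by
        intro a b ha hb
        simp only [Set.mem_ofPred_eq, map_add] at ha hb ⊢
        exact ha.add hb
      zero_mem' := by
        simp only [Set.mem_ofPred_eq, map_zero]
        exact cauchySeq_const 0
      smul_mem' := by
        intro c a ha
        simp only [Set.mem_ofPred_eq, map_smul] at ha ⊢
        exact (uniformContinuous_const_smul c).comp_cauchySeq ha }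
  have hZ : Z = ⊤ := by
    refine dense_commutant M ξ h Z ?_ ?_
    · rw [← isSeqClosed_iff_isClosed]
      intro u a hu ha
      change CauchySeq fun k => (x k : H →L[ℂ] H) a
      rw [Metric.cauchySeq_iff]
      intro ε hε
      have hC0 : 0 ≤ C := (norm_nonneg _).trans (hC 0)
      obtain ⟨m, hm⟩ : ∃ m, C * ‖u m - a‖ < ε / 3 := by
        have h1 : Tendsto (fun m => C * ‖u m - a‖) atTop (𝓝 (C * 0)) :=
          (tendsto_iff_norm_sub_tendsto_zero.1 ha).const_mul C
        rw [mul_zero] at h1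
        exact (h1.eventually (gt_mem_nhds (by positivity : (0 : ℝ) < ε / 3))).exists
      obtain ⟨N, hN⟩ := Metric.cauchySeq_iff.1 (show CauchySeq fun k => (x k : H →L[ℂ] H) (u m) from
        hu m) (ε / 3) (by positivity)
      refine ⟨N, fun k hk l hl => ?_⟩
      have h1 := hN k hk l hl
      rw [dist_eq_norm] at h1 ⊢
      have h2 : ∀ j, ‖(x j : H →L[ℂ] H) (u m - a)‖ < ε / 3 := fun j =>
        (((x j : H →L[ℂ] H).le_opNorm _).trans
          (mul_le_mul_of_nonneg_right (hC j) (norm_nonneg _))).trans_lt hm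
      have e : (x k : H →L[ℂ] H) a - (x l : H →L[ℂ] H) a =
          ((x k : H →L[ℂ] H) (u m) - (x l : H →L[ℂ] H) (u m)) - (x k : H →L[ℂ] H) (u m - a)
            + (x l : H →L[ℂ] H) (u m - a) := by
        rw [map_sub, map_sub]
        abel
      rw [e]
      calc ‖((x k : H →L[ℂ] H) (u m) - (x l : H →L[ℂ] H) (u m)) - (x k : H →L[ℂ] H) (u m - a)
            + (x l : H →L[ℂ] H) (u m - a)‖
          ≤ ‖((x k : H →L[ℂ] H) (u m) - (x l : H →L[ℂ] H) (u m))‖
            + ‖(x k : H →L[ℂ] H) (u m - a)‖ + ‖(x l : H →L[ℂ] H) (u m - a)‖ :=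
            (norm_add_le _ _).trans (add_le_add_left (norm_sub_le _ _) _)
        _ < ε / 3 + ε / 3 + ε / 3 := by
            have := h2 k
            have := h2 l
            linarith
        _ = ε := by ring
    · intro y hy n
      change CauchySeq fun k => (x k : H →L[ℂ] H) (y (ξ n))
      have h1 : (fun k => (x k : H →L[ℂ] H) (y (ξ n))) = fun k => y ((x k : H →L[ℂ] H) (ξ n)) := by
        funext k
        have h2 := VonNeumannAlgebra.mem_commutant_iff.1 hy (x k : H →L[ℂ] H) (x k).2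
        exact congrArg (fun T : H →L[ℂ] H => T (ξ n)) h2
      rw [h1]
      exact y.uniformContinuous.comp_cauchySeq (hx n)
  have : η ∈ Z := by
    rw [hZ]
    trivial
  exact this

/-- W6c: the tracial algebra of `M` -/
noncomputable def trAlgOf (M : VonNeumannAlgebra H) (ξ : ℕ → H) (h : IsTracialFamily M ξ) :
    TrAlg (Alg M) (L2 M ξ h) where
  ι := Conc_iota M ξ h
  inj := by
    intro x y hxy
    have h1 : (x : H →L[ℂ] H) - (y : H →L[ℂ] H) = 0 := by
      refine h.faithful _ (sub_mem x.2 y.2) fun n => ?_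
      have h2 : (x : H →L[ℂ] H) (ξ n) = (y : H →L[ℂ] H) (ξ n) := by
        rw [← Conc_iota_apply M ξ h x n, ← Conc_iota_apply M ξ h y n, hxy]
      rw [_root_.sub_apply, h2, sub_self]
    exact Subtype.ext (sub_eq_zero.1 h1)
  dense := by
    intro z
    rw [closure_subtype]
    have h1 : (z : lp (fun _ : ℕ => H) 2) ∈ closure (((M.toStarSubalgebra.toSubalgebra.toSubmodule).map
        (iota0 ξ h.hasSum_norm_sq).toLinearMap : Submodule ℂ (lp (fun _ : ℕ => H) 2)) :
          Set (lp (fun _ : ℕ => H) 2)) := z.2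
    refine closure_mono ?_ h1
    rintro _ ⟨x, hx, rfl⟩
    exact ⟨Conc_iota M ξ h ⟨x, hx⟩, ⟨⟨x, hx⟩, rfl⟩, rfl⟩
  norm_one := by
    have h1 := Conc_norm M ξ h 1
    have h2 := h1.unique h.hasSum_norm_sq
    have h3 : ‖Conc_iota M ξ h 1‖ ^ 2 = 1 ^ 2 := by rw [h2, one_pow]
    exact (pow_left_inj₀ (norm_nonneg _) zero_le_one two_ne_zero).1 h3
  left := by
    intro a b c
    rw [Conc_inner, Conc_inner]
    refine tsum_congr fun n => ?_
    exact Conc_adj (c : H →L[ℂ] H) _ _
  tr := by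
    intro a b
    rw [Conc_inner, Conc_inner]
    have h1 := h.tracial (star (a : H →L[ℂ] H)) (star_mem a.2) (b : H →L[ℂ] H) b.2
    calc ∑' n, inner ℂ ((a : H →L[ℂ] H) (ξ n)) ((b : H →L[ℂ] H) (ξ n))
        = ∑' n, inner ℂ (ξ n) ((star (a : H →L[ℂ] H) * (b : H →L[ℂ] H)) (ξ n)) :=
          tsum_congr fun n => Conc_adj _ _ _
      _ = ∑' n, inner ℂ (ξ n) (((b : H →L[ℂ] H) * star (a : H →L[ℂ] H)) (ξ n)) := h1
      _ = ∑' n, inner ℂ ((star (b : H →L[ℂ] H)) (ξ n)) ((star (a : H →L[ℂ] H)) (ξ n)) := by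
          refine tsum_congr fun n => ?_
          rw [Conc_adj, star_star]
          rfl
  mul_le := by
    intro a b
    refine le_of_sq_le_sq ?_ (by positivity)
    rw [mul_pow]
    refine hasSum_le (fun n => ?_) (Conc_norm M ξ h (a * b)) ((Conc_norm M ξ h b).mul_left (‖a‖ ^ 2))
    rw [← mul_pow]
    exact pow_le_pow_left₀ (norm_nonneg _) ((a : H →L[ℂ] H).le_opNorm _) 2
  complete := by
    intro C x hC hx
    have hx0 : CauchySeq fun k => (Conc_iota M ξ h (x k) : lp (fun _ : ℕ => H) 2) := by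
      have := (L2 M ξ h).subtypeL.uniformContinuous.comp_cauchySeq hx
      exact this
    have hev : ∀ n, CauchySeq fun k => (x k : H →L[ℂ] H) (ξ n) := by
      intro n
      rw [Metric.cauchySeq_iff] at hx0 ⊢
      intro ε hε
      obtain ⟨N, hN⟩ := hx0 ε hε
      refine ⟨N, fun k hk l hl => lt_of_le_of_lt ?_ (hN k hk l hl)⟩
      rw [dist_eq_norm, dist_eq_norm]
      exact lp.norm_apply_le_norm (by simp)
        ((Conc_iota M ξ h (x k) : lp (fun _ : ℕ => H) 2) -
          (Conc_iota M ξ h (x l) : lp (fun _ : ℕ => H) 2)) n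
    have hall := Conc_cauchy M ξ h x C hC hev
    choose f hf using fun η => cauchySeq_tendsto_of_complete (hall η)
    let y : H →L[ℂ] H := continuousLinearMapOfTendsto (l := atTop)
      (fun k => (x k : H →L[ℂ] H)) (tendsto_pi_nhds.2 hf)
    have hy : ∀ η, Tendsto (fun k => (x k : H →L[ℂ] H) η) atTop (𝓝 (y η)) := hf
    have hyM : y ∈ M := by
      have h1 : y ∈ Set.centralizer (Set.centralizer (M : Set (H →L[ℂ] H))) := by
        rw [Set.mem_centralizer_iff]
        intro z hz
        ext η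
        have h2 : Tendsto (fun k => z ((x k : H →L[ℂ] H) η)) atTop (𝓝 (z (y η))) :=
          (z.continuous.tendsto _).comp (hy η)
        have h3 : Tendsto (fun k => (x k : H →L[ℂ] H) (z η)) atTop (𝓝 (y (z η))) := hy (z η)
        have h4 : (fun k => z ((x k : H →L[ℂ] H) η)) = fun k => (x k : H →L[ℂ] H) (z η) := by
          funext k
          have h5 := Set.mem_centralizer_iff.1 hz (x k : H →L[ℂ] H) (x k).2
          exact (congrArg (fun T : H →L[ℂ] H => T η) h5).symm
        rw [h4] at h2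
        exact tendsto_nhds_unique h2 h3
      rw [VonNeumannAlgebra.centralizer_centralizer] at h1
      exact h1
    refine ⟨⟨y, hyM⟩, ?_⟩
    obtain ⟨ζ, hζ⟩ := cauchySeq_tendsto_of_complete hx
    have h1 : ζ = Conc_iota M ξ h ⟨y, hyM⟩ := by
      apply Subtype.ext
      apply lp.ext
      funext n
      have h2 : Tendsto (fun k => ((Conc_iota M ξ h (x k) : lp (fun _ : ℕ => H) 2) : ℕ → H) n) atTop
          (𝓝 (((ζ : lp (fun _ : ℕ => H) 2) : ℕ → H) n)) := by
        rw [tendsto_iff_norm_sub_tendsto_zero] at hζ ⊢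
        refine squeeze_zero (fun k => norm_nonneg _) (fun k => ?_) hζ
        exact lp.norm_apply_le_norm (by simp)
          ((Conc_iota M ξ h (x k) : lp (fun _ : ℕ => H) 2) - (ζ : lp (fun _ : ℕ => H) 2)) n
      exact tendsto_nhds_unique h2 (hy (ξ n))
    rw [← h1]
    exact hζ

theorem trAlgOf_apply (M : VonNeumannAlgebra H) (ξ : ℕ → H) (h : IsTracialFamily M ξ)
    (x : Alg M) (n : ℕ) :
    (((trAlgOf M ξ h).ι x : lp (fun _ : ℕ => H) 2) : ℕ → H) n = (x : H →L[ℂ] H) (ξ n) := rfl

/-- W6d: on bounded sets the `2`-norm topology is the strong one -/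
theorem strong_of_two (M : VonNeumannAlgebra H) (ξ : ℕ → H) (h : IsTracialFamily M ξ)
    {X : Type v} [TopologicalSpace X] (f : X → Alg M) (C : ℝ) (hC : ∀ x, ‖f x‖ ≤ C)
    (hc : Continuous fun x => (trAlgOf M ξ h).ι (f x)) (η : H) :
    Continuous fun x => (f x : H →L[ℂ] H) η := by
  let Z : Submodule ℂ H :=
    { carrier := {η | Continuous fun x => (f x : H →L[ℂ] H) η}
      add_mem' := by
        intro a b ha hb
        simp only [Set.mem_ofPred_eq, map_add] at ha hb ⊢
        exact ha.add hb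
      zero_mem' := by
        simp only [Set.mem_ofPred_eq, map_zero]
        exact continuous_const
      smul_mem' := by
        intro c a ha
        simp only [Set.mem_ofPred_eq, map_smul] at ha ⊢
        exact ha.const_smul c }
  have hZ : Z = ⊤ := by
    refine dense_commutant M ξ h Z ?_ ?_
    · rw [← isSeqClosed_iff_isClosed]
      intro u a hu ha
      change Continuous fun x => (f x : H →L[ℂ] H) a
      refine continuous_of_uniform_approx_of_continuous fun V hV => ?_
      obtain ⟨ε, hε, hV⟩ := Metric.mem_uniformity_dist.1 hV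
      obtain ⟨m, hm⟩ : ∃ m, C * ‖a - u m‖ < ε := by
        have h1 : Tendsto (fun m => C * ‖a - u m‖) atTop (𝓝 (C * 0)) := by
          refine Tendsto.const_mul C ?_
          have h2 := tendsto_iff_norm_sub_tendsto_zero.1 ha
          refine h2.congr fun m => ?_
          rw [norm_sub_rev]
        rw [mul_zero] at h1
        exact (h1.eventually (gt_mem_nhds hε)).exists
      refine ⟨fun x => (f x : H →L[ℂ] H) (u m), hu m, fun x => hV ?_⟩
      rw [dist_eq_norm, ← map_sub]
      exact (((f x : H →L[ℂ] H).le_opNorm _).trans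
        (mul_le_mul_of_nonneg_right (hC x) (norm_nonneg _))).trans_lt hm
    · intro y hy n
      change Continuous fun x => (f x : H →L[ℂ] H) (y (ξ n))
      have h1 : (fun x => (f x : H →L[ℂ] H) (y (ξ n))) = fun x => y ((f x : H →L[ℂ] H) (ξ n)) := by
        funext x
        have h2 := VonNeumannAlgebra.mem_commutant_iff.1 hy (f x : H →L[ℂ] H) (f x).2
        exact congrArg (fun T : H →L[ℂ] H => T (ξ n)) h2
      rw [h1]
      refine y.continuous.comp ?_
      rw [continuous_iff_continuousAt]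
      intro x0
      have h3 := hc.tendsto x0
      rw [ContinuousAt, tendsto_iff_norm_sub_tendsto_zero]
      rw [tendsto_iff_norm_sub_tendsto_zero] at h3
      refine squeeze_zero (fun k => norm_nonneg _) (fun k => ?_) h3
      exact lp.norm_apply_le_norm (by simp)
        ((Conc_iota M ξ h (f k) : lp (fun _ : ℕ => H) 2) - (Conc_iota M ξ h (f x0) :
          lp (fun _ : ℕ => H) 2)) n
  have : η ∈ Z := by
    rw [hZ]
    trivial
  exact this

/-- W6e: the converse for bounded functions -/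
theorem two_of_strong (M : VonNeumannAlgebra H) (ξ : ℕ → H) (h : IsTracialFamily M ξ)
    {X : Type v} [TopologicalSpace X] (f : X → Alg M) (C : ℝ) (hC : ∀ x, ‖f x‖ ≤ C)
    (hc : ∀ η : H, Continuous fun x => (f x : H →L[ℂ] H) η) :
    Continuous fun x => (trAlgOf M ξ h).ι (f x) := by
  rw [continuous_iff_continuousAt]
  intro x0
  have h1 : Continuous fun x => ∑' n, ‖((f x : H →L[ℂ] H) - (f x0 : H →L[ℂ] H)) (ξ n)‖ ^ 2 := by
    refine continuous_tsum (u := fun n => (C + C) ^ 2 * ‖ξ n‖ ^ 2) (fun n => ?_)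
      (h.hasSum_norm_sq.summable.mul_left _) (fun n x => ?_)
    · exact (((hc (ξ n)).sub continuous_const).norm).pow 2
    · rw [Real.norm_eq_abs, abs_of_nonneg (by positivity), ← mul_pow]
      refine pow_le_pow_left₀ (norm_nonneg _) ?_ 2
      refine (ContinuousLinearMap.le_opNorm _ _).trans ?_
      refine mul_le_mul_of_nonneg_right ?_ (norm_nonneg _)
      exact (norm_sub_le _ _).trans (add_le_add (hC x) (hC x0))
  have h2 : ∀ x, ‖(trAlgOf M ξ h).ι (f x) - (trAlgOf M ξ h).ι (f x0)‖ ^ 2 =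
      ∑' n, ‖((f x : H →L[ℂ] H) - (f x0 : H →L[ℂ] H)) (ξ n)‖ ^ 2 := by
    intro x
    rw [← map_sub]
    exact (Conc_norm M ξ h (f x - f x0)).tsum_eq.symm
  have h3 : Tendsto (fun x => ‖(trAlgOf M ξ h).ι (f x) - (trAlgOf M ξ h).ι (f x0)‖ ^ 2) (𝓝 x0)
      (𝓝 0) := by
    have h4 := (h1.tendsto x0)
    simp only [h2]
    have h5 : ∑' n, ‖((f x0 : H →L[ℂ] H) - (f x0 : H →L[ℂ] H)) (ξ n)‖ ^ 2 = 0 := by
      rw [sub_self]
      simp
    rw [h5] at h4
    exact h4
  rw [ContinuousAt, tendsto_iff_norm_sub_tendsto_zero]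
  have h5 := (Real.continuous_sqrt.tendsto 0).comp h3
  rw [Real.sqrt_zero] at h5
  refine h5.congr fun x => ?_
  exact Real.sqrt_sq (norm_nonneg _)

end Pool.Agent.AbCoc
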