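import Mathlib

/-!
# Definitions: II₁ factors, actions of locally compact groups, crossed products, cocycles

Von Neumann algebras are Mathlib's `VonNeumannAlgebra H` (a `*`-subalgebra of `H →L[ℂ] H` equal to
its bicommutant). An action of a locally compact group `G` on `M` is given by maps `α g`, `g ∈ G`,
whose restrictions to `M` are `*`-automorphisms of `M`; the values of `α g` outside `M` play no
role.
-/

open MeasureTheory

namespace Pool.Agent.AbCoc

universe u v w

variable {H : Type u} [NormedAddCommGroup H] [InnerProductSpace ℂ H] [CompleteSpace H]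

/-- `x ↦ ∑ n, ⟪ξ n, x (ξ n)⟫` is a faithful normal tracial state on `M`. -/
structure IsTracialFamily (M : VonNeumannAlgebra H) (ξ : ℕ → H) : Prop where
  /-- the functional is a (normal) state -/
  hasSum_norm_sq : HasSum (fun n => ‖ξ n‖ ^ 2) 1
  /-- the state is tracial on `M` -/
  tracial : ∀ x ∈ M, ∀ y ∈ M,
    ∑' n, inner ℂ (ξ n) ((x * y) (ξ n)) = ∑' n, inner ℂ (ξ n) ((y * x) (ξ n))
  /-- the state is faithful on `M` -/
  faithful : ∀ x ∈ M, (∀ n, x (ξ n) = 0) → x = 0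

/-- `M` is a II₁ factor: its centre consists of the scalars, it is infinite-dimensional and it has
a faithful normal tracial state. -/
structure IsII1Factor (M : VonNeumannAlgebra H) : Prop where
  /-- the centre of `M` consists of the scalars -/
  factor : ∀ x ∈ M, (∀ y ∈ M, x * y = y * x) → ∃ c : ℂ, x = c • (1 : H →L[ℂ] H)
  /-- `M` is infinite-dimensional -/
  infinite_dimensional : ¬ FiniteDimensional ℂ M.toStarSubalgebra
  /-- `M` has a faithful normal tracial state -/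
  trace : ∃ ξ : ℕ → H, IsTracialFamily M ξ

variable {G : Type v} [Group G] [TopologicalSpace G]

/-- `α` is a continuous action of the topological group `G` on `M` by `*`-automorphisms. -/
structure IsAction (M : VonNeumannAlgebra H) (α : G → (H →L[ℂ] H) → (H →L[ℂ] H)) : Prop where
  map_mem : ∀ g, ∀ x ∈ M, α g x ∈ M
  map_add : ∀ g, ∀ x ∈ M, ∀ y ∈ M, α g (x + y) = α g x + α g y
  map_mul : ∀ g, ∀ x ∈ M, ∀ y ∈ M, α g (x * y) = α g x * α g y
  map_smul : ∀ g, ∀ c : ℂ, ∀ x ∈ M, α g (c • x) = c • α g x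
  map_star : ∀ g, ∀ x ∈ M, α g (star x) = star (α g x)
  one_act : ∀ x ∈ M, α 1 x = x
  mul_act : ∀ g h, ∀ x ∈ M, α (g * h) x = α g (α h x)
  /-- continuity (this pointwise weak form is the weakest usual one; it follows from the
  continuity of `g ↦ φ ∘ α g` in the norm of the predual for every `φ` in the predual) -/
  continuous_inner : ∀ x ∈ M, ∀ ξ η : H, Continuous fun g => inner ℂ η (α g x ξ)

/-- `v` is a 1-cocycle for `α`: a strongly continuous map from `G` to the unitaries of `M` with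
`v_{gh} = v_g α_g(v_h)`. -/
structure IsCocycle (M : VonNeumannAlgebra H) (α : G → (H →L[ℂ] H) → (H →L[ℂ] H))
    (v : G → (H →L[ℂ] H)) : Prop where
  mem : ∀ g, v g ∈ M
  star_mul_self : ∀ g, star (v g) * v g = 1
  mul_star_self : ∀ g, v g * star (v g) = 1
  cocycle : ∀ g h, v (g * h) = v g * α g (v h)
  continuous_apply : ∀ ξ : H, Continuous fun g => v g ξ

/-- The cocycle perturbation `Ad v ∘ α` is ergodic: every `x ∈ M` with
`v_g α_g(x) v_g^* = x` for all `g` is a scalar. -/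
def PerturbationIsErgodic (M : VonNeumannAlgebra H) (α : G → (H →L[ℂ] H) → (H →L[ℂ] H))
    (v : G → (H →L[ℂ] H)) : Prop :=
  ∀ x ∈ M, (∀ g, v g * α g x * star (v g) = x) → ∃ c : ℂ, x = c • (1 : H →L[ℂ] H)

section crossed
variable [MeasurableSpace G] (μ : Measure G)

/-- The operators `π(x)`, `x ∈ M`, on `L²(G, H)`, given by `(π(x) ξ)(g) = α_{g⁻¹}(x) ξ(g)`. -/
def piOps (M : VonNeumannAlgebra H) (α : G → (H →L[ℂ] H) → (H →L[ℂ] H)) :
    Set (Lp H 2 μ →L[ℂ] Lp H 2 μ) :=
  {T | ∃ x ∈ M, ∀ ξ : Lp H 2 μ, ∀ᵐ g ∂μ, T ξ g = α g⁻¹ x (ξ g)}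

/-- The translation operators `λ_h`, `h ∈ G`, on `L²(G, H)`, given by
`(λ_h ξ)(g) = ξ(h⁻¹ g)`. -/
def translationOps (H : Type u) [NormedAddCommGroup H] [InnerProductSpace ℂ H] :
    Set (Lp H 2 μ →L[ℂ] Lp H 2 μ) :=
  {T | ∃ h : G, ∀ ξ : Lp H 2 μ, ∀ᵐ g ∂μ, T ξ g = ξ (h⁻¹ * g)}

/-- The von Neumann crossed product `M ⋊_α G`: the bicommutant of the self-adjoint set
`π(M) ∪ λ(G)` of operators on `L²(G, H)` (`μ` is a left Haar measure). -/
def crossedProduct (M : VonNeumannAlgebra H) (α : G → (H →L[ℂ] H) → (H →L[ℂ] H)) :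
    Set (Lp H 2 μ →L[ℂ] Lp H 2 μ) :=
  Set.centralizer (Set.centralizer (piOps μ M α ∪ translationOps μ H))

/-- The action `α` is strictly outer: `M' ∩ (M ⋊_α G) = ℂ 1`. -/
def IsStrictlyOuter (M : VonNeumannAlgebra H) (α : G → (H →L[ℂ] H) → (H →L[ℂ] H)) : Prop :=
  ∀ T ∈ crossedProduct μ M α, (∀ S ∈ piOps μ M α, T * S = S * T) →
    ∃ c : ℂ, T = c • (1 : Lp H 2 μ →L[ℂ] Lp H 2 μ)

/-- The crossed product `M ⋊_α G` is a factor. -/
def CrossedProductIsFactor (M : VonNeumannAlgebra H) (α : G → (H →L[ℂ] H) → (H →L[ℂ] H)) : Prop :=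
  ∀ T ∈ crossedProduct μ M α, (∀ S ∈ crossedProduct μ M α, T * S = S * T) →
    ∃ c : ℂ, T = c • (1 : Lp H 2 μ →L[ℂ] Lp H 2 μ)

theorem IsStrictlyOuter.crossedProductIsFactor {M : VonNeumannAlgebra H}
    {α : G → (H →L[ℂ] H) → (H →L[ℂ] H)} (h : IsStrictlyOuter μ M α) :
    CrossedProductIsFactor μ M α := fun T hT hc =>
  h T hT fun S hS => hc S (Set.subset_centralizer_centralizer (Set.mem_union_left _ hS))

end crossed

end Pool.Agent.AbCoc
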