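import Pool.Agent.Lib_MP_418a80_ab.Tr

set_option autoImplicit false
set_option linter.unusedVariables false

open Topology Filter

namespace Pool.Agent.AbCoc

universe u v w

section
variable {A : Type u} [CStarAlgebra A]

/-- `exp (i t h)` -/
noncomputable def ex (t : ℝ) (h : A) : A := NormedSpace.exp ((Complex.I * (t : ℂ)) • h)

private theorem Exp_ex_eq (t : ℝ) (h : A) : ex t h = NormedSpace.exp (t • (Complex.I • h)) := by
  unfold ex
  rw [mul_comm, mul_smul]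
  rfl

theorem ex_zero (h : A) : ex 0 h = 1 := by
  rw [Exp_ex_eq, zero_smul, NormedSpace.exp_zero]

theorem star_ex (t : ℝ) (h : A) (hh : IsSelfAdjoint h) : star (ex t h) = ex (-t) h := by
  unfold ex
  rw [NormedSpace.star_exp, star_smul, hh.star_eq]
  congr 2
  simp

theorem ex_mul_ex_neg (t : ℝ) (h : A) : ex t h * ex (-t) h = 1 := by
  let _ : NormedAlgebra ℚ A := NormedAlgebra.restrictScalars ℚ ℂ A
  rw [Exp_ex_eq, Exp_ex_eq, ← NormedSpace.exp_add_of_commute, neg_smul, add_neg_cancel,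
    NormedSpace.exp_zero]
  rw [neg_smul]
  exact (Commute.refl _).neg_right

theorem ex_neg_mul_ex (t : ℝ) (h : A) : ex (-t) h * ex t h = 1 := by
  have := ex_mul_ex_neg (-t) h
  rwa [neg_neg] at this

theorem map_ex {B : Type v} [CStarAlgebra B] (φ : A →⋆ₐ[ℂ] B) (t : ℝ) (h : A) :
    φ (ex t h) = ex t (φ h) := by
  let _ : NormedAlgebra ℚ A := NormedAlgebra.restrictScalars ℚ ℂ A
  let _ : NormedAlgebra ℚ B := NormedAlgebra.restrictScalars ℚ ℂ B
  have hc : Continuous φ := AddMonoidHomClass.continuous_of_bound φ 1 fun x => by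
    rw [one_mul]
    exact NonUnitalStarAlgHom.norm_apply_le φ x
  unfold ex
  rw [NormedSpace.map_exp φ hc, map_smul]

theorem hasDerivAt_ex (h : A) (t : ℝ) :
    HasDerivAt (fun t : ℝ => ex t h) (ex t h * (Complex.I • h)) t := by
  have h1 := hasDerivAt_exp_smul_const (𝕂 := ℝ) (Complex.I • h) t
  have h2 : (fun t : ℝ => ex t h) = fun u : ℝ => NormedSpace.exp (u • (Complex.I • h)) := by
    funext t
    exact Exp_ex_eq t h
  rw [h2, Exp_ex_eq]
  exact h1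

theorem hasDerivAt_ex' (h : A) (t : ℝ) :
    HasDerivAt (fun t : ℝ => ex t h) ((Complex.I • h) * ex t h) t := by
  have h1 := hasDerivAt_exp_smul_const' (𝕂 := ℝ) (Complex.I • h) t
  have h2 : (fun t : ℝ => ex t h) = fun u : ℝ => NormedSpace.exp (u • (Complex.I • h)) := by
    funext t
    exact Exp_ex_eq t h
  rw [h2, Exp_ex_eq]
  exact h1

private theorem Exp_star_mul (t : ℝ) (h : A) (hh : IsSelfAdjoint h) :
    star (ex t h) * ex t h = 1 := by
  rw [star_ex t h hh, ex_neg_mul_ex]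

private theorem Exp_mul_star (t : ℝ) (h : A) (hh : IsSelfAdjoint h) :
    ex t h * star (ex t h) = 1 := by
  rw [star_ex t h hh, ex_mul_ex_neg]

variable {K : Type v} [NormedAddCommGroup K] [InnerProductSpace ℂ K] (T : TrAlg A K)

/-- W2a: Lipschitz bound in the `2`-norm (Duhamel) -/
theorem norm_ex_sub_le (h k : A) (hh : IsSelfAdjoint h) (hk : IsSelfAdjoint k) (t : ℝ) :
    ‖T.ι (ex t k - ex t h)‖ ≤ |t| * ‖T.ι (k - h)‖ := by
  have hd : ∀ s : ℝ, HasDerivAt (fun s : ℝ => T.ι (ex (s * t) k * ex ((1 - s) * t) h))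
      (T.ι (t • (ex (s * t) k * (Complex.I • (k - h)) * ex ((1 - s) * t) h))) s := by
    intro s
    have h1 : HasDerivAt (fun s : ℝ => ex (s * t) k) (t • (ex (s * t) k * (Complex.I • k))) s := by
      have h3 : HasDerivAt (fun s : ℝ => s * t) t s := by
        simpa using (hasDerivAt_id s).mul_const t
      exact HasDerivAt.scomp s (hasDerivAt_ex k (s * t)) h3
    have h2 : HasDerivAt (fun s : ℝ => ex ((1 - s) * t) h)
        ((-t) • ((Complex.I • h) * ex ((1 - s) * t) h)) s := by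
      have h3 : HasDerivAt (fun s : ℝ => (1 - s) * t) (-t) s := by
        simpa using ((hasDerivAt_id s).const_sub 1).mul_const t
      exact HasDerivAt.scomp s (hasDerivAt_ex' h ((1 - s) * t)) h3
    have h3 := h1.mul h2
    have h4 : t • (ex (s * t) k * (Complex.I • (k - h)) * ex ((1 - s) * t) h) =
        t • (ex (s * t) k * (Complex.I • k)) * ex ((1 - s) * t) h +
          ex (s * t) k * ((-t) • ((Complex.I • h) * ex ((1 - s) * t) h)) := by
      simp only [smul_sub, mul_sub, sub_mul, smul_mul_assoc, mul_smul_comm, neg_smul, mul_neg,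
        mul_assoc]
      abel
    rw [h4]
    exact (T.ι.restrictScalars ℝ).hasFDerivAt.comp_hasDerivAt s h3
  have hb : ∀ s : ℝ, ‖T.ι (t • (ex (s * t) k * (Complex.I • (k - h)) * ex ((1 - s) * t) h))‖ ≤
      |t| * ‖T.ι (k - h)‖ := by
    intro s
    have e1 : T.ι (t • (ex (s * t) k * (Complex.I • (k - h)) * ex ((1 - s) * t) h)) =
        t • T.ι (ex (s * t) k * (Complex.I • (k - h)) * ex ((1 - s) * t) h) :=
      (T.ι.restrictScalars ℝ).map_smul t _
    rw [e1, norm_smul, T.norm_mul_unitary _ (Exp_mul_star _ h hh),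
      T.norm_unitary_mul _ (Exp_star_mul _ k hk), map_smul, norm_smul, Complex.norm_I, one_mul,
      Real.norm_eq_abs]
  have := norm_image_sub_le_of_norm_deriv_le_segment_01'
    (f := fun s : ℝ => T.ι (ex (s * t) k * ex ((1 - s) * t) h))
    (fun s _ => (hd s).hasDerivWithinAt) (fun s _ => hb s)
  simp only [one_mul, sub_self, zero_mul, ex_zero, mul_one, sub_zero] at this
  rwa [← map_sub] at this

private theorem Exp_zero_right (t : ℝ) : ex t (0 : A) = 1 := by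
  unfold ex
  rw [smul_zero, NormedSpace.exp_zero]

private theorem Exp_sub_one (h : A) (hh : IsSelfAdjoint h) (t : ℝ) :
    ‖T.ι (ex t h - 1)‖ ≤ |t| * ‖T.ι h‖ := by
  have := norm_ex_sub_le T 0 h (IsSelfAdjoint.zero A) hh t
  rwa [Exp_zero_right, sub_zero] at this

private theorem Exp_sub_neg (h : A) (hh : IsSelfAdjoint h) (t : ℝ) :
    ‖T.ι (ex (t / 2) h - ex (-(t / 2)) h)‖ ≤ |t| * ‖T.ι h‖ := by
  have h1 := Exp_sub_one T h hh (t / 2)
  have h2 := Exp_sub_one T h hh (-(t / 2))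
  have e : ex (t / 2) h - ex (-(t / 2)) h = (ex (t / 2) h - 1) - (ex (-(t / 2)) h - 1) := by abel
  rw [e, map_sub]
  refine (norm_sub_le _ _).trans ((add_le_add h1 h2).trans (le_of_eq ?_))
  rw [abs_neg, abs_div, abs_two]
  ring

private theorem Exp_sub_sub (h k : A) (hh : IsSelfAdjoint h) (hk : IsSelfAdjoint k) (t : ℝ) :
    ‖T.ι ((ex (t / 2) k - ex (-(t / 2)) k) - (ex (t / 2) h - ex (-(t / 2)) h))‖ ≤
      |t| * ‖T.ι (k - h)‖ := by
  have h1 := norm_ex_sub_le T h k hh hk (t / 2)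
  have h2 := norm_ex_sub_le T h k hh hk (-(t / 2))
  have e : (ex (t / 2) k - ex (-(t / 2)) k) - (ex (t / 2) h - ex (-(t / 2)) h) =
      (ex (t / 2) k - ex (t / 2) h) - (ex (-(t / 2)) k - ex (-(t / 2)) h) := by abel
  rw [e, map_sub]
  refine (norm_sub_le _ _).trans ((add_le_add h1 h2).trans (le_of_eq ?_))
  rw [abs_neg, abs_div, abs_two]
  ring

private theorem Exp_add (s t : ℝ) (h : A) : ex s h * ex t h = ex (s + t) h := by
  let _ : NormedAlgebra ℚ A := NormedAlgebra.restrictScalars ℚ ℂ A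
  rw [Exp_ex_eq, Exp_ex_eq, Exp_ex_eq, ← NormedSpace.exp_add_of_commute, ← add_smul]
  exact ((Commute.refl _).smul_left _).smul_right _

private theorem Exp_sq (t : ℝ) (h : A) :
    (ex (t / 2) h - ex (-(t / 2)) h) * (ex (t / 2) h - ex (-(t / 2)) h) =
      ex t h + ex (-t) h - 2 := by
  have e1 : ex (t / 2) h * ex (t / 2) h = ex t h := by
    rw [Exp_add]
    congr 1
    ring
  have e2 : ex (-(t / 2)) h * ex (-(t / 2)) h = ex (-t) h := by
    rw [Exp_add]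
    congr 1
    ring
  rw [sub_mul, mul_sub, mul_sub, e1, e2, ex_mul_ex_neg, ex_neg_mul_ex]
  have : (2 : A) = 1 + 1 := by norm_num
  rw [this]
  abel

/-- `|re ⟨ι u, ι (x y v)⟩| ≤ ‖ι x‖ ‖ι y‖` -/
private theorem Exp_re_le (u v x y : A) (hu' : u * star u = 1) (hv' : v * star v = 1) :
    |(inner ℂ (T.ι u) (T.ι (x * y * v))).re| ≤ ‖T.ι x‖ * ‖T.ι y‖ := by
  rw [mul_assoc, ← T.left']
  refine (Complex.abs_re_le_norm _).trans ((norm_inner_le_norm _ _).trans (le_of_eq ?_))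
  rw [T.norm_mul_unitary u hu', T.norm_mul_unitary v hv', T.norm_star]

/-- W2b: second difference of the penalty -/
theorem penalty_second_diff (h k : A) (hh : IsSelfAdjoint h) (hk : IsSelfAdjoint k) (u v : A)
    (hu : star u * u = 1) (hu' : u * star u = 1) (hv : star v * v = 1) (hv' : v * star v = 1)
    (t : ℝ) :
    |(inner ℂ (T.ι (ex t h * u)) (T.ι (ex t k * v))).re
      + (inner ℂ (T.ι (ex (-t) h * u)) (T.ι (ex (-t) k * v))).re
      - 2 * (inner ℂ (T.ι u) (T.ι v)).re| ≤ 4 * t ^ 2 * (‖T.ι h‖ * ‖T.ι (k - h)‖)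
      + 4 * t ^ 2 * (‖T.ι (k - h)‖ * ‖T.ι k‖) := by
  set P := ex (t / 2) k - ex (-(t / 2)) k with hP
  set Q := ex (t / 2) h - ex (-(t / 2)) h with hQ
  have e1 : inner ℂ (T.ι (ex t h * u)) (T.ι (ex t k * v)) =
      inner ℂ (T.ι u) (T.ι (ex (-t) h * ex t k * v)) := by
    rw [T.left, star_ex t h hh, mul_assoc]
  have e2 : inner ℂ (T.ι (ex (-t) h * u)) (T.ι (ex (-t) k * v)) =
      inner ℂ (T.ι u) (T.ι (ex t h * ex (-t) k * v)) := by
    rw [T.left, star_ex (-t) h hh, neg_neg, mul_assoc]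
  have e3 : ex (-t) h * ex t k + ex t h * ex (-t) k - 2 =
      (P * (P - Q) + (P - Q) * Q) + ((ex (-t) h - 1) * (ex t k - ex t h) +
        (ex t h - 1) * (ex (-t) k - ex (-t) h)) := by
    have a1 : P * (P - Q) + (P - Q) * Q = P * P - Q * Q := by noncomm_ring
    rw [a1, hP, hQ, Exp_sq, Exp_sq]
    have a2 : (ex (-t) h - 1) * (ex t k - ex t h) =
        ex (-t) h * ex t k - ex t k + ex t h - ex (-t) h * ex t h := by noncomm_ring
    have a3 : (ex t h - 1) * (ex (-t) k - ex (-t) h) =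
        ex t h * ex (-t) k - ex (-t) k + ex (-t) h - ex t h * ex (-t) h := by noncomm_ring
    rw [a2, a3, ex_neg_mul_ex, ex_mul_ex_neg]
    have : (2 : A) = 1 + 1 := by norm_num
    rw [this]
    abel
  have e4 : (inner ℂ (T.ι (ex t h * u)) (T.ι (ex t k * v))).re
      + (inner ℂ (T.ι (ex (-t) h * u)) (T.ι (ex (-t) k * v))).re
      - 2 * (inner ℂ (T.ι u) (T.ι v)).re =
      ((inner ℂ (T.ι u) (T.ι (P * (P - Q) * v))).re +
        (inner ℂ (T.ι u) (T.ι ((P - Q) * Q * v))).re) +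
      ((inner ℂ (T.ι u) (T.ι ((ex (-t) h - 1) * (ex t k - ex t h) * v))).re +
        (inner ℂ (T.ι u) (T.ι ((ex t h - 1) * (ex (-t) k - ex (-t) h) * v))).re) := by
    rw [e1, e2]
    have b1 : 2 * (inner ℂ (T.ι u) (T.ι v)).re = (inner ℂ (T.ι u) (T.ι (2 * v))).re := by
      rw [two_mul (v : A), map_add, inner_add_right, Complex.add_re]
      ring
    rw [b1, ← Complex.add_re, ← inner_add_right, ← map_add, ← Complex.sub_re, ← inner_sub_right,
      ← map_sub, ← add_mul, ← sub_mul, e3]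
    simp only [add_mul, map_add, inner_add_right, Complex.add_re]
  rw [e4]
  have c1 := Exp_re_le T u v P (P - Q) hu' hv'
  have c2 := Exp_re_le T u v (P - Q) Q hu' hv'
  have c3 := Exp_re_le T u v (ex (-t) h - 1) (ex t k - ex t h) hu' hv'
  have c4 := Exp_re_le T u v (ex t h - 1) (ex (-t) k - ex (-t) h) hu' hv'
  have nP : ‖T.ι P‖ ≤ |t| * ‖T.ι k‖ := Exp_sub_neg T k hk t
  have nQ : ‖T.ι Q‖ ≤ |t| * ‖T.ι h‖ := Exp_sub_neg T h hh t
  have nPQ : ‖T.ι (P - Q)‖ ≤ |t| * ‖T.ι (k - h)‖ := Exp_sub_sub T h k hh hk t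
  have n1 : ‖T.ι (ex (-t) h - 1)‖ ≤ |t| * ‖T.ι h‖ := by
    have := Exp_sub_one T h hh (-t)
    rwa [abs_neg] at this
  have n2 : ‖T.ι (ex t h - 1)‖ ≤ |t| * ‖T.ι h‖ := Exp_sub_one T h hh t
  have n3 : ‖T.ι (ex t k - ex t h)‖ ≤ |t| * ‖T.ι (k - h)‖ := norm_ex_sub_le T h k hh hk t
  have n4 : ‖T.ι (ex (-t) k - ex (-t) h)‖ ≤ |t| * ‖T.ι (k - h)‖ := by
    have := norm_ex_sub_le T h k hh hk (-t)
    rwa [abs_neg] at this
  have ht : 0 ≤ |t| := abs_nonneg t
  have hsq : |t| * |t| = t ^ 2 := by rw [← sq, sq_abs]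
  have x := norm_nonneg (T.ι h)
  have y := norm_nonneg (T.ι k)
  have z := norm_nonneg (T.ι (k - h))
  have d1 : ‖T.ι P‖ * ‖T.ι (P - Q)‖ ≤ t ^ 2 * (‖T.ι (k - h)‖ * ‖T.ι k‖) := by
    refine (mul_le_mul nP nPQ (norm_nonneg _) (by positivity)).trans (le_of_eq ?_)
    rw [← hsq]
    ring
  have d2 : ‖T.ι (P - Q)‖ * ‖T.ι Q‖ ≤ t ^ 2 * (‖T.ι h‖ * ‖T.ι (k - h)‖) := by
    refine (mul_le_mul nPQ nQ (norm_nonneg _) (by positivity)).trans (le_of_eq ?_)
    rw [← hsq]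
    ring
  have d3 : ‖T.ι (ex (-t) h - 1)‖ * ‖T.ι (ex t k - ex t h)‖ ≤
      t ^ 2 * (‖T.ι h‖ * ‖T.ι (k - h)‖) := by
    refine (mul_le_mul n1 n3 (norm_nonneg _) (by positivity)).trans (le_of_eq ?_)
    rw [← hsq]
    ring
  have d4 : ‖T.ι (ex t h - 1)‖ * ‖T.ι (ex (-t) k - ex (-t) h)‖ ≤
      t ^ 2 * (‖T.ι h‖ * ‖T.ι (k - h)‖) := by
    refine (mul_le_mul n2 n4 (norm_nonneg _) (by positivity)).trans (le_of_eq ?_)
    rw [← hsq]
    ring
  have q1 : 0 ≤ t ^ 2 * (‖T.ι h‖ * ‖T.ι (k - h)‖) := by positivity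
  have q2 : 0 ≤ t ^ 2 * (‖T.ι (k - h)‖ * ‖T.ι k‖) := by positivity
  refine (abs_add_le _ _).trans ?_
  have r1 := (abs_add_le (inner ℂ (T.ι u) (T.ι (P * (P - Q) * v))).re
    (inner ℂ (T.ι u) (T.ι ((P - Q) * Q * v))).re)
  have r2 := (abs_add_le (inner ℂ (T.ι u) (T.ι ((ex (-t) h - 1) * (ex t k - ex t h) * v))).re
    (inner ℂ (T.ι u) (T.ι ((ex t h - 1) * (ex (-t) k - ex (-t) h) * v))).re)
  linarith

/-- W2c: second difference of a bounded linear term -/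
theorem linear_second_diff (h : A) (hh : IsSelfAdjoint h) (u z : A)
    (hu : star u * u = 1) (hu' : u * star u = 1) (t : ℝ) :
    |(inner ℂ (T.ι z) (T.ι (ex t h * u))).re + (inner ℂ (T.ι z) (T.ι (ex (-t) h * u))).re
      - 2 * (inner ℂ (T.ι z) (T.ι u)).re| ≤ ‖z‖ * (t ^ 2 * ‖T.ι h‖ ^ 2) := by
  set Q := ex (t / 2) h - ex (-(t / 2)) h with hQ
  have nQ : ‖T.ι Q‖ ≤ |t| * ‖T.ι h‖ := Exp_sub_neg T h hh t
  have e1 : (inner ℂ (T.ι z) (T.ι (ex t h * u))).re + (inner ℂ (T.ι z) (T.ι (ex (-t) h * u))).re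
      - 2 * (inner ℂ (T.ι z) (T.ι u)).re = (inner ℂ (T.ι z) (T.ι (Q * (Q * u)))).re := by
    have b1 : 2 * (inner ℂ (T.ι z) (T.ι u)).re = (inner ℂ (T.ι z) (T.ι (2 * u))).re := by
      rw [two_mul (u : A), map_add, inner_add_right, Complex.add_re]
      ring
    rw [b1, ← Complex.add_re, ← inner_add_right, ← map_add, ← Complex.sub_re, ← inner_sub_right,
      ← map_sub, ← add_mul, ← sub_mul, ← mul_assoc, hQ, Exp_sq]
  rw [e1, ← T.left']
  refine (Complex.abs_re_le_norm _).trans ((norm_inner_le_norm _ _).trans ?_)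
  rw [T.norm_mul_unitary u hu']
  have h1 : ‖T.ι (star Q * z)‖ ≤ ‖T.ι Q‖ * ‖z‖ := by
    refine (T.mul_le' _ _).trans (le_of_eq ?_)
    rw [T.norm_star]
  calc ‖T.ι (star Q * z)‖ * ‖T.ι Q‖ ≤ (‖T.ι Q‖ * ‖z‖) * ‖T.ι Q‖ :=
        mul_le_mul_of_nonneg_right h1 (norm_nonneg _)
    _ = ‖z‖ * (‖T.ι Q‖ * ‖T.ι Q‖) := by ring
    _ ≤ ‖z‖ * ((|t| * ‖T.ι h‖) * (|t| * ‖T.ι h‖)) :=
        mul_le_mul_of_nonneg_left (mul_self_le_mul_self (norm_nonneg _) nQ) (norm_nonneg _)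
    _ = ‖z‖ * (t ^ 2 * ‖T.ι h‖ ^ 2) := by
        rw [← sq_abs t]
        ring

end

end Pool.Agent.AbCoc
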