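import Pool.Agent.Lib_MP_418a80_ab.Cond

set_option autoImplicit false
set_option linter.unusedVariables false
set_option linter.unusedSectionVars false

/-!
# Hypotheses with families, for an arbitrary topological group

`StepADom` implies `StepATyp` (`FamDom.lean`), and `StepATyp` implies `Key` (`FamKey.lean`).
-/

open Topology Filter MeasureTheory

namespace Pool.Agent.AbCoc

universe u v w

variable {A : Type u} [CStarAlgebra A] {K : Type v} [NormedAddCommGroup K]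
  [InnerProductSpace ℂ K] [CompleteSpace K]
  {G : Type w} [Group G] [TopologicalSpace G] {T : TrAlg A K}

/-- near-invariant families in every corner, almost orthogonal to the fixed point algebra, bounded
below, and dominated by a constant which does not depend on the compact set and on `κ` -/
def TrAct.StepADom (S : TrAct G T) : Prop :=
  ∀ b1 b2 : A, S.Fixed b1 → S.Fixed b2 → IsSelfAdjoint b1 → IsSelfAdjoint b2 → b1 ≠ 0 → b2 ≠ 0 →
    ∃ C c0 : ℝ, 0 < c0 ∧ ∀ D : Set G, IsCompact D → ∀ κ : ℝ, 0 < κ →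
      ∃ (J : Type) (_ : Fintype J) (a x : J → A), (∀ i, a i = b1 * x i * b2) ∧
        c0 ≤ ∑ i, ‖T.ι (a i)‖ ^ 2 ∧
        ∑ i, ‖T.ι (S.E (a i))‖ ^ 2 ≤ κ ∧
        (∀ s ∈ D, ∑ i, ‖T.ι (S.α s (a i) - a i)‖ ^ 2 ≤ κ) ∧
        (∀ z : A, ∑ i, ‖T.ι (a i * z)‖ ^ 2 ≤ C * ‖T.ι z‖ ^ 2) ∧
        (∀ z : A, ∑ i, ‖T.ι (z * a i)‖ ^ 2 ≤ C * ‖T.ι z‖ ^ 2)

/-- near-invariant families in every corner, almost orthogonal to the fixed point algebra, bounded
below, whose densities are almost supported on the fixed point algebra -/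
def TrAct.StepATyp (S : TrAct G T) : Prop :=
  ∀ b1 b2 : A, S.Fixed b1 → S.Fixed b2 → IsSelfAdjoint b1 → IsSelfAdjoint b2 → b1 ≠ 0 → b2 ≠ 0 →
    ∀ D : Set G, IsCompact D → ∀ κ : ℝ, 0 < κ → ∀ (Y : Type) [Fintype Y] (y : Y → A),
      ∃ (J : Type) (_ : Fintype J) (a x : J → A), (∀ i, a i = b1 * x i * b2) ∧
        1 ≤ ∑ i, ‖T.ι (a i)‖ ^ 2 ∧
        ∑ i, ‖T.ι (S.E (a i))‖ ^ 2 ≤ κ ∧
        (∀ s ∈ D, ∑ i, ‖T.ι (S.α s (a i) - a i)‖ ^ 2 ≤ κ) ∧
        ∀ j, ‖∑ i, inner ℂ (T.ι (star (a i) * a i + a i * star (a i)))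
          (T.ι (y j - S.E (y j)))‖ ≤ κ

end Pool.Agent.AbCoc
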