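import Pool.Agent.Lib_MP_418a80_ab.StepC4
import Pool.Agent.Lib_MP_418a80_ab.FamDefs

set_option autoImplicit false
set_option linter.unusedVariables false
set_option linter.unusedSectionVars false

open Topology Filter MeasureTheory

namespace Pool.Agent.AbCoc

universe u v w

section
variable {A : Type u} [CStarAlgebra A] {K : Type v} [NormedAddCommGroup K]
  [InnerProductSpace ℂ K] [CompleteSpace K]
variable {G : Type w} [Group G] [TopologicalSpace G] {T : TrAlg A K} (S : TrAct G T)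

theorem TrAlg.norm_comm_le (T : TrAlg A K) (a y : A) :
    ‖T.ι (a * y - y * a)‖ ≤ 2 * ‖T.ι a‖ * ‖y‖ := by
  rw [map_sub]
  refine (norm_sub_le _ _).trans ?_
  have h1 := T.mul_le' a y
  have h2 := T.mul_le y a
  nlinarith

/-- `E(a y)` for a nearly invariant `a` -/
theorem TrAct.E_mul_fam (F : Finset G) (w : G → ℝ) (hw : ∀ g, 0 ≤ w g)
    (hs : ∑ g ∈ F, w g = 1) (a y : A) :
    ‖T.ι (S.E (a * y))‖ ≤ ‖T.ι (a * (S.avg F w y - S.E y))‖
      + ‖y‖ * ∑ g ∈ F, w g * ‖T.ι (S.α g a - a)‖ + ‖S.E y‖ * ‖T.ι (S.E a)‖ := by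
  have h1 : S.E (a * y) = S.E (a * (S.avg F w y - S.E y))
      + ∑ g ∈ F, (w g : ℂ) • S.E ((S.α g a - a) * S.α g y) + S.E a * S.E y := by
    have h2 : S.E (a * (S.avg F w y - S.E y)) + S.E a * S.E y = S.E (a * S.avg F w y) := by
      rw [mul_sub, S.E_sub, S.E_mul_right (S.E_fixed y), sub_add_cancel]
    have h3 : S.E (a * S.avg F w y) = ∑ g ∈ F, (w g : ℂ) • S.E (a * S.α g y) := by
      unfold TrAct.avg
      rw [Finset.mul_sum, S.E_sum]
      refine Finset.sum_congr rfl fun g _ => ?_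
      have e : w g • S.α g y = (w g : ℂ) • S.α g y := rfl
      rw [e, mul_smul_comm, S.E_smul]
    have h4 : ∀ g, S.E (a * S.α g y) + S.E ((S.α g a - a) * S.α g y) = S.E (a * y) := by
      intro g
      rw [← S.E_add, ← add_mul, add_sub_cancel, ← map_mul, S.E_α]
    rw [add_assoc, add_comm (∑ g ∈ F, _) (S.E a * S.E y), ← add_assoc, h2, h3,
      ← Finset.sum_add_distrib]
    simp only [← smul_add, h4]
    rw [← Finset.sum_smul, ← Complex.ofReal_sum, hs, Complex.ofReal_one, one_smul]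
  rw [h1, map_add, map_add]
  refine (norm_add_le _ _).trans (add_le_add ((norm_add_le _ _).trans
    (add_le_add (S.norm_E_le _) ?_)) ?_)
  · rw [map_sum]
    refine (norm_sum_le _ _).trans ?_
    rw [Finset.mul_sum]
    refine Finset.sum_le_sum fun g _ => ?_
    rw [map_smul, norm_smul, Complex.norm_real, Real.norm_eq_abs, abs_of_nonneg (hw g)]
    have h6 : ‖T.ι (S.E ((S.α g a - a) * S.α g y))‖ ≤ ‖T.ι (S.α g a - a)‖ * ‖y‖ := by
      refine (S.norm_E_le _).trans ((T.mul_le' _ _).trans ?_)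
      exact mul_le_mul_of_nonneg_left (S.norm_le g y) (norm_nonneg _)
    have := mul_le_mul_of_nonneg_left h6 (hw g)
    linarith
  · rw [mul_comm]
    exact T.mul_le' _ _

/-- the bound for the `E`-terms -/
theorem TrAct.E_comm_fam (F : Finset G) (w : G → ℝ) (hw : ∀ g, 0 ≤ w g)
    (hs : ∑ g ∈ F, w g = 1) (a y : A) (hy : IsSelfAdjoint y) (r : ℝ)
    (hr : r = ∑ g ∈ F, w g * ‖T.ι (S.α g a - a)‖) :
    ‖T.ι (S.E (a * y - y * a))‖ ^ 2 + ‖T.ι (S.E (star a * y - y * star a))‖ ^ 2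
      ≤ 8 * (‖T.ι (a * (S.avg F w y - S.E y))‖ ^ 2
          + ‖T.ι (star a * (S.avg F w y - S.E y))‖ ^ 2)
        + 32 * ((‖y‖ ^ 2 + ‖S.E y‖ ^ 2) * (r ^ 2 + ‖T.ι (S.E a)‖ ^ 2)) := by
  have hr' : ∑ g ∈ F, w g * ‖T.ι (S.α g (star a) - star a)‖ = r := by
    rw [hr]
    refine Finset.sum_congr rfl fun g _ => ?_
    rw [map_star, ← star_sub, T.norm_star]
  have b1 := S.E_mul_fam F w hw hs a y
  have b2 := S.E_mul_fam F w hw hs (star a) y
  rw [← hr] at b1
  rw [hr', S.E_star, T.norm_star] at b2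
  have c1 : ‖T.ι (S.E (y * a))‖ = ‖T.ι (S.E (star a * y))‖ := by
    have : S.E (y * a) = star (S.E (star a * y)) := by
      rw [← S.E_star, star_mul, hy.star_eq, star_star]
    rw [this, T.norm_star]
  have c2 : ‖T.ι (S.E (y * star a))‖ = ‖T.ι (S.E (a * y))‖ := by
    have : S.E (y * star a) = star (S.E (a * y)) := by
      rw [← S.E_star, star_mul, hy.star_eq]
    rw [this, T.norm_star]
  have n1 : ‖T.ι (S.E (a * y - y * a))‖ ≤ ‖T.ι (S.E (a * y))‖ + ‖T.ι (S.E (star a * y))‖ := by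
    rw [S.E_sub, map_sub, ← c1]
    exact norm_sub_le _ _
  have n2 : ‖T.ι (S.E (star a * y - y * star a))‖
      ≤ ‖T.ι (S.E (a * y))‖ + ‖T.ι (S.E (star a * y))‖ := by
    rw [S.E_sub, map_sub, ← c2, add_comm]
    exact norm_sub_le _ _
  have hr0 : 0 ≤ r := by
    rw [hr]
    exact Finset.sum_nonneg fun g _ => mul_nonneg (hw g) (norm_nonneg _)
  set u1 := ‖T.ι (a * (S.avg F w y - S.E y))‖ with hu1
  set u2 := ‖T.ι (star a * (S.avg F w y - S.E y))‖ with hu2
  set Y := ‖y‖ with hY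
  set P := ‖S.E y‖ with hP
  set e := ‖T.ι (S.E a)‖ with he
  have hu1' : 0 ≤ u1 := norm_nonneg _
  have hu2' : 0 ≤ u2 := norm_nonneg _
  have hY' : 0 ≤ Y := norm_nonneg _
  have hP' : 0 ≤ P := norm_nonneg _
  have he' : 0 ≤ e := norm_nonneg _
  have b3 : ‖T.ι (S.E (a * y))‖ + ‖T.ι (S.E (star a * y))‖
      ≤ (u1 + u2) + 2 * (Y * r + P * e) := by linarith
  have p1 := pow_le_pow_left₀ (norm_nonneg _) (n1.trans b3) 2
  have p2 := pow_le_pow_left₀ (norm_nonneg _) (n2.trans b3) 2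
  have q1 : (Y * r + P * e) ^ 2 ≤ (Y ^ 2 + P ^ 2) * (r ^ 2 + e ^ 2) := by
    nlinarith [sq_nonneg (Y * e - P * r)]
  nlinarith [sq_nonneg (u1 - u2), sq_nonneg (u1 + u2 - 2 * (Y * r + P * e)), sq_nonneg (u1 + u2),
    mul_nonneg (add_nonneg (sq_nonneg Y) (sq_nonneg P)) (add_nonneg (sq_nonneg r) (sq_nonneg e))]

/-- lower bound for the quadratic form -/
theorem TrAct.q_lower (F : Finset G) (w : G → ℝ) (hw : ∀ g, 0 ≤ w g)
    (hs : ∑ g ∈ F, w g = 1) (p y a : A) (hp : S.Fixed p) :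
    1 / 2 * ‖T.ι (a * p - p * a)‖ ^ 2
      ≤ T.q p y a + (‖T.ι (a * (S.avg F w y - p))‖ ^ 2 + ‖T.ι ((S.avg F w y - p) * a)‖ ^ 2)
        + 8 * (‖p‖ * ‖y‖ * (‖T.ι a‖ * ∑ g ∈ F, w g * ‖T.ι (S.α g a - a)‖)) := by
  -- one translate
  have h1 : ∀ g, (inner ℂ (T.ι (a * p - p * a)) (T.ι (a * S.α g y - S.α g y * a))).re
      ≤ T.q p y a + 8 * (‖p‖ * ‖y‖ * (‖T.ι a‖ * ‖T.ι (S.α g a - a)‖)) := by
    intro g
    have e1 : T.q p y a = (inner ℂ (T.ι (S.α g a * p - p * S.α g a))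
        (T.ι (S.α g a * S.α g y - S.α g y * S.α g a))).re := by
      unfold TrAlg.q
      have h2 : S.α g a * p - p * S.α g a = S.α g (a * p - p * a) := by
        rw [map_sub, map_mul, map_mul, hp g]
      have h3 : S.α g a * S.α g y - S.α g y * S.α g a = S.α g (a * y - y * a) := by
        rw [map_sub, map_mul, map_mul]
      rw [h2, h3, S.inner_map]
    set b := S.α g a with hb
    set z := S.α g y with hz
    have hzn : ‖z‖ ≤ ‖y‖ := S.norm_le g y
    have hbn : ‖T.ι b‖ = ‖T.ι a‖ := S.norm_map g a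
    have e2 : T.ι (a * p - p * a) = T.ι (b * p - p * b) - T.ι ((b - a) * p - p * (b - a)) := by
      rw [← map_sub]
      congr 1
      noncomm_ring
    have e3 : T.ι (a * z - z * a) = T.ι (b * z - z * b) - T.ι ((b - a) * z - z * (b - a)) := by
      rw [← map_sub]
      congr 1
      noncomm_ring
    have e4 : inner ℂ (T.ι (a * p - p * a)) (T.ι (a * z - z * a))
        = inner ℂ (T.ι (b * p - p * b)) (T.ι (b * z - z * b))
          - inner ℂ (T.ι ((b - a) * p - p * (b - a))) (T.ι (b * z - z * b))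
          - inner ℂ (T.ι (a * p - p * a)) (T.ι ((b - a) * z - z * (b - a))) := by
      rw [e3, inner_sub_right, e2, inner_sub_left, inner_sub_left]
    have f1 : |(inner ℂ (T.ι ((b - a) * p - p * (b - a))) (T.ι (b * z - z * b))).re|
        ≤ 4 * (‖p‖ * ‖y‖ * (‖T.ι a‖ * ‖T.ι (b - a)‖)) := by
      refine (Complex.abs_re_le_norm _).trans ((norm_inner_le_norm _ _).trans ?_)
      have g1 := T.norm_comm_le (b - a) p
      have g2 := T.norm_comm_le b z
      rw [hbn] at g2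
      have g3 : 2 * ‖T.ι a‖ * ‖z‖ ≤ 2 * ‖T.ι a‖ * ‖y‖ :=
        mul_le_mul_of_nonneg_left hzn (by positivity)
      have := mul_le_mul g1 (g2.trans g3) (norm_nonneg _) (by positivity)
      linarith
    have f2 : |(inner ℂ (T.ι (a * p - p * a)) (T.ι ((b - a) * z - z * (b - a)))).re|
        ≤ 4 * (‖p‖ * ‖y‖ * (‖T.ι a‖ * ‖T.ι (b - a)‖)) := by
      refine (Complex.abs_re_le_norm _).trans ((norm_inner_le_norm _ _).trans ?_)
      have g1 := T.norm_comm_le a p
      have g2 := T.norm_comm_le (b - a) z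
      have g3 : 2 * ‖T.ι (b - a)‖ * ‖z‖ ≤ 2 * ‖T.ι (b - a)‖ * ‖y‖ :=
        mul_le_mul_of_nonneg_left hzn (by positivity)
      have := mul_le_mul g1 (g2.trans g3) (norm_nonneg _) (by positivity)
      linarith
    rw [e4, Complex.sub_re, Complex.sub_re, e1]
    have f1' := abs_le.1 f1
    have f2' := abs_le.1 f2
    linarith [f1'.1, f2'.1]
  -- average
  have h2 : (inner ℂ (T.ι (a * p - p * a))
      (T.ι (a * S.avg F w y - S.avg F w y * a))).re
      ≤ T.q p y a + 8 * (‖p‖ * ‖y‖ * (‖T.ι a‖ * ∑ g ∈ F, w g * ‖T.ι (S.α g a - a)‖)) := by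
    have e5 : T.ι (a * S.avg F w y - S.avg F w y * a)
        = ∑ g ∈ F, (w g : ℂ) • T.ι (a * S.α g y - S.α g y * a) := by
      have : a * S.avg F w y - S.avg F w y * a
          = ∑ g ∈ F, (w g : ℂ) • (a * S.α g y - S.α g y * a) := by
        unfold TrAct.avg
        rw [Finset.mul_sum, Finset.sum_mul, ← Finset.sum_sub_distrib]
        refine Finset.sum_congr rfl fun g _ => ?_
        have e : w g • S.α g y = (w g : ℂ) • S.α g y := rfl
        rw [e, mul_smul_comm, smul_mul_assoc, smul_sub]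
      rw [this, map_sum]
      refine Finset.sum_congr rfl fun g _ => ?_
      rw [map_smul]
    have e6 : (inner ℂ (T.ι (a * p - p * a))
        (T.ι (a * S.avg F w y - S.avg F w y * a))).re
        = ∑ g ∈ F, w g * (inner ℂ (T.ι (a * p - p * a))
          (T.ι (a * S.α g y - S.α g y * a))).re := by
      rw [e5, inner_sum, Complex.re_sum]
      refine Finset.sum_congr rfl fun g _ => ?_
      rw [inner_smul_right, Complex.re_ofReal_mul]
    rw [e6]
    calc ∑ g ∈ F, w g * (inner ℂ (T.ι (a * p - p * a)) (T.ι (a * S.α g y - S.α g y * a))).re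
        ≤ ∑ g ∈ F, w g * (T.q p y a + 8 * (‖p‖ * ‖y‖ * (‖T.ι a‖ * ‖T.ι (S.α g a - a)‖))) :=
          Finset.sum_le_sum fun g _ => mul_le_mul_of_nonneg_left (h1 g) (hw g)
      _ = (∑ g ∈ F, w g) * T.q p y a
          + 8 * (‖p‖ * ‖y‖ * (‖T.ι a‖ * ∑ g ∈ F, w g * ‖T.ι (S.α g a - a)‖)) := by
          rw [Finset.sum_mul, Finset.mul_sum, Finset.mul_sum, Finset.mul_sum,
            ← Finset.sum_add_distrib]
          refine Finset.sum_congr rfl fun g _ => ?_
          ring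
      _ = _ := by rw [hs, one_mul]
  -- replace the average by `p`
  set d := S.avg F w y - p with hd
  have e7 : T.ι (a * S.avg F w y - S.avg F w y * a)
      = T.ι (a * p - p * a) + (T.ι (a * d) - T.ι (d * a)) := by
    rw [← map_sub, ← map_add, hd]
    congr 1
    noncomm_ring
  rw [e7, inner_add_right, Complex.add_re] at h2
  have h3 : (inner ℂ (T.ι (a * p - p * a)) (T.ι (a * p - p * a))).re
      = ‖T.ι (a * p - p * a)‖ ^ 2 := by
    rw [inner_self_eq_norm_sq_to_K]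
    norm_cast
  have h4 : -(‖T.ι (a * p - p * a)‖ * (‖T.ι (a * d)‖ + ‖T.ι (d * a)‖))
      ≤ (inner ℂ (T.ι (a * p - p * a)) (T.ι (a * d) - T.ι (d * a))).re := by
    have h5 : |(inner ℂ (T.ι (a * p - p * a)) (T.ι (a * d) - T.ι (d * a))).re|
        ≤ ‖T.ι (a * p - p * a)‖ * (‖T.ι (a * d)‖ + ‖T.ι (d * a)‖) := by
      refine (Complex.abs_re_le_norm _).trans ((norm_inner_le_norm _ _).trans ?_)
      exact mul_le_mul_of_nonneg_left (norm_sub_le _ _) (norm_nonneg _)
    exact (abs_le.1 h5).1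
  rw [h3] at h2
  nlinarith [sq_nonneg (‖T.ι (a * p - p * a)‖ - (‖T.ι (a * d)‖ + ‖T.ι (d * a)‖)),
    sq_nonneg (‖T.ι (a * d)‖ - ‖T.ι (d * a)‖)]

end

end Pool.Agent.AbCoc
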