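import Pool.Agent.Lib_MP_418a80_ab.Vari
import Pool.Agent.Lib_MP_418a80_ab.BP

set_option autoImplicit false
set_option linter.unusedVariables false
set_option linter.unusedSectionVars false

open Topology Filter MeasureTheory

namespace Pool.Agent.AbCoc

universe u v w

section
variable {A : Type u} [CStarAlgebra A] {K : Type v} [NormedAddCommGroup K]
  [InnerProductSpace ℂ K] [CompleteSpace K]

/-- the set of unitaries is complete for the `2`-norm -/
theorem TrAlg.unitary_complete (T : TrAlg A K)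
    (s : ℕ → {u : A // star u * u = 1 ∧ u * star u = 1})
    (hs : CauchySeq (fun n => T.ι (s n).1)) :
    ∃ x : {u : A // star u * u = 1 ∧ u * star u = 1},
      Tendsto (fun n => T.ι (s n).1) atTop (𝓝 (T.ι x.1)) := by
  have hn : ∀ n, ‖(s n).1‖ ≤ 1 := fun n => by
    have h1 : ‖star (s n).1 * (s n).1‖ = ‖(s n).1‖ * ‖(s n).1‖ := CStarRing.norm_star_mul_self
    rw [(s n).2.1] at h1
    have h2 : ‖(1 : A)‖ ≤ 1 := by
      rcases subsingleton_or_nontrivial A with h | h
      · rw [Subsingleton.elim (1 : A) 0, norm_zero]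
        exact zero_le_one
      · exact CStarRing.norm_one.le
    nlinarith [norm_nonneg (s n).1]
  obtain ⟨y, hy⟩ := T.complete 1 _ hn hs
  have hy' := T.tendsto_star hy
  have h1 := T.tendsto_mul 1 (fun n => by rw [_root_.norm_star]; exact hn n) hy' hy
  have h2 := T.tendsto_mul 1 hn hy hy'
  refine ⟨⟨y, ?_, ?_⟩, hy⟩
  · refine T.tendsto_unique h1 ?_
    simp only [(s _).2.1]
    exact tendsto_const_nhds
  · refine T.tendsto_unique h2 ?_
    simp only [(s _).2.2]
    exact tendsto_const_nhds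

theorem norm_unitary_le (u : A) (hu : star u * u = 1) : ‖u‖ ≤ 1 := by
  have h1 : ‖star u * u‖ = ‖u‖ * ‖u‖ := CStarRing.norm_star_mul_self
  rw [hu] at h1
  have h2 : ‖(1 : A)‖ ≤ 1 := by
    rcases subsingleton_or_nontrivial A with h | h
    · rw [Subsingleton.elim (1 : A) 0, norm_zero]
      exact zero_le_one
    · exact CStarRing.norm_one.le
  nlinarith [norm_nonneg u]

variable {G : Type w} [Group G] [TopologicalSpace G] [IsTopologicalGroup G]
  [SecondCountableTopology G] [MeasurableSpace G] [BorelSpace G] {T : TrAlg A K} (S : TrAct G T)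

/-- the functional -/
noncomputable def TrAct.Phi (J : Type) [Fintype J] (x : J → A) (m0 : Measure G)
    [IsProbabilityMeasure m0] (L : ℝ) (u : A) : ℝ :=
  ∑ j, ‖T.ι (S.E (u * x j * star u))‖ ^ 2 + L * ∫ s, ‖T.ι (S.α s u) - T.ι u‖ ^ 2 ∂m0

theorem TrAct.penalty_eq (m0 : Measure G) [IsProbabilityMeasure m0] (u : A) :
    ∫ s, ‖T.ι (S.α s u) - T.ι u‖ ^ 2 ∂m0
      = 2 * ‖T.ι u‖ ^ 2 - 2 * (inner ℂ (S.U.T m0 (T.ι u)) (T.ι u)).re := by
  rw [← S.U.integral_norm_sub m0]
  simp only [S.U_ι]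

theorem TrAct.Phi_tendsto (J : Type) [Fintype J] (x : J → A) (m0 : Measure G)
    [IsProbabilityMeasure m0] (L : ℝ) (s : ℕ → A) (u : A) (hs1 : ∀ n, star (s n) * s n = 1)
    (hs2 : ∀ n, s n * star (s n) = 1) (hu1 : star u * u = 1) (hu2 : u * star u = 1)
    (h : Tendsto (fun n => T.ι (s n)) atTop (𝓝 (T.ι u))) :
    Tendsto (fun n => S.Phi J x m0 L (s n)) atTop (𝓝 (S.Phi J x m0 L u)) := by
  unfold TrAct.Phi
  refine Tendsto.add (tendsto_finsetSum _ fun j _ => Tendsto.pow (Tendsto.norm ?_) 2)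
    (Tendsto.const_mul L ?_)
  · rw [tendsto_iff_norm_sub_tendsto_zero] at h ⊢
    have h3 : Tendsto (fun n => 2 * ‖x j‖ * ‖T.ι (s n) - T.ι u‖) atTop (𝓝 0) := by
      have := h.const_mul (2 * ‖x j‖)
      simpa using this
    refine squeeze_zero (fun n => norm_nonneg _) (fun n => ?_) h3
    refine (S.norm_E_sub_le _ _).trans ?_
    have e : T.ι (s n * x j * star (s n)) - T.ι (u * x j * star u)
        = T.ι ((s n - u) * x j * star (s n)) + T.ι (u * x j * star (s n - u)) := by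
      rw [← map_sub, ← map_add, star_sub]
      congr 1
      noncomm_ring
    rw [e]
    refine (norm_add_le _ _).trans ?_
    rw [T.norm_mul_unitary (star (s n)) (by rw [star_star]; exact hs1 n)]
    have h4 : ‖T.ι (u * x j * star (s n - u))‖ = ‖T.ι (x j * star (s n - u))‖ := by
      rw [mul_assoc, T.norm_unitary_mul u hu1]
    rw [h4]
    have h5 := T.mul_le' (s n - u) (x j)
    have h6 := T.mul_le (x j) (star (s n - u))
    rw [T.norm_star] at h6
    rw [map_sub] at h5 h6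
    nlinarith
  · simp only [S.penalty_eq]
    refine Tendsto.sub ((h.norm.pow 2).const_mul 2) (Tendsto.const_mul 2 ?_)
    exact (Complex.continuous_re.tendsto _).comp
      ((((S.U.T m0).continuous.tendsto _).comp h).inner h)

/-- the variational unitary -/
theorem TrAct.exists_soc (J : Type) [Fintype J] (x : J → A) (hx : ∀ j, IsSelfAdjoint (x j))
    (m0 : Measure G) [IsProbabilityMeasure m0] (L : ℝ) (hL : 0 ≤ L) (ε : ℝ) (hε : 0 < ε) :
    ∃ u : A, star u * u = 1 ∧ u * star u = 1 ∧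
      S.Phi J x m0 L u ≤ ∑ j, ‖T.ι (x j)‖ ^ 2 + 4 * ε ∧
      ∀ h : A, IsSelfAdjoint h →
        ∑ j, (inner ℂ (T.ι (h * S.E (u * x j * star u) - S.E (u * x j * star u) * h))
          (T.ι (h * (u * x j * star u) - (u * x j * star u) * h))).re
        ≤ ∑ j, ‖T.ι (S.E (h * (u * x j * star u) - (u * x j * star u) * h))‖ ^ 2
          + 8 * L * (‖T.ι h‖ * ∫ s, ‖T.ι (S.α s h - h)‖ ∂m0) + ε * ‖T.ι h‖ ^ 2 := by
  classical
  have hΦ0 : ∀ u, 0 ≤ S.Phi J x m0 L u := by
    intro u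
    unfold TrAct.Phi
    have h1 : 0 ≤ ∫ s, ‖T.ι (S.α s u) - T.ι u‖ ^ 2 ∂m0 :=
      integral_nonneg fun s => by positivity
    have h2 : 0 ≤ ∑ j, ‖T.ι (S.E (u * x j * star u))‖ ^ 2 :=
      Finset.sum_nonneg fun j _ => by positivity
    have := mul_nonneg hL h1
    linarith
  obtain ⟨w, u, hw⟩ := exists_smooth_min
    (X := {u : A // star u * u = 1 ∧ u * star u = 1})
    (fun u => T.ι u.1) (fun u => S.Phi J x m0 L u.1) (fun u => T.norm_unitary _ u.2.1)
    T.unitary_complete (fun u => hΦ0 _)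
    (fun s u h => S.Phi_tendsto J x m0 L (fun n => (s n).1) u.1 (fun n => (s n).2.1)
      (fun n => (s n).2.2) u.2.1 u.2.2 h) ε hε ⟨1, by simp, by simp⟩
  -- the bounded perturbation
  have hgeo : HasSum (fun i : ℕ => ε / 2 ^ (i + 1)) ε := by
    have h1 := hasSum_geometric_two.mul_left (ε / 2)
    have h2 : (fun i : ℕ => ε / 2 * (1 / 2) ^ i) = fun i : ℕ => ε / 2 ^ (i + 1) := by
      funext i
      rw [one_div, inv_pow, pow_succ]
      field_simp
    rw [h2, show ε / 2 * 2 = ε by ring] at h1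
    exact h1
  have hbd : ∀ i, ‖(ε / 2 ^ (i + 1) : ℝ) • (w i).1‖ ≤ ε / 2 ^ (i + 1) := by
    intro i
    rw [norm_smul, Real.norm_eq_abs, abs_of_pos (by positivity)]
    have h1 := norm_unitary_le _ (w i).2.1
    have h2 : 0 < ε / 2 ^ (i + 1) := by positivity
    nlinarith
  have hsum : Summable fun i => (ε / 2 ^ (i + 1) : ℝ) • (w i).1 :=
    Summable.of_norm_bounded hgeo.summable hbd
  obtain ⟨z, hz⟩ := hsum
  have hzn : ‖z‖ ≤ ε := hz.norm_le_of_bounded hgeo hbd
  have hzK : HasSum (fun i => (ε / 2 ^ (i + 1) : ℝ) • T.ι (w i).1) (T.ι z) := by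
    have h1 := hz.mapL T.ι
    have h2 : (fun i => (ε / 2 ^ (i + 1) : ℝ) • T.ι (w i).1)
        = fun i => T.ι ((ε / 2 ^ (i + 1) : ℝ) • (w i).1) := by
      funext i
      have e1 : (ε / 2 ^ (i + 1) : ℝ) • (w i).1 = ((ε / 2 ^ (i + 1) : ℝ) : ℂ) • (w i).1 := rfl
      rw [e1, map_smul]
      rfl
    rw [h2]
    exact h1
  have hmin := hw _ hzK
  have hu1 := u.2.1
  have hu2 := u.2.2
  refine ⟨u.1, hu1, hu2, ?_, ?_⟩
  · have h1 := hmin ⟨1, by simp, by simp⟩
    have h2 : S.Phi J x m0 L 1 = ∑ j, ‖T.ι (S.E (x j))‖ ^ 2 := by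
      unfold TrAct.Phi
      simp
    have h3 : ∑ j, ‖T.ι (S.E (x j))‖ ^ 2 ≤ ∑ j, ‖T.ι (x j)‖ ^ 2 :=
      Finset.sum_le_sum fun j _ => pow_le_pow_left₀ (norm_nonneg _) (S.norm_E_le _) 2
    have h4 : ∀ y : {u : A // star u * u = 1 ∧ u * star u = 1},
        |(inner ℂ (T.ι z) (T.ι y.1)).re| ≤ ε := by
      intro y
      refine (Complex.abs_re_le_norm _).trans ((norm_inner_le_norm _ _).trans ?_)
      rw [T.norm_unitary _ y.2.1, mul_one]
      exact (T.norm_le z).trans hzn
    have h5 := abs_le.1 (h4 u)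
    have h6 := abs_le.1 (h4 ⟨1, by simp, by simp⟩)
    change S.Phi J x m0 L u.1 - 2 * (inner ℂ (T.ι z) (T.ι u.1)).re
      ≤ S.Phi J x m0 L 1 - 2 * (inner ℂ (T.ι z) (T.ι 1)).re at h1
    change -ε ≤ (inner ℂ (T.ι z) (T.ι 1)).re ∧ _ at h6
    rw [h2] at h1
    linarith [h5.2, h6.1]
  · intro h hh
    set y : J → A := fun j => u.1 * x j * star u.1 with hy
    have hysa : ∀ j, IsSelfAdjoint (y j) := by
      intro j
      rw [isSelfAdjoint_iff, hy]
      simp only [star_mul, star_star, (hx j).star_eq, mul_assoc]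
    set C : ℝ := 16 * L * (‖T.ι h‖ * ∫ s, ‖T.ι (S.α s h - h)‖ ∂m0) + 2 * (ε * ‖T.ι h‖ ^ 2) with hC
    have main := second_variation S J y hysa h hh C ?_
    · refine main.trans (le_of_eq ?_)
      rw [hC]
      ring
    intro t
    -- unitaries `ex t h * u`
    have hst : ∀ t : ℝ, star (ex t h * u.1) * (ex t h * u.1) = 1 := fun t => by
      rw [star_mul, star_ex t h hh, mul_assoc, ← mul_assoc (ex (-t) h), ex_neg_mul_ex, one_mul, hu1]
    have hst' : ∀ t : ℝ, (ex t h * u.1) * star (ex t h * u.1) = 1 := fun t => by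
      rw [star_mul, star_ex t h hh, mul_assoc, ← mul_assoc u.1, hu2, one_mul, ex_mul_ex_neg]
    have hE : ∀ (t : ℝ) (j : J), (ex t h * u.1) * x j * star (ex t h * u.1)
        = ex t h * y j * ex (-t) h := fun t j => by
      rw [star_mul, star_ex t h hh, hy]
      noncomm_ring
    have hP : ∀ t : ℝ, S.Phi J x m0 L (ex t h * u.1)
        = ∑ j, ‖T.ι (S.E (ex t h * y j * ex (-t) h))‖ ^ 2
          + L * ∫ s, ‖T.ι (S.α s (ex t h * u.1)) - T.ι (ex t h * u.1)‖ ^ 2 ∂m0 := fun t => by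
      unfold TrAct.Phi
      simp only [hE]
    have hP0 : S.Phi J x m0 L u.1 = ∑ j, ‖T.ι (S.E (y j))‖ ^ 2
          + L * ∫ s, ‖T.ι (S.α s u.1) - T.ι u.1‖ ^ 2 ∂m0 := rfl
    have m1 := hmin ⟨ex t h * u.1, hst t, hst' t⟩
    have m2 := hmin ⟨ex (-t) h * u.1, hst (-t), hst' (-t)⟩
    simp only at m1 m2
    rw [hP, hP0] at m1 m2
    rw [neg_neg] at m2
    have lin := abs_le.1 (linear_second_diff T h hh u.1 z hu1 hu2 t)
    -- the penalty
    have hexp : ∀ (a : A), star a * a = 1 → ∀ s : G,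
        ‖T.ι (S.α s a) - T.ι a‖ ^ 2 = 2 - 2 * (inner ℂ (T.ι a) (T.ι (S.α s a))).re := by
      intro a ha s
      rw [@norm_sub_sq ℂ, S.norm_map, T.norm_unitary a ha]
      simp only [RCLike.re_to_complex]
      rw [← inner_conj_symm, Complex.conj_re]
      ring
    have hcont : ∀ a : A, Continuous fun s => (inner ℂ (T.ι a) (T.ι (S.α s a))).re := fun a =>
      Complex.continuous_re.comp (continuous_const.inner (S.cont a))
    have hint : ∀ a : A, Integrable (fun s => (inner ℂ (T.ι a) (T.ι (S.α s a))).re) m0 := by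
      intro a
      refine Integrable.of_bound (hcont a).aestronglyMeasurable (‖T.ι a‖ * ‖T.ι a‖) ?_
      refine Filter.Eventually.of_forall fun s => ?_
      rw [Real.norm_eq_abs]
      refine (Complex.abs_re_le_norm _).trans ((norm_inner_le_norm _ _).trans ?_)
      rw [S.norm_map]
    have hR : ∀ a : A, star a * a = 1 → ∫ s, ‖T.ι (S.α s a) - T.ι a‖ ^ 2 ∂m0
        = 2 - 2 * ∫ s, (inner ℂ (T.ι a) (T.ι (S.α s a))).re ∂m0 := by
      intro a ha
      simp only [hexp a ha]
      rw [integral_sub (integrable_const _) ((hint a).const_mul 2), integral_const,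
        integral_const_mul]
      simp
    rw [hR _ (hst t), hR _ hu1] at m1
    rw [hR _ (hst (-t)), hR _ hu1] at m2
    have hpen : |(∫ s, (inner ℂ (T.ι (ex t h * u.1)) (T.ι (S.α s (ex t h * u.1)))).re ∂m0)
        + (∫ s, (inner ℂ (T.ι (ex (-t) h * u.1)) (T.ι (S.α s (ex (-t) h * u.1)))).re ∂m0)
        - 2 * ∫ s, (inner ℂ (T.ι u.1) (T.ι (S.α s u.1))).re ∂m0|
        ≤ 8 * t ^ 2 * (‖T.ι h‖ * ∫ s, ‖T.ι (S.α s h - h)‖ ∂m0) := by
      have hadd : Integrable (fun s => (inner ℂ (T.ι (ex t h * u.1)) (T.ι (S.α s (ex t h * u.1)))).re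
          + (inner ℂ (T.ι (ex (-t) h * u.1)) (T.ι (S.α s (ex (-t) h * u.1)))).re) m0 :=
        (hint _).add (hint _)
      rw [← integral_add (hint _) (hint _), ← integral_const_mul,
        ← integral_sub hadd ((hint _).const_mul 2)]
      have hb : ∀ s, ‖(inner ℂ (T.ι (ex t h * u.1)) (T.ι (S.α s (ex t h * u.1)))).re
          + (inner ℂ (T.ι (ex (-t) h * u.1)) (T.ι (S.α s (ex (-t) h * u.1)))).re
          - 2 * (inner ℂ (T.ι u.1) (T.ι (S.α s u.1))).re‖
          ≤ 8 * t ^ 2 * ‖T.ι h‖ * ‖T.ι (S.α s h - h)‖ := by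
        intro s
        have hsa : IsSelfAdjoint (S.α s h) := by
          rw [isSelfAdjoint_iff, ← map_star, hh.star_eq]
        have hv : star (S.α s u.1) * S.α s u.1 = 1 := by rw [← map_star, ← map_mul, hu1, map_one]
        have hv' : S.α s u.1 * star (S.α s u.1) = 1 := by rw [← map_star, ← map_mul, hu2, map_one]
        have := penalty_second_diff T h (S.α s h) hh hsa u.1 (S.α s u.1) hu1 hu2 hv hv' t
        rw [S.norm_map] at this
        rw [Real.norm_eq_abs, map_mul (S.α s) (ex t h), map_mul (S.α s) (ex (-t) h), map_ex, map_ex]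
        refine this.trans (le_of_eq ?_)
        ring
      have hcI : Integrable (fun s => 8 * t ^ 2 * ‖T.ι h‖ * ‖T.ι (S.α s h - h)‖) m0 := by
        have hc : Continuous fun s => T.ι (S.α s h - h) := by
          simp only [map_sub]
          exact (S.cont h).sub continuous_const
        refine Integrable.const_mul (Integrable.of_bound hc.norm.aestronglyMeasurable
          (‖T.ι h‖ + ‖T.ι h‖) (Filter.Eventually.of_forall fun s => ?_)) _
        rw [norm_norm, map_sub]
        refine (norm_sub_le _ _).trans ?_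
        rw [S.norm_map]
      rw [← Real.norm_eq_abs]
      refine (norm_integral_le_of_norm_le hcI (Filter.Eventually.of_forall hb)).trans (le_of_eq ?_)
      rw [integral_const_mul]
      ring
    have hpen' := abs_le.1 hpen
    have hzl : ‖z‖ * (t ^ 2 * ‖T.ι h‖ ^ 2) ≤ ε * (t ^ 2 * ‖T.ι h‖ ^ 2) :=
      mul_le_mul_of_nonneg_right hzn (by positivity)
    have hLL := mul_le_mul_of_nonneg_left hpen'.2 hL
    have hLL' := mul_le_mul_of_nonneg_left hpen'.1 hL
    rw [hC]
    nlinarith [lin.1, lin.2, hLL, hLL']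

end

end Pool.Agent.AbCoc
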