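import Pool.Agent.Lib_MP_418a80_ab.StepC5
import Pool.Agent.Lib_MP_418a80_ab.SOC
import Pool.Agent.Lib_MP_418a80_ab.Coc

set_option autoImplicit false
set_option linter.unusedVariables false
set_option linter.unusedSectionVars false

open MeasureTheory Topology Filter
open scoped ENNReal Pointwise

namespace Pool.Agent.AbCoc

universe u v w

variable {A : Type u} [CStarAlgebra A] {K : Type v} [NormedAddCommGroup K]
  [InnerProductSpace ℂ K] [CompleteSpace K]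

/-- W14a, pointwise part: `α_s u - u` is controlled by `α_{st} u - u` and `α_t u - u` -/
theorem TrAct.norm_sub_sq_le {G : Type w} [Group G] [TopologicalSpace G] {T : TrAlg A K}
    (S : TrAct G T) (u : A) (s t : G) :
    ‖T.ι (S.α s u - u)‖ ^ 2
      ≤ 2 * ‖T.ι (S.α (s * t) u) - T.ι u‖ ^ 2 + 2 * ‖T.ι (S.α t u) - T.ι u‖ ^ 2 := by
  have h1 : ‖T.ι (S.α s (S.α t u - u))‖ = ‖T.ι (S.α t u) - T.ι u‖ := by
    rw [S.norm_map, map_sub]
  have h2 : T.ι (S.α s u - u)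
      = (T.ι (S.α (s * t) u) - T.ι u) - T.ι (S.α s (S.α t u - u)) := by
    rw [map_sub (S.α s), ← S.mul, ← map_sub T.ι, ← map_sub T.ι]
    congr 1
    abel
  have h3 : ‖T.ι (S.α s u - u)‖
      ≤ ‖T.ι (S.α (s * t) u) - T.ι u‖ + ‖T.ι (S.α t u) - T.ι u‖ := by
    rw [h2, ← h1]
    exact norm_sub_le _ _
  have h4 := pow_le_pow_left₀ (norm_nonneg _) h3 2
  nlinarith [sq_nonneg (‖T.ι (S.α (s * t) u) - T.ι u‖ - ‖T.ι (S.α t u) - T.ι u‖)]

/-- W14a: a small integral over `C V ∪ V` bounds the supremum over `C` -/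
theorem TrAct.sup_le_integral {G : Type w} [Group G] [TopologicalSpace G] [IsTopologicalGroup G]
    [T2Space G] [SecondCountableTopology G] [LocallyCompactSpace G] [MeasurableSpace G]
    [BorelSpace G] {T : TrAlg A K} (S : TrAct G T) (C : Set G) (hC : IsCompact C) :
    ∃ (m0 : Measure G), IsProbabilityMeasure m0 ∧ (∃ C0 : Set G, IsCompact C0 ∧ m0 C0ᶜ = 0) ∧
      ∃ c : ℝ, 0 < c ∧ ∀ u : A, ∀ s ∈ C,
        ‖T.ι (S.α s u - u)‖ ^ 2 ≤ c * ∫ t, ‖T.ι (S.α t u) - T.ι u‖ ^ 2 ∂m0 := by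
  obtain ⟨V, hV, hV1⟩ := exists_compact_mem_nhds (1 : G)
  have hS0 : IsCompact (C * V ∪ V) := (hC.mul hV).union hV
  have hVm : MeasurableSet V := hV.measurableSet
  have hSm : MeasurableSet (C * V ∪ V) := hS0.measurableSet
  let μ : Measure G := Measure.haar
  have hVpos : 0 < μ V := Measure.measure_pos_of_mem_nhds μ hV1
  have hVtop : μ V ≠ ∞ := hV.measure_lt_top.ne
  have hStop : μ (C * V ∪ V) ≠ ∞ := hS0.measure_lt_top.ne
  have hSpos : 0 < μ (C * V ∪ V) := hVpos.trans_le (measure_mono Set.subset_union_right)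
  have hVr : 0 < (μ V).toReal := ENNReal.toReal_pos hVpos.ne' hVtop
  have hSr : 0 < (μ (C * V ∪ V)).toReal := ENNReal.toReal_pos hSpos.ne' hStop
  refine ⟨(μ (C * V ∪ V))⁻¹ • μ.restrict (C * V ∪ V), ⟨?_⟩, ⟨C * V ∪ V, hS0, ?_⟩,
    4 * (μ (C * V ∪ V)).toReal / (μ V).toReal, by positivity, ?_⟩
  · rw [Measure.smul_apply, Measure.restrict_apply_univ, smul_eq_mul,
      ENNReal.inv_mul_cancel hSpos.ne' hStop]
  · rw [Measure.smul_apply, Measure.restrict_apply hSm.compl, Set.compl_inter_self, measure_empty,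
      smul_zero]
  intro u s hs
  have hcont : Continuous fun t => ‖T.ι (S.α t u) - T.ι u‖ ^ 2 :=
    (((S.cont u).sub continuous_const).norm).pow 2
  have hcont' : Continuous fun t => ‖T.ι (S.α (s * t) u) - T.ι u‖ ^ 2 :=
    hcont.comp (continuous_const_mul s)
  have hiS : IntegrableOn (fun t => ‖T.ι (S.α t u) - T.ι u‖ ^ 2) (C * V ∪ V) μ :=
    hcont.continuousOn.integrableOn_compact hS0
  have hiV : IntegrableOn (fun t => ‖T.ι (S.α t u) - T.ι u‖ ^ 2) V μ :=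
    hcont.continuousOn.integrableOn_compact hV
  have hiV' : IntegrableOn (fun t => ‖T.ι (S.α (s * t) u) - T.ι u‖ ^ 2) V μ :=
    hcont'.continuousOn.integrableOn_compact hV
  have hnn : 0 ≤ᵐ[μ.restrict (C * V ∪ V)] fun t => ‖T.ι (S.α t u) - T.ι u‖ ^ 2 :=
    Eventually.of_forall fun t => by positivity
  -- the two parts
  have h1 : ∫ t in V, ‖T.ι (S.α t u) - T.ι u‖ ^ 2 ∂μ
      ≤ ∫ t in C * V ∪ V, ‖T.ι (S.α t u) - T.ι u‖ ^ 2 ∂μ :=
    setIntegral_mono_set hiS hnn (Eventually.of_forall (Set.subset_union_right (s := C * V)))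
  have h2 : ∫ t in V, ‖T.ι (S.α (s * t) u) - T.ι u‖ ^ 2 ∂μ
      ≤ ∫ t in C * V ∪ V, ‖T.ι (S.α t u) - T.ι u‖ ^ 2 ∂μ := by
    have h3 := (measurePreserving_mul_left μ s).setIntegral_image_emb
      (measurableEmbedding_mulLeft s) (fun t => ‖T.ι (S.α t u) - T.ι u‖ ^ 2) V
    rw [← h3]
    refine setIntegral_mono_set hiS hnn (Eventually.of_forall ?_)
    rintro _ ⟨t, ht, rfl⟩
    exact Or.inl (Set.mul_mem_mul hs ht)
  have h4 : (μ V).toReal * ‖T.ι (S.α s u - u)‖ ^ 2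
      ≤ 2 * ∫ t in V, ‖T.ι (S.α (s * t) u) - T.ι u‖ ^ 2 ∂μ
        + 2 * ∫ t in V, ‖T.ι (S.α t u) - T.ι u‖ ^ 2 ∂μ := by
    rw [← integral_const_mul, ← integral_const_mul,
      ← integral_add (hiV'.const_mul 2) (hiV.const_mul 2)]
    have h5 : (μ V).toReal * ‖T.ι (S.α s u - u)‖ ^ 2
        = ∫ _ in V, ‖T.ι (S.α s u - u)‖ ^ 2 ∂μ := by
      rw [setIntegral_const, smul_eq_mul]
      rfl
    rw [h5]
    refine setIntegral_mono_on (integrableOn_const hVtop) ?_ hVm fun t _ =>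
      S.norm_sub_sq_le u s t
    exact (hiV'.const_mul 2).add (hiV.const_mul 2)
  rw [integral_smul_measure, ENNReal.toReal_inv, smul_eq_mul]
  have h6 : 4 * (μ (C * V ∪ V)).toReal / (μ V).toReal
      * ((μ (C * V ∪ V)).toReal⁻¹ * ∫ t in C * V ∪ V, ‖T.ι (S.α t u) - T.ι u‖ ^ 2 ∂μ)
      = (4 * ∫ t in C * V ∪ V, ‖T.ι (S.α t u) - T.ι u‖ ^ 2 ∂μ) / (μ V).toReal := by
    field_simp
  rw [h6, le_div_iff₀ hVr]
  linarith

/-- KEY from a smallness statement for second order critical families (arbitrary group) -/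
theorem TrAct.key_of_small {G : Type w} [Group G] [TopologicalSpace G] [IsTopologicalGroup G]
    [T2Space G] [SecondCountableTopology G] [LocallyCompactSpace G] [MeasurableSpace G]
    [BorelSpace G] {T : TrAlg A K} (S : TrAct G T) (R : ℝ) (hR : 0 ≤ R)
    (hsmall : ∀ (J : Type) [Fintype J] (y : J → A), (∀ j, IsSelfAdjoint (y j)) →
      (∀ j, T.τ (y j) = 0) → ∀ (m0 : Measure G) [IsProbabilityMeasure m0] (C0 : Set G),
      IsCompact C0 → m0 C0ᶜ = 0 → ∀ L ε : ℝ, 0 ≤ L → 0 ≤ ε → S.SOC J y m0 L ε →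
      ∀ i, ‖T.ι (S.E (y i))‖ ^ 2 ≤ R * ε) : S.Key := by
  intro J _ x hx hτ C hC ε hε
  obtain ⟨m0, hm0, ⟨C0, hC0, hC0m⟩, c, hc, hsup⟩ := S.sup_le_integral C hC
  obtain ⟨ε1, hε1⟩ : ∃ ε1 : ℝ, ε1 = ε ^ 2 / (R + 1) := ⟨_, rfl⟩
  have hε1p : 0 < ε1 := by rw [hε1]; positivity
  obtain ⟨B, hB⟩ : ∃ B : ℝ, B = ∑ j, ‖T.ι (x j)‖ ^ 2 + 4 * ε1 := ⟨_, rfl⟩
  have hBp : 0 < B := by
    have : 0 ≤ ∑ j, ‖T.ι (x j)‖ ^ 2 := Finset.sum_nonneg fun j _ => by positivity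
    rw [hB]
    linarith
  obtain ⟨L, hL⟩ : ∃ L : ℝ, L = c * B / ε ^ 2 := ⟨_, rfl⟩
  have hLp : 0 < L := by rw [hL]; positivity
  obtain ⟨u, hu1, hu2, hPhi, hsoc⟩ := S.exists_soc J x hx m0 L hLp.le ε1 hε1p
  have hI : L * ∫ s, ‖T.ι (S.α s u) - T.ι u‖ ^ 2 ∂m0 ≤ B := by
    have h1 : 0 ≤ ∑ j, ‖T.ι (S.E (u * x j * star u))‖ ^ 2 :=
      Finset.sum_nonneg fun j _ => by positivity
    unfold TrAct.Phi at hPhi
    rw [hB]
    linarith
  refine ⟨u, hu1, hu2, fun s hs => ?_, fun j => ?_⟩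
  · have h1 := hsup u s hs
    have h2 : c * ∫ t, ‖T.ι (S.α t u) - T.ι u‖ ^ 2 ∂m0 ≤ ε ^ 2 := by
      have h3 : L * (c * ∫ t, ‖T.ι (S.α t u) - T.ι u‖ ^ 2 ∂m0) ≤ L * ε ^ 2 := by
        have h4 : L * ε ^ 2 = c * B := by
          rw [hL]
          field_simp
        rw [h4]
        calc L * (c * ∫ t, ‖T.ι (S.α t u) - T.ι u‖ ^ 2 ∂m0)
            = c * (L * ∫ t, ‖T.ι (S.α t u) - T.ι u‖ ^ 2 ∂m0) := by ring
          _ ≤ c * B := mul_le_mul_of_nonneg_left hI hc.le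
      exact le_of_mul_le_mul_left h3 hLp
    exact abs_le_of_sq_le_sq' (h1.trans h2) hε.le |>.2
  · have hysa : ∀ j, IsSelfAdjoint (u * x j * star u) := by
      intro j
      rw [isSelfAdjoint_iff]
      simp only [star_mul, star_star, (hx j).star_eq, mul_assoc]
    have hyτ : ∀ j, T.τ (u * x j * star u) = 0 := by
      intro j
      rw [T.τ_mul_comm, ← mul_assoc, hu1, one_mul]
      exact hτ j
    have h1 := hsmall J (fun j => u * x j * star u) hysa hyτ m0 C0 hC0 hC0m L ε1 hLp.le hε1p.le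
      hsoc j
    have h2 : R * ε1 ≤ ε ^ 2 := by
      rw [hε1, mul_div_assoc', div_le_iff₀ (by positivity)]
      nlinarith [sq_nonneg ε]
    exact abs_le_of_sq_le_sq' (h1.trans h2) hε.le |>.2

/-- W14b: Step A implies KEY (abelian group) -/
theorem TrAct.key_of_stepA {G : Type w} [CommGroup G] [TopologicalSpace G] [IsTopologicalGroup G]
    [T2Space G] [SecondCountableTopology G] [LocallyCompactSpace G] [MeasurableSpace G]
    [BorelSpace G] {T : TrAlg A K} (S : TrAct G T) (hA : S.StepA) : S.Key :=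
  S.key_of_small 8 (by norm_num) fun J _ y hy hτ m0 _ C0 hC0 hm0 L ε hL hε hsoc i =>
    S.cond_small hA J y hy hτ m0 C0 hC0 hm0 L ε hL hε hsoc i

end Pool.Agent.AbCoc
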