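import Pool.Agent.Lib_MP_418a80_ab.FamKey
import Pool.Agent.Lib_MP_418a80_ab.KeyOf

set_option autoImplicit false
set_option linter.unusedVariables false
set_option linter.unusedSectionVars false

open Topology Filter MeasureTheory

namespace Pool.Agent.AbCoc

universe u v w

section
variable {A : Type u} [CStarAlgebra A] {K : Type v} [NormedAddCommGroup K]
  [InnerProductSpace ℂ K] [CompleteSpace K]

theorem sum_mul_le_of_sq_sq {I : Type} [Fintype I] (u v : I → ℝ) (P Q : ℝ) (hP : 0 ≤ P)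
    (hQ : 0 ≤ Q) (hu : ∑ i, u i ^ 2 ≤ P ^ 2) (hv : ∑ i, v i ^ 2 ≤ Q ^ 2) :
    ∑ i, u i * v i ≤ P * Q := by
  have h1 := Finset.sum_mul_sq_le_sq_mul_sq (Finset.univ : Finset I) u v
  have h2 : (∑ i, u i * v i) ^ 2 ≤ (P * Q) ^ 2 := by
    refine h1.trans ?_
    rw [mul_pow]
    exact mul_le_mul hu hv (Finset.sum_nonneg fun i _ => sq_nonneg _) (sq_nonneg P)
  exact abs_le_of_sq_le_sq' h2 (by positivity) |>.2

/-- the density functional of `a` -/
noncomputable def TrAlg.dens (T : TrAlg A K) (a z : A) : ℂ :=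
  inner ℂ (T.ι (star a * a + a * star a)) (T.ι z)

theorem TrAlg.dens_eq (T : TrAlg A K) (a z : A) :
    T.dens a z = inner ℂ (T.ι a) (T.ι (a * z)) + inner ℂ (T.ι a) (T.ι (z * a)) := by
  unfold TrAlg.dens
  rw [map_add, inner_add_left, T.left', T.right']

theorem TrAlg.dens_norm_le (T : TrAlg A K) (a z : A) :
    ‖T.dens a z‖ ≤ ‖T.ι a‖ * ‖T.ι (a * z)‖ + ‖T.ι a‖ * ‖T.ι (z * a)‖ := by
  rw [T.dens_eq]
  exact (norm_add_le _ _).trans (add_le_add (norm_inner_le_norm _ _) (norm_inner_le_norm _ _))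

theorem TrAlg.dens_sub_le (T : TrAlg A K) (a b z : A) (N : ℝ) (ha : ‖T.ι a‖ ≤ N)
    (hb : ‖T.ι b‖ ≤ N) : ‖T.dens b z - T.dens a z‖ ≤ 4 * (‖z‖ * (N * ‖T.ι (b - a)‖)) := by
  have e : T.dens b z - T.dens a z
      = (inner ℂ (T.ι (b - a)) (T.ι (b * z)) + inner ℂ (T.ι a) (T.ι ((b - a) * z)))
        + (inner ℂ (T.ι (b - a)) (T.ι (z * b)) + inner ℂ (T.ι a) (T.ι (z * (b - a)))) := by
    rw [T.dens_eq, T.dens_eq, sub_mul, mul_sub]
    simp only [map_sub, inner_sub_left, inner_sub_right]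
    ring
  rw [e]
  have h1 : ‖inner ℂ (T.ι (b - a)) (T.ι (b * z))‖ ≤ ‖z‖ * (N * ‖T.ι (b - a)‖) := by
    refine (norm_inner_le_norm _ _).trans ?_
    have h := (T.mul_le' b z).trans (mul_le_mul_of_nonneg_right hb (norm_nonneg _))
    have := mul_le_mul_of_nonneg_left h (norm_nonneg (T.ι (b - a)))
    linarith
  have h2 : ‖inner ℂ (T.ι a) (T.ι ((b - a) * z))‖ ≤ ‖z‖ * (N * ‖T.ι (b - a)‖) := by
    refine (norm_inner_le_norm _ _).trans ?_
    have h := T.mul_le' (b - a) z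
    have h3 := mul_le_mul ha h (norm_nonneg _) ((norm_nonneg _).trans ha)
    linarith
  have h3 : ‖inner ℂ (T.ι (b - a)) (T.ι (z * b))‖ ≤ ‖z‖ * (N * ‖T.ι (b - a)‖) := by
    refine (norm_inner_le_norm _ _).trans ?_
    have h := (T.mul_le z b).trans (mul_le_mul_of_nonneg_left hb (norm_nonneg _))
    have := mul_le_mul_of_nonneg_left h (norm_nonneg (T.ι (b - a)))
    linarith
  have h4 : ‖inner ℂ (T.ι a) (T.ι (z * (b - a)))‖ ≤ ‖z‖ * (N * ‖T.ι (b - a)‖) := by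
    refine (norm_inner_le_norm _ _).trans ?_
    have h := T.mul_le z (b - a)
    have h3 := mul_le_mul ha h (norm_nonneg _) ((norm_nonneg _).trans ha)
    linarith
  have g1 := norm_add_le (inner ℂ (T.ι (b - a)) (T.ι (b * z)) + inner ℂ (T.ι a) (T.ι ((b - a) * z)))
    (inner ℂ (T.ι (b - a)) (T.ι (z * b)) + inner ℂ (T.ι a) (T.ι (z * (b - a))))
  have g2 := norm_add_le (inner ℂ (T.ι (b - a)) (T.ι (b * z)) : ℂ)
    (inner ℂ (T.ι a) (T.ι ((b - a) * z)))
  have g3 := norm_add_le (inner ℂ (T.ι (b - a)) (T.ι (z * b)) : ℂ)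
    (inner ℂ (T.ι a) (T.ι (z * (b - a))))
  linarith

theorem TrAlg.dens_sub_right (T : TrAlg A K) (a y z : A) :
    T.dens a (y - z) = T.dens a y - T.dens a z := by
  unfold TrAlg.dens
  rw [map_sub, inner_sub_right]

theorem TrAlg.dens_smul_real (T : TrAlg A K) (r : ℝ) (a z : A) :
    T.dens ((r : ℂ) • a) z = ((r ^ 2 : ℝ) : ℂ) * T.dens a z := by
  unfold TrAlg.dens
  have e : star ((r : ℂ) • a) * ((r : ℂ) • a) + ((r : ℂ) • a) * star ((r : ℂ) • a)
      = ((r ^ 2 : ℝ) : ℂ) • (star a * a + a * star a) := by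
    rw [star_smul, smul_mul_smul_comm, smul_mul_smul_comm, RCLike.star_def, Complex.conj_ofReal,
      ← smul_add]
    congr 1
    push_cast
    ring
  rw [e, map_smul, inner_smul_left, Complex.conj_ofReal]

variable {G : Type w} [Group G] [TopologicalSpace G] {T : TrAlg A K} (S : TrAct G T)

theorem TrAct.dens_α (g : G) (a z : A) : T.dens (S.α g a) (S.α g z) = T.dens a z := by
  unfold TrAlg.dens
  have e : star (S.α g a) * S.α g a + S.α g a * star (S.α g a)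
      = S.α g (star a * a + a * star a) := by
    rw [map_add, map_mul, map_mul, map_star]
  rw [e, S.inner_map]

/-- the density functional of a near-invariant element is almost invariant -/
theorem TrAct.dens_avg (F : Finset G) (w : G → ℝ) (hw : ∀ g, 0 ≤ w g)
    (hs : ∑ g ∈ F, w g = 1) (a y : A) :
    ‖T.dens a y - T.dens a (S.avg F w y)‖
      ≤ 4 * (‖y‖ * (‖T.ι a‖ * ∑ g ∈ F, w g * ‖T.ι (S.α g a - a)‖)) := by
  have e1 : T.dens a (S.avg F w y) = ∑ g ∈ F, (w g : ℂ) * T.dens a (S.α g y) := by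
    unfold TrAlg.dens TrAct.avg
    rw [map_sum, inner_sum]
    refine Finset.sum_congr rfl fun g _ => ?_
    have e : w g • S.α g y = (w g : ℂ) • S.α g y := rfl
    rw [e, map_smul, inner_smul_right]
  have e2 : T.dens a y = ∑ g ∈ F, (w g : ℂ) * T.dens (S.α g a) (S.α g y) := by
    simp only [S.dens_α]
    rw [← Finset.sum_mul, ← Complex.ofReal_sum, hs, Complex.ofReal_one, one_mul]
  rw [e1, e2, ← Finset.sum_sub_distrib]
  refine (norm_sum_le _ _).trans ?_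
  rw [Finset.mul_sum, Finset.mul_sum, Finset.mul_sum]
  refine Finset.sum_le_sum fun g _ => ?_
  rw [← mul_sub, norm_mul, Complex.norm_real, Real.norm_eq_abs, abs_of_nonneg (hw g)]
  have h1 := T.dens_sub_le a (S.α g a) (S.α g y) ‖T.ι a‖ le_rfl (S.norm_map g a).le
  have h2 : ‖S.α g y‖ * (‖T.ι a‖ * ‖T.ι (S.α g a - a)‖)
      ≤ ‖y‖ * (‖T.ι a‖ * ‖T.ι (S.α g a - a)‖) :=
    mul_le_mul_of_nonneg_right (S.norm_le g y) (by positivity)
  have h3 := mul_le_mul_of_nonneg_left (h1.trans (by linarith :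
    4 * (‖S.α g y‖ * (‖T.ι a‖ * ‖T.ι (S.α g a - a)‖))
      ≤ 4 * (‖y‖ * (‖T.ι a‖ * ‖T.ι (S.α g a - a)‖)))) (hw g)
  linarith

/-- domination implies the typical form -/
theorem TrAct.StepADom.typ (h : S.StepADom) : S.StepATyp := by
  intro b1 b2 hf1 hf2 hs1 hs2 h1 h2 D hD κ hκ Y _ y
  obtain ⟨C, c0, hc0, hfam⟩ := h b1 b2 hf1 hf2 hs1 hs2 h1 h2
  obtain ⟨C1, hC1⟩ : ∃ C1 : ℝ, C1 = max C 1 := ⟨_, rfl⟩
  have hC11 : 1 ≤ C1 := by rw [hC1]; exact le_max_right _ _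
  have hCC1 : C ≤ C1 := by rw [hC1]; exact le_max_left _ _
  have hC1p : 0 < C1 := by linarith
  have hC1sq : C1 ≤ C1 ^ 2 := by nlinarith
  obtain ⟨B, hB⟩ : ∃ B : ℝ, B = ∑ j, ‖y j‖ := ⟨_, rfl⟩
  have hB0 : 0 ≤ B := by rw [hB]; exact Finset.sum_nonneg fun j _ => norm_nonneg _
  have hyB : ∀ j, ‖y j‖ ≤ B := fun j => by
    rw [hB]
    exact Finset.single_le_sum (f := fun j => ‖y j‖) (fun j _ => norm_nonneg _)
      (Finset.mem_univ j)
  obtain ⟨δ, hδ⟩ : ∃ δ : ℝ, δ = κ * c0 / (4 * C1 ^ 2) := ⟨_, rfl⟩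
  have hδp : 0 < δ := by rw [hδ]; positivity
  obtain ⟨F, w, hw, hws, hFw⟩ := S.exists_avg_family Y y (δ ^ 2) (by positivity)
  obtain ⟨η, hη⟩ : ∃ η : ℝ, η = min (c0 * κ / (8 * (B + 1) * C1)) (min 1 (c0 * κ)) := ⟨_, rfl⟩
  have hηp : 0 < η := by rw [hη]; positivity
  have hη1 : η ≤ c0 * κ / (8 * (B + 1) * C1) := by rw [hη]; exact min_le_left _ _
  have hη2 : η ≤ 1 := by rw [hη]; exact (min_le_right _ _).trans (min_le_left _ _)
  have hη3 : η ≤ c0 * κ := by rw [hη]; exact (min_le_right _ _).trans (min_le_right _ _)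
  have hη4 : η ^ 2 ≤ c0 * κ := by nlinarith
  obtain ⟨I, hI, a, x, hax, hlow, hEa, hnear, hr, hl⟩ := hfam (D ∪ (F : Set G))
    (hD.union F.finite_toSet.isCompact) (η ^ 2) (by positivity)
  -- the scaling factor
  obtain ⟨r, hr0, hr2⟩ : ∃ r : ℝ, 0 < r ∧ r ^ 2 = 1 / c0 :=
    ⟨Real.sqrt (1 / c0), Real.sqrt_pos.2 (by positivity), Real.sq_sqrt (by positivity)⟩
  have hn : ∀ z : A, ‖T.ι ((r : ℂ) • z)‖ ^ 2 = r ^ 2 * ‖T.ι z‖ ^ 2 := by
    intro z
    rw [map_smul, norm_smul, Complex.norm_real, Real.norm_eq_abs, mul_pow, sq_abs]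
  refine ⟨I, hI, fun i => (r : ℂ) • a i, fun i => (r : ℂ) • x i, ?_, ?_, ?_, ?_, ?_⟩
  · intro i
    change (r : ℂ) • a i = b1 * ((r : ℂ) • x i) * b2
    rw [hax i, mul_smul_comm, smul_mul_assoc]
  · simp only [hn]
    rw [← Finset.mul_sum, hr2, one_div, ← div_eq_inv_mul, one_le_div hc0]
    exact hlow
  · simp only [S.E_smul, hn]
    rw [← Finset.mul_sum, hr2, one_div, ← div_eq_inv_mul, div_le_iff₀ hc0]
    linarith
  · intro s hs
    have e : ∀ i, S.α s ((r : ℂ) • a i) - (r : ℂ) • a i = (r : ℂ) • (S.α s (a i) - a i) := by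
      intro i
      rw [map_smul, smul_sub]
    simp only [e, hn]
    rw [← Finset.mul_sum, hr2, one_div, ← div_eq_inv_mul, div_le_iff₀ hc0]
    have := hnear s (Or.inl hs)
    linarith
  · intro j
    set d := S.avg F w (y j) - S.E (y j) with hd
    have hdδ : ‖T.ι d‖ ≤ δ := by
      have h3 : ‖T.ι d‖ ^ 2 ≤ δ ^ 2 := by
        refine le_trans ?_ hFw.le
        exact Finset.single_le_sum (f := fun j => ‖T.ι (S.avg F w (y j) - S.E (y j))‖ ^ 2)
          (fun j _ => by positivity) (Finset.mem_univ j)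
      exact abs_le_of_sq_le_sq' h3 hδp.le |>.2
    have hN : ∑ i, ‖T.ι (a i)‖ ^ 2 ≤ C1 ^ 2 := by
      have h3 := hr 1
      simp only [mul_one, T.norm_one, one_pow] at h3
      linarith
    have hrd : ∑ i, ‖T.ι (a i * d)‖ ^ 2 ≤ (C1 * ‖T.ι d‖) ^ 2 := by
      refine (hr d).trans ?_
      rw [mul_pow]
      exact mul_le_mul_of_nonneg_right (hCC1.trans hC1sq) (by positivity)
    have hld : ∑ i, ‖T.ι (d * a i)‖ ^ 2 ≤ (C1 * ‖T.ι d‖) ^ 2 := by
      refine (hl d).trans ?_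
      rw [mul_pow]
      exact mul_le_mul_of_nonneg_right (hCC1.trans hC1sq) (by positivity)
    set ρ : I → ℝ := fun i => ∑ g ∈ F, w g * ‖T.ι (S.α g (a i) - a i)‖ with hρ
    have hρ2 : ∑ i, ρ i ^ 2 ≤ η ^ 2 := by
      calc ∑ i, ρ i ^ 2 ≤ ∑ i, ∑ g ∈ F, w g * ‖T.ι (S.α g (a i) - a i)‖ ^ 2 :=
            Finset.sum_le_sum fun i _ => jensen_sum F w hw hws _
        _ = ∑ g ∈ F, w g * ∑ i, ‖T.ι (S.α g (a i) - a i)‖ ^ 2 := by
            rw [Finset.sum_comm]
            exact Finset.sum_congr rfl fun g _ => by rw [Finset.mul_sum]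
        _ ≤ ∑ g ∈ F, w g * η ^ 2 :=
            Finset.sum_le_sum fun g hg => mul_le_mul_of_nonneg_left
              (hnear g (Or.inr (Finset.mem_coe.2 hg))) (hw g)
        _ = η ^ 2 := by rw [← Finset.sum_mul, hws, one_mul]
    have t1 := sum_mul_le_of_sq_sq (fun i => ‖T.ι (a i)‖) ρ C1 η hC1p.le hηp.le hN hρ2
    have t2 := sum_mul_le_of_sq_sq (fun i => ‖T.ι (a i)‖) (fun i => ‖T.ι (a i * d)‖) C1
      (C1 * ‖T.ι d‖) hC1p.le (by positivity) hN hrd
    have t3 := sum_mul_le_of_sq_sq (fun i => ‖T.ι (a i)‖) (fun i => ‖T.ι (d * a i)‖) C1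
      (C1 * ‖T.ι d‖) hC1p.le (by positivity) hN hld
    have t4 : ∀ i, ‖T.dens (a i) (y j - S.E (y j))‖ ≤ 4 * (‖y j‖ * (‖T.ι (a i)‖ * ρ i))
        + (‖T.ι (a i)‖ * ‖T.ι (a i * d)‖ + ‖T.ι (a i)‖ * ‖T.ι (d * a i)‖) := by
      intro i
      have e : T.dens (a i) (y j - S.E (y j))
          = (T.dens (a i) (y j) - T.dens (a i) (S.avg F w (y j))) + T.dens (a i) d := by
        rw [hd, T.dens_sub_right, T.dens_sub_right]
        ring
      rw [e]
      exact (norm_add_le _ _).trans (add_le_add (S.dens_avg F w hw hws (a i) (y j))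
        (T.dens_norm_le (a i) d))
    have t5 : ∑ i, ‖T.dens (a i) (y j - S.E (y j))‖
        ≤ 4 * (‖y j‖ * (C1 * η)) + (C1 * (C1 * ‖T.ι d‖) + C1 * (C1 * ‖T.ι d‖)) := by
      refine (Finset.sum_le_sum fun i _ => t4 i).trans ?_
      rw [Finset.sum_add_distrib, Finset.sum_add_distrib, ← Finset.mul_sum, ← Finset.mul_sum]
      exact add_le_add (mul_le_mul_of_nonneg_left (mul_le_mul_of_nonneg_left t1 (norm_nonneg _))
        (by norm_num)) (add_le_add t2 t3)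
    have t6 : ∑ i, ‖T.dens (a i) (y j - S.E (y j))‖ ≤ κ * c0 := by
      refine t5.trans ?_
      have s1 : ‖y j‖ * (C1 * η) ≤ (B + 1) * (C1 * η) :=
        mul_le_mul_of_nonneg_right (by linarith [hyB j]) (by positivity)
      have s2 : (B + 1) * (C1 * η) * 8 ≤ c0 * κ := by
        have := mul_le_mul_of_nonneg_right hη1 (show 0 ≤ 8 * (B + 1) * C1 by positivity)
        rw [div_mul_cancel₀ _ (by positivity)] at this
        linarith
      have s3 : C1 * (C1 * ‖T.ι d‖) ≤ C1 ^ 2 * δ := by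
        have := mul_le_mul_of_nonneg_left hdδ (show 0 ≤ C1 ^ 2 by positivity)
        linarith
      have s4 : C1 ^ 2 * δ * 4 = κ * c0 := by
        rw [hδ]
        field_simp
      linarith
    change ‖∑ i, T.dens ((r : ℂ) • a i) (y j - S.E (y j))‖ ≤ κ
    simp only [T.dens_smul_real]
    rw [← Finset.mul_sum, norm_mul, Complex.norm_real, Real.norm_eq_abs, abs_of_nonneg
      (sq_nonneg r), hr2, one_div, ← div_eq_inv_mul, div_le_iff₀ hc0]
    exact (norm_sum_le _ _).trans t6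

end

section
variable {A : Type u} [CStarAlgebra A] {K : Type v} [NormedAddCommGroup K]
  [InnerProductSpace ℂ K] [CompleteSpace K]
variable {G : Type w} [Group G] [TopologicalSpace G] [IsTopologicalGroup G] [T2Space G]
  [SecondCountableTopology G] [LocallyCompactSpace G] {T : TrAlg A K} (S : TrAct G T)

theorem TrAct.key_of_stepATyp (hA : S.StepATyp) : S.Key := by
  let _ : MeasurableSpace G := borel G
  have _ : BorelSpace G := ⟨rfl⟩
  exact S.key_of_small 16 (by norm_num) fun J _ y hy hτ m0 _ C0 hC0 hm0 L ε hL hε hsoc i =>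
    S.cond_small_fam hA J y hy hτ m0 C0 hC0 hm0 L ε hL hε hsoc i

theorem TrAct.key_of_stepADom (hA : S.StepADom) : S.Key :=
  S.key_of_stepATyp (TrAct.StepADom.typ S hA)

end

end Pool.Agent.AbCoc
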