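import Mathlib

set_option autoImplicit false
set_option linter.unusedVariables false
set_option linter.unusedSectionVars false

open MeasureTheory
open scoped ENNReal

namespace Pool.Agent.AbCoc

universe u

variable {G : Type u} [TopologicalSpace G] [T2Space G] [SecondCountableTopology G]
  [MeasurableSpace G] [BorelSpace G]

/-- half of `m0` plus half of a finitely supported probability -/
theorem exists_mixture (m0 : Measure G) [IsProbabilityMeasure m0] (C0 : Set G)
    (hC0 : IsCompact C0) (hm0 : m0 C0ᶜ = 0) (F : Finset G) (w : G → ℝ) (hw : ∀ g, 0 ≤ w g)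
    (hs : ∑ g ∈ F, w g = 1) :
    ∃ m : Measure G, IsProbabilityMeasure m ∧ (∃ C, IsCompact C ∧ m Cᶜ = 0) ∧
      ∀ f : G → ℝ, Continuous f → (∃ B : ℝ, ∀ s, |f s| ≤ B) →
        ∫ s, f s ∂m = (1 / 2) * ∫ s, f s ∂m0 + (1 / 2) * ∑ g ∈ F, w g * f g := by
  classical
  set n : Measure G := ∑ g ∈ F, ENNReal.ofReal (w g) • Measure.dirac g with hn
  have hnuniv : n Set.univ = 1 := by
    rw [hn, Measure.finsetSum_apply]
    simp only [Measure.smul_apply, measure_univ, smul_eq_mul, mul_one]
    rw [← ENNReal.ofReal_sum_of_nonneg fun g _ => hw g, hs, ENNReal.ofReal_one]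
  haveI hnp : IsProbabilityMeasure n := ⟨hnuniv⟩
  refine ⟨(2 : ℝ≥0∞)⁻¹ • m0 + (2 : ℝ≥0∞)⁻¹ • n, ⟨?_⟩, ⟨C0 ∪ (F : Set G), ?_, ?_⟩, ?_⟩
  · rw [Measure.add_apply, Measure.smul_apply, Measure.smul_apply, measure_univ, measure_univ,
      smul_eq_mul, mul_one, ENNReal.inv_two_add_inv_two]
  · exact hC0.union F.finite_toSet.isCompact
  · rw [Measure.add_apply, Measure.smul_apply, Measure.smul_apply, smul_eq_mul, smul_eq_mul]
    have h1 : m0 (C0 ∪ (F : Set G))ᶜ = 0 :=
      measure_mono_null (Set.compl_subset_compl.2 Set.subset_union_left) hm0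
    have h2 : n (C0 ∪ (F : Set G))ᶜ = 0 := by
      rw [hn, Measure.finsetSum_apply]
      refine Finset.sum_eq_zero fun g hg => ?_
      rw [Measure.smul_apply, Measure.dirac_apply' _
        (hC0.measurableSet.union F.finite_toSet.measurableSet).compl]
      have : g ∉ (C0 ∪ (F : Set G))ᶜ := fun h => h (Set.mem_union_right _ hg)
      rw [Set.indicator_of_notMem this, smul_zero]
    rw [h1, h2, mul_zero, add_zero]
  · intro f hf hB
    obtain ⟨B, hB⟩ := hB
    have hi : ∀ (m' : Measure G) [IsFiniteMeasure m'], Integrable f m' := fun m' _ =>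
      Integrable.of_bound hf.aestronglyMeasurable B (Filter.Eventually.of_forall hB)
    have hi0 : Integrable f m0 := hi m0
    have hi1 : Integrable f n := hi n
    rw [integral_add_measure (hi0.smul_measure (by simp)) (hi1.smul_measure (by simp)),
      integral_smul_measure, integral_smul_measure]
    have h3 : ∫ s, f s ∂n = ∑ g ∈ F, w g * f g := by
      have hif : ∀ g ∈ F, Integrable f (ENNReal.ofReal (w g) • Measure.dirac g) := fun g _ =>
        (hi (Measure.dirac g)).smul_measure ENNReal.ofReal_ne_top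
      rw [hn, integral_finsetSum_measure hif]
      refine Finset.sum_congr rfl fun g _ => ?_
      rw [integral_smul_measure, integral_dirac' f g hf.stronglyMeasurable,
        ENNReal.toReal_ofReal (hw g), smul_eq_mul]
    rw [h3]
    simp

end Pool.Agent.AbCoc
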