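import Pool.Agent.Lib_MP_418a80_ab.StepC4
import Pool.Agent.Lib_MP_418a80_ab.Mix

set_option autoImplicit false
set_option linter.unusedVariables false
set_option linter.unusedSectionVars false

open Topology Filter MeasureTheory

namespace Pool.Agent.AbCoc

universe u v w

attribute [local instance] CStarAlgebra.spectralOrder CStarAlgebra.spectralOrderedRing

section
variable {A : Type u} [CStarAlgebra A] {K : Type v} [NormedAddCommGroup K]
  [InnerProductSpace ℂ K] [CompleteSpace K]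
variable {G : Type w} [CommGroup G] [TopologicalSpace G] [IsTopologicalGroup G] [T2Space G]
  [SecondCountableTopology G] [MeasurableSpace G] [BorelSpace G] {T : TrAlg A K} (S : TrAct G T)

/-- near-invariant elements far from the fixed point algebra, in every corner -/
def TrAct.StepA : Prop :=
  ∀ (m : Measure G) [IsProbabilityMeasure m], (∃ C, IsCompact C ∧ m Cᶜ = 0) →
    ∀ b1 b2 : A, S.Fixed b1 → S.Fixed b2 → b1 ≠ 0 → b2 ≠ 0 → ∀ ε0 : ℝ, 0 < ε0 →
      ∃ a x : A, a = b1 * x * b2 ∧ a ≠ 0 ∧ S.E a = 0 ∧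
        ∫ s, ‖T.ι (S.α s a) - T.ι a‖ ^ 2 ∂m < ε0 * ‖T.ι a‖ ^ 2

theorem TrAct.fixed_posPart {p : A} (hp : IsSelfAdjoint p) (hf : S.Fixed p) : S.Fixed p⁺ := by
  intro g
  have h1 : p = S.α g p⁺ - S.α g p⁻ := by
    rw [← map_sub, CFC.posPart_sub_negPart p hp, hf g]
  have h2 : S.α g p⁺ * S.α g p⁻ = 0 := by
    rw [← map_mul, CFC.posPart_mul_negPart, map_zero]
  exact (CFC.posPart_negPart_unique h1 h2 (map_nonneg' _ _ (CFC.posPart_nonneg p))
    (map_nonneg' _ _ (CFC.negPart_nonneg p))).1.symm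

theorem eq_zero_of_τ (T : TrAlg A K) (r : A) (hr : 0 ≤ r) (h : (T.τ r).re = 0) : r = 0 := by
  obtain ⟨z, rfl⟩ := CStarAlgebra.nonneg_iff_eq_star_mul_self.1 hr
  rw [← T.norm_sq] at h
  have h1 : ‖T.ι z‖ = 0 := by
    have := pow_eq_zero_iff (two_ne_zero) |>.1 h
    exact this
  have h2 : z = 0 := T.inj (by rw [norm_eq_zero.1 h1, map_zero])
  rw [h2, mul_zero]

/-- `re τ(r c) ≤ ‖r‖ re τ(c)` for `c = ∑ E(d_j²)`, `r` positive and fixed -/
theorem TrAct.τ_mul_c_le (J : Type) [Fintype J] (d : J → A) (hd : ∀ j, IsSelfAdjoint (d j))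
    (r : A) (hr : 0 ≤ r) (hf : S.Fixed r) :
    (T.τ (r * ∑ j, S.E (d j * d j))).re ≤ ‖r‖ * (T.τ (∑ j, S.E (d j * d j))).re := by
  have hrs : IsSelfAdjoint r := IsSelfAdjoint.of_nonneg hr
  have h1 : ∀ j, (T.τ (r * S.E (d j * d j))).re = (T.τ (d j * r * d j)).re := by
    intro j
    rw [← S.E_mul_left hf, S.τ_E]
    have : T.τ (r * (d j * d j)) = T.τ (d j * r * d j) := by
      rw [← mul_assoc, T.τ_mul_comm, ← mul_assoc]
    rw [this]
  have h2 : ∀ j, (T.τ (S.E (d j * d j))).re = (T.τ (d j * d j)).re := fun j => by rw [S.τ_E]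
  have h3 : ∀ j, (T.τ (d j * r * d j)).re ≤ ‖r‖ * (T.τ (d j * d j)).re := by
    intro j
    have h4 : 0 ≤ algebraMap ℝ A ‖r‖ - r := sub_nonneg.2 hrs.le_algebraMap_norm_self
    have h5 := T.re_τ_conj_nonneg (d j) _ h4
    rw [(hd j).star_eq, mul_sub, sub_mul, T.τ_sub, Complex.sub_re] at h5
    have h6 : d j * algebraMap ℝ A ‖r‖ * d j = ‖r‖ • (d j * d j) := by
      rw [Algebra.algebraMap_eq_smul_one, mul_smul_comm, mul_one, smul_mul_assoc]
    rw [h6, re_τ_real_smul] at h5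
    linarith
  have hsum : ∀ f : J → A, (T.τ (∑ j, f j)).re = ∑ j, (T.τ (f j)).re := by
    intro f
    unfold TrAlg.τ
    rw [map_sum, inner_sum, Complex.re_sum]
  rw [Finset.mul_sum, hsum, hsum, Finset.mul_sum]
  refine Finset.sum_le_sum fun j _ => ?_
  rw [h1, h2]
  exact h3 j

theorem exists_delta (A1 A2 B1 B2 : ℝ) (hA1 : 0 ≤ A1) (hA2 : 0 ≤ A2) (hB1 : 0 < B1)
    (hB2 : 0 < B2) : ∃ δ : ℝ, 0 < δ ∧ A1 * δ < B1 ∧ A2 * δ < B2 := by
  refine ⟨min (B1 / (A1 + 1)) (B2 / (A2 + 1)), by positivity, ?_, ?_⟩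
  · calc A1 * min (B1 / (A1 + 1)) (B2 / (A2 + 1)) ≤ A1 * (B1 / (A1 + 1)) :=
          mul_le_mul_of_nonneg_left (min_le_left _ _) hA1
      _ < B1 := by
          rw [mul_div_assoc', div_lt_iff₀ (by positivity)]
          nlinarith
  · calc A2 * min (B1 / (A1 + 1)) (B2 / (A2 + 1)) ≤ A2 * (B2 / (A2 + 1)) :=
          mul_le_mul_of_nonneg_left (min_le_right _ _) hA2
      _ < B2 := by
          rw [mul_div_assoc', div_lt_iff₀ (by positivity)]
          nlinarith

/-- real algebra at the end of Step C -/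
theorem final_algebra (N t l X n C0 : ℝ) (hN : 0 < N) (ht : 0 < t) (hl : t * l = 4) (hX : 0 ≤ X)
    (h1 : t * N ^ 2 + l * X ≤ N * n) (h2 : n ^ 2 ≤ 8 * X + C0 * N ^ 2) :
    t ^ 2 ≤ C0 := by
  have hl0 : 0 < l := by
    by_contra h
    push Not at h
    nlinarith
  have h3 : 0 ≤ t * N ^ 2 + l * X := by positivity
  have h4 : (t * N ^ 2 + l * X) ^ 2 ≤ (N * n) ^ 2 := pow_le_pow_left₀ h3 h1 2
  have h5 : (N * n) ^ 2 ≤ N ^ 2 * (8 * X + C0 * N ^ 2) := by
    rw [mul_pow]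
    exact mul_le_mul_of_nonneg_left h2 (by positivity)
  have h6 : (t * N ^ 2 + l * X) ^ 2 = t ^ 2 * (N ^ 2) ^ 2 + 2 * (t * l) * (N ^ 2 * X) + (l * X) ^ 2 := by
    ring
  rw [h6, hl] at h4
  have h7 : t ^ 2 * (N ^ 2) ^ 2 ≤ C0 * (N ^ 2) ^ 2 := by nlinarith [sq_nonneg (l * X)]
  exact le_of_mul_le_mul_right h7 (by positivity)

theorem jensen_sq {X : Type w} [MeasurableSpace X] (m : Measure X) [IsProbabilityMeasure m]
    (f : X → ℝ) (hf : Integrable f m) (hf2 : Integrable (fun s => f s ^ 2) m) :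
    (∫ s, f s ∂m) ^ 2 ≤ ∫ s, f s ^ 2 ∂m := by
  set c := ∫ s, f s ∂m with hc
  have h1 : 0 ≤ ∫ s, (f s - c) ^ 2 ∂m := integral_nonneg fun s => sq_nonneg _
  have h2 : ∀ s, (f s - c) ^ 2 = f s ^ 2 - (2 * c) * f s + c ^ 2 := fun s => by ring
  simp only [h2] at h1
  have h3 : Integrable (fun s => f s ^ 2 - (2 * c) * f s) m := hf2.sub (hf.const_mul _)
  rw [integral_add h3 (integrable_const _), integral_sub hf2 (hf.const_mul _), integral_const_mul,
    ← hc, integral_const] at h1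
  simp only [probReal_univ, one_smul] at h1
  nlinarith

theorem jensen_sum {X : Type w} (F : Finset X) (w : X → ℝ) (hw : ∀ g, 0 ≤ w g)
    (hs : ∑ g ∈ F, w g = 1) (f : X → ℝ) :
    (∑ g ∈ F, w g * f g) ^ 2 ≤ ∑ g ∈ F, w g * f g ^ 2 := by
  set c := ∑ g ∈ F, w g * f g with hc
  have h1 : 0 ≤ ∑ g ∈ F, w g * (f g - c) ^ 2 :=
    Finset.sum_nonneg fun g _ => mul_nonneg (hw g) (sq_nonneg _)
  have h2 : ∑ g ∈ F, w g * (f g - c) ^ 2
      = ∑ g ∈ F, w g * f g ^ 2 - (2 * c) * ∑ g ∈ F, w g * f g + c ^ 2 * ∑ g ∈ F, w g := by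
    rw [Finset.mul_sum F (fun g => w g * f g) (2 * c), Finset.mul_sum F w (c ^ 2),
      ← Finset.sum_sub_distrib, ← Finset.sum_add_distrib]
    refine Finset.sum_congr rfl fun g _ => ?_
    ring
  rw [h2, hs, ← hc] at h1
  nlinarith

theorem limit_eta (q A B e : ℝ) (hA : 0 ≤ A) (hB : 0 ≤ B)
    (h : ∀ η : ℝ, 0 < η → q ≤ A * η ^ 2 + B * η + e) : q ≤ e := by
  refine le_of_forall_pos_le_add fun r hr => ?_
  set η := min 1 (r / (A + B + 1)) with hη
  have h0 : 0 < η := by positivity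
  have h1 : η ≤ 1 := min_le_left _ _
  have h2 : η * (A + B + 1) ≤ r := by
    have := min_le_right 1 (r / (A + B + 1))
    rw [← hη, le_div_iff₀ (by positivity)] at this
    exact this
  have h3 := h η h0
  have h4 : A * η ^ 2 ≤ A * η := by
    refine mul_le_mul_of_nonneg_left ?_ hA
    nlinarith
  nlinarith

theorem TrAct.cond_small (hA : S.StepA) (J : Type) [Fintype J] (y : J → A)
    (hy : ∀ j, IsSelfAdjoint (y j)) (hτ : ∀ j, T.τ (y j) = 0) (m0 : Measure G)
    [IsProbabilityMeasure m0] (C0 : Set G) (hC0 : IsCompact C0) (hm0 : m0 C0ᶜ = 0) (L ε : ℝ)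
    (hL : 0 ≤ L) (hε : 0 ≤ ε) (hsoc : S.SOC J y m0 L ε) (i : J) :
    ‖T.ι (S.E (y i))‖ ^ 2 ≤ 8 * ε := by
  classical
  set p := S.E (y i) with hp
  have hpsa : IsSelfAdjoint p := S.E_isSelfAdjoint (hy i)
  have hpf : S.Fixed p := S.E_fixed _
  have hpτ : T.τ p = 0 := by rw [hp, S.τ_E, hτ]
  by_cases hp0 : p = 0
  · rw [hp0, map_zero, norm_zero, zero_pow two_ne_zero]
    linarith
  have hnegp : (-p)⁺ = p⁻ := CFC.posPart_neg p
  have hpp0 : p⁺ ≠ 0 := by
    intro h0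
    have h1 : p = -p⁻ := by
      have := CFC.posPart_sub_negPart p hpsa
      rw [h0, zero_sub] at this
      exact this.symm
    have h2 : (T.τ p⁻).re = 0 := by
      have h3 := hpτ
      rw [h1, T.τ_neg] at h3
      have := congrArg Complex.re h3
      simpa using this
    have h4 := eq_zero_of_τ T p⁻ (CFC.negPart_nonneg p) h2
    rw [h4, neg_zero] at h1
    exact hp0 h1
  have hpn0 : p⁻ ≠ 0 := by
    intro h0
    have h1 : p = p⁺ := by
      have := CFC.posPart_sub_negPart p hpsa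
      rw [h0, sub_zero] at this
      exact this.symm
    have h2 : (T.τ p⁺).re = 0 := by
      have h3 := hpτ
      rw [h1] at h3
      have := congrArg Complex.re h3
      simpa using this
    exact hpp0 (eq_zero_of_τ T p⁺ (CFC.posPart_nonneg p) h2)
  have hnpos : ∀ r : A, r ≠ 0 → 0 < ‖T.ι r‖ := fun r hr =>
    norm_pos_iff.2 fun h => hr (T.inj (by rw [h, map_zero]))
  set θ1 := ‖T.ι p⁺‖ / 2 with hθ1
  set θ2 := ‖T.ι p⁻‖ / 2 with hθ2
  have hθ1p : 0 < θ1 := by have := hnpos _ hpp0; positivity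
  have hθ2p : 0 < θ2 := by have := hnpos _ hpn0; positivity
  set l := 4 / (θ1 + θ2) with hl
  have hlp : 0 < l := by positivity
  have htl : (θ1 + θ2) * l = 4 := by rw [hl]; field_simp
  obtain ⟨δ, hδ, hδ1, hδ2⟩ := exists_delta (l * ‖p⁺‖) (l * ‖p⁻‖) (2 * θ1 ^ 2) (2 * θ2 ^ 2)
    (by positivity) (by positivity) (by positivity) (by positivity)
  obtain ⟨F, w, hw, hs, hFw⟩ := S.exists_avg_family J y δ hδ
  set d : J → A := fun j => S.avg F w (y j) - S.E (y j) with hd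
  have hdsa : ∀ j, IsSelfAdjoint (d j) := by
    intro j
    have havg : star (S.avg F w (y j)) = S.avg F w (y j) := by
      unfold TrAct.avg
      rw [star_sum]
      refine Finset.sum_congr rfl fun g _ => ?_
      rw [star_smul, star_trivial, ← map_star, (hy j).star_eq]
    rw [isSelfAdjoint_iff, hd]
    simp only [star_sub, havg, (S.E_isSelfAdjoint (hy j)).star_eq]
  set c := ∑ j, S.E (d j * d j) with hc
  have hcsa : IsSelfAdjoint c := by
    rw [isSelfAdjoint_iff, hc, star_sum]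
    refine Finset.sum_congr rfl fun j _ => ?_
    rw [← S.E_star, star_mul, (hdsa j).star_eq]
  have hcf : S.Fixed c := by
    intro g
    rw [hc, map_sum]
    exact Finset.sum_congr rfl fun j _ => S.E_fixed _ g
  have hsumre : ∀ f : J → A, (T.τ (∑ j, f j)).re = ∑ j, (T.τ (f j)).re := by
    intro f
    unfold TrAlg.τ
    rw [map_sum, inner_sum, Complex.re_sum]
  have hcτ : (T.τ c).re < δ := by
    rw [hc, hsumre]
    refine lt_of_eq_of_lt (Finset.sum_congr rfl fun j _ => ?_) hFw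
    rw [S.τ_E]
    have := T.norm_sq (d j)
    rw [(hdsa j).star_eq] at this
    exact this.symm
  have hw1 := S.τ_mul_c_le J d hdsa p⁺ (CFC.posPart_nonneg p) (S.fixed_posPart hpsa hpf)
  have hw2 := S.τ_mul_c_le J d hdsa p⁻ (CFC.negPart_nonneg p) (by
    rw [← hnegp]
    exact S.fixed_posPart hpsa.neg (TrAct.Fixed.neg S hpf))
  have hb1 : (p - l • c - θ1 • (1 : A))⁺ ≠ 0 := by
    refine window_ne_zero T p c hpsa hcsa l θ1 hlp.le hθ1 hθ1p hw1 ?_
    refine lt_of_le_of_lt ?_ hδ1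
    rw [mul_assoc]
    exact mul_le_mul_of_nonneg_left (mul_le_mul_of_nonneg_left hcτ.le (norm_nonneg _)) hlp.le
  have hb2 : (-p - l • c - θ2 • (1 : A))⁺ ≠ 0 := by
    refine window_ne_zero T (-p) c hpsa.neg hcsa l θ2 hlp.le (by rw [hnegp]) hθ2p
      (by rw [hnegp]; exact hw2) ?_
    rw [hnegp]
    refine lt_of_le_of_lt ?_ hδ2
    rw [mul_assoc]
    exact mul_le_mul_of_nonneg_left (mul_le_mul_of_nonneg_left hcτ.le (norm_nonneg _)) hlp.le
  have hX1 : IsSelfAdjoint (p - l • c - θ1 • (1 : A)) := by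
    rw [isSelfAdjoint_iff, star_sub, star_sub, star_smul, star_smul, hpsa.star_eq, hcsa.star_eq,
      star_one, star_trivial, star_trivial]
  have hX2 : IsSelfAdjoint (-p - l • c - θ2 • (1 : A)) := by
    rw [isSelfAdjoint_iff, star_sub, star_sub, star_smul, star_smul, star_neg, hpsa.star_eq,
      hcsa.star_eq, star_one, star_trivial, star_trivial]
  have hsm : ∀ (r : ℝ) (z : A), S.Fixed z → S.Fixed (r • z) := fun r z hz =>
    TrAct.Fixed.smul S hz (r : ℂ)
  have hf1 : S.Fixed (p - l • c - θ1 • (1 : A))⁺ :=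
    S.fixed_posPart hX1 (TrAct.Fixed.sub S (TrAct.Fixed.sub S hpf (hsm _ _ hcf))
      (hsm _ _ (TrAct.Fixed.one S)))
  have hf2 : S.Fixed (-p - l • c - θ2 • (1 : A))⁺ :=
    S.fixed_posPart hX2 (TrAct.Fixed.sub S (TrAct.Fixed.sub S (TrAct.Fixed.neg S hpf)
      (hsm _ _ hcf)) (hsm _ _ (TrAct.Fixed.one S)))
  obtain ⟨m, hmp, hmc, hmint⟩ := exists_mixture m0 C0 hC0 hm0 F w hw hs
  -- the estimate for every `η`
  have key : ∀ η : ℝ, 0 < η → (θ1 + θ2) ^ 2
      ≤ 16 * (∑ j, ‖y j‖ ^ 2) * η ^ 2 + 32 * L * η + 2 * ε := by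
    intro η hη
    obtain ⟨a, x, hax, ha0, hEa, hnear⟩ := hA m hmc _ _ hf1 hf2 hb1 hb2 (η ^ 2 / 2) (by positivity)
    set N := ‖T.ι a‖ with hN
    have hNp : 0 < N := hnpos a ha0
    have hcont : Continuous fun s => ‖T.ι (S.α s a) - T.ι a‖ ^ 2 :=
      (((S.cont a).sub continuous_const).norm).pow 2
    have hbd : ∀ s, ‖T.ι (S.α s a) - T.ι a‖ ≤ 2 * N := fun s => by
      refine (norm_sub_le _ _).trans ?_
      rw [S.norm_map]
      linarith
    rw [hmint _ hcont ⟨(2 * N) ^ 2, fun s => by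
      rw [abs_of_nonneg (by positivity)]
      exact pow_le_pow_left₀ (norm_nonneg _) (hbd s) 2⟩] at hnear
    have hI0 : 0 ≤ ∫ s, ‖T.ι (S.α s a) - T.ι a‖ ^ 2 ∂m0 := integral_nonneg fun s => by positivity
    have hS0 : 0 ≤ ∑ g ∈ F, w g * ‖T.ι (S.α g a) - T.ι a‖ ^ 2 :=
      Finset.sum_nonneg fun g _ => mul_nonneg (hw g) (by positivity)
    have hI : ∫ s, ‖T.ι (S.α s a) - T.ι a‖ ^ 2 ∂m0 ≤ (η * N) ^ 2 := by
      rw [mul_pow]
      nlinarith
    have hSs : ∑ g ∈ F, w g * ‖T.ι (S.α g a) - T.ι a‖ ^ 2 ≤ (η * N) ^ 2 := by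
      rw [mul_pow]
      nlinarith
    -- Cauchy-Schwarz
    have hI1 : ∫ s, ‖T.ι (S.α s a - a)‖ ∂m0 ≤ η * N := by
      simp only [map_sub]
      have hi1 : Integrable (fun s => ‖T.ι (S.α s a) - T.ι a‖) m0 := by
        have := S.integrable_norm m0 a
        simpa only [map_sub] using this
      have hi2 : Integrable (fun s => ‖T.ι (S.α s a) - T.ι a‖ ^ 2) m0 :=
        Integrable.of_bound hcont.aestronglyMeasurable ((2 * N) ^ 2)
          (Filter.Eventually.of_forall fun s => by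
            rw [Real.norm_eq_abs, abs_of_nonneg (by positivity)]
            exact pow_le_pow_left₀ (norm_nonneg _) (hbd s) 2)
      have := (jensen_sq m0 _ hi1 hi2).trans hI
      exact abs_le_of_sq_le_sq' this (by positivity) |>.2
    have hS1 : ∑ g ∈ F, w g * ‖T.ι (S.α g a - a)‖ ≤ η * N := by
      simp only [map_sub]
      have := (jensen_sum F w hw hs (fun g => ‖T.ι (S.α g a) - T.ι a‖)).trans hSs
      exact abs_le_of_sq_le_sq' this (by positivity) |>.2
    have hstar := S.star_bound J y hy m0 L ε hL hsoc F w hw hs a hEa (η * N) hS1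
    have hcorner := corner_bound T p c hpsa hcsa l θ1 θ2 x a hax
    set X := (inner ℂ (T.ι (star a * a + a * star a)) (T.ι c)).re with hXd
    have hXs : ∑ j, (inner ℂ (T.ι (star a * a + a * star a))
          (T.ι (S.E ((S.avg F w (y j) - S.E (y j)) * (S.avg F w (y j) - S.E (y j)))))).re = X := by
      rw [hXd, hc, map_sum, inner_sum, Complex.re_sum]
    have hX0 : 0 ≤ X := by
      have h15 := S.re_inner_family_le J (fun j => d j * d j)
        (fun _ => -(star a * a + a * star a)) 0 (by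
          intro g
          refine Finset.sum_nonpos fun j _ => ?_
          have hesa : IsSelfAdjoint (S.α g (d j)) := by
            rw [isSelfAdjoint_iff, ← map_star, (hdsa j).star_eq]
          have h16 := T.norm_mul_sa a _ hesa
          have h17 := T.norm_mul_sa (star a) _ hesa
          rw [star_star] at h17
          rw [map_neg, inner_neg_left, Complex.neg_re, map_add, inner_add_left, Complex.add_re,
            map_mul (S.α g), ← h16, ← h17]
          have := sq_nonneg ‖T.ι (a * S.α g (d j))‖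
          have := sq_nonneg ‖T.ι (star a * S.α g (d j))‖
          linarith)
      simp only [map_neg, inner_neg_left, Complex.neg_re] at h15
      rw [Finset.sum_neg_distrib, hXs] at h15
      linarith
    rw [hXs] at hstar
    refine final_algebra N (θ1 + θ2) l X ‖T.ι (a * p - p * a)‖ _ hNp (by positivity) htl hX0
      hcorner ?_
    have h9 : ‖T.ι (a * p - p * a)‖ ^ 2 ≤ ∑ j, (‖T.ι (a * S.E (y j) - S.E (y j) * a)‖ ^ 2
        + ‖T.ι (star a * S.E (y j) - S.E (y j) * star a)‖ ^ 2) := by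
      refine le_trans ?_ (Finset.single_le_sum (f := fun j =>
        ‖T.ι (a * S.E (y j) - S.E (y j) * a)‖ ^ 2
        + ‖T.ι (star a * S.E (y j) - S.E (y j) * star a)‖ ^ 2)
        (fun j _ => by positivity) (Finset.mem_univ i))
      have : 0 ≤ ‖T.ι (star a * S.E (y i) - S.E (y i) * star a)‖ ^ 2 := by positivity
      linarith
    refine h9.trans (hstar.trans ?_)
    have h10 : ∑ j, (‖y j‖ * (η * N)) ^ 2 = (∑ j, ‖y j‖ ^ 2) * (η ^ 2 * N ^ 2) := by
      rw [Finset.sum_mul]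
      refine Finset.sum_congr rfl fun j _ => ?_
      ring
    have h11 : N * ∫ s, ‖T.ι (S.α s a - a)‖ ∂m0 ≤ N * (η * N) :=
      mul_le_mul_of_nonneg_left hI1 hNp.le
    have h12 := mul_le_mul_of_nonneg_left h11 (show 0 ≤ 32 * L by positivity)
    rw [h10]
    have h18 : (16 * (∑ j, ‖y j‖ ^ 2) * η ^ 2 + 32 * L * η + 2 * ε) * N ^ 2
        = 16 * ((∑ j, ‖y j‖ ^ 2) * (η ^ 2 * N ^ 2)) + 32 * L * (N * (η * N)) + 2 * ε * N ^ 2 := by
      ring
    rw [h18]
    linarith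
  have hlim : (θ1 + θ2) ^ 2 ≤ 2 * ε :=
    limit_eta _ _ _ _ (by positivity) (by positivity) key
  have hsplit := T.norm_posPart_add p hpsa
  have h13 : ‖T.ι p⁺‖ = 2 * θ1 := by rw [hθ1]; ring
  have h14 : ‖T.ι p⁻‖ = 2 * θ2 := by rw [hθ2]; ring
  rw [hsplit, h13, h14]
  nlinarith

end

end Pool.Agent.AbCoc
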