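import Pool.Agent.Lib_MP_418a80_ab.FamSoc
import Pool.Agent.Lib_MP_418a80_ab.StepC5

set_option autoImplicit false
set_option linter.unusedVariables false
set_option linter.unusedSectionVars false

open Topology Filter MeasureTheory

namespace Pool.Agent.AbCoc

universe u v w

attribute [local instance] CStarAlgebra.spectralOrder CStarAlgebra.spectralOrderedRing

/-- real algebra at the end of Step C, family version -/
theorem final_algebra_fam (N t l X n C0 : ℝ) (hN : 0 < N) (ht : 0 < t) (hl : t * l = 10)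
    (hX : 0 ≤ X) (h1 : (t * N + l * X) ^ 2 ≤ N * n) (h2 : n ≤ 20 * X + C0 * N) :
    t ^ 2 ≤ C0 := by
  have h5 : N * n ≤ N * (20 * X + C0 * N) := mul_le_mul_of_nonneg_left h2 hN.le
  have h6 : (t * N + l * X) ^ 2 = t ^ 2 * N ^ 2 + 2 * (t * l) * (N * X) + (l * X) ^ 2 := by
    ring
  rw [h6, hl] at h1
  have h7 : t ^ 2 * N ^ 2 ≤ C0 * N ^ 2 := by nlinarith [sq_nonneg (l * X)]
  exact le_of_mul_le_mul_right h7 (by positivity)

theorem sum_mul_le_of_sq {I : Type} [Fintype I] (u v : I → ℝ) (N η : ℝ) (hN : 1 ≤ N) (hη : 0 ≤ η)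
    (hu : ∑ i, u i ^ 2 = N) (hv : ∑ i, v i ^ 2 ≤ η ^ 2) : ∑ i, u i * v i ≤ N * η := by
  have h1 := Finset.sum_mul_sq_le_sq_mul_sq (Finset.univ : Finset I) u v
  rw [hu] at h1
  have h2 : (∑ i, u i * v i) ^ 2 ≤ (N * η) ^ 2 := by
    refine h1.trans ?_
    have := mul_le_mul_of_nonneg_left hv (show 0 ≤ N by linarith)
    nlinarith [sq_nonneg η]
  exact abs_le_of_sq_le_sq' h2 (by positivity) |>.2

section
variable {A : Type u} [CStarAlgebra A] {K : Type v} [NormedAddCommGroup K]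
  [InnerProductSpace ℂ K] [CompleteSpace K]
variable {G : Type w} [Group G] [TopologicalSpace G] [IsTopologicalGroup G] [T2Space G]
  [SecondCountableTopology G] [MeasurableSpace G] [BorelSpace G] {T : TrAlg A K} (S : TrAct G T)

theorem TrAct.fixed_posPart_fam {G : Type w} [Group G] [TopologicalSpace G] (S : TrAct G T)
    {p : A} (hp : IsSelfAdjoint p) (hf : S.Fixed p) : S.Fixed p⁺ := by
  intro g
  have h1 : p = S.α g p⁺ - S.α g p⁻ := by
    rw [← map_sub, CFC.posPart_sub_negPart p hp, hf g]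
  have h2 : S.α g p⁺ * S.α g p⁻ = 0 := by
    rw [← map_mul, CFC.posPart_mul_negPart, map_zero]
  exact (CFC.posPart_negPart_unique h1 h2 (map_nonneg' _ _ (CFC.posPart_nonneg p))
    (map_nonneg' _ _ (CFC.negPart_nonneg p))).1.symm

/-- `re τ(r c) ≤ ‖r‖ re τ(c)` for `c = ∑ E(d_j²)`, `r` positive and fixed -/
theorem TrAct.τ_mul_c_le_fam {G : Type w} [Group G] [TopologicalSpace G] (S : TrAct G T)
    (J : Type) [Fintype J] (d : J → A) (hd : ∀ j, IsSelfAdjoint (d j))
    (r : A) (hr : 0 ≤ r) (hf : S.Fixed r) :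
    (T.τ (r * ∑ j, S.E (d j * d j))).re ≤ ‖r‖ * (T.τ (∑ j, S.E (d j * d j))).re := by
  have hrs : IsSelfAdjoint r := IsSelfAdjoint.of_nonneg hr
  have h1 : ∀ j, (T.τ (r * S.E (d j * d j))).re = (T.τ (d j * r * d j)).re := by
    intro j
    rw [← S.E_mul_left hf, S.τ_E]
    have : T.τ (r * (d j * d j)) = T.τ (d j * r * d j) := by
      rw [← mul_assoc, T.τ_mul_comm, ← mul_assoc]
    rw [this]
  have h2 : ∀ j, (T.τ (S.E (d j * d j))).re = (T.τ (d j * d j)).re := fun j => by rw [S.τ_E]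
  have h3 : ∀ j, (T.τ (d j * r * d j)).re ≤ ‖r‖ * (T.τ (d j * d j)).re := by
    intro j
    have h4 : 0 ≤ algebraMap ℝ A ‖r‖ - r := sub_nonneg.2 hrs.le_algebraMap_norm_self
    have h5 := T.re_τ_conj_nonneg (d j) _ h4
    rw [(hd j).star_eq, mul_sub, sub_mul, T.τ_sub, Complex.sub_re] at h5
    have h6 : d j * algebraMap ℝ A ‖r‖ * d j = ‖r‖ • (d j * d j) := by
      rw [Algebra.algebraMap_eq_smul_one, mul_smul_comm, mul_one, smul_mul_assoc]
    rw [h6, re_τ_real_smul] at h5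
    linarith
  have hsum : ∀ f : J → A, (T.τ (∑ j, f j)).re = ∑ j, (T.τ (f j)).re := by
    intro f
    unfold TrAlg.τ
    rw [map_sum, inner_sum, Complex.re_sum]
  rw [Finset.mul_sum, hsum, hsum, Finset.mul_sum]
  refine Finset.sum_le_sum fun j _ => ?_
  rw [h1, h2]
  exact h3 j

theorem TrAct.cond_small_fam (hA : S.StepATyp) (J : Type) [Fintype J] (y : J → A)
    (hy : ∀ j, IsSelfAdjoint (y j)) (hτ : ∀ j, T.τ (y j) = 0) (m0 : Measure G)
    [IsProbabilityMeasure m0] (C0 : Set G) (hC0 : IsCompact C0) (hm0 : m0 C0ᶜ = 0) (L ε : ℝ)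
    (hL : 0 ≤ L) (hε : 0 ≤ ε) (hsoc : S.SOC J y m0 L ε) (i : J) :
    ‖T.ι (S.E (y i))‖ ^ 2 ≤ 16 * ε := by
  classical
  set p := S.E (y i) with hp
  have hpsa : IsSelfAdjoint p := S.E_isSelfAdjoint (hy i)
  have hpf : S.Fixed p := S.E_fixed _
  have hpτ : T.τ p = 0 := by rw [hp, S.τ_E, hτ]
  by_cases hp0 : p = 0
  · rw [hp0, map_zero, norm_zero, zero_pow two_ne_zero]
    linarith
  have hnegp : (-p)⁺ = p⁻ := CFC.posPart_neg p
  have hpp0 : p⁺ ≠ 0 := by
    intro h0
    have h1 : p = -p⁻ := by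
      have := CFC.posPart_sub_negPart p hpsa
      rw [h0, zero_sub] at this
      exact this.symm
    have h2 : (T.τ p⁻).re = 0 := by
      have h3 := hpτ
      rw [h1, T.τ_neg] at h3
      have := congrArg Complex.re h3
      simpa using this
    have h4 := eq_zero_of_τ T p⁻ (CFC.negPart_nonneg p) h2
    rw [h4, neg_zero] at h1
    exact hp0 h1
  have hpn0 : p⁻ ≠ 0 := by
    intro h0
    have h1 : p = p⁺ := by
      have := CFC.posPart_sub_negPart p hpsa
      rw [h0, sub_zero] at this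
      exact this.symm
    have h2 : (T.τ p⁺).re = 0 := by
      have h3 := hpτ
      rw [h1] at h3
      have := congrArg Complex.re h3
      simpa using this
    exact hpp0 (eq_zero_of_τ T p⁺ (CFC.posPart_nonneg p) h2)
  have hnpos : ∀ r : A, r ≠ 0 → 0 < ‖T.ι r‖ := fun r hr =>
    norm_pos_iff.2 fun h => hr (T.inj (by rw [h, map_zero]))
  set θ1 := ‖T.ι p⁺‖ / 2 with hθ1
  set θ2 := ‖T.ι p⁻‖ / 2 with hθ2
  have hθ1p : 0 < θ1 := by have := hnpos _ hpp0; positivity
  have hθ2p : 0 < θ2 := by have := hnpos _ hpn0; positivity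
  set l := 10 / (θ1 + θ2) with hl
  have hlp : 0 < l := by positivity
  have htl : (θ1 + θ2) * l = 10 := by rw [hl]; field_simp
  obtain ⟨δ, hδ, hδ1, hδ2⟩ := exists_delta (l * ‖p⁺‖) (l * ‖p⁻‖) (2 * θ1 ^ 2) (2 * θ2 ^ 2)
    (by positivity) (by positivity) (by positivity) (by positivity)
  obtain ⟨F, w, hw, hs, hFw⟩ := S.exists_avg_family J y δ hδ
  set d : J → A := fun j => S.avg F w (y j) - S.E (y j) with hd
  have hdsa : ∀ j, IsSelfAdjoint (d j) := by
    intro j
    rw [isSelfAdjoint_iff, hd]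
    simp only [star_sub, (S.avg_isSelfAdjoint F w (hy j)).star_eq,
      (S.E_isSelfAdjoint (hy j)).star_eq]
  set c := ∑ j, S.E (d j * d j) with hc
  have hcsa : IsSelfAdjoint c := by
    rw [isSelfAdjoint_iff, hc, star_sum]
    refine Finset.sum_congr rfl fun j _ => ?_
    rw [← S.E_star, star_mul, (hdsa j).star_eq]
  have hcf : S.Fixed c := by
    intro g
    rw [hc, map_sum]
    exact Finset.sum_congr rfl fun j _ => S.E_fixed _ g
  have hsumre : ∀ f : J → A, (T.τ (∑ j, f j)).re = ∑ j, (T.τ (f j)).re := by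
    intro f
    unfold TrAlg.τ
    rw [map_sum, inner_sum, Complex.re_sum]
  have hcτ : (T.τ c).re < δ := by
    rw [hc, hsumre]
    refine lt_of_eq_of_lt (Finset.sum_congr rfl fun j _ => ?_) hFw
    rw [S.τ_E]
    have := T.norm_sq (d j)
    rw [(hdsa j).star_eq] at this
    exact this.symm
  have hw1 := S.τ_mul_c_le_fam J d hdsa p⁺ (CFC.posPart_nonneg p) (S.fixed_posPart_fam hpsa hpf)
  have hw2 := S.τ_mul_c_le_fam J d hdsa p⁻ (CFC.negPart_nonneg p) (by
    rw [← hnegp]
    exact S.fixed_posPart_fam hpsa.neg (TrAct.Fixed.neg S hpf))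
  have hb1 : (p - l • c - θ1 • (1 : A))⁺ ≠ 0 := by
    refine window_ne_zero T p c hpsa hcsa l θ1 hlp.le hθ1 hθ1p hw1 ?_
    refine lt_of_le_of_lt ?_ hδ1
    rw [mul_assoc]
    exact mul_le_mul_of_nonneg_left (mul_le_mul_of_nonneg_left hcτ.le (norm_nonneg _)) hlp.le
  have hb2 : (-p - l • c - θ2 • (1 : A))⁺ ≠ 0 := by
    refine window_ne_zero T (-p) c hpsa.neg hcsa l θ2 hlp.le (by rw [hnegp]) hθ2p
      (by rw [hnegp]; exact hw2) ?_
    rw [hnegp]
    refine lt_of_le_of_lt ?_ hδ2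
    rw [mul_assoc]
    exact mul_le_mul_of_nonneg_left (mul_le_mul_of_nonneg_left hcτ.le (norm_nonneg _)) hlp.le
  have hX1 : IsSelfAdjoint (p - l • c - θ1 • (1 : A)) := by
    rw [isSelfAdjoint_iff, star_sub, star_sub, star_smul, star_smul, hpsa.star_eq, hcsa.star_eq,
      star_one, star_trivial, star_trivial]
  have hX2 : IsSelfAdjoint (-p - l • c - θ2 • (1 : A)) := by
    rw [isSelfAdjoint_iff, star_sub, star_sub, star_smul, star_smul, star_neg, hpsa.star_eq,
      hcsa.star_eq, star_one, star_trivial, star_trivial]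
  have hsm : ∀ (r : ℝ) (z : A), S.Fixed z → S.Fixed (r • z) := fun r z hz =>
    TrAct.Fixed.smul S hz (r : ℂ)
  have hf1 : S.Fixed (p - l • c - θ1 • (1 : A))⁺ :=
    S.fixed_posPart_fam hX1 (TrAct.Fixed.sub S (TrAct.Fixed.sub S hpf (hsm _ _ hcf))
      (hsm _ _ (TrAct.Fixed.one S)))
  have hf2 : S.Fixed (-p - l • c - θ2 • (1 : A))⁺ :=
    S.fixed_posPart_fam hX2 (TrAct.Fixed.sub S (TrAct.Fixed.sub S (TrAct.Fixed.neg S hpf)
      (hsm _ _ hcf)) (hsm _ _ (TrAct.Fixed.one S)))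
  have hbs1 : IsSelfAdjoint (p - l • c - θ1 • (1 : A))⁺ :=
    IsSelfAdjoint.of_nonneg (CFC.posPart_nonneg _)
  have hbs2 : IsSelfAdjoint (-p - l • c - θ2 • (1 : A))⁺ :=
    IsSelfAdjoint.of_nonneg (CFC.posPart_nonneg _)
  set B := ∑ j, (‖y j‖ ^ 2 + ‖S.E (y j)‖ ^ 2) with hB
  have hB0 : 0 ≤ B := Finset.sum_nonneg fun j _ => by positivity
  set n : ℝ := (Fintype.card J : ℝ) with hn
  have hn0 : 0 ≤ n := Nat.cast_nonneg _
  have hD : IsCompact (C0 ∪ (F : Set G)) := hC0.union F.finite_toSet.isCompact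
  -- the estimate for every `η`
  have key : ∀ η : ℝ, 0 < η → (θ1 + θ2) ^ 2
      ≤ (20 * n + 128 * B) * η ^ 2 + (16 * B + 64 * L) * η + 4 * ε := by
    intro η hη
    obtain ⟨I, hI, a, x, hax, hN1, hEa, hnear, htyp⟩ := hA _ _ hf1 hf2 hbs1 hbs2 hb1 hb2
      (C0 ∪ (F : Set G)) hD (η ^ 2) (by positivity) J (fun j => d j * d j)
    set N := ∑ k, ‖T.ι (a k)‖ ^ 2 with hN
    have hNp : 0 < N := by linarith
    have hcor : ∀ k, (θ1 + θ2) * ‖T.ι (a k)‖ ^ 2
        + l * (inner ℂ (T.ι (star (a k) * a k + a k * star (a k))) (T.ι c)).re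
        ≤ ‖T.ι (a k)‖ * ‖T.ι (a k * p - p * a k)‖ := fun k =>
      corner_bound T p c hpsa hcsa l θ1 θ2 (x k) (a k) (hax k)
    clear hax
    -- the numbers `r`, `ρ`
    set r : I → ℝ := fun k => ∑ g ∈ F, w g * ‖T.ι (S.α g (a k) - a k)‖ with hr
    set ρ : I → ℝ := fun k => ∫ s, ‖T.ι (S.α s (a k) - a k)‖ ∂m0 with hρ
    have hr2 : ∑ k, r k ^ 2 ≤ η ^ 2 := by
      calc ∑ k, r k ^ 2 ≤ ∑ k, ∑ g ∈ F, w g * ‖T.ι (S.α g (a k) - a k)‖ ^ 2 :=
            Finset.sum_le_sum fun k _ => jensen_sum F w hw hs _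
        _ = ∑ g ∈ F, w g * ∑ k, ‖T.ι (S.α g (a k) - a k)‖ ^ 2 := by
            rw [Finset.sum_comm]
            exact Finset.sum_congr rfl fun g _ => by rw [Finset.mul_sum]
        _ ≤ ∑ g ∈ F, w g * η ^ 2 :=
            Finset.sum_le_sum fun g hg => mul_le_mul_of_nonneg_left
              (hnear g (Or.inr (Finset.mem_coe.2 hg))) (hw g)
        _ = η ^ 2 := by rw [← Finset.sum_mul, hs, one_mul]
    have hcontk : ∀ k, Continuous fun s => ‖T.ι (S.α s (a k) - a k)‖ := fun k => by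
      simp only [map_sub]
      exact ((S.cont (a k)).sub continuous_const).norm
    have hbdk : ∀ k s, ‖T.ι (S.α s (a k) - a k)‖ ≤ 2 * ‖T.ι (a k)‖ := fun k s => by
      rw [map_sub]
      refine (norm_sub_le _ _).trans ?_
      rw [S.norm_map]
      linarith
    have hi2 : ∀ k, Integrable (fun s => ‖T.ι (S.α s (a k) - a k)‖ ^ 2) m0 := fun k =>
      Integrable.of_bound ((hcontk k).pow 2).aestronglyMeasurable ((2 * ‖T.ι (a k)‖) ^ 2)
        (Filter.Eventually.of_forall fun s => by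
          rw [Real.norm_eq_abs, abs_of_nonneg (by positivity)]
          exact pow_le_pow_left₀ (norm_nonneg _) (hbdk k s) 2)
    have hρ2 : ∑ k, ρ k ^ 2 ≤ η ^ 2 := by
      calc ∑ k, ρ k ^ 2 ≤ ∑ k, ∫ s, ‖T.ι (S.α s (a k) - a k)‖ ^ 2 ∂m0 :=
            Finset.sum_le_sum fun k _ => jensen_sq m0 _ (S.integrable_norm m0 (a k)) (hi2 k)
        _ = ∫ s, ∑ k, ‖T.ι (S.α s (a k) - a k)‖ ^ 2 ∂m0 :=
            (integral_finsetSum _ fun k _ => hi2 k).symm
        _ ≤ ∫ s, η ^ 2 ∂m0 := by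
            refine integral_mono_ae (integrable_finsetSum _ fun k _ => hi2 k)
              (integrable_const _) ?_
            have h1 : ∀ᵐ s ∂m0, s ∈ C0 := by
              rw [ae_iff]
              exact hm0
            filter_upwards [h1] with s hs1
            exact hnear s (Or.inl hs1)
        _ = η ^ 2 := by rw [integral_const]; simp
    have hr0 : ∀ k, 0 ≤ r k := fun k =>
      Finset.sum_nonneg fun g _ => mul_nonneg (hw g) (norm_nonneg _)
    have hρ0 : ∀ k, 0 ≤ ρ k := fun k => integral_nonneg fun s => norm_nonneg _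
    have e1 : ∑ k, ‖T.ι (a k)‖ * r k ≤ N * η :=
      sum_mul_le_of_sq (fun k => ‖T.ι (a k)‖) r N η hN1 hη.le rfl hr2
    have e2 : ∑ k, ‖T.ι (a k)‖ * ρ k ≤ N * η :=
      sum_mul_le_of_sq (fun k => ‖T.ι (a k)‖) ρ N η hN1 hη.le rfl hρ2
    -- the second order condition, summed
    set V : I → ℝ := fun k => ∑ j, (inner ℂ (T.ι (star (a k) * a k + a k * star (a k)))
          (T.ι (d j * d j))).re with hV
    have hsoc1 : ∀ k, ‖T.ι (a k * p - p * a k)‖ ^ 2 ≤ 20 * V k
        + (B * (16 * (‖T.ι (a k)‖ * r k) + 64 * (r k ^ 2 + ‖T.ι (S.E (a k))‖ ^ 2))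
          + 64 * L * (‖T.ι (a k)‖ * ρ k) + 4 * ε * ‖T.ι (a k)‖ ^ 2) := by
      intro k
      have h1 := S.soc_fam J y hy m0 L ε hL hsoc F w hw hs B hB (a k) (r k) (ρ k) rfl rfl
      refine le_trans ?_ h1
      refine le_trans ?_ (Finset.single_le_sum (f := fun j =>
        ‖T.ι (a k * S.E (y j) - S.E (y j) * a k)‖ ^ 2
        + ‖T.ι (star (a k) * S.E (y j) - S.E (y j) * star (a k))‖ ^ 2)
        (fun j _ => by positivity) (Finset.mem_univ i))
      have : 0 ≤ ‖T.ι (star (a k) * S.E (y i) - S.E (y i) * star (a k))‖ ^ 2 := by positivity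
      linarith
    set m := ∑ k, ‖T.ι (a k * p - p * a k)‖ ^ 2 with hm
    have hsoc2 : m ≤ 20 * ∑ k, V k
        + (B * (16 * (∑ k, ‖T.ι (a k)‖ * r k)
            + 64 * (∑ k, r k ^ 2 + ∑ k, ‖T.ι (S.E (a k))‖ ^ 2))
          + 64 * L * (∑ k, ‖T.ι (a k)‖ * ρ k) + 4 * ε * N) := by
      have h1 := Finset.sum_le_sum (s := Finset.univ) fun k (_ : k ∈ Finset.univ) => hsoc1 k
      refine h1.trans (le_of_eq ?_)
      simp only [Finset.sum_add_distrib, ← Finset.mul_sum]
      rw [hN]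
    -- densities
    set X := ∑ k, (inner ℂ (T.ι (star (a k) * a k + a k * star (a k))) (T.ι c)).re with hX
    have hVX : ∑ k, V k ≤ X + n * η ^ 2 := by
      have h1 : ∑ k, V k = ∑ j, ∑ k, (inner ℂ (T.ι (star (a k) * a k + a k * star (a k)))
          (T.ι (d j * d j))).re := Finset.sum_comm
      have h2 : X = ∑ j, ∑ k, (inner ℂ (T.ι (star (a k) * a k + a k * star (a k)))
          (T.ι (S.E (d j * d j)))).re := by
        rw [hX, Finset.sum_comm]
        refine Finset.sum_congr rfl fun k _ => ?_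
        rw [hc, map_sum, inner_sum, Complex.re_sum]
      have h3 : n * η ^ 2 = ∑ j : J, η ^ 2 := by
        rw [Finset.sum_const, Finset.card_univ, nsmul_eq_mul]
      rw [h1, h2, h3, ← Finset.sum_add_distrib]
      refine Finset.sum_le_sum fun j _ => ?_
      have h4 := htyp j
      have h5 : ∑ k, inner ℂ (T.ι (star (a k) * a k + a k * star (a k)))
          (T.ι (d j * d j - S.E (d j * d j)))
          = ∑ k, (inner ℂ (T.ι (star (a k) * a k + a k * star (a k))) (T.ι (d j * d j))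
            - inner ℂ (T.ι (star (a k) * a k + a k * star (a k))) (T.ι (S.E (d j * d j)))) := by
        refine Finset.sum_congr rfl fun k _ => ?_
        rw [map_sub, inner_sub_right]
      rw [h5] at h4
      have h6 := (Complex.re_le_norm _).trans h4
      rw [Complex.re_sum] at h6
      simp only [Complex.sub_re, Finset.sum_sub_distrib] at h6
      linarith
    have hX0 : 0 ≤ X := by
      rw [hX]
      refine Finset.sum_nonneg fun k _ => ?_
      have h15 := S.re_inner_family_le J (fun j => d j * d j)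
        (fun _ => -(star (a k) * a k + a k * star (a k))) 0 (by
          intro g
          refine Finset.sum_nonpos fun j _ => ?_
          have hesa : IsSelfAdjoint (S.α g (d j)) := by
            rw [isSelfAdjoint_iff, ← map_star, (hdsa j).star_eq]
          have h16 := T.norm_mul_sa (a k) _ hesa
          have h17 := T.norm_mul_sa (star (a k)) _ hesa
          rw [star_star] at h17
          rw [map_neg, inner_neg_left, Complex.neg_re, map_add, inner_add_left, Complex.add_re,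
            map_mul (S.α g), ← h16, ← h17]
          have := sq_nonneg ‖T.ι (a k * S.α g (d j))‖
          have := sq_nonneg ‖T.ι (star (a k) * S.α g (d j))‖
          linarith)
      simp only [map_neg, inner_neg_left, Complex.neg_re] at h15
      rw [Finset.sum_neg_distrib] at h15
      have h16 : (inner ℂ (T.ι (star (a k) * a k + a k * star (a k))) (T.ι c)).re
          = ∑ j, (inner ℂ (T.ι (star (a k) * a k + a k * star (a k)))
            (T.ι (S.E (d j * d j)))).re := by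
        rw [hc, map_sum, inner_sum, Complex.re_sum]
      rw [h16]
      linarith
    -- the corner bound, summed
    have hcorner : (θ1 + θ2) * N + l * X ≤ ∑ k, ‖T.ι (a k)‖ * ‖T.ι (a k * p - p * a k)‖ := by
      rw [hN, hX, Finset.mul_sum, Finset.mul_sum, ← Finset.sum_add_distrib]
      exact Finset.sum_le_sum fun k _ => hcor k
    refine final_algebra_fam N (θ1 + θ2) l X m _ hNp (by positivity) htl hX0 ?_ ?_
    · have h0 : 0 ≤ (θ1 + θ2) * N + l * X := by positivity
      refine (pow_le_pow_left₀ h0 hcorner 2).trans ?_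
      exact Finset.sum_mul_sq_le_sq_mul_sq (Finset.univ : Finset I) _ _
    · refine hsoc2.trans ?_
      have g1 := mul_le_mul_of_nonneg_left e1 hB0
      have g2 := mul_le_mul_of_nonneg_left e2 hL
      have g3 : η ^ 2 ≤ N * η ^ 2 := by nlinarith [sq_nonneg η]
      have g4 := mul_le_mul_of_nonneg_left hr2 hB0
      have g5 := mul_le_mul_of_nonneg_left hEa hB0
      have g6 := mul_le_mul_of_nonneg_left g3 hB0
      have g7 := mul_le_mul_of_nonneg_left g3 hn0
      clear_value n B m V r ρ X N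
      linarith
  have hlim : (θ1 + θ2) ^ 2 ≤ 4 * ε :=
    limit_eta _ _ _ _
      (add_nonneg (mul_nonneg (by norm_num) hn0) (mul_nonneg (by norm_num) hB0))
      (add_nonneg (mul_nonneg (by norm_num) hB0) (mul_nonneg (by norm_num) hL)) key
  have hsplit := T.norm_posPart_add p hpsa
  have h13 : ‖T.ι p⁺‖ = 2 * θ1 := by rw [hθ1]; ring
  have h14 : ‖T.ι p⁻‖ = 2 * θ2 := by rw [hθ2]; ring
  rw [hsplit, h13, h14]
  nlinarith

end

end Pool.Agent.AbCoc
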