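import Pool.Agent.Lib_MP_418a80_ab.StepC1

set_option autoImplicit false
set_option linter.unusedVariables false
set_option linter.unusedSectionVars false

open Topology Filter MeasureTheory

namespace Pool.Agent.AbCoc

universe u v w

section
variable {A : Type u} [CStarAlgebra A] {K : Type v} [NormedAddCommGroup K]
  [InnerProductSpace ℂ K] [CompleteSpace K]
variable {G : Type w} [Group G] [TopologicalSpace G] [IsTopologicalGroup G]
  [SecondCountableTopology G] [MeasurableSpace G] [BorelSpace G] {T : TrAlg A K} (S : TrAct G T)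

/-- the second order condition at `y` -/
def TrAct.SOC (J : Type) [Fintype J] (y : J → A) (m0 : Measure G) (L ε : ℝ) : Prop :=
  ∀ h : A, IsSelfAdjoint h →
    ∑ j, T.q (S.E (y j)) (y j) h ≤ ∑ j, ‖T.ι (S.E (h * y j - y j * h))‖ ^ 2
      + 8 * L * (‖T.ι h‖ * ∫ s, ‖T.ι (S.α s h - h)‖ ∂m0) + ε * ‖T.ι h‖ ^ 2

theorem TrAct.integrable_norm (m0 : Measure G) [IsProbabilityMeasure m0] (h : A) :
    Integrable (fun s => ‖T.ι (S.α s h - h)‖) m0 := by
  have hc : Continuous fun s => T.ι (S.α s h - h) := by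
    simp only [map_sub]
    exact (S.cont h).sub continuous_const
  refine Integrable.of_bound hc.norm.aestronglyMeasurable
    (‖T.ι h‖ + ‖T.ι h‖) (Filter.Eventually.of_forall fun s => ?_)
  rw [norm_norm, map_sub]
  refine (norm_sub_le _ _).trans ?_
  rw [S.norm_map]

theorem TrAct.soc_sym (J : Type) [Fintype J] (y : J → A) (m0 : Measure G)
    [IsProbabilityMeasure m0] (L ε : ℝ) (hL : 0 ≤ L) (hsoc : S.SOC J y m0 L ε) (b : A) :
    ∑ j, (T.q (S.E (y j)) (y j) b + T.q (S.E (y j)) (y j) (star b))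
      ≤ ∑ j, (‖T.ι (S.E (b * y j - y j * b))‖ ^ 2
          + ‖T.ι (S.E (star b * y j - y j * star b))‖ ^ 2)
        + 32 * L * (‖T.ι b‖ * ∫ s, ‖T.ι (S.α s b - b)‖ ∂m0) + 2 * ε * ‖T.ι b‖ ^ 2 := by
  have hsa1 : IsSelfAdjoint (b + star b) := IsSelfAdjoint.add_star_self b
  have hsa2 : IsSelfAdjoint (Complex.I • (b - star b)) := by
    rw [isSelfAdjoint_iff, star_smul, star_sub, star_star, RCLike.star_def, Complex.conj_I,
      neg_smul, ← smul_neg, neg_sub]
  have h1 := hsoc _ hsa1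
  have h2 := hsoc _ hsa2
  have hq : ∑ j, T.q (S.E (y j)) (y j) (b + star b)
      + ∑ j, T.q (S.E (y j)) (y j) (Complex.I • (b - star b))
      = 2 * ∑ j, (T.q (S.E (y j)) (y j) b + T.q (S.E (y j)) (y j) (star b)) := by
    rw [← Finset.sum_add_distrib, Finset.mul_sum]
    exact Finset.sum_congr rfl fun j _ => T.q_polar _ _ _ _
  have hE : ∑ j, ‖T.ι (S.E ((b + star b) * y j - y j * (b + star b)))‖ ^ 2
      + ∑ j, ‖T.ι (S.E ((Complex.I • (b - star b)) * y j - y j * (Complex.I • (b - star b))))‖ ^ 2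
      = 2 * ∑ j, (‖T.ι (S.E (b * y j - y j * b))‖ ^ 2
          + ‖T.ι (S.E (star b * y j - y j * star b))‖ ^ 2) := by
    rw [← Finset.sum_add_distrib, Finset.mul_sum]
    refine Finset.sum_congr rfl fun j _ => ?_
    have e1 : (b + star b) * y j - y j * (b + star b)
        = (b * y j - y j * b) + (star b * y j - y j * star b) := by noncomm_ring
    have e2 : (Complex.I • (b - star b)) * y j - y j * (Complex.I • (b - star b))
        = Complex.I • ((b * y j - y j * b) - (star b * y j - y j * star b)) := by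
      rw [smul_mul_assoc, mul_smul_comm, ← smul_sub]
      congr 1
      noncomm_ring
    rw [e1, e2, S.E_add, S.E_smul, S.E_sub (b * y j - y j * b), map_add, map_smul,
      map_sub T.ι (S.E (b * y j - y j * b))]
    exact TrAlg.par (K := K) _ _
  have hn1 : ‖T.ι (b + star b)‖ ≤ 2 * ‖T.ι b‖ := by
    rw [map_add]
    refine (norm_add_le _ _).trans ?_
    rw [T.norm_star]
    linarith
  have hn2 : ‖T.ι (Complex.I • (b - star b))‖ ≤ 2 * ‖T.ι b‖ := by
    rw [map_smul, norm_smul, Complex.norm_I, one_mul, map_sub]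
    refine (norm_sub_le _ _).trans ?_
    rw [T.norm_star]
    linarith
  have hnn : ‖T.ι (b + star b)‖ ^ 2 + ‖T.ι (Complex.I • (b - star b))‖ ^ 2 = 4 * ‖T.ι b‖ ^ 2 := by
    rw [map_add, map_smul, map_sub, TrAlg.par, T.norm_star]
    ring
  have hi1 : ∫ s, ‖T.ι (S.α s (b + star b) - (b + star b))‖ ∂m0
      ≤ 2 * ∫ s, ‖T.ι (S.α s b - b)‖ ∂m0 := by
    rw [← integral_const_mul]
    refine integral_mono (S.integrable_norm m0 _) ((S.integrable_norm m0 b).const_mul 2)
      fun s => ?_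
    have e : S.α s (b + star b) - (b + star b) = (S.α s b - b) + star (S.α s b - b) := by
      rw [map_add, map_star, star_sub]
      abel
    change ‖T.ι (S.α s (b + star b) - (b + star b))‖ ≤ 2 * ‖T.ι (S.α s b - b)‖
    rw [e, map_add]
    refine (norm_add_le _ _).trans ?_
    rw [T.norm_star]
    linarith
  have hi2 : ∫ s, ‖T.ι (S.α s (Complex.I • (b - star b)) - (Complex.I • (b - star b)))‖ ∂m0
      ≤ 2 * ∫ s, ‖T.ι (S.α s b - b)‖ ∂m0 := by
    rw [← integral_const_mul]
    refine integral_mono (S.integrable_norm m0 _) ((S.integrable_norm m0 b).const_mul 2)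
      fun s => ?_
    have e : S.α s (Complex.I • (b - star b)) - (Complex.I • (b - star b))
        = Complex.I • ((S.α s b - b) - star (S.α s b - b)) := by
      rw [map_smul, ← smul_sub, map_sub, map_star, star_sub]
      congr 1
      abel
    change ‖T.ι (S.α s (Complex.I • (b - star b)) - (Complex.I • (b - star b)))‖
      ≤ 2 * ‖T.ι (S.α s b - b)‖
    rw [e, map_smul, norm_smul, Complex.norm_I, one_mul, map_sub]
    refine (norm_sub_le _ _).trans ?_
    rw [T.norm_star]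
    linarith
  have hI0 : ∀ h : A, 0 ≤ ∫ s, ‖T.ι (S.α s h - h)‖ ∂m0 := fun h =>
    integral_nonneg fun s => norm_nonneg _
  have hp1 : ‖T.ι (b + star b)‖ * ∫ s, ‖T.ι (S.α s (b + star b) - (b + star b))‖ ∂m0
      ≤ 4 * (‖T.ι b‖ * ∫ s, ‖T.ι (S.α s b - b)‖ ∂m0) := by
    have := mul_le_mul hn1 hi1 (hI0 _) (by positivity)
    linarith
  have hp2 : ‖T.ι (Complex.I • (b - star b))‖
      * ∫ s, ‖T.ι (S.α s (Complex.I • (b - star b)) - (Complex.I • (b - star b)))‖ ∂m0
      ≤ 4 * (‖T.ι b‖ * ∫ s, ‖T.ι (S.α s b - b)‖ ∂m0) := by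
    have := mul_le_mul hn2 hi2 (hI0 _) (by positivity)
    linarith
  have hp1' := mul_le_mul_of_nonneg_left hp1 (show 0 ≤ 8 * L by positivity)
  have hp2' := mul_le_mul_of_nonneg_left hp2 (show 0 ≤ 8 * L by positivity)
  have hee : ε * ‖T.ι (b + star b)‖ ^ 2 + ε * ‖T.ι (Complex.I • (b - star b))‖ ^ 2
      = 4 * ε * ‖T.ι b‖ ^ 2 := by
    rw [← mul_add, hnn]
    ring
  linarith

end

section
variable {A : Type u} [CStarAlgebra A] {K : Type v} [NormedAddCommGroup K]
  [InnerProductSpace ℂ K] [CompleteSpace K]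
variable {G : Type w} [CommGroup G] [TopologicalSpace G] {T : TrAlg A K} (S : TrAct G T)

theorem TrAct.comm (g k : G) (a : A) : S.α g (S.α k a) = S.α k (S.α g a) := by
  rw [← S.mul, mul_comm, S.mul]

/-- `E(b y)` for a translate `b = α_k a` of a nearly invariant `a` with `E a = 0` -/
theorem TrAct.E_mul_bound (F : Finset G) (w : G → ℝ) (hw : ∀ g, 0 ≤ w g)
    (hs : ∑ g ∈ F, w g = 1) (a : A) (hEa : S.E a = 0) (y : A) (k : G) (R : ℝ)
    (hR : ∑ g ∈ F, w g * ‖T.ι (S.α g a - a)‖ ≤ R) :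
    ‖T.ι (S.E (S.α k a * y))‖ ≤ ‖T.ι (S.α k a * (S.avg F w y - S.E y))‖ + ‖y‖ * R := by
  set b := S.α k a with hb
  have hEb : S.E b = 0 := by rw [hb, S.E_α, hEa]
  have h1 : S.E (b * y) = S.E (b * (S.avg F w y - S.E y))
      + ∑ g ∈ F, (w g : ℂ) • S.E ((S.α g b - b) * S.α g y) := by
    have h2 : S.E (b * (S.avg F w y - S.E y)) = S.E (b * S.avg F w y) := by
      rw [mul_sub, S.E_sub, S.E_mul_right (S.E_fixed y), hEb, zero_mul, sub_zero]
    have h3 : S.E (b * S.avg F w y) = ∑ g ∈ F, (w g : ℂ) • S.E (b * S.α g y) := by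
      unfold TrAct.avg
      rw [Finset.mul_sum, S.E_sum]
      refine Finset.sum_congr rfl fun g _ => ?_
      have e : w g • S.α g y = (w g : ℂ) • S.α g y := rfl
      rw [e, mul_smul_comm, S.E_smul]
    have h4 : ∀ g, S.E (b * S.α g y) + S.E ((S.α g b - b) * S.α g y) = S.E (b * y) := by
      intro g
      rw [← S.E_add, ← add_mul, add_sub_cancel, ← map_mul, S.E_α]
    rw [h2, h3, ← Finset.sum_add_distrib]
    simp only [← smul_add, h4]
    rw [← Finset.sum_smul, ← Complex.ofReal_sum, hs, Complex.ofReal_one, one_smul]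
  rw [h1, map_add]
  refine (norm_add_le _ _).trans (add_le_add (S.norm_E_le _) ?_)
  rw [map_sum]
  refine (norm_sum_le _ _).trans ?_
  have h5 : ∀ g ∈ F, ‖T.ι ((w g : ℂ) • S.E ((S.α g b - b) * S.α g y))‖
      ≤ ‖y‖ * (w g * ‖T.ι (S.α g a - a)‖) := by
    intro g _
    rw [map_smul, norm_smul, Complex.norm_real, Real.norm_eq_abs, abs_of_nonneg (hw g)]
    have h6 : ‖T.ι (S.E ((S.α g b - b) * S.α g y))‖ ≤ ‖T.ι (S.α g a - a)‖ * ‖y‖ := by
      refine (S.norm_E_le _).trans ((T.mul_le' _ _).trans ?_)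
      have h7 : ‖T.ι (S.α g b - b)‖ = ‖T.ι (S.α g a - a)‖ := by
        rw [hb, S.comm g k, ← map_sub, S.norm_map]
      rw [h7]
      exact mul_le_mul_of_nonneg_left (S.norm_le g y) (norm_nonneg _)
    have := mul_le_mul_of_nonneg_left h6 (hw g)
    linarith
  refine (Finset.sum_le_sum h5).trans ?_
  rw [← Finset.mul_sum]
  exact mul_le_mul_of_nonneg_left hR (norm_nonneg _)

end

end Pool.Agent.AbCoc
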