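import Pool.Agent.Lib_MP_418a80_ab.FamBound
import Pool.Agent.Lib_MP_418a80_ab.StepC2

set_option autoImplicit false
set_option linter.unusedVariables false
set_option linter.unusedSectionVars false

open Topology Filter MeasureTheory

namespace Pool.Agent.AbCoc

universe u v w

section
variable {A : Type u} [CStarAlgebra A] {K : Type v} [NormedAddCommGroup K]
  [InnerProductSpace ℂ K] [CompleteSpace K]
variable {G : Type w} [Group G] [TopologicalSpace G] [IsTopologicalGroup G]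
  [SecondCountableTopology G] [MeasurableSpace G] [BorelSpace G] {T : TrAlg A K} (S : TrAct G T)

theorem TrAct.avg_isSelfAdjoint (F : Finset G) (w : G → ℝ) {y : A} (hy : IsSelfAdjoint y) :
    IsSelfAdjoint (S.avg F w y) := by
  rw [isSelfAdjoint_iff]
  unfold TrAct.avg
  rw [star_sum]
  refine Finset.sum_congr rfl fun g _ => ?_
  rw [star_smul, star_trivial, ← map_star, hy.star_eq]

theorem sum_aux (J : Type) [Fintype J] (u v q x c : J → ℝ) (R : ℝ)
    (h : ∀ j, 1 / 2 * u j + v j ≤ q j + 10 * x j + c j * R) :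
    1 / 2 * ∑ j, u j + ∑ j, v j ≤ ∑ j, q j + 10 * ∑ j, x j + (∑ j, c j) * R := by
  rw [Finset.mul_sum, Finset.mul_sum, Finset.sum_mul, ← Finset.sum_add_distrib,
    ← Finset.sum_add_distrib, ← Finset.sum_add_distrib]
  exact Finset.sum_le_sum fun j _ => h j

/-- the second order condition at one element of a family -/
theorem TrAct.soc_fam (J : Type) [Fintype J] (y : J → A) (hy : ∀ j, IsSelfAdjoint (y j))
    (m0 : Measure G) [IsProbabilityMeasure m0] (L ε : ℝ) (hL : 0 ≤ L) (hsoc : S.SOC J y m0 L ε)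
    (F : Finset G) (w : G → ℝ) (hw : ∀ g, 0 ≤ w g) (hs : ∑ g ∈ F, w g = 1) (B : ℝ)
    (hB : B = ∑ j, (‖y j‖ ^ 2 + ‖S.E (y j)‖ ^ 2)) (a : A) (r ρ : ℝ)
    (hr : r = ∑ g ∈ F, w g * ‖T.ι (S.α g a - a)‖)
    (hρ : ρ = ∫ s, ‖T.ι (S.α s a - a)‖ ∂m0) :
    ∑ j, (‖T.ι (a * S.E (y j) - S.E (y j) * a)‖ ^ 2
        + ‖T.ι (star a * S.E (y j) - S.E (y j) * star a)‖ ^ 2)
      ≤ 20 * ∑ j, (inner ℂ (T.ι (star a * a + a * star a))
          (T.ι ((S.avg F w (y j) - S.E (y j)) * (S.avg F w (y j) - S.E (y j))))).re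
        + (B * (16 * (‖T.ι a‖ * r) + 64 * (r ^ 2 + ‖T.ι (S.E a)‖ ^ 2))
          + 64 * L * (‖T.ι a‖ * ρ) + 4 * ε * ‖T.ι a‖ ^ 2) := by
  have h1 := S.soc_sym J y m0 L ε hL hsoc a
  rw [← hρ] at h1
  have hr0 : 0 ≤ r := by
    rw [hr]
    exact Finset.sum_nonneg fun g _ => mul_nonneg (hw g) (norm_nonneg _)
  have hr' : ∑ g ∈ F, w g * ‖T.ι (S.α g (star a) - star a)‖ = r := by
    rw [hr]
    refine Finset.sum_congr rfl fun g _ => ?_
    rw [map_star, ← star_sub, T.norm_star]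
  set N := ‖T.ι a‖ with hN
  set e := ‖T.ι (S.E a)‖ with he
  have hN0 : 0 ≤ N := norm_nonneg _
  -- termwise
  have key : ∀ j, 1 / 2 * (‖T.ι (a * S.E (y j) - S.E (y j) * a)‖ ^ 2
        + ‖T.ι (star a * S.E (y j) - S.E (y j) * star a)‖ ^ 2)
      + (‖T.ι (S.E (a * y j - y j * a))‖ ^ 2
          + ‖T.ι (S.E (star a * y j - y j * star a))‖ ^ 2)
      ≤ (T.q (S.E (y j)) (y j) a + T.q (S.E (y j)) (y j) (star a))
        + 10 * (inner ℂ (T.ι (star a * a + a * star a))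
          (T.ι ((S.avg F w (y j) - S.E (y j)) * (S.avg F w (y j) - S.E (y j))))).re
        + (‖y j‖ ^ 2 + ‖S.E (y j)‖ ^ 2) * (8 * (N * r) + 32 * (r ^ 2 + e ^ 2)) := by
    intro j
    set p := S.E (y j) with hp
    set d := S.avg F w (y j) - p with hd
    have hdsa : IsSelfAdjoint d := by
      rw [isSelfAdjoint_iff, hd, star_sub, (S.avg_isSelfAdjoint F w (hy j)).star_eq,
        (S.E_isSelfAdjoint (hy j)).star_eq]
    have q1 := S.q_lower F w hw hs p (y j) a (S.E_fixed _)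
    have q2 := S.q_lower F w hw hs p (y j) (star a) (S.E_fixed _)
    have q3 := S.E_comm_fam F w hw hs a (y j) (hy j) r hr
    rw [← hr, ← hd] at q1
    rw [hr', ← hd, T.norm_star] at q2
    rw [← hp, ← hd] at q3
    have n1 : ‖T.ι (d * a)‖ = ‖T.ι (star a * d)‖ := by
      rw [← T.norm_star, star_mul, hdsa.star_eq]
    have n2 : ‖T.ι (d * star a)‖ = ‖T.ι (a * d)‖ := by
      rw [← T.norm_star, star_mul, hdsa.star_eq, star_star]
    have hX : (inner ℂ (T.ι (star a * a + a * star a)) (T.ι (d * d))).re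
        = ‖T.ι (a * d)‖ ^ 2 + ‖T.ι (star a * d)‖ ^ 2 := by
      have h2 : ‖T.ι (star a * d)‖ ^ 2
          = (inner ℂ (T.ι (a * star a)) (T.ι (d * d))).re := by
        have := T.norm_mul_sa (star a) d hdsa
        rwa [star_star] at this
      rw [T.norm_mul_sa a d hdsa, h2, ← Complex.add_re, ← inner_add_left, ← map_add]
    rw [n1] at q1
    rw [n2] at q2
    rw [hX]
    rw [← hN] at q1 q2
    rw [← he] at q3
    have hpy : ‖p‖ * ‖y j‖ ≤ 1 / 2 * (‖y j‖ ^ 2 + ‖p‖ ^ 2) := by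
      nlinarith [sq_nonneg (‖y j‖ - ‖p‖)]
    have hNr : 0 ≤ N * r := mul_nonneg hN0 hr0
    have hpy' := mul_le_mul_of_nonneg_right hpy hNr
    nlinarith
  have hsum := sum_aux J _ _ _ _ _ _ key
  rw [← hB] at hsum
  linarith

end

end Pool.Agent.AbCoc
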