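import Pool.Agent.Lib_MP_418a80_ab.StepAConc
import Pool.Agent.Lib_MP_418a80_ab.KeyOf

set_option autoImplicit false
set_option linter.unusedVariables false
set_option linter.unusedSectionVars false

open MeasureTheory Topology Filter TopologicalSpace
open scoped ENNReal

namespace Pool.Agent.AbCoc

universe u v w

variable {H : Type u} [NormedAddCommGroup H] [InnerProductSpace ℂ H]

/-- `ℓ²(ℕ, H)` is separable if `H` is -/
theorem lp_separable [SeparableSpace H] : SeparableSpace (lp (fun _ : ℕ => H) 2) := by
  have h1 : ∀ n : ℕ, IsSeparable (Set.range fun v : H =>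
      (lp.single 2 n v : lp (fun _ : ℕ => H) 2)) := by
    intro n
    refine isSeparable_range ?_
    have : Continuous fun v : H => (lp.single 2 n v : lp (fun _ : ℕ => H) 2) := by
      refine continuous_iff_continuousAt.2 fun v => ?_
      rw [ContinuousAt, tendsto_iff_norm_sub_tendsto_zero]
      have h2 : Tendsto (fun w : H => ‖w - v‖) (𝓝 v) (𝓝 0) := by
        have := (continuous_id.sub (continuous_const (y := v))).norm.tendsto v
        simpa using this
      refine h2.congr fun w => ?_
      rw [← lp.single_sub, lp.norm_single (by norm_num)]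
    exact this
  have h2 : IsSeparable (⋃ n : ℕ, Set.range fun v : H =>
      (lp.single 2 n v : lp (fun _ : ℕ => H) 2)) := .iUnion h1
  have h3 := (h2.span (R := ℂ)).closure
  have h4 : closure ((Submodule.span ℂ (⋃ n : ℕ, Set.range fun v : H =>
      (lp.single 2 n v : lp (fun _ : ℕ => H) 2)) : Submodule ℂ (lp (fun _ : ℕ => H) 2)) :
      Set (lp (fun _ : ℕ => H) 2)) = Set.univ := by
    refine Set.eq_univ_of_forall fun x => ?_
    have h5 := lp.hasSum_single (E := fun _ : ℕ => H) (p := 2) (by norm_num) x
    refine mem_closure_of_tendsto h5 (Filter.Eventually.of_forall fun s => ?_)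
    refine Submodule.sum_mem _ fun n _ => Submodule.subset_span ?_
    exact Set.mem_iUnion.2 ⟨n, _, rfl⟩
  rw [h4] at h3
  exact isSeparable_univ_iff.1 h3

variable [CompleteSpace H]
variable {G : Type v} [CommGroup G] [TopologicalSpace G] [IsTopologicalGroup G]
  [SecondCountableTopology G] [LocallyCompactSpace G] [T2Space G] [NoncompactSpace G]
  [MeasurableSpace G] [BorelSpace G] (μ : Measure G) [μ.IsHaarMeasure]
  {M : VonNeumannAlgebra H} {α : G → (H →L[ℂ] H) → (H →L[ℂ] H)}

/-- an ergodic cocycle perturbation exists as soon as KEY holds -/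
theorem exists_of_key {G : Type v} [Group G] [TopologicalSpace G] [IsTopologicalGroup G]
    [SecondCountableTopology G] [LocallyCompactSpace G]
    {M : VonNeumannAlgebra H} {α : G → (H →L[ℂ] H) → (H →L[ℂ] H)} [SeparableSpace H]
    (ξ : ℕ → H) (h : IsTracialFamily M ξ) (hα : IsAction M α)
    (S : TrAct G (trAlgOf M ξ h)) (hS : ∀ g x, S.α g x = actHom hα g x) (hkey : S.Key) :
    ∃ v : G → (H →L[ℂ] H), IsCocycle M α v ∧ PerturbationIsErgodic M α v := by
  haveI : SeparableSpace (lp (fun _ : ℕ => H) 2) := lp_separable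
  haveI : SeparableSpace (L2 M ξ h) := inferInstance
  obtain ⟨v, hv1, hv2, hv3, hv4⟩ := S.exists_cocycle hkey
  refine ⟨fun g => (v g : H →L[ℂ] H), ⟨fun g => (v g).2, ?_, ?_, ?_, ?_⟩, ?_⟩
  · intro g
    exact congrArg Subtype.val (hv1 g).1
  · intro g
    exact congrArg Subtype.val (hv1 g).2
  · intro g k
    have h1 := congrArg Subtype.val (hv2 g k)
    rw [hS] at h1
    exact h1
  · intro η
    refine strong_of_two M ξ h v 1 (fun g => norm_unitary_le _ (hv1 g).1) hv3 η
  · intro x hx hfix
    obtain ⟨c, hc⟩ := hv4 ⟨x, hx⟩ fun g => by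
      rw [hS]
      exact Subtype.ext (hfix g)
    exact ⟨c, congrArg Subtype.val hc⟩

/-- the abelian theorem -/
theorem abelian_theorem [SeparableSpace H] (hM : IsII1Factor M) (hα : IsAction M α)
    (hcross : CrossedProductIsFactor μ M α) :
    ∃ v : G → (H →L[ℂ] H), IsCocycle M α v ∧ PerturbationIsErgodic M α v := by
  obtain ⟨ξ, h⟩ := hM.trace
  refine exists_of_key ξ h hα (actOf ξ h hM.factor hα) (fun g x => rfl) ?_
  exact TrAct.key_of_stepA _ (stepA_of_factor μ ξ h hα hcross _ fun g x => rfl)

end Pool.Agent.AbCoc
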