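import Mathlib

set_option autoImplicit false
set_option linter.unusedVariables false
set_option linter.unusedSectionVars false

open MeasureTheory Pointwise Topology
open scoped ENNReal

namespace Pool.Agent.AbCoc

universe u

section
variable {G : Type u} [CommGroup G] [TopologicalSpace G] [IsTopologicalGroup G]

theorem exists_cover (B : Set G) (hB : IsCompact B) (h1 : B ∈ 𝓝 (1 : G)) :
    ∃ F : Finset G, B * B ⊆ ⋃ g ∈ F, g • B := by
  have hBB : IsCompact (B * B) := hB.mul hB
  obtain ⟨F, hF⟩ := hBB.elim_finite_subcover (fun g : G => g • interior B)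
    (fun g => isOpen_interior.smul g) (by
      intro x _
      refine Set.mem_iUnion.2 ⟨x, ?_⟩
      refine Set.mem_smul_set.2 ⟨1, mem_interior_iff_mem_nhds.2 h1, by simp⟩)
  refine ⟨F, hF.trans ?_⟩
  exact Set.iUnion₂_mono fun g _ => Set.smul_set_mono interior_subset

theorem pow_cover (B : Set G) (F : Finset G) (hF : B * B ⊆ ⋃ g ∈ F, g • B) (n : ℕ) :
    B ^ (n + 1) ⊆ ⋃ k : F → Fin (n + 1), (∏ g : F, (g : G) ^ (k g : ℕ)) • B := by
  classical
  induction n with
  | zero =>
      intro x hx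
      refine Set.mem_iUnion.2 ⟨fun _ => 0, ?_⟩
      simpa using hx
  | succ n ih =>
      intro x hx
      rw [pow_succ] at hx
      obtain ⟨y, hy, b, hb, rfl⟩ := Set.mem_mul.1 hx
      obtain ⟨k, hk⟩ := Set.mem_iUnion.1 (ih hy)
      obtain ⟨b', hb', rfl⟩ := Set.mem_smul_set.1 hk
      obtain ⟨g0, hg0, hg1⟩ := Set.mem_iUnion₂.1 (hF (Set.mul_mem_mul hb' hb))
      obtain ⟨c, hc, hc2⟩ := Set.mem_smul_set.1 hg1
      let k' : F → Fin (n + 1 + 1) := fun g =>
        if g = ⟨g0, hg0⟩ then ⟨(k g : ℕ) + 1, by have := (k g).2; omega⟩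
        else ⟨(k g : ℕ), by have := (k g).2; omega⟩
      have hk' : ∀ g : F, (k' g : ℕ) = (k g : ℕ) + (if g = ⟨g0, hg0⟩ then 1 else 0) := by
        intro g
        by_cases h : g = ⟨g0, hg0⟩ <;> simp [k', h]
      have hprod : (∏ g : F, (g : G) ^ (k' g : ℕ)) = (∏ g : F, (g : G) ^ (k g : ℕ)) * g0 := by
        simp only [hk', pow_add, Finset.prod_mul_distrib]
        congr 1
        rw [Finset.prod_eq_single (⟨g0, hg0⟩ : F)]
        · simp
        · intro b _ hb
          simp [hb]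
        · intro h
          exact absurd (Finset.mem_univ _) h
      refine Set.mem_iUnion.2 ⟨k', ?_⟩
      refine Set.mem_smul_set.2 ⟨c, hc, ?_⟩
      rw [hprod, smul_eq_mul, smul_eq_mul, mul_assoc, mul_assoc, ← hc2, smul_eq_mul]

end

section
variable {G : Type u} [CommGroup G] [TopologicalSpace G] [IsTopologicalGroup G] [T2Space G]
  [MeasurableSpace G] [BorelSpace G] (μ : Measure G) [μ.IsHaarMeasure]

theorem measure_pow_le (B : Set G) (hB : IsCompact B) (h1 : B ∈ 𝓝 (1 : G)) :
    ∃ d : ℕ, ∀ n : ℕ, μ (B ^ (n + 1)) ≤ ((n + 1 : ℕ) : ℝ≥0∞) ^ d * μ B := by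
  classical
  obtain ⟨F, hF⟩ := exists_cover B hB h1
  refine ⟨F.card, fun n => ?_⟩
  refine (measure_mono (pow_cover B F hF n)).trans ?_
  refine (measure_iUnion_fintype_le μ _).trans ?_
  simp only [measure_smul]
  rw [Finset.sum_const, nsmul_eq_mul, Finset.card_univ]
  simp

theorem isCompact_pow (B : Set G) (hB : IsCompact B) (n : ℕ) : IsCompact (B ^ n) := by
  induction n with
  | zero => simp
  | succ n ih => rw [pow_succ]; exact ih.mul hB

theorem exists_small_growth (B : Set G) (hB : IsCompact B) (h1 : B ∈ 𝓝 (1 : G)) (ε : ℝ)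
    (hε : 0 < ε) : ∃ n : ℕ, μ.real (B ^ (n + 1 + 1)) ≤ (1 + ε) * μ.real (B ^ (n + 1)) := by
  by_contra hcon
  push Not at hcon
  obtain ⟨d, hd⟩ := measure_pow_le μ B hB h1
  have hBpos : 0 < μ.real B := by
    rw [measureReal_def]
    exact ENNReal.toReal_pos (MeasureTheory.Measure.measure_pos_of_mem_nhds μ h1).ne' hB.measure_lt_top.ne
  have hlow : ∀ n : ℕ, (1 + ε) ^ n * μ.real B ≤ μ.real (B ^ (n + 1)) := by
    intro n
    induction n with
    | zero => simp
    | succ n ih =>
        have := hcon n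
        calc (1 + ε) ^ (n + 1) * μ.real B = (1 + ε) * ((1 + ε) ^ n * μ.real B) := by ring
          _ ≤ (1 + ε) * μ.real (B ^ (n + 1)) := by gcongr
          _ ≤ _ := this.le
  have hup : ∀ n : ℕ, μ.real (B ^ (n + 1)) ≤ ((n : ℝ) + 1) ^ d * μ.real B := by
    intro n
    have h2 := ENNReal.toReal_mono (ENNReal.mul_ne_top (by finiteness) hB.measure_lt_top.ne) (hd n)
    rw [measureReal_def, measureReal_def]
    refine h2.trans (le_of_eq ?_)
    rw [ENNReal.toReal_mul, ENNReal.toReal_pow, ENNReal.toReal_natCast]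
    push_cast
    rfl
  have hall : ∀ n : ℕ, (1 + ε) ^ n ≤ ((n : ℝ) + 1) ^ d := by
    intro n
    have := (hlow n).trans (hup n)
    exact le_of_mul_le_mul_right this hBpos
  have ht := tendsto_pow_const_div_const_pow_of_one_lt d (show (1 : ℝ) < 1 + ε by linarith)
  have h3 := (ht.eventually (gt_mem_nhds (show (0 : ℝ) < 1 / (1 + ε) by positivity))).exists_forall_of_atTop
  obtain ⟨N, hN⟩ := h3
  have h4 := hN (N + 1) (by omega)
  have h5 := hall N
  have h6 : (0 : ℝ) < (1 + ε) ^ (N + 1) := by positivity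
  rw [div_lt_div_iff₀ h6 (by positivity)] at h4
  push_cast at h4
  have h7 : (1 + ε) ^ (N + 1) = (1 + ε) ^ N * (1 + ε) := pow_succ _ _
  rw [h7] at h4
  nlinarith

end

end Pool.Agent.AbCoc
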