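import Pool.Agent.Lib_MP_418a80_ab.Rep

set_option autoImplicit false
set_option linter.unusedVariables false
set_option linter.unusedSectionVars false

open MeasureTheory
open scoped ENNReal

namespace Pool.Agent.AbCoc

universe u v w

section
variable {G : Type u} [Group G] [TopologicalSpace G] [IsTopologicalGroup G]
  [SecondCountableTopology G] [LocallyCompactSpace G] [MeasurableSpace G] [BorelSpace G]
  (μ : Measure G) [μ.IsHaarMeasure]
variable {E : Type v} [NormedAddCommGroup E] [InnerProductSpace ℂ E]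
variable {E' : Type w} [NormedAddCommGroup E'] [InnerProductSpace ℂ E']

/-- translation on `L²(G; E)` -/
noncomputable def lamU (E : Type v) [NormedAddCommGroup E] [InnerProductSpace ℂ E] (s : G) :
    Lp E 2 μ →L[ℂ] Lp E 2 μ :=
  (Lp.compMeasurePreservingₗᵢ ℂ (fun g => s⁻¹ * g)
    (measurePreserving_mul_left μ s⁻¹)).toContinuousLinearMap

theorem lamU_ae (s : G) (ξ : Lp E 2 μ) : lamU μ E s ξ =ᵐ[μ] fun g => ξ (s⁻¹ * g) :=
  Lp.coeFn_compMeasurePreserving ξ (measurePreserving_mul_left μ s⁻¹)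

theorem lamU_eq_smul (s : G) (ξ : Lp E 2 μ) : lamU μ E s ξ = (DomMulAct.mk s⁻¹) • ξ := rfl

theorem ae_translate (s : G) {p : G → Prop} (h : ∀ᵐ g ∂μ, p g) : ∀ᵐ g ∂μ, p (s * g) :=
  (measurePreserving_mul_left μ s).quasiMeasurePreserving.ae h

/-- the left regular representation on `L²(G; E)` -/
noncomputable def lam (E : Type v) [NormedAddCommGroup E] [InnerProductSpace ℂ E] :
    URep G (Lp E 2 μ) where
  U := lamU μ E
  one := by
    ext1 ξ
    apply Lp.ext
    filter_upwards [lamU_ae μ 1 ξ] with g hg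
    rw [hg]
    simp
  mul := by
    intro s t
    ext1 ξ
    apply Lp.ext
    have h1 := lamU_ae μ (s * t) ξ
    have h2 := lamU_ae μ s (lamU μ E t ξ)
    have h3 := ae_translate μ s⁻¹ (lamU_ae μ t ξ)
    filter_upwards [h1, h2, h3] with g h1 h2 h3
    change (lamU μ E (s * t) ξ) g = (lamU μ E s (lamU μ E t ξ)) g
    rw [h1, h2, h3, mul_inv_rev, mul_assoc]
  inner_map := by
    intro s ξ η
    exact (Lp.compMeasurePreservingₗᵢ ℂ (fun g => s⁻¹ * g)
      (measurePreserving_mul_left μ s⁻¹)).inner_map_map ξ η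
  cont := by
    intro ξ
    have : (fun s => lamU μ E s ξ) = fun s : G => (DomMulAct.mk s⁻¹) • ξ := rfl
    rw [this]
    have h2 : Fact ((2 : ℝ≥0∞) ≠ ∞) := ⟨by simp⟩
    have h3 : Continuous fun s : G => (DomMulAct.mk s⁻¹) :=
      DomMulAct.mkHomeomorph.continuous.comp continuous_inv
    exact h3.smul continuous_const

theorem lam_ae (s : G) (ξ : Lp E 2 μ) : (lam μ E).U s ξ =ᵐ[μ] fun g => ξ (s⁻¹ * g) :=
  lamU_ae μ s ξ

/-- A bounded field of operators `G → B(E, E')`, jointly continuous. -/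
structure Field (G : Type u) [TopologicalSpace G] (E : Type v) [NormedAddCommGroup E]
    [InnerProductSpace ℂ E] (E' : Type w) [NormedAddCommGroup E'] [InnerProductSpace ℂ E'] where
  F : G → E →L[ℂ] E'
  C : ℝ
  bound : ∀ g, ‖F g‖ ≤ C
  cont : Continuous fun p : G × E => F p.1 p.2

theorem Field.C_nonneg {G : Type u} [TopologicalSpace G] [Nonempty G] {E : Type v}
    [NormedAddCommGroup E] [InnerProductSpace ℂ E] {E' : Type w} [NormedAddCommGroup E']
    [InnerProductSpace ℂ E'] (Φ : Field G E E') : 0 ≤ Φ.C :=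
  (norm_nonneg _).trans (Φ.bound (Classical.arbitrary G))

theorem Field.memLp (Φ : Field G E E') (ξ : Lp E 2 μ) : MemLp (fun g => Φ.F g (ξ g)) 2 μ := by
  refine MemLp.of_le_mul (Lp.memLp ξ) (c := Φ.C) ?_ ?_
  · exact Φ.cont.comp_aestronglyMeasurable
      (aestronglyMeasurable_id.prodMk (Lp.aestronglyMeasurable ξ))
  · refine Filter.Eventually.of_forall fun g => ?_
    exact ((Φ.F g).le_opNorm _).trans (mul_le_mul_of_nonneg_right (Φ.bound g) (norm_nonneg _))

/-- the decomposable operator given by a bounded continuous field -/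
noncomputable def Field.op (Φ : Field G E E') : Lp E 2 μ →L[ℂ] Lp E' 2 μ :=
  LinearMap.mkContinuous
    { toFun := fun ξ => (Φ.memLp μ ξ).toLp _
      map_add' := by
        intro ξ η
        apply Lp.ext
        have h1 := (Φ.memLp μ (ξ + η)).coeFn_toLp
        have h2 := (Φ.memLp μ ξ).coeFn_toLp
        have h3 := (Φ.memLp μ η).coeFn_toLp
        filter_upwards [h1, h2, h3, Lp.coeFn_add ξ η,
          Lp.coeFn_add ((Φ.memLp μ ξ).toLp _) ((Φ.memLp μ η).toLp _)] with g h1 h2 h3 h4 h5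
        rw [h1, h5, Pi.add_apply, h2, h3, h4, Pi.add_apply, map_add]
      map_smul' := by
        intro c ξ
        apply Lp.ext
        have h1 := (Φ.memLp μ (c • ξ)).coeFn_toLp
        have h2 := (Φ.memLp μ ξ).coeFn_toLp
        filter_upwards [h1, h2, Lp.coeFn_smul c ξ,
          Lp.coeFn_smul c ((Φ.memLp μ ξ).toLp _)] with g h1 h2 h4 h5
        rw [h1, RingHom.id_apply, h5, Pi.smul_apply, h2, h4, Pi.smul_apply, map_smul] } Φ.C (by
    intro ξ
    change ‖(Φ.memLp μ ξ).toLp _‖ ≤ Φ.C * ‖ξ‖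
    have hC := Φ.C_nonneg
    refine Lp.norm_le_mul_norm_of_ae_le_mul ?_
    filter_upwards [(Φ.memLp μ ξ).coeFn_toLp] with g h1
    rw [h1]
    exact ((Φ.F g).le_opNorm _).trans (mul_le_mul_of_nonneg_right (Φ.bound g) (norm_nonneg _)))

theorem Field.op_ae (Φ : Field G E E') (ξ : Lp E 2 μ) :
    Φ.op μ ξ =ᵐ[μ] fun g => Φ.F g (ξ g) :=
  (Φ.memLp μ ξ).coeFn_toLp

/-- the constant field -/
noncomputable def constField (G : Type u) [TopologicalSpace G] (c : E →L[ℂ] E') : Field G E E' where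
  F := fun _ => c
  C := ‖c‖
  bound := fun _ => le_rfl
  cont := c.continuous.comp continuous_snd

/-- `1 ⊗ c` -/
noncomputable def oneT (c : E →L[ℂ] E') : Lp E 2 μ →L[ℂ] Lp E' 2 μ := (constField G c).op μ

theorem oneT_ae (c : E →L[ℂ] E') (ξ : Lp E 2 μ) : oneT μ c ξ =ᵐ[μ] fun g => c (ξ g) :=
  (constField G c).op_ae μ ξ

theorem oneT_lam (c : E →L[ℂ] E') (s : G) (ξ : Lp E 2 μ) :
    oneT μ c ((lam μ E).U s ξ) = (lam μ E').U s (oneT μ c ξ) := by
  apply Lp.ext
  have h1 := oneT_ae μ c ((lam μ E).U s ξ)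
  have h2 := lam_ae μ s ξ
  have h3 := lam_ae μ s (oneT μ c ξ)
  have h4 := ae_translate μ s⁻¹ (oneT_ae μ c ξ)
  filter_upwards [h1, h2, h3, h4] with g h1 h2 h3 h4
  rw [h1, h2, h3, h4]

end

end Pool.Agent.AbCoc
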