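import Pool.Agent.Lib_MP_418a80_ab.Win

set_option autoImplicit false

open MeasureTheory Topology Filter
open scoped ENNReal

namespace Pool.Agent.AbCoc

universe u v w

/-- joint continuity of a strongly continuous unitary representation -/
theorem URep.near_cont_comp {G : Type u} [Group G] [TopologicalSpace G] {K : Type v}
    [NormedAddCommGroup K] [InnerProductSpace ℂ K] (W : URep G K) {X : Type w}
    [TopologicalSpace X] {s : X → G} {a : X → K} (hs : Continuous s) (ha : Continuous a) :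
    Continuous fun x => W.U (s x) (a x) := by
  rw [continuous_iff_continuousAt]
  intro x0
  have h1 : Continuous fun x => ‖a x - a x0‖ + ‖W.U (s x) (a x0) - W.U (s x0) (a x0)‖ :=
    (ha.sub continuous_const).norm.add ((((W.cont (a x0)).comp hs).sub continuous_const).norm)
  have h2 : Tendsto (fun x => ‖a x - a x0‖ + ‖W.U (s x) (a x0) - W.U (s x0) (a x0)‖) (𝓝 x0)
      (𝓝 0) := by
    have := h1.tendsto x0
    simpa using this
  refine tendsto_iff_norm_sub_tendsto_zero.2 (squeeze_zero (fun x => norm_nonneg _) (fun x => ?_)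
    h2)
  have h3 : W.U (s x) (a x) - W.U (s x0) (a x0)
      = W.U (s x) (a x - a x0) + (W.U (s x) (a x0) - W.U (s x0) (a x0)) := by
    rw [map_sub]; abel
  rw [h3]
  refine (norm_add_le _ _).trans ?_
  rw [W.norm_map]

variable {G : Type u} [CommGroup G] [TopologicalSpace G] [IsTopologicalGroup G]
  [SecondCountableTopology G] [LocallyCompactSpace G] [MeasurableSpace G] [BorelSpace G]
  (μ : Measure G) [μ.IsHaarMeasure]
  {E : Type v} [NormedAddCommGroup E] [InnerProductSpace ℂ E] [CompleteSpace E]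

/-- the field `g ↦ (c ↦ c • U_{g⁻¹} v)` -/
noncomputable def orbitField (U : URep G E) (v : E) : Field G ℂ E where
  F := fun g => ContinuousLinearMap.toSpanSingleton ℂ (U.U g⁻¹ v)
  C := ‖v‖
  bound := by
    intro g
    rw [ContinuousLinearMap.norm_toSpanSingleton, U.norm_map]
  cont := by
    have h : Continuous fun p : G × ℂ => p.2 • U.U p.1⁻¹ v :=
      continuous_snd.smul (((U.cont v).comp continuous_inv).comp continuous_fst)
    exact h

theorem near_oneT_one (ξ : Lp E 2 μ) : oneT μ (1 : E →L[ℂ] E) ξ = ξ := by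
  apply Lp.ext
  filter_upwards [oneT_ae μ (1 : E →L[ℂ] E) ξ] with g hg
  rw [hg]
  rfl

theorem near_oneT_mul (a b : E →L[ℂ] E) (ξ : Lp E 2 μ) :
    oneT μ (a * b) ξ = oneT μ a (oneT μ b ξ) := by
  apply Lp.ext
  filter_upwards [oneT_ae μ (a * b) ξ, oneT_ae μ a (oneT μ b ξ), oneT_ae μ b ξ] with g h1 h2 h3
  rw [h1, h2, h3]
  rfl

theorem near_oneT_inner (U : URep G E) (s : G) (ξ η : Lp E 2 μ) :
    inner ℂ (oneT μ (U.U s) ξ) (oneT μ (U.U s) η) = inner ℂ ξ η := by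
  rw [L2.inner_def, L2.inner_def]
  apply integral_congr_ae
  filter_upwards [oneT_ae μ (U.U s) ξ, oneT_ae μ (U.U s) η] with g h1 h2
  rw [h1, h2, U.inner_map]

theorem near_oneT_norm (U : URep G E) (s : G) (ξ : Lp E 2 μ) : ‖oneT μ (U.U s) ξ‖ = ‖ξ‖ := by
  have h := near_oneT_inner μ U s ξ ξ
  rw [inner_self_eq_norm_sq_to_K, inner_self_eq_norm_sq_to_K] at h
  have h2 : ‖oneT μ (U.U s) ξ‖ ^ 2 = ‖ξ‖ ^ 2 := by exact_mod_cast h
  exact (pow_left_inj₀ (norm_nonneg _) (norm_nonneg _) two_ne_zero).1 h2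

/-- `η ↦ ψ ⊗ η` -/
noncomputable def nearTens (E : Type v) [NormedAddCommGroup E] [InnerProductSpace ℂ E]
    (ψ : Lp ℂ 2 μ) : E →L[ℂ] Lp E 2 μ :=
  LinearMap.mkContinuous
    { toFun := fun η => oneT μ (ContinuousLinearMap.toSpanSingleton ℂ η) ψ
      map_add' := by
        intro η ζ
        apply Lp.ext
        filter_upwards [oneT_ae μ (ContinuousLinearMap.toSpanSingleton ℂ (η + ζ)) ψ,
          oneT_ae μ (ContinuousLinearMap.toSpanSingleton ℂ η) ψ,
          oneT_ae μ (ContinuousLinearMap.toSpanSingleton ℂ ζ) ψ,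
          Lp.coeFn_add (oneT μ (ContinuousLinearMap.toSpanSingleton ℂ η) ψ)
            (oneT μ (ContinuousLinearMap.toSpanSingleton ℂ ζ) ψ)] with g h1 h2 h3 h4
        rw [h1, h4, Pi.add_apply, h2, h3]
        simp only [ContinuousLinearMap.toSpanSingleton_apply, smul_add]
      map_smul' := by
        intro c η
        apply Lp.ext
        filter_upwards [oneT_ae μ (ContinuousLinearMap.toSpanSingleton ℂ (c • η)) ψ,
          oneT_ae μ (ContinuousLinearMap.toSpanSingleton ℂ η) ψ,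
          Lp.coeFn_smul c (oneT μ (ContinuousLinearMap.toSpanSingleton ℂ η) ψ)] with g h1 h2 h4
        rw [h1, RingHom.id_apply, h4, Pi.smul_apply, h2]
        simp only [ContinuousLinearMap.toSpanSingleton_apply]
        rw [smul_comm] } ‖ψ‖ (by
    intro η
    change ‖oneT μ (ContinuousLinearMap.toSpanSingleton ℂ η) ψ‖ ≤ ‖ψ‖ * ‖η‖
    rw [mul_comm]
    refine Lp.norm_le_mul_norm_of_ae_le_mul ?_
    filter_upwards [oneT_ae μ (ContinuousLinearMap.toSpanSingleton ℂ η) ψ] with g h1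
    rw [h1, ContinuousLinearMap.toSpanSingleton_apply, norm_smul, mul_comm])

theorem nearTens_ae (ψ : Lp ℂ 2 μ) (η : E) : nearTens μ E ψ η =ᵐ[μ] fun g => (ψ g : ℂ) • η := by
  filter_upwards [oneT_ae μ (ContinuousLinearMap.toSpanSingleton ℂ η) ψ] with g h1
  exact h1

theorem near_oneT_tens (a : E →L[ℂ] E) (ψ : Lp ℂ 2 μ) (η : E) :
    oneT μ a (nearTens μ E ψ η) = nearTens μ E ψ (a η) := by
  apply Lp.ext
  filter_upwards [oneT_ae μ a (nearTens μ E ψ η), nearTens_ae μ ψ η, nearTens_ae μ ψ (a η)]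
    with g h1 h2 h3
  rw [h1, h2, h3, map_smul]

/-- a closed property, stable under sums, of all `ψ ⊗ η` holds everywhere -/
theorem near_tens_induction (P : Lp E 2 μ → Prop) (hc : IsClosed {ζ | P ζ})
    (hadd : ∀ ζ ζ', P ζ → P ζ' → P (ζ + ζ')) (h : ∀ ψ : Lp ℂ 2 μ, ∀ η : E, P (nearTens μ E ψ η))
    (ζ : Lp E 2 μ) : P ζ := by
  refine Lp.induction (p := 2) (by simp) P ?_ ?_ hc ζ
  · intro c s hs hμs
    rw [Lp.simpleFunc.coe_indicatorConst]
    have : indicatorConstLp 2 hs hμs.ne c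
        = nearTens μ E (indicatorConstLp 2 hs hμs.ne (1 : ℂ)) c := by
      apply Lp.ext
      filter_upwards [nearTens_ae μ (indicatorConstLp 2 hs hμs.ne (1 : ℂ)) c,
        indicatorConstLp_coeFn (p := 2) (hs := hs) (hμs := hμs.ne) (c := c),
        indicatorConstLp_coeFn (p := 2) (hs := hs) (hμs := hμs.ne) (c := (1 : ℂ))]
        with g h1 h2 h3
      rw [h1, h2, h3]
      by_cases hg : g ∈ s
      · rw [Set.indicator_of_mem hg, Set.indicator_of_mem hg, one_smul]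
      · rw [Set.indicator_of_notMem hg, Set.indicator_of_notMem hg, zero_smul]
    rw [this]
    exact h _ _
  · intro f g hf hg _ h1 h2
    exact hadd _ _ h1 h2

/-- W10a: `1 ⊗ U` -/
noncomputable def oneU (U : URep G E) : URep G (Lp E 2 μ) where
  U := fun s => oneT μ (U.U s)
  one := by
    ext1 ξ
    rw [U.one, near_oneT_one]
    rfl
  mul := by
    intro s t
    ext1 ξ
    rw [U.mul, near_oneT_mul]
    rfl
  inner_map := fun s ξ η => near_oneT_inner μ U s ξ η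
  cont := by
    refine near_tens_induction μ (fun ξ => Continuous fun s => oneT μ (U.U s) ξ) ?_ ?_ ?_
    · apply IsSeqClosed.isClosed
      intro x p hx hxp
      have hu : TendstoUniformly (fun n s => oneT μ (U.U s) (x n)) (fun s => oneT μ (U.U s) p)
          atTop := by
        rw [Metric.tendstoUniformly_iff]
        intro ε hε
        filter_upwards [(Metric.tendsto_atTop'.1 hxp ε hε).choose_spec |> fun h =>
          (eventually_gt_atTop _).mono fun n hn => h n hn] with n hn s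
        rw [dist_eq_norm, ← map_sub, near_oneT_norm, ← dist_eq_norm, dist_comm]
        exact hn
      exact hu.continuous (Frequently.of_forall fun n => hx n)
    · intro ζ ζ' h1 h2
      have : (fun s => oneT μ (U.U s) (ζ + ζ'))
          = fun s => oneT μ (U.U s) ζ + oneT μ (U.U s) ζ' := by
        funext s
        rw [map_add]
      rw [this]
      exact h1.add h2
    · intro ψ η
      simp only [near_oneT_tens]
      exact (nearTens μ E ψ).continuous.comp (U.cont η)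

/-- W10b: `V_s = λ_s (1 ⊗ U_s⁻¹)` (`G` abelian) -/
noncomputable def twist (U : URep G E) : URep G (Lp E 2 μ) where
  U := fun s => (lam μ E).U s * oneT μ (U.U s⁻¹)
  one := by
    ext1 ξ
    change (lam μ E).U 1 (oneT μ (U.U 1⁻¹) ξ) = ξ
    rw [inv_one, U.one, near_oneT_one, (lam μ E).one]
    rfl
  mul := by
    intro s t
    ext1 ξ
    change (lam μ E).U (s * t) (oneT μ (U.U (s * t)⁻¹) ξ)
      = (lam μ E).U s (oneT μ (U.U s⁻¹) ((lam μ E).U t (oneT μ (U.U t⁻¹) ξ)))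
    rw [oneT_lam, mul_inv, U.mul, near_oneT_mul, (lam μ E).mul_apply]
  inner_map := by
    intro s ξ η
    change inner ℂ ((lam μ E).U s (oneT μ (U.U s⁻¹) ξ)) ((lam μ E).U s (oneT μ (U.U s⁻¹) η)) = _
    rw [(lam μ E).inner_map, near_oneT_inner]
  cont := by
    intro ξ
    change Continuous fun s => (lam μ E).U s (oneT μ (U.U s⁻¹) ξ)
    exact (lam μ E).near_cont_comp continuous_id (((oneU μ U).cont ξ).comp continuous_inv)

/-- W10c: `(1 ⊗ U)` integrates to `1 ⊗ T_U` -/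
theorem oneU_T (U : URep G E) (m : Measure G) [IsProbabilityMeasure m] (ζ : Lp E 2 μ) :
    (oneU μ U).T m ζ = oneT μ (U.T m) ζ := by
  refine near_tens_induction μ (fun ζ => (oneU μ U).T m ζ = oneT μ (U.T m) ζ) ?_ ?_ ?_ ζ
  · exact isClosed_eq ((oneU μ U).T m).continuous (oneT μ (U.T m)).continuous
  · intro ζ ζ' h1 h2
    rw [map_add, map_add, h1, h2]
  · intro ψ η
    rw [near_oneT_tens, U.T_intertwine m (oneU μ U) (nearTens μ E ψ) (fun s ξ => ?_) η]
    exact (near_oneT_tens μ (U.U s) ψ ξ).symm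

/-- W10d: a spectral gap of `U` passes to `1 ⊗ U` -/
theorem oneU_gap (U : URep G E) (m : Measure G) [IsProbabilityMeasure m] (ε0 : ℝ)
    (hgap : ∀ ξ : E, ε0 * ‖ξ‖ ^ 2 ≤ ∫ s, ‖U.U s ξ - ξ‖ ^ 2 ∂m) (ζ : Lp E 2 μ) :
    ε0 * ‖ζ‖ ^ 2 ≤ ∫ s, ‖(oneU μ U).U s ζ - ζ‖ ^ 2 ∂m := by
  have hg : ∀ ξ : E, (inner ℂ (U.T m ξ) ξ).re ≤ (1 - ε0 / 2) * ‖ξ‖ ^ 2 := by
    intro ξ
    have := hgap ξ
    rw [U.integral_norm_sub m] at this
    linarith
  rw [(oneU μ U).integral_norm_sub m, oneU_T]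
  have hn : ‖ζ‖ ^ 2 = (∫ g, inner ℂ (ζ g) (ζ g) ∂μ).re := by
    rw [← L2.inner_def, inner_self_eq_norm_sq_to_K]
    norm_cast
  have hi : Integrable (fun g => inner ℂ (ζ g) (ζ g)) μ := L2.integrable_inner ζ ζ
  have hi2 : Integrable (fun g => inner ℂ (oneT μ (U.T m) ζ g) (ζ g)) μ :=
    L2.integrable_inner (oneT μ (U.T m) ζ) ζ
  have hre : ∀ f : G → ℂ, Integrable f μ → (∫ g, f g ∂μ).re = ∫ g, (f g).re ∂μ := by
    intro f hf
    have := integral_re hf
    simp only [RCLike.re_to_complex] at this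
    exact this.symm
  have hle : (inner ℂ (oneT μ (U.T m) ζ) ζ).re ≤ (1 - ε0 / 2) * ‖ζ‖ ^ 2 := by
    rw [L2.inner_def, hn, hre _ hi, hre _ hi2, ← integral_const_mul]
    refine integral_mono_ae hi2.re (hi.re.const_mul _) ?_
    filter_upwards [oneT_ae μ (U.T m) ζ] with g h1
    rw [h1]
    have h2 : (inner ℂ (ζ g) (ζ g)).re = ‖ζ g‖ ^ 2 := by
      rw [inner_self_eq_norm_sq_to_K]
      norm_cast
    rw [h2]
    exact hg (ζ g)
  linarith

/-- W10e: `Π` intertwines `λ` on `L²(G)` with the twisted representation -/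
theorem orbit_intertwine (U : URep G E) (v : E) (s : G) (ψ : Lp ℂ 2 μ) :
    (orbitField U v).op μ ((lam μ ℂ).U s ψ) = (twist μ U).U s ((orbitField U v).op μ ψ) := by
  change _ = (lam μ E).U s (oneT μ (U.U s⁻¹) ((orbitField U v).op μ ψ))
  apply Lp.ext
  have h1 := (orbitField U v).op_ae μ ((lam μ ℂ).U s ψ)
  have h2 := lam_ae μ s ψ
  have h3 := lam_ae μ s (oneT μ (U.U s⁻¹) ((orbitField U v).op μ ψ))
  have h4 := ae_translate μ s⁻¹ (oneT_ae μ (U.U s⁻¹) ((orbitField U v).op μ ψ))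
  have h5 := ae_translate μ s⁻¹ ((orbitField U v).op_ae μ ψ)
  filter_upwards [h1, h2, h3, h4, h5] with g h1 h2 h3 h4 h5
  rw [h1, h2, h3, h4, h5]
  change (ψ (s⁻¹ * g) : ℂ) • U.U g⁻¹ v
    = U.U s⁻¹ ((ψ (s⁻¹ * g) : ℂ) • U.U (s⁻¹ * g)⁻¹ v)
  rw [map_smul, ← U.mul_apply]
  congr 3
  rw [mul_inv, inv_inv, inv_mul_cancel_left]

/-- W10: the near-invariance argument -/
theorem near_argument (U : URep G E) (v : E) (m : Measure G) [IsProbabilityMeasure m]
    (ε0 ε : ℝ) (hε : 0 ≤ ε) (h8 : 8 * ε < ε0)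
    (hgap : ∀ ξ : E, ε0 * ‖ξ‖ ^ 2 ≤ ∫ s, ‖U.U s ξ - ξ‖ ^ 2 ∂m) (θ : ℂ) (g : G) (c : ℝ)
    (ψ : Lp ℂ 2 μ) :
    (lam μ E).Kop m ε ((lam μ E).Apos θ g c ((orbitField U v).op μ
      ((lam μ ℂ).Kop m ε ((lam μ ℂ).Aneg θ g c ψ)))) = 0 := by
  have hPi : ∀ s ξ, (orbitField U v).op μ ((lam μ ℂ).U s ξ)
      = (twist μ U).U s ((orbitField U v).op μ ξ) := fun s ξ => orbit_intertwine μ U v s ξ
  rw [(lam μ ℂ).Kop_intertwine (twist μ U) ((orbitField U v).op μ) hPi m ε]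
  generalize (orbitField U v).op μ ((lam μ ℂ).Aneg θ g c ψ) = η
  -- `λ` and `V` commute
  have hcomm : ∀ s t ξ, (lam μ E).U s ((twist μ U).U t ξ) = (twist μ U).U t ((lam μ E).U s ξ) := by
    intro s t ξ
    change (lam μ E).U s ((lam μ E).U t (oneT μ (U.U t⁻¹) ξ))
      = (lam μ E).U t (oneT μ (U.U t⁻¹) ((lam μ E).U s ξ))
    rw [oneT_lam, ← (lam μ E).mul_apply, ← (lam μ E).mul_apply, mul_comm]
  have hK : ∀ s ξ, (twist μ U).Kop m ε ((lam μ E).U s ξ)
      = (lam μ E).U s ((twist μ U).Kop m ε ξ) := fun s ξ =>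
    ((twist μ U).Kop_intertwine (twist μ U) ((lam μ E).U s) (fun t ξ => hcomm s t ξ) m ε ξ).symm
  have hK1 := (lam μ E).Kop_intertwine (lam μ E) ((twist μ U).Kop m ε) hK m ε
  have hK2 := (lam μ E).Apos_intertwine (lam μ E) ((twist μ U).Kop m ε) hK θ g c
  set ζ := (lam μ E).Kop m ε ((lam μ E).Apos θ g c ((twist μ U).Kop m ε η)) with hζ
  have hζ2 : ζ = (twist μ U).Kop m ε ((lam μ E).Kop m ε ((lam μ E).Apos θ g c η)) := by
    rw [hζ, ← hK2, ← hK1]
  have n1 : ∫ s, ‖(lam μ E).U s ζ - ζ‖ ^ 2 ∂m ≤ 2 * ε * ‖ζ‖ ^ 2 := by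
    rw [hζ]
    exact (lam μ E).near_of_range m ε _
  have n2 : ∫ s, ‖(twist μ U).U s ζ - ζ‖ ^ 2 ∂m ≤ 2 * ε * ‖ζ‖ ^ 2 := by
    rw [hζ2]
    exact (twist μ U).near_of_range m ε _
  have hint : ∀ W : URep G (Lp E 2 μ), Integrable (fun s => ‖W.U s ζ - ζ‖ ^ 2) m := by
    intro W
    refine Integrable.of_bound (C := (2 * ‖ζ‖) ^ 2)
      (((W.cont ζ).sub continuous_const).norm.pow 2).aestronglyMeasurable ?_
    refine Eventually.of_forall fun s => ?_
    rw [Real.norm_of_nonneg (by positivity)]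
    refine pow_le_pow_left₀ (norm_nonneg _) ?_ 2
    refine (norm_sub_le _ _).trans ?_
    rw [W.norm_map]
    linarith
  have hpt : ∀ s, ‖(oneU μ U).U s ζ - ζ‖ ^ 2
      ≤ 2 * ‖(twist μ U).U s ζ - ζ‖ ^ 2 + 2 * ‖(lam μ E).U s ζ - ζ‖ ^ 2 := by
    intro s
    have e1 : (oneU μ U).U s ((twist μ U).U s ζ) = (lam μ E).U s ζ := by
      change oneT μ (U.U s) ((lam μ E).U s (oneT μ (U.U s⁻¹) ζ)) = (lam μ E).U s ζ
      rw [oneT_lam, ← near_oneT_mul, ← U.mul, mul_inv_cancel, U.one, near_oneT_one]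
    have e2 : (oneU μ U).U s ζ - ζ
        = -((oneU μ U).U s ((twist μ U).U s ζ - ζ)) + ((lam μ E).U s ζ - ζ) := by
      rw [map_sub, e1]
      abel
    have e3 : ‖(oneU μ U).U s ζ - ζ‖ ≤ ‖(twist μ U).U s ζ - ζ‖ + ‖(lam μ E).U s ζ - ζ‖ := by
      rw [e2]
      refine (norm_add_le _ _).trans ?_
      rw [norm_neg, (oneU μ U).norm_map]
    have e4 := pow_le_pow_left₀ (norm_nonneg _) e3 2
    nlinarith [sq_nonneg (‖(twist μ U).U s ζ - ζ‖ - ‖(lam μ E).U s ζ - ζ‖)]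
  have n3 : ∫ s, ‖(oneU μ U).U s ζ - ζ‖ ^ 2 ∂m
      ≤ ∫ s, (2 * ‖(twist μ U).U s ζ - ζ‖ ^ 2 + 2 * ‖(lam μ E).U s ζ - ζ‖ ^ 2) ∂m :=
    integral_mono (hint _) (((hint _).const_mul 2).add ((hint _).const_mul 2)) hpt
  rw [integral_add ((hint _).const_mul 2) ((hint _).const_mul 2), integral_const_mul,
    integral_const_mul] at n3
  have n4 := oneU_gap μ U m ε0 hgap ζ
  have n5 : (ε0 - 8 * ε) * ‖ζ‖ ^ 2 ≤ 0 := by nlinarith
  have n6 : ‖ζ‖ ^ 2 ≤ 0 := by
    by_contra hcon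
    push Not at hcon
    have : 0 < (ε0 - 8 * ε) * ‖ζ‖ ^ 2 := mul_pos (by linarith) hcon
    linarith
  have n7 : ‖ζ‖ = 0 := by
    have := sq_nonneg ‖ζ‖
    exact pow_eq_zero_iff (two_ne_zero) |>.1 (le_antisymm n6 this)
  exact norm_eq_zero.1 n7

end Pool.Agent.AbCoc
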