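import Pool.Agent.Lib_MP_418a80_ab.Base
import Pool.Agent.Lib_MP_418a80_ab.LpOps

set_option autoImplicit false

open MeasureTheory Topology Filter
open scoped ENNReal

namespace Pool.Agent.AbCoc

universe u v w

variable {H : Type u} [NormedAddCommGroup H] [InnerProductSpace ℂ H] [CompleteSpace H]
variable {G : Type v} [Group G] [TopologicalSpace G] [IsTopologicalGroup G]
  [SecondCountableTopology G] [LocallyCompactSpace G] [MeasurableSpace G] [BorelSpace G]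
  (μ : Measure G) [μ.IsHaarMeasure]
  {M : VonNeumannAlgebra H} {α : G → (H →L[ℂ] H) → (H →L[ℂ] H)}

/-- the field `g ↦ α_{g⁻¹}(x)` (use `act_norm_le`, `act_joint`) -/
noncomputable def piField (hα : IsAction M α) (x : Alg M) : Field G H H where
  F := fun g => α g⁻¹ x
  C := ‖x‖
  bound := fun g => act_norm_le hα g⁻¹ x x.2
  cont := (act_joint hα x x.2).comp ((continuous_inv.comp continuous_fst).prodMk continuous_snd)

/-- `π(x)` -/
noncomputable def piOp (hα : IsAction M α) (x : Alg M) : Lp H 2 μ →L[ℂ] Lp H 2 μ :=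
  (piField hα x).op μ

theorem piOp_ae (hα : IsAction M α) (x : Alg M) (ξ : Lp H 2 μ) :
    piOp μ hα x ξ =ᵐ[μ] fun g => α g⁻¹ x (ξ g) := (piField hα x).op_ae μ ξ

theorem piOp_mem (hα : IsAction M α) (x : Alg M) : piOp μ hα x ∈ piOps μ M α :=
  ⟨x, x.2, fun ξ => piOp_ae μ hα x ξ⟩

theorem exists_piOp (hα : IsAction M α) {T : Lp H 2 μ →L[ℂ] Lp H 2 μ} (hT : T ∈ piOps μ M α) :
    ∃ x : Alg M, T = piOp μ hα x := by
  obtain ⟨x, hx, h⟩ := hT
  refine ⟨⟨x, hx⟩, ?_⟩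
  ext1 ξ
  apply Lp.ext
  filter_upwards [h ξ, piOp_ae μ hα ⟨x, hx⟩ ξ] with g h1 h2
  rw [h1, h2]

theorem piOp_one (hα : IsAction M α) : piOp μ hα 1 = 1 := by
  ext1 ξ
  apply Lp.ext
  filter_upwards [piOp_ae μ hα 1 ξ] with g h1
  rw [h1]
  have h2 : α g⁻¹ ((1 : Alg M) : H →L[ℂ] H) = 1 := by
    rw [← actHom_coe hα, map_one]
    rfl
  rw [h2]
  rfl

theorem piOp_mul (hα : IsAction M α) (x y : Alg M) :
    piOp μ hα (x * y) = piOp μ hα x * piOp μ hα y := by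
  ext1 ξ
  apply Lp.ext
  filter_upwards [piOp_ae μ hα (x * y) ξ, piOp_ae μ hα x (piOp μ hα y ξ),
    piOp_ae μ hα y ξ] with g h1 h2 h3
  have h4 : α g⁻¹ ((x * y : Alg M) : H →L[ℂ] H) = α g⁻¹ x * α g⁻¹ y :=
    hα.map_mul g⁻¹ x x.2 y y.2
  rw [h1, h4]
  change _ = (piOp μ hα x (piOp μ hα y ξ)) g
  rw [h2, h3]
  rfl

theorem piOp_sub (hα : IsAction M α) (x y : Alg M) :
    piOp μ hα (x - y) = piOp μ hα x - piOp μ hα y := by
  ext1 ξ
  apply Lp.ext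
  filter_upwards [piOp_ae μ hα (x - y) ξ, piOp_ae μ hα x ξ, piOp_ae μ hα y ξ,
    Lp.coeFn_sub (piOp μ hα x ξ) (piOp μ hα y ξ)] with g h1 h2 h3 h5
  have h4 : α g⁻¹ ((x - y : Alg M) : H →L[ℂ] H) = α g⁻¹ x - α g⁻¹ y := by
    rw [← actHom_coe hα, map_sub]
    rfl
  rw [h1, h4, ContinuousLinearMap.sub_apply (piOp μ hα x) (piOp μ hα y) ξ, h5, Pi.sub_apply,
    h2, h3]
  rfl

theorem piOp_star (hα : IsAction M α) (x : Alg M) :
    piOp μ hα (star x) = star (piOp μ hα x) := by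
  rw [ContinuousLinearMap.star_eq_adjoint, ContinuousLinearMap.eq_adjoint_iff]
  intro ξ η
  rw [L2.inner_def, L2.inner_def]
  refine integral_congr_ae ?_
  filter_upwards [piOp_ae μ hα (star x) ξ, piOp_ae μ hα x η] with g h1 h2
  have h4 : α g⁻¹ ((star x : Alg M) : H →L[ℂ] H) = star (α g⁻¹ x) := hα.map_star g⁻¹ x x.2
  rw [h1, h2, h4, ContinuousLinearMap.star_eq_adjoint, ContinuousLinearMap.adjoint_inner_left]

theorem lam_mem (s : G) : (lam μ H).U s ∈ translationOps μ H :=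
  ⟨s, fun ξ => lam_ae μ s ξ⟩

theorem exists_lam {T : Lp H 2 μ →L[ℂ] Lp H 2 μ} (hT : T ∈ translationOps μ H) :
    ∃ s : G, T = (lam μ H).U s := by
  obtain ⟨s, h⟩ := hT
  refine ⟨s, ?_⟩
  ext1 ξ
  apply Lp.ext
  filter_upwards [h ξ, lam_ae μ s ξ] with g h1 h2
  rw [h1, h2]

theorem lam_star (s : G) : star ((lam μ H).U s) = (lam μ H).U s⁻¹ := by
  symm
  rw [ContinuousLinearMap.star_eq_adjoint, ContinuousLinearMap.eq_adjoint_iff]
  intro ξ η
  exact (lam μ H).adj' s ξ η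

theorem lam_mul_piOp (hα : IsAction M α) (s : G) (x : Alg M) :
    (lam μ H).U s * piOp μ hα x = piOp μ hα (actHom hα s x) * (lam μ H).U s := by
  ext1 ξ
  apply Lp.ext
  have h3 := ae_translate μ s⁻¹ (piOp_ae μ hα x ξ)
  filter_upwards [lam_ae μ s (piOp μ hα x ξ), h3,
    piOp_ae μ hα (actHom hα s x) ((lam μ H).U s ξ), lam_ae μ s ξ] with g h1 h2 h4 h5
  change ((lam μ H).U s (piOp μ hα x ξ)) g = (piOp μ hα (actHom hα s x) ((lam μ H).U s ξ)) g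
  rw [h1, h2, h4, h5, actHom_coe, ← hα.mul_act g⁻¹ s x x.2, mul_inv_rev, inv_inv]

theorem piOp_fixed (hα : IsAction M α) (b : Alg M) (hb : ∀ g, actHom hα g b = b) :
    piOp μ hα b = oneT μ (b : H →L[ℂ] H) := by
  ext1 ξ
  apply Lp.ext
  filter_upwards [piOp_ae μ hα b ξ, oneT_ae μ (b : H →L[ℂ] H) ξ] with g h1 h2
  rw [h1, h2, ← actHom_coe hα, hb]

/-- `ψ ⊗ η` -/
noncomputable def tens (η : H) : Lp ℂ 2 μ →L[ℂ] Lp H 2 μ :=
  oneT μ (ContinuousLinearMap.toSpanSingleton ℂ η)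

theorem tens_ae (η : H) (ψ : Lp ℂ 2 μ) : tens μ η ψ =ᵐ[μ] fun g => (ψ g : ℂ) • η := by
  filter_upwards [oneT_ae μ (ContinuousLinearMap.toSpanSingleton ℂ η) ψ] with g h1
  exact h1

theorem piOp_tens_ae (hα : IsAction M α) (x : Alg M) (η : H) (ψ : Lp ℂ 2 μ) :
    piOp μ hα x (tens μ η ψ) =ᵐ[μ] fun g => (ψ g : ℂ) • α g⁻¹ x η := by
  filter_upwards [piOp_ae μ hα x (tens μ η ψ), tens_ae μ η ψ] with g h1 h2
  rw [h1, h2, map_smul]

theorem norm_tens (η : H) (ψ : Lp ℂ 2 μ) : ‖tens μ η ψ‖ = ‖ψ‖ * ‖η‖ := by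
  rcases eq_or_ne η 0 with rfl | hη
  · rw [norm_zero, mul_zero, norm_eq_zero]
    apply Lp.ext
    filter_upwards [tens_ae μ (0 : H) ψ, Lp.coeFn_zero H 2 μ] with g h1 h2
    rw [h1, h2, smul_zero]
    rfl
  have hη0 : 0 < ‖η‖ := norm_pos_iff.2 hη
  apply le_antisymm
  · rw [mul_comm]
    refine Lp.norm_le_mul_norm_of_ae_le_mul ?_
    filter_upwards [tens_ae μ η ψ] with g h1
    rw [h1, norm_smul, mul_comm]
  · have h2 : ‖ψ‖ ≤ ‖η‖⁻¹ * ‖tens μ η ψ‖ := by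
      refine Lp.norm_le_mul_norm_of_ae_le_mul ?_
      filter_upwards [tens_ae μ η ψ] with g h1
      rw [h1, norm_smul]
      have : ‖η‖⁻¹ * (‖ψ g‖ * ‖η‖) = ‖ψ g‖ := by field_simp
      rw [this]
    calc ‖ψ‖ * ‖η‖ ≤ ‖η‖⁻¹ * ‖tens μ η ψ‖ * ‖η‖ := mul_le_mul_of_nonneg_right h2 hη0.le
      _ = ‖tens μ η ψ‖ := by field_simp

private theorem PiOps_tens_add (η η' : H) (ψ : Lp ℂ 2 μ) :
    tens μ (η + η') ψ = tens μ η ψ + tens μ η' ψ := by
  apply Lp.ext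
  filter_upwards [tens_ae μ (η + η') ψ, tens_ae μ η ψ, tens_ae μ η' ψ,
    Lp.coeFn_add (tens μ η ψ) (tens μ η' ψ)] with g h1 h2 h3 h4
  rw [h1, h4, Pi.add_apply, h2, h3, smul_add]

private theorem PiOps_tens_smul (c : ℂ) (η : H) (ψ : Lp ℂ 2 μ) :
    tens μ (c • η) ψ = c • tens μ η ψ := by
  apply Lp.ext
  filter_upwards [tens_ae μ (c • η) ψ, tens_ae μ η ψ, Lp.coeFn_smul c (tens μ η ψ)]
    with g h1 h2 h4
  rw [h1, h4, Pi.smul_apply, h2, smul_comm]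

/-- an operator vanishing on `ψ ⊗ η`, for `η` in a set whose closed span is everything, is 0 -/
theorem eq_zero_of_tens {F : Type w} [NormedAddCommGroup F] [InnerProductSpace ℂ F]
    (C : Lp H 2 μ →L[ℂ] F) (D : Set H)
    (hD : ∀ Z : Submodule ℂ H, IsClosed (Z : Set H) → D ⊆ Z → Z = ⊤)
    (h : ∀ η ∈ D, ∀ ψ : Lp ℂ 2 μ, C (tens μ η ψ) = 0) : C = 0 := by
  -- the bounded linear map `η ↦ ψ ⊗ η`
  let L : Lp ℂ 2 μ → H →L[ℂ] Lp H 2 μ := fun ψ =>
    LinearMap.mkContinuous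
      { toFun := fun η => tens μ η ψ
        map_add' := fun η η' => PiOps_tens_add μ η η' ψ
        map_smul' := fun c η => PiOps_tens_smul μ c η ψ } ‖ψ‖
      (fun η => (norm_tens μ η ψ).le)
  have hL : ∀ ψ η, L ψ η = tens μ η ψ := fun _ _ => rfl
  obtain ⟨Z, hZ⟩ : ∃ Z : Submodule ℂ H, Z = ⨅ ψ : Lp ℂ 2 μ,
    LinearMap.ker ((C.comp (L ψ) : H →L[ℂ] F) : H →ₗ[ℂ] F) := ⟨_, rfl⟩
  have hmem : ∀ η, η ∈ Z ↔ ∀ ψ : Lp ℂ 2 μ, C (tens μ η ψ) = 0 := by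
    intro η
    rw [hZ, Submodule.mem_iInf]
    exact Iff.rfl
  have hclosed : IsClosed (Z : Set H) := by
    have e : (Z : Set H) = ⋂ ψ : Lp ℂ 2 μ, {η | (C.comp (L ψ)) η = 0} := by
      ext η
      rw [SetLike.mem_coe, hmem, Set.mem_iInter]
      exact Iff.rfl
    rw [e]
    exact isClosed_iInter fun ψ => isClosed_eq (C.comp (L ψ)).continuous continuous_const
  have htop := hD Z hclosed fun η hη => (hmem η).2 (h η hη)
  have hall : ∀ (η : H) (ψ : Lp ℂ 2 μ), C (tens μ η ψ) = 0 := by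
    intro η
    apply (hmem η).1
    rw [htop]
    trivial
  ext1 f
  rw [ContinuousLinearMap.zero_apply]
  refine Lp.induction (p := 2) (by simp) (motive := fun f : Lp H 2 μ => C f = 0) ?_ ?_ ?_ f
  · intro c s hs hμs
    have e : (Lp.simpleFunc.indicatorConst 2 hs hμs.ne c : Lp H 2 μ) =
        tens μ c (indicatorConstLp 2 hs hμs.ne (1 : ℂ)) := by
      rw [Lp.simpleFunc.coe_indicatorConst]
      apply Lp.ext
      filter_upwards [tens_ae μ c (indicatorConstLp 2 hs hμs.ne (1 : ℂ)),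
        indicatorConstLp_coeFn (p := 2) (hs := hs) (hμs := hμs.ne) (c := c) (μ := μ),
        indicatorConstLp_coeFn (p := 2) (hs := hs) (hμs := hμs.ne) (c := (1 : ℂ)) (μ := μ)]
        with g h1 h2 h3
      rw [h1, h2, h3]
      by_cases hg : g ∈ s
      · simp [hg]
      · simp [hg]
    change C (Lp.simpleFunc.indicatorConst 2 hs hμs.ne c : Lp H 2 μ) = 0
    rw [e]
    exact hall _ _
  · intro f g hf hg _ h1 h2
    rw [map_add, h1, h2, add_zero]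
  · exact isClosed_eq C.continuous continuous_const

end Pool.Agent.AbCoc
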