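import Mathlib

set_option autoImplicit false
set_option linter.unusedVariables false
set_option linter.unusedSectionVars false

open Polynomial

namespace Pool.Agent.AbCoc

universe u v w

section
variable {K : Type u} [NormedAddCommGroup K] [InnerProductSpace ℂ K] [CompleteSpace K]
variable {K' : Type v} [NormedAddCommGroup K'] [InnerProductSpace ℂ K'] [CompleteSpace K']

theorem aeval_intertwine (X : K →L[ℂ] K) (X' : K' →L[ℂ] K') (C : K →L[ℂ] K')
    (h : ∀ ξ, C (X ξ) = X' (C ξ)) (p : ℝ[X]) (ξ : K) :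
    C (aeval X p ξ) = aeval X' p (C ξ) := by
  induction p using Polynomial.induction_on generalizing ξ with
  | C a => simp [Algebra.algebraMap_eq_smul_one]
  | add p q hp hq => simp only [map_add, add_apply, hp, hq]
  | monomial n a ih =>
      simp only [map_mul, map_pow, aeval_C, aeval_X, Algebra.algebraMap_eq_smul_one,
        smul_mul_assoc, one_mul, smul_apply] at ih ⊢
      have e1 : (X ^ (n + 1)) ξ = (X ^ n) (X ξ) := by rw [pow_succ]; rfl
      have e2 : (X' ^ (n + 1)) (C ξ) = (X' ^ n) (C (X ξ)) := by rw [pow_succ, h]; rfl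
      rw [e1, e2]
      exact ih (X ξ)

/-- continuous functional calculus of intertwined self-adjoint operators -/
theorem cfc_intertwine (X : K →L[ℂ] K) (X' : K' →L[ℂ] K') (hX : IsSelfAdjoint X)
    (hX' : IsSelfAdjoint X') (C : K →L[ℂ] K') (h : ∀ ξ, C (X ξ) = X' (C ξ))
    (f : ℝ → ℝ) (hf : Continuous f) (ξ : K) :
    C (cfc f X ξ) = cfc f X' (C ξ) := by
  set R : ℝ := max ‖X‖ ‖X'‖ with hR
  have key : ∀ ε : ℝ, 0 < ε → ‖C (cfc f X ξ) - cfc f X' (C ξ)‖ ≤ ε * (2 * ‖C‖ * ‖ξ‖) := by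
    intro ε hε
    obtain ⟨p, hp⟩ := exists_polynomial_near_of_continuousOn (-R) R f hf.continuousOn ε hε
    have h1 : ‖cfc f X - aeval X p‖ ≤ ε := by
      rw [← cfc_polynomial p X, ← cfc_sub f p.eval X hf.continuousOn p.continuous.continuousOn]
      refine norm_cfc_le hε.le fun x hx => ?_
      have hx1 : ‖x‖ ≤ ‖X‖ := by
        have h8 := spectrum.norm_le_norm_mul_of_mem hx
        have h9 : ‖(1 : K →L[ℂ] K)‖ ≤ 1 := ContinuousLinearMap.norm_id_le
        nlinarith [norm_nonneg X]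
      have hx2 : x ∈ Set.Icc (-R) R := by
        rw [Real.norm_eq_abs] at hx1
        exact abs_le.1 (hx1.trans (le_max_left ‖X‖ ‖X'‖))
      have := hp x hx2
      rw [Real.norm_eq_abs, abs_sub_comm]
      exact this.le
    have h2 : ‖cfc f X' - aeval X' p‖ ≤ ε := by
      rw [← cfc_polynomial p X', ← cfc_sub f p.eval X' hf.continuousOn p.continuous.continuousOn]
      refine norm_cfc_le hε.le fun x hx => ?_
      have hx1 : ‖x‖ ≤ ‖X'‖ := by
        have h8 := spectrum.norm_le_norm_mul_of_mem hx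
        have h9 : ‖(1 : K' →L[ℂ] K')‖ ≤ 1 := ContinuousLinearMap.norm_id_le
        nlinarith [norm_nonneg X']
      have hx2 : x ∈ Set.Icc (-R) R := by
        rw [Real.norm_eq_abs] at hx1
        exact abs_le.1 (hx1.trans (le_max_right ‖X‖ ‖X'‖))
      have := hp x hx2
      rw [Real.norm_eq_abs, abs_sub_comm]
      exact this.le
    have h3 := aeval_intertwine X X' C h p ξ
    have h4 : C (cfc f X ξ) - cfc f X' (C ξ)
        = C ((cfc f X - aeval X p) ξ) - (cfc f X' - aeval X' p) (C ξ) := by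
      simp only [sub_apply, map_sub, h3]
      abel
    rw [h4]
    have h5 : ‖C ((cfc f X - aeval X p) ξ)‖ ≤ ‖C‖ * (ε * ‖ξ‖) := by
      refine (C.le_opNorm _).trans (mul_le_mul_of_nonneg_left ?_ (norm_nonneg _))
      exact (ContinuousLinearMap.le_opNorm _ _).trans
        (mul_le_mul_of_nonneg_right h1 (norm_nonneg _))
    have h6 : ‖(cfc f X' - aeval X' p) (C ξ)‖ ≤ ε * (‖C‖ * ‖ξ‖) := by
      refine (ContinuousLinearMap.le_opNorm _ _).trans ?_
      exact mul_le_mul h2 (C.le_opNorm _) (norm_nonneg _) hε.le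
    have := norm_sub_le (C ((cfc f X - aeval X p) ξ)) ((cfc f X' - aeval X' p) (C ξ))
    nlinarith
  have h0 : ‖C (cfc f X ξ) - cfc f X' (C ξ)‖ ≤ 0 := by
    refine le_of_forall_pos_le_add fun ε hε => ?_
    have hpos : 0 < 2 * ‖C‖ * ‖ξ‖ + 1 := by positivity
    have := key (ε / (2 * ‖C‖ * ‖ξ‖ + 1)) (div_pos hε hpos)
    have h7 : ε / (2 * ‖C‖ * ‖ξ‖ + 1) * (2 * ‖C‖ * ‖ξ‖) ≤ ε := by
      rw [div_mul_eq_mul_div, div_le_iff₀ hpos]
      nlinarith [norm_nonneg C, norm_nonneg ξ]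
    linarith
  exact sub_eq_zero.1 (norm_le_zero_iff.1 h0)

theorem posPart_eq_cfc' (X : K →L[ℂ] K) (hX : IsSelfAdjoint X) :
    X⁺ = cfc (fun t : ℝ => t ⊔ 0) X := by
  rw [CFC.posPart_def, cfcₙ_eq_cfc (a := X) (f := fun t : ℝ => t⁺)]
  rfl

theorem posPart_intertwine (X : K →L[ℂ] K) (X' : K' →L[ℂ] K') (hX : IsSelfAdjoint X)
    (hX' : IsSelfAdjoint X') (C : K →L[ℂ] K') (h : ∀ ξ, C (X ξ) = X' (C ξ)) (ξ : K) :
    C (X⁺ ξ) = X'⁺ (C ξ) := by
  rw [posPart_eq_cfc' X hX, posPart_eq_cfc' X' hX']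
  exact cfc_intertwine X X' hX hX' C h _ (continuous_id.max continuous_const) ξ

theorem negPart_intertwine (X : K →L[ℂ] K) (X' : K' →L[ℂ] K') (hX : IsSelfAdjoint X)
    (hX' : IsSelfAdjoint X') (C : K →L[ℂ] K') (h : ∀ ξ, C (X ξ) = X' (C ξ)) (ξ : K) :
    C (X⁻ ξ) = X'⁻ (C ξ) := by
  have e1 : X⁻ = (-X)⁺ := (CFC.posPart_neg X).symm
  have e2 : X'⁻ = (-X')⁺ := (CFC.posPart_neg X').symm
  rw [e1, e2]
  refine posPart_intertwine (-X) (-X') hX.neg hX'.neg C (fun η => ?_) ξ
  simp only [neg_apply, map_neg, h]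

/-- on the range of the positive part the quadratic form is nonnegative -/
theorem inner_posPart_nonneg (X : K →L[ℂ] K) (hX : IsSelfAdjoint X) (η : K) :
    0 ≤ (inner ℂ (X (X⁺ η)) (X⁺ η)).re := by
  have h1 : X (X⁺ η) = X⁺ (X⁺ η) := by
    have h2 : X * X⁺ = X⁺ * X⁺ := by
      have h3 : X = X⁺ - X⁻ := (CFC.posPart_sub_negPart X hX).symm
      calc X * X⁺ = (X⁺ - X⁻) * X⁺ := by rw [← h3]
        _ = X⁺ * X⁺ := by rw [sub_mul, CFC.negPart_mul_posPart, sub_zero]
    exact congrArg (fun Z : K →L[ℂ] K => Z η) h2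
  rw [h1]
  have h3 : (X⁺).IsPositive := (ContinuousLinearMap.nonneg_iff_isPositive _).1 (CFC.posPart_nonneg X)
  have := h3.re_inner_nonneg_left (X⁺ η)
  simpa using this

/-- if the quadratic form is positive somewhere the positive part is not zero -/
theorem posPart_ne_zero_of_inner_pos (X : K →L[ℂ] K) (hX : IsSelfAdjoint X) (η : K)
    (h : 0 < (inner ℂ (X η) η).re) : X⁺ ≠ 0 := by
  intro h0
  have h1 : X = -X⁻ := by
    have := CFC.posPart_sub_negPart X hX
    rw [h0, zero_sub] at this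
    exact this.symm
  have h3 : (X⁻).IsPositive := (ContinuousLinearMap.nonneg_iff_isPositive _).1 (CFC.negPart_nonneg X)
  have h4 := h3.re_inner_nonneg_left η
  rw [h1] at h
  simp only [neg_apply, inner_neg_left, Complex.neg_re] at h
  simp only [RCLike.re_to_complex] at h4
  linarith

end

end Pool.Agent.AbCoc
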