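import Mathlib

set_option autoImplicit false
set_option linter.unusedVariables false
set_option linter.unusedSectionVars false

open MeasureTheory
open scoped ENNReal

namespace Pool.Agent.AbCoc

universe u v w

/-- A strongly continuous unitary representation of `G` on `K`. -/
structure URep (G : Type u) [Group G] [TopologicalSpace G] (K : Type v) [NormedAddCommGroup K]
    [InnerProductSpace ℂ K] where
  U : G → K →L[ℂ] K
  one : U 1 = 1
  mul : ∀ s t, U (s * t) = U s * U t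
  inner_map : ∀ s ξ η, inner ℂ (U s ξ) (U s η) = inner ℂ ξ η
  cont : ∀ ξ, Continuous fun s => U s ξ

section
variable {G : Type u} [Group G] [TopologicalSpace G] {K : Type v} [NormedAddCommGroup K]
  [InnerProductSpace ℂ K] (W : URep G K)

namespace URep

theorem norm_map (s : G) (ξ : K) : ‖W.U s ξ‖ = ‖ξ‖ := by
  have h := W.inner_map s ξ ξ
  rw [inner_self_eq_norm_sq_to_K, inner_self_eq_norm_sq_to_K] at h
  have h2 : ‖W.U s ξ‖ ^ 2 = ‖ξ‖ ^ 2 := by exact_mod_cast h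
  exact (pow_left_inj₀ (norm_nonneg _) (norm_nonneg _) two_ne_zero).1 h2

theorem norm_le (s : G) : ‖W.U s‖ ≤ 1 :=
  ContinuousLinearMap.opNorm_le_bound _ zero_le_one fun ξ => by rw [W.norm_map, one_mul]

theorem mul_apply (s t : G) (ξ : K) : W.U (s * t) ξ = W.U s (W.U t ξ) := by
  rw [W.mul]; rfl

theorem inv_apply (s : G) (ξ : K) : W.U s⁻¹ (W.U s ξ) = ξ := by
  rw [← W.mul_apply, inv_mul_cancel, W.one]; rfl

theorem apply_inv (s : G) (ξ : K) : W.U s (W.U s⁻¹ ξ) = ξ := by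
  rw [← W.mul_apply, mul_inv_cancel, W.one]; rfl

theorem adj (s : G) (ξ η : K) : inner ℂ (W.U s ξ) η = inner ℂ ξ (W.U s⁻¹ η) := by
  rw [← W.inner_map s ξ (W.U s⁻¹ η), W.apply_inv]

theorem adj' (s : G) (ξ η : K) : inner ℂ (W.U s⁻¹ ξ) η = inner ℂ ξ (W.U s η) := by
  rw [W.adj, inv_inv]

end URep
end

section
variable {G : Type u} [Group G] [TopologicalSpace G] [IsTopologicalGroup G] [SecondCountableTopology G]
  [MeasurableSpace G] [BorelSpace G] {K : Type v} [NormedAddCommGroup K]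
  [InnerProductSpace ℂ K] [CompleteSpace K] (W : URep G K) (m : Measure G) [IsProbabilityMeasure m]

namespace URep

theorem cont_inv (ξ : K) : Continuous fun s => W.U s⁻¹ ξ :=
  (W.cont ξ).comp continuous_inv

theorem integrable (ξ : K) : Integrable (fun s => W.U s ξ) m := by
  refine Integrable.of_bound (W.cont ξ).aestronglyMeasurable ‖ξ‖ ?_
  exact Filter.Eventually.of_forall fun s => (W.norm_map s ξ).le

theorem integrable_inv (ξ : K) : Integrable (fun s => W.U s⁻¹ ξ) m := by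
  refine Integrable.of_bound (W.cont_inv ξ).aestronglyMeasurable ‖ξ‖ ?_
  exact Filter.Eventually.of_forall fun s => (W.norm_map s⁻¹ ξ).le

/-- the self-adjoint average `∫ (W_s + W_{s⁻¹})/2 dm(s)` -/
noncomputable def T : K →L[ℂ] K :=
  LinearMap.mkContinuous
    { toFun := fun ξ => (1 / 2 : ℂ) • ((∫ s, W.U s ξ ∂m) + ∫ s, W.U s⁻¹ ξ ∂m)
      map_add' := by
        intro ξ η
        simp only [map_add]
        rw [integral_add (W.integrable m ξ) (W.integrable m η),
          integral_add (W.integrable_inv m ξ) (W.integrable_inv m η), ← smul_add]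
        congr 1
        abel
      map_smul' := by
        intro c ξ
        simp only [map_smul, RingHom.id_apply]
        rw [integral_smul, integral_smul, ← smul_add, smul_comm] } 1 (by
    intro ξ
    simp only [LinearMap.coe_mk, AddHom.coe_mk, one_mul]
    have h1 : ‖∫ s, W.U s ξ ∂m‖ ≤ ‖ξ‖ := by
      refine (norm_integral_le_of_norm_le_const
        (Filter.Eventually.of_forall fun s => (W.norm_map s ξ).le)).trans ?_
      simp
    have h2 : ‖∫ s, W.U s⁻¹ ξ ∂m‖ ≤ ‖ξ‖ := by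
      refine (norm_integral_le_of_norm_le_const
        (Filter.Eventually.of_forall fun s => (W.norm_map s⁻¹ ξ).le)).trans ?_
      simp
    rw [norm_smul]
    have h3 : ‖(1 / 2 : ℂ)‖ = 1 / 2 := by norm_num
    rw [h3]
    have h4 := norm_add_le (∫ s, W.U s ξ ∂m) (∫ s, W.U s⁻¹ ξ ∂m)
    linarith)

theorem T_apply (ξ : K) :
    W.T m ξ = (1 / 2 : ℂ) • ((∫ s, W.U s ξ ∂m) + ∫ s, W.U s⁻¹ ξ ∂m) := rfl

/-- intertwiners of representations intertwine the averages -/
theorem T_intertwine {K' : Type w} [NormedAddCommGroup K'] [InnerProductSpace ℂ K']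
    [CompleteSpace K'] (W' : URep G K') (C : K →L[ℂ] K')
    (h : ∀ s ξ, C (W.U s ξ) = W'.U s (C ξ)) (ξ : K) : C (W.T m ξ) = W'.T m (C ξ) := by
  rw [T_apply, T_apply, map_smul, map_add, ← C.integral_comp_comm (W.integrable m ξ),
    ← C.integral_comp_comm (W.integrable_inv m ξ)]
  simp only [h]

theorem inner_T_left (ξ η : K) :
    inner ℂ (W.T m ξ) η = (1 / 2 : ℂ) * ((∫ s, inner ℂ (W.U s ξ) η ∂m) + ∫ s, inner ℂ (W.U s⁻¹ ξ) η ∂m) := by
  have h1 : inner ℂ (∫ s, W.U s ξ ∂m) η = ∫ s, inner ℂ (W.U s ξ) η ∂m := by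
    have := integral_inner (𝕜 := ℂ) (W.integrable m ξ) η
    have h2 : (∫ s, inner ℂ (W.U s ξ) η ∂m) = (starRingEnd ℂ) (∫ s, inner ℂ η (W.U s ξ) ∂m) := by
      rw [← integral_conj]
      congr 1
      funext s
      exact (inner_conj_symm _ _).symm
    rw [h2, this, inner_conj_symm]
  have h1' : inner ℂ (∫ s, W.U s⁻¹ ξ ∂m) η = ∫ s, inner ℂ (W.U s⁻¹ ξ) η ∂m := by
    have := integral_inner (𝕜 := ℂ) (W.integrable_inv m ξ) η
    have h2 : (∫ s, inner ℂ (W.U s⁻¹ ξ) η ∂m) = (starRingEnd ℂ) (∫ s, inner ℂ η (W.U s⁻¹ ξ) ∂m) := by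
      rw [← integral_conj]
      congr 1
      funext s
      exact (inner_conj_symm _ _).symm
    rw [h2, this, inner_conj_symm]
  rw [T_apply, inner_smul_left, inner_add_left, h1, h1']
  have h2 : (starRingEnd ℂ) (1 / 2 : ℂ) = 1 / 2 := by
    rw [map_div₀, map_one, map_ofNat]
  rw [h2]

theorem inner_T_right (ξ η : K) :
    inner ℂ η (W.T m ξ) = (1 / 2 : ℂ) * ((∫ s, inner ℂ η (W.U s ξ) ∂m) + ∫ s, inner ℂ η (W.U s⁻¹ ξ) ∂m) := by
  rw [T_apply, inner_smul_right, inner_add_right, integral_inner (𝕜 := ℂ) (W.integrable m ξ) η,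
    integral_inner (𝕜 := ℂ) (W.integrable_inv m ξ) η]

theorem T_symm (ξ η : K) : inner ℂ (W.T m ξ) η = inner ℂ ξ (W.T m η) := by
  rw [inner_T_left, inner_T_right]
  congr 1
  rw [add_comm]
  congr 1
  · congr 1; funext s; rw [W.adj']
  · congr 1; funext s; rw [W.adj]

theorem T_isSelfAdjoint : IsSelfAdjoint (W.T m) := by
  rw [ContinuousLinearMap.isSelfAdjoint_iff_isSymmetric]
  intro ξ η
  exact W.T_symm m ξ η

/-- near-invariance from the quadratic form of the average -/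
theorem integral_norm_sub (ξ : K) :
    ∫ s, ‖W.U s ξ - ξ‖ ^ 2 ∂m = 2 * ‖ξ‖ ^ 2 - 2 * (inner ℂ (W.T m ξ) ξ).re := by
  have hc : Continuous fun s => inner ℂ (W.U s ξ) ξ := (W.cont ξ).inner continuous_const
  have hci : Continuous fun s => inner ℂ (W.U s⁻¹ ξ) ξ := (W.cont_inv ξ).inner continuous_const
  have hb : ∀ s, ‖inner ℂ (W.U s ξ) ξ‖ ≤ ‖ξ‖ * ‖ξ‖ := fun s => by
    refine (norm_inner_le_norm _ _).trans ?_
    rw [W.norm_map]
  have hi : Integrable (fun s => inner ℂ (W.U s ξ) ξ) m :=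
    Integrable.of_bound hc.aestronglyMeasurable _ (Filter.Eventually.of_forall hb)
  have hii : Integrable (fun s => inner ℂ (W.U s⁻¹ ξ) ξ) m :=
    Integrable.of_bound hci.aestronglyMeasurable _ (Filter.Eventually.of_forall fun s => hb s⁻¹)
  have h1 : ∀ s, ‖W.U s ξ - ξ‖ ^ 2 = 2 * ‖ξ‖ ^ 2 - 2 * (inner ℂ (W.U s ξ) ξ).re := by
    intro s
    rw [@norm_sub_sq ℂ, W.norm_map]
    simp only [RCLike.re_to_complex]
    ring
  have h2 : (∫ s, inner ℂ (W.U s⁻¹ ξ) ξ ∂m).re = (∫ s, inner ℂ (W.U s ξ) ξ ∂m).re := by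
    have : (∫ s, inner ℂ (W.U s⁻¹ ξ) ξ ∂m) = (starRingEnd ℂ) (∫ s, inner ℂ (W.U s ξ) ξ ∂m) := by
      rw [← integral_conj]
      congr 1
      funext s
      rw [W.adj', inner_conj_symm]
    rw [this, Complex.conj_re]
  have h3 : (inner ℂ (W.T m ξ) ξ).re = (∫ s, inner ℂ (W.U s ξ) ξ ∂m).re := by
    rw [inner_T_left]
    have : ((1 / 2 : ℂ) * ((∫ s, inner ℂ (W.U s ξ) ξ ∂m) + ∫ s, inner ℂ (W.U s⁻¹ ξ) ξ ∂m)).re
        = (1 / 2 : ℝ) * ((∫ s, inner ℂ (W.U s ξ) ξ ∂m) + ∫ s, inner ℂ (W.U s⁻¹ ξ) ξ ∂m).re := by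
      have h5 : (1 / 2 : ℂ) = ((1 / 2 : ℝ) : ℂ) := by norm_num
      rw [h5, Complex.re_ofReal_mul]
    rw [this, Complex.add_re, h2]
    ring
  rw [h3]
  have h4 : (∫ s, inner ℂ (W.U s ξ) ξ ∂m).re = ∫ s, (inner ℂ (W.U s ξ) ξ).re ∂m := by
    have := integral_re hi
    simp only [RCLike.re_to_complex] at this
    exact this.symm
  rw [h4]
  simp only [h1]
  have hire : Integrable (fun s => (inner ℂ (W.U s ξ) ξ).re) m := hi.re
  rw [integral_sub (integrable_const _) (hire.const_mul 2), integral_const, integral_const_mul]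
  simp

end URep
end

end Pool.Agent.AbCoc
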