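import Pool.Agent.Lib_MP_418a80_ab.Win
import Pool.Agent.Lib_MP_418a80_ab.Growth

set_option autoImplicit false

open MeasureTheory
open scoped ENNReal Pointwise

namespace Pool.Agent.AbCoc

universe u v w

section
variable {K : Type u} [NormedAddCommGroup K] [InnerProductSpace ℂ K] [CompleteSpace K]

private theorem Windows_cfc_sub (A : K →L[ℂ] K) (hA : IsSelfAdjoint A) (c : ℝ) (f : ℝ → ℝ)
    (hf : Continuous f) :
    cfc f (A - (c : ℂ) • (1 : K →L[ℂ] K)) = cfc (fun t : ℝ => f (t - c)) A := by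
  have h1 : A - (c : ℂ) • (1 : K →L[ℂ] K) = cfc (fun t : ℝ => t - c) A := by
    have h2 := cfc_add_const (-c) (fun t : ℝ => t) A continuous_id.continuousOn hA
    rw [cfc_id' ℝ A] at h2
    have h3 : (fun t : ℝ => t - c) = fun t : ℝ => t + -c := by
      funext t
      ring
    rw [h3, h2, Algebra.algebraMap_eq_smul_one, sub_eq_add_neg]
    congr 1
    rw [neg_smul]
    rfl
  rw [h1, ← cfc_comp' f (fun t : ℝ => t - c) A hf.continuousOn
    (continuous_id.sub continuous_const).continuousOn hA]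

private theorem Windows_lip (A : K →L[ℂ] K) (hA : IsSelfAdjoint A) (c d : ℝ) :
    ‖(A - (c : ℂ) • (1 : K →L[ℂ] K))⁺ - (A - (d : ℂ) • (1 : K →L[ℂ] K))⁺‖ ≤ |c - d| := by
  have hc : IsSelfAdjoint (A - (c : ℂ) • (1 : K →L[ℂ] K)) := hA.sub (URep.isSelfAdjoint_real_smul c)
  have hd : IsSelfAdjoint (A - (d : ℂ) • (1 : K →L[ℂ] K)) := hA.sub (URep.isSelfAdjoint_real_smul d)
  have e1 : (A - (c : ℂ) • (1 : K →L[ℂ] K))⁺ = cfc (fun t : ℝ => max (t - c) 0) A := by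
    rw [posPart_eq_cfc' _ hc]
    exact Windows_cfc_sub A hA c (fun t : ℝ => max t 0) (continuous_id.max continuous_const)
  have e2 : (A - (d : ℂ) • (1 : K →L[ℂ] K))⁺ = cfc (fun t : ℝ => max (t - d) 0) A := by
    rw [posPart_eq_cfc' _ hd]
    exact Windows_cfc_sub A hA d (fun t : ℝ => max t 0) (continuous_id.max continuous_const)
  rw [e1, e2, ← cfc_sub (fun t : ℝ => max (t - c) 0) (fun t : ℝ => max (t - d) 0) A
      ((continuous_id.sub continuous_const).max continuous_const).continuousOn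
      ((continuous_id.sub continuous_const).max continuous_const).continuousOn]
  refine norm_cfc_le (abs_nonneg _) fun x _ => ?_
  rw [Real.norm_eq_abs]
  have h1 := abs_max_sub_max_le_abs (x - c) (x - d) 0
  refine h1.trans (le_of_eq ?_)
  rw [show x - c - (x - d) = -(c - d) by ring, abs_neg]

private theorem Windows_cont (A : K →L[ℂ] K) (hA : IsSelfAdjoint A) :
    Continuous fun c : ℝ => (A - (c : ℂ) • (1 : K →L[ℂ] K))⁺ := by
  refine (LipschitzWith.of_dist_le_mul (K := 1) fun c d => ?_).continuous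
  rw [dist_eq_norm, Real.dist_eq, NNReal.coe_one, one_mul]
  exact Windows_lip A hA c d

private theorem Windows_contN (A : K →L[ℂ] K) (hA : IsSelfAdjoint A) :
    Continuous fun c : ℝ => (A - (c : ℂ) • (1 : K →L[ℂ] K))⁻ := by
  have h1 : (fun c : ℝ => (A - (c : ℂ) • (1 : K →L[ℂ] K))⁻) =
      fun c : ℝ => (A - (c : ℂ) • (1 : K →L[ℂ] K))⁺ - (A - (c : ℂ) • (1 : K →L[ℂ] K)) := by
    funext c
    have h2 := CFC.posPart_sub_negPart (A - (c : ℂ) • (1 : K →L[ℂ] K))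
      (hA.sub (URep.isSelfAdjoint_real_smul c))
    rw [eq_sub_iff_add_eq, add_comm, ← eq_sub_iff_add_eq]
    exact h2.symm
  rw [h1]
  exact (Windows_cont A hA).sub (continuous_const.sub
    ((Complex.continuous_ofReal).smul continuous_const))

/-- the key step: one of the products always vanishes -/
private theorem Windows_eig (Q A : K →L[ℂ] K) (hA : IsSelfAdjoint A)
    (h : ∀ c : ℝ, Q * (A - (c : ℂ) • (1 : K →L[ℂ] K))⁺ = 0 ∨
      Q * (A - (c : ℂ) • (1 : K →L[ℂ] K))⁻ = 0) :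
    ∃ c : ℝ, Q * A = (c : ℂ) • Q := by
  have hP : IsClosed {c : ℝ | Q * (A - (c : ℂ) • (1 : K →L[ℂ] K))⁺ = 0} :=
    isClosed_eq (continuous_const.mul (Windows_cont A hA)) continuous_const
  have hN : IsClosed {c : ℝ | Q * (A - (c : ℂ) • (1 : K →L[ℂ] K))⁻ = 0} :=
    isClosed_eq (continuous_const.mul (Windows_contN A hA)) continuous_const
  have hsa : ∀ c : ℝ, IsSelfAdjoint (A - (c : ℂ) • (1 : K →L[ℂ] K)) := fun c =>
    hA.sub (URep.isSelfAdjoint_real_smul c)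
  have halg : ∀ c : ℝ, algebraMap ℝ (K →L[ℂ] K) c = (c : ℂ) • (1 : K →L[ℂ] K) := by
    intro c
    rw [Algebra.algebraMap_eq_smul_one]
    rfl
  have hPn : (Set.univ ∩ {c : ℝ | Q * (A - (c : ℂ) • (1 : K →L[ℂ] K))⁺ = 0}).Nonempty := by
    refine ⟨‖A‖, Set.mem_univ _, ?_⟩
    show Q * (A - ((‖A‖ : ℝ) : ℂ) • (1 : K →L[ℂ] K))⁺ = 0
    have h1 := hA.le_algebraMap_norm_self
    rw [halg] at h1
    rw [(CFC.posPart_eq_zero_iff _ (hsa _)).2 (sub_nonpos.2 h1), mul_zero]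
  have hNn : (Set.univ ∩ {c : ℝ | Q * (A - (c : ℂ) • (1 : K →L[ℂ] K))⁻ = 0}).Nonempty := by
    refine ⟨-‖A‖, Set.mem_univ _, ?_⟩
    show Q * (A - ((-‖A‖ : ℝ) : ℂ) • (1 : K →L[ℂ] K))⁻ = 0
    have h1 := hA.neg_algebraMap_norm_le_self
    rw [← map_neg, halg] at h1
    rw [(CFC.negPart_eq_zero_iff _ (hsa _)).2 (sub_nonneg.2 h1), mul_zero]
  obtain ⟨c, -, hc1, hc2⟩ := isPreconnected_closed_iff.1 (isPreconnected_univ (α := ℝ)) _ _ hP hN
    (fun c _ => h c) hPn hNn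
  refine ⟨c, ?_⟩
  have h1 : Q * (A - (c : ℂ) • (1 : K →L[ℂ] K)) = 0 := by
    rw [← CFC.posPart_sub_negPart _ (hsa c), mul_sub]
    rw [show Q * (A - (c : ℂ) • (1 : K →L[ℂ] K))⁺ = 0 from hc1,
      show Q * (A - (c : ℂ) • (1 : K →L[ℂ] K))⁻ = 0 from hc2, sub_zero]
  rw [mul_sub, sub_eq_zero] at h1
  rw [h1, mul_smul_comm, mul_one]

end

section
variable {G : Type u} [CommGroup G] [TopologicalSpace G] [IsTopologicalGroup G]
  [SecondCountableTopology G] [LocallyCompactSpace G] [T2Space G] [NoncompactSpace G]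
  [MeasurableSpace G] [BorelSpace G] (μ : Measure G) [μ.IsHaarMeasure]

omit [NoncompactSpace G] in
private theorem Windows_disj (φ : G → ℂ) (hφ : MemLp φ 2 μ) (g : G)
    (hg : ∀ x, φ (g⁻¹ * x) = 0 ∨ φ x = 0) :
    inner ℂ ((lam μ ℂ).U g (hφ.toLp φ)) (hφ.toLp φ) = 0 := by
  rw [MeasureTheory.L2.inner_def]
  have h1 := lam_ae μ g (hφ.toLp φ)
  have h2 := hφ.coeFn_toLp
  have h3 := ae_translate μ g⁻¹ h2
  rw [integral_congr_ae (g := fun _ => (0 : ℂ))]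
  · simp
  · filter_upwards [h1, h2, h3] with x h1 h2 h3
    rw [h1, h2, h3]
    rcases hg x with h | h
    · rw [h, inner_zero_left]
    · rw [h, inner_zero_right]

/-- W1a: matrix coefficients of the regular representation vanish at infinity -/
theorem exists_small_coeff (ψ : Lp ℂ 2 μ) (ε : ℝ) (hε : 0 < ε) :
    ∃ g : G, ‖inner ℂ ((lam μ ℂ).U g ψ) ψ‖ < ε := by
  obtain ⟨δ, hδ, hδ2⟩ : ∃ δ : ℝ, 0 < δ ∧ δ * ‖ψ‖ + (‖ψ‖ + δ) * δ < ε := by
    refine ⟨min 1 (ε / (2 * ‖ψ‖ + 2)), by positivity, ?_⟩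
    have h1 : min 1 (ε / (2 * ‖ψ‖ + 2)) ≤ 1 := min_le_left _ _
    have h2 : min 1 (ε / (2 * ‖ψ‖ + 2)) ≤ ε / (2 * ‖ψ‖ + 2) := min_le_right _ _
    have h3 : 0 < min 1 (ε / (2 * ‖ψ‖ + 2)) := by positivity
    have h4 : (2 * ‖ψ‖ + 2) * min 1 (ε / (2 * ‖ψ‖ + 2)) ≤ ε := by
      calc (2 * ‖ψ‖ + 2) * min 1 (ε / (2 * ‖ψ‖ + 2)) ≤ (2 * ‖ψ‖ + 2) * (ε / (2 * ‖ψ‖ + 2)) := by
            gcongr
        _ = ε := by field_simp
    nlinarith [norm_nonneg ψ]
  obtain ⟨φ, hφc, hφ1, -, hφ2⟩ := (Lp.memLp ψ).exists_hasCompactSupport_eLpNorm_sub_le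
    (by simp) (ε := ENNReal.ofReal δ) (by positivity)
  have hd : ‖ψ - hφ2.toLp φ‖ ≤ δ := by
    have h1 : ψ = (Lp.memLp ψ).toLp ψ := (Lp.toLp_coeFn ψ _).symm
    have h2 : ψ - hφ2.toLp φ = ((Lp.memLp ψ).sub hφ2).toLp (⇑ψ - φ) := by
      rw [MemLp.toLp_sub (Lp.memLp ψ) hφ2, ← h1]
    rw [h2, Lp.norm_toLp]
    exact ENNReal.toReal_le_of_le_ofReal hδ.le hφ1
  obtain ⟨g, hg⟩ : ∃ g : G, g ∉ tsupport φ * (tsupport φ)⁻¹ := by
    have hK : IsCompact (tsupport φ * (tsupport φ)⁻¹) := hφc.isCompact.mul hφc.isCompact.inv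
    have h1 := hK.ne_univ
    exact (Set.ne_univ_iff_exists_notMem _).1 h1
  refine ⟨g, ?_⟩
  have h0 : inner ℂ ((lam μ ℂ).U g (hφ2.toLp φ)) (hφ2.toLp φ) = 0 := by
    refine Windows_disj μ φ hφ2 g fun x => ?_
    by_contra hx
    push Not at hx
    refine hg ?_
    have h1 : g⁻¹ * x ∈ tsupport φ := subset_tsupport φ hx.1
    have h2 : x ∈ tsupport φ := subset_tsupport φ hx.2
    refine Set.mem_mul.2 ⟨x, h2, (g⁻¹ * x)⁻¹, Set.inv_mem_inv.2 h1, ?_⟩
    group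
  set η : Lp ℂ 2 μ := hφ2.toLp φ with hη
  have h1 : inner ℂ ((lam μ ℂ).U g ψ) ψ = inner ℂ ((lam μ ℂ).U g (ψ - η)) ψ +
      inner ℂ ((lam μ ℂ).U g η) (ψ - η) + inner ℂ ((lam μ ℂ).U g η) η := by
    rw [map_sub, inner_sub_left, inner_sub_right]
    ring
  have h2 : ‖η‖ ≤ ‖ψ‖ + δ := by
    have h3 : η = ψ - (ψ - η) := by abel
    calc ‖η‖ = ‖ψ - (ψ - η)‖ := by rw [← h3]
      _ ≤ ‖ψ‖ + ‖ψ - η‖ := norm_sub_le _ _
      _ ≤ ‖ψ‖ + δ := by gcongr
  rw [h1, h0, add_zero]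
  refine lt_of_le_of_lt (norm_add_le _ _) (lt_of_le_of_lt ?_ hδ2)
  refine add_le_add ?_ ?_
  · refine (norm_inner_le_norm _ _).trans ?_
    rw [(lam μ ℂ).norm_map]
    gcongr
  · refine (norm_inner_le_norm _ _).trans ?_
    rw [(lam μ ℂ).norm_map]
    gcongr

omit [NoncompactSpace G] in
private theorem Windows_near (E F : Set G) (hE : MeasurableSet E) (hE1 : μ E ≠ ∞) (hF : MeasurableSet F)
    (hF1 : μ F ≠ ∞) (hEF : E ⊆ F) (s : G) (hs : ∀ x ∈ E, s * x ∈ F) :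
    ‖(lam μ ℂ).U s (indicatorConstLp 2 hE hE1 (1 : ℂ)) - indicatorConstLp 2 hE hE1 (1 : ℂ)‖ ^ 2
      ≤ 2 * (μ.real F - μ.real E) := by
  set ψ : Lp ℂ 2 μ := indicatorConstLp 2 hE hE1 (1 : ℂ) with hψ
  have hn : ‖ψ‖ ^ 2 = μ.real E := by
    rw [hψ, norm_indicatorConstLp (by norm_num) (by norm_num), norm_one, one_mul]
    rw [show (1 / (2 : ℝ≥0∞).toReal) = (1 / 2 : ℝ) by norm_num, ← Real.sqrt_eq_rpow,
      Real.sq_sqrt measureReal_nonneg]
  have hsE : MeasurableSet ((fun x => s⁻¹ * x) ⁻¹' E) := measurable_const_mul s⁻¹ hE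
  have hmu : μ.real ((fun x => s⁻¹ * x) ⁻¹' E) = μ.real E := by
    rw [measureReal_def, measureReal_def, measure_preimage_mul]
  have hin : inner ℂ ψ ((lam μ ℂ).U s ψ) = (μ.real (E ∩ (fun x => s⁻¹ * x) ⁻¹' E) : ℂ) := by
    rw [hψ, L2.inner_indicatorConstLp_one hE hE1, ← hψ]
    have h1 := lam_ae μ s ψ
    have h2 := ae_translate μ s⁻¹ (indicatorConstLp_coeFn (p := 2) (hs := hE) (hμs := hE1) (c := (1 : ℂ)))
    have h3 : ∫ x in E, ((lam μ ℂ).U s ψ) x ∂μ =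
        ∫ x in E, ((fun x => s⁻¹ * x) ⁻¹' E).indicator (fun _ => (1 : ℂ)) x ∂μ := by
      refine integral_congr_ae (ae_restrict_of_ae ?_)
      filter_upwards [h1, h2] with x h1 h2
      rw [h1, h2]
      rfl
    rw [h3, setIntegral_indicator hsE, setIntegral_const]
    simp
  have hsub : μ.real E + μ.real E - μ.real F ≤ μ.real (E ∩ (fun x => s⁻¹ * x) ⁻¹' E) := by
    have h1 : E ∪ (fun x => s⁻¹ * x) ⁻¹' E ⊆ F := by
      refine Set.union_subset hEF fun x hx => ?_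
      have h2 := hs _ hx
      rwa [mul_inv_cancel_left] at h2
    have h2 := measureReal_union_add_inter (μ := μ) (s := E) hsE hE1
      (by rw [measure_preimage_mul]; exact hE1)
    have h3 : μ.real (E ∪ (fun x => s⁻¹ * x) ⁻¹' E) ≤ μ.real F := measureReal_mono h1 hF1
    rw [hmu] at h2
    linarith
  rw [@norm_sub_sq ℂ, (lam μ ℂ).norm_map, hn]
  have h4 : (RCLike.re (inner ℂ ((lam μ ℂ).U s ψ) ψ) : ℝ) = μ.real (E ∩ (fun x => s⁻¹ * x) ⁻¹' E) := by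
    rw [← inner_conj_symm, hin]
    simp
  rw [h4]
  linarith

omit [NoncompactSpace G] in
/-- W1b: `K_λ ≠ 0` (growth, `ψ` = indicator of `B ^ (n + 1)`) -/
theorem Kop_ne_zero (m : Measure G) [IsProbabilityMeasure m] (S : Set G) (hS : IsCompact S)
    (hm : m Sᶜ = 0) (ε : ℝ) (hε : 0 < ε) : (lam μ ℂ).Kop m ε ≠ 0 := by
  obtain ⟨V, hV, hV1⟩ := exists_compact_mem_nhds (1 : G)
  set B : Set G := V ∪ S with hBdef
  have hBc : IsCompact B := hV.union hS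
  have hB1 : B ∈ nhds (1 : G) := Filter.mem_of_superset hV1 Set.subset_union_left
  have h1B : (1 : G) ∈ B := mem_of_mem_nhds hB1
  obtain ⟨n, hn⟩ := exists_small_growth μ B hBc hB1 (ε / 2) (by positivity)
  have hEc : IsCompact (B ^ (n + 1)) := isCompact_pow B hBc _
  have hFc : IsCompact (B ^ (n + 1 + 1)) := isCompact_pow B hBc _
  have hEpos : 0 < μ.real (B ^ (n + 1)) := by
    rw [measureReal_def]
    refine ENNReal.toReal_pos (Measure.measure_pos_of_mem_nhds μ (x := 1) ?_).ne' hEc.measure_lt_top.ne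
    refine Filter.mem_of_superset hB1 ?_
    have h2 := Set.pow_subset_pow_right h1B (show 1 ≤ n + 1 by omega)
    rwa [pow_one] at h2
  set ψ : Lp ℂ 2 μ := indicatorConstLp 2 hEc.measurableSet hEc.measure_lt_top.ne (1 : ℂ) with hψ
  refine posPart_ne_zero_of_inner_pos _ ((lam μ ℂ).Kop_base_sa m ε) ψ ?_
  have hnorm : ‖ψ‖ ^ 2 = μ.real (B ^ (n + 1)) := by
    rw [hψ, norm_indicatorConstLp (by norm_num) (by norm_num), norm_one, one_mul]
    rw [show (1 / (2 : ℝ≥0∞).toReal) = (1 / 2 : ℝ) by norm_num, ← Real.sqrt_eq_rpow,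
      Real.sq_sqrt measureReal_nonneg]
  have hnear : ∀ s ∈ S, ‖(lam μ ℂ).U s ψ - ψ‖ ^ 2 ≤ ε * μ.real (B ^ (n + 1)) := by
    intro s hs
    refine (Windows_near μ _ _ hEc.measurableSet hEc.measure_lt_top.ne hFc.measurableSet
      hFc.measure_lt_top.ne (Set.pow_subset_pow_right h1B (by omega)) s ?_).trans ?_
    · intro x hx
      rw [pow_succ' B (n + 1)]
      exact Set.mul_mem_mul (Set.mem_union_right _ hs) hx
    · linarith
  have hint := (lam μ ℂ).integral_norm_sub m ψ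
  have hle : ∫ s, ‖(lam μ ℂ).U s ψ - ψ‖ ^ 2 ∂m ≤ ε * μ.real (B ^ (n + 1)) := by
    have h1 : ∀ᵐ s ∂m, ‖(lam μ ℂ).U s ψ - ψ‖ ^ 2 ≤ ε * μ.real (B ^ (n + 1)) := by
      rw [ae_iff]
      refine measure_mono_null (fun s hs => ?_) hm
      intro hsS
      exact hs (hnear s hsS)
    have h2 : ∫ s, ‖(lam μ ℂ).U s ψ - ψ‖ ^ 2 ∂m ≤ ∫ _, ε * μ.real (B ^ (n + 1)) ∂m := by
      refine integral_mono_of_nonneg (Filter.Eventually.of_forall fun s => by positivity)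
        (integrable_const _) h1
    rw [integral_const] at h2
    simpa using h2
  rw [hint, hnorm] at hle
  simp only [sub_apply, smul_apply, one_apply_eq_self, inner_sub_left, inner_smul_left,
    Complex.conj_ofReal, Complex.sub_re, Complex.re_ofReal_mul]
  have h2 : (inner ℂ ψ ψ).re = μ.real (B ^ (n + 1)) := by
    rw [← hnorm, inner_self_eq_norm_sq_to_K]
    norm_cast
  rw [h2]
  nlinarith

/-- W1c: the two windows -/
theorem exists_windows (m : Measure G) [IsProbabilityMeasure m] (S : Set G) (hS : IsCompact S)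
    (hm : m Sᶜ = 0) (ε : ℝ) (hε : 0 < ε) :
    ∃ (g : G) (θ : ℂ) (c : ℝ), (lam μ ℂ).Kop m ε * (lam μ ℂ).Apos θ g c ≠ 0 ∧
      (lam μ ℂ).Kop m ε * (lam μ ℂ).Aneg θ g c ≠ 0 := by
  by_contra hcon
  push Not at hcon
  have hK := Kop_ne_zero μ m S hS hm ε hε
  set Q := (lam μ ℂ).Kop m ε with hQ
  have heig : ∀ (g : G) (θ : ℂ), ∃ c : ℝ, Q * (lam μ ℂ).Aop θ g = (c : ℂ) • Q := by
    intro g θ
    refine Windows_eig Q _ ((lam μ ℂ).Aop_sa θ g) fun c => ?_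
    by_cases h1 : Q * (lam μ ℂ).Apos θ g c = 0
    · exact Or.inl h1
    · exact Or.inr (hcon g θ c h1)
  have hU : ∀ g : G, ∃ χ : ℂ, Q * (lam μ ℂ).U g = χ • Q := by
    intro g
    obtain ⟨c1, h1⟩ := heig g 1
    obtain ⟨c2, h2⟩ := heig g (-Complex.I)
    refine ⟨c1 + Complex.I * c2, ?_⟩
    have h3 : (lam μ ℂ).U g = (lam μ ℂ).Aop 1 g + Complex.I • (lam μ ℂ).Aop (-Complex.I) g := by
      unfold URep.Aop
      rw [map_one, map_neg, Complex.conj_I, neg_neg, one_smul, one_smul, smul_smul, smul_add, smul_add,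
        smul_smul, smul_smul]
      have e1 : Complex.I * (1 / 2) * -Complex.I = 1 / 2 := by
        linear_combination (-(1 / 2) : ℂ) * Complex.I_mul_I
      have e2 : Complex.I * (1 / 2) * Complex.I = -(1 / 2) := by
        linear_combination ((1 / 2) : ℂ) * Complex.I_mul_I
      rw [e1, e2]
      module
    rw [h3, mul_add, h1, mul_smul_comm, h2, smul_smul, add_smul]
  obtain ⟨η, hη⟩ : ∃ η, Q η ≠ 0 := by
    by_contra h
    push Not at h
    exact hK (ContinuousLinearMap.ext fun η => by rw [h η]; rfl)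
  have hcomm : ∀ (g : G) (ξ : Lp ℂ 2 μ), (lam μ ℂ).U g (Q ξ) = Q ((lam μ ℂ).U g ξ) := by
    intro g ξ
    refine URep.Kop_intertwine (lam μ ℂ) (lam μ ℂ) ((lam μ ℂ).U g) (fun s ζ => ?_) m ε ξ
    rw [← (lam μ ℂ).mul_apply, ← (lam μ ℂ).mul_apply, mul_comm]
  have hψ : 0 < ‖Q η‖ ^ 2 := by positivity
  obtain ⟨g, hg⟩ := exists_small_coeff μ (Q η) (‖Q η‖ ^ 2) hψ
  obtain ⟨χ, hχ⟩ := hU g
  have h1 : (lam μ ℂ).U g (Q η) = χ • Q η := by
    rw [hcomm]
    exact congrArg (fun Z : Lp ℂ 2 μ →L[ℂ] Lp ℂ 2 μ => Z η) hχ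
  have h2 : ‖χ‖ = 1 := by
    have h3 := (lam μ ℂ).norm_map g (Q η)
    rw [h1, norm_smul] at h3
    have h4 : ‖Q η‖ ≠ 0 := norm_ne_zero_iff.2 hη
    exact mul_right_cancel₀ h4 (by rw [h3, one_mul])
  rw [h1, inner_smul_left, norm_mul, RCLike.norm_conj, h2, one_mul, inner_self_eq_norm_sq_to_K] at hg
  simp at hg

end

end Pool.Agent.AbCoc
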