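import Pool.Agent.Lib_MP_418a80_ab.WinOps
import Pool.Agent.Lib_MP_418a80_ab.Windows
import Pool.Agent.Lib_MP_418a80_ab.Near
import Pool.Agent.Lib_MP_418a80_ab.ActOf
import Pool.Agent.Lib_MP_418a80_ab.StepC5

set_option autoImplicit false
set_option linter.unusedVariables false
set_option linter.unusedSectionVars false

open MeasureTheory Topology Filter
open scoped ENNReal

namespace Pool.Agent.AbCoc

universe u v w

variable {H : Type u} [NormedAddCommGroup H] [InnerProductSpace ℂ H] [CompleteSpace H]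

/-- the `n`-th coordinate on `ℓ²(ℕ, H)` -/
noncomputable def coordL (n : ℕ) : lp (fun _ : ℕ => H) 2 →L[ℂ] H :=
  LinearMap.mkContinuous
    { toFun := fun x => (x : ℕ → H) n
      map_add' := fun x y => rfl
      map_smul' := fun c x => rfl } 1 (by
    intro x
    rw [one_mul]
    exact lp.norm_apply_le_norm (by norm_num) x n)

theorem coordL_apply (n : ℕ) (x : lp (fun _ : ℕ => H) 2) : coordL n x = (x : ℕ → H) n := rfl

section
variable {A : Type u} [CStarAlgebra A] {K : Type v} [NormedAddCommGroup K]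
  [InnerProductSpace ℂ K] [CompleteSpace K]
  {G : Type w} [Group G] [TopologicalSpace G] {T : TrAlg A K} (S : TrAct G T)

/-- the corner `b₁ A b₂ ⊖ P` -/
noncomputable def TrAct.corner (b1 b2 : A) : Submodule ℂ A where
  carrier := {a | S.E a = 0 ∧ ∃ x, a = b1 * x * b2}
  add_mem' := by
    rintro a b ⟨ha, x, rfl⟩ ⟨hb, y, rfl⟩
    refine ⟨by rw [S.E_add, ha, hb, add_zero], x + y, by noncomm_ring⟩
  zero_mem' := ⟨S.E_zero, 0, by simp⟩
  smul_mem' := by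
    rintro c a ⟨ha, x, rfl⟩
    refine ⟨by rw [S.E_smul, ha, smul_zero], c • x, by simp⟩

/-- its closure in `K` -/
noncomputable def TrAct.cornerL (b1 b2 : A) : Submodule ℂ K :=
  ((S.corner b1 b2).map T.ι.toLinearMap).topologicalClosure

theorem TrAct.ι_mem_cornerL {b1 b2 a : A} (ha : a ∈ S.corner b1 b2) :
    T.ι a ∈ S.cornerL b1 b2 :=
  Submodule.le_topologicalClosure _ ⟨a, ha, rfl⟩

instance TrAct.cornerL_complete (b1 b2 : A) : CompleteSpace (S.cornerL b1 b2) :=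
  (Submodule.isClosed_topologicalClosure _).completeSpace_coe

theorem TrAct.cornerL_invariant {b1 b2 : A} (h1 : S.Fixed b1) (h2 : S.Fixed b2) (s : G) (ξ : K)
    (hξ : ξ ∈ S.cornerL b1 b2) : S.U.U s ξ ∈ S.cornerL b1 b2 := by
  have hm : Set.MapsTo (S.U.U s) (((S.corner b1 b2).map T.ι.toLinearMap : Submodule ℂ K) : Set K)
      (((S.corner b1 b2).map T.ι.toLinearMap : Submodule ℂ K) : Set K) := by
    rintro _ ⟨a, ⟨ha, x, rfl⟩, rfl⟩
    refine ⟨S.α s (b1 * x * b2), ⟨by rw [S.E_α, ha], S.α s x, ?_⟩, (S.U_ι s _).symm⟩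
    rw [map_mul, map_mul, h1 s, h2 s]
  exact hm.closure (S.U.U s).continuous hξ

theorem TrAct.gap_of_corner [IsTopologicalGroup G] [SecondCountableTopology G]
    [MeasurableSpace G] [BorelSpace G] (b1 b2 : A) (m : Measure G) [IsProbabilityMeasure m]
    (ε0 : ℝ)
    (h : ∀ a ∈ S.corner b1 b2, ε0 * ‖T.ι a‖ ^ 2 ≤ ∫ s, ‖S.U.U s (T.ι a) - T.ι a‖ ^ 2 ∂m)
    (ξ : K) (hξ : ξ ∈ S.cornerL b1 b2) :
    ε0 * ‖ξ‖ ^ 2 ≤ ∫ s, ‖S.U.U s ξ - ξ‖ ^ 2 ∂m := by
  have hc : IsClosed {ξ : K | ε0 * ‖ξ‖ ^ 2 ≤ ∫ s, ‖S.U.U s ξ - ξ‖ ^ 2 ∂m} := by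
    simp only [S.U.integral_norm_sub m]
    refine isClosed_le (continuous_const.mul (continuous_norm.pow 2)) ?_
    exact (continuous_const.mul (continuous_norm.pow 2)).sub
      (continuous_const.mul (Complex.continuous_re.comp
        ((S.U.T m).continuous.inner continuous_id)))
  refine closure_minimal ?_ hc hξ
  rintro _ ⟨a, ha, rfl⟩
  exact h a ha

end

/-- the `n`-th coordinate on `L²(M)` followed by `y` -/
noncomputable def coordM (M : VonNeumannAlgebra H) (ξ : ℕ → H) (h : IsTracialFamily M ξ)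
    (y : H →L[ℂ] H) (n : ℕ) : L2 M ξ h →L[ℂ] H := (y.comp (coordL n)).comp (L2 M ξ h).subtypeL

theorem coordM_ι (M : VonNeumannAlgebra H) (ξ : ℕ → H) (h : IsTracialFamily M ξ)
    (y : H →L[ℂ] H) (n : ℕ) (a : Alg M) :
    coordM M ξ h y n ((trAlgOf M ξ h).ι a) = y ((a : H →L[ℂ] H) (ξ n)) := by
  change y (coordL n (((trAlgOf M ξ h).ι a : L2 M ξ h) : lp (fun _ : ℕ => H) 2)) = _
  rw [coordL_apply, trAlgOf_apply]

section
variable {G : Type v} [CommGroup G] [TopologicalSpace G] [IsTopologicalGroup G]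
  [SecondCountableTopology G] [LocallyCompactSpace G]
  [MeasurableSpace G] [BorelSpace G] (μ : Measure G) [μ.IsHaarMeasure]
  {M : VonNeumannAlgebra H} {α : G → (H →L[ℂ] H) → (H →L[ℂ] H)}

/-- transfer from `L²(G, E₀)` to `L²(G, H)` -/
theorem transfer (ξ : ℕ → H) (h : IsTracialFamily M ξ) (hα : IsAction M α)
    (S : TrAct G (trAlgOf M ξ h)) (hS : ∀ g x, S.α g x = actHom hα g x)
    {E0 : Type w} [NormedAddCommGroup E0] [InnerProductSpace ℂ E0] [CompleteSpace E0]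
    (j : E0 →L[ℂ] L2 M ξ h) (U0 : URep G E0) (hj : ∀ s η, j (U0.U s η) = S.U.U s (j η))
    (a0 : Alg M) (v0 : E0) (hv0 : j v0 = (trAlgOf M ξ h).ι a0)
    (m : Measure G) [IsProbabilityMeasure m] (ε0 ε : ℝ) (hε : 0 ≤ ε) (h8 : 8 * ε < ε0)
    (hgap : ∀ η : E0, ε0 * ‖η‖ ^ 2 ≤ ∫ s, ‖U0.U s η - η‖ ^ 2 ∂m) (θ : ℂ) (g : G) (c : ℝ) :
    (lam μ H).kp m ε θ g c * piOp μ hα a0 * (lam μ H).kn m ε θ g c = 0 := by
  refine eq_zero_of_tens μ _ {η | ∃ y ∈ M.commutant, ∃ n, η = y (ξ n)} ?_ ?_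
  · intro Z hZ hsub
    exact dense_commutant M ξ h Z hZ fun y hy n => hsub ⟨y, hy, n, rfl⟩
  · rintro _ ⟨y, hy, n, rfl⟩ ψ
    have hyc : ∀ z ∈ M, z * y = y * z := fun z hz => (VonNeumannAlgebra.mem_commutant_iff.1 hy) z hz
    obtain ⟨R, hR⟩ : ∃ R : E0 →L[ℂ] H, ∀ η : E0, R η = coordM M ξ h y n (j η) :=
      ⟨(coordM M ξ h y n).comp j, fun η => rfl⟩
    have hRv : ∀ k : G, R (U0.U k v0) = α k (a0 : H →L[ℂ] H) (y (ξ n)) := by
      intro k
      have h1 : j (U0.U k v0) = (trAlgOf M ξ h).ι (actHom hα k a0) := by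
        rw [hj, hv0, ← hS]
        exact S.U_ι k a0
      rw [hR, h1, coordM_ι]
      have h3 := hyc (α k a0) (hα.map_mem k a0 a0.2)
      have h4 := congrArg (fun Z : H →L[ℂ] H => Z (ξ n)) h3
      exact h4.symm
    obtain ⟨φ, hφ⟩ : ∃ φ : Lp ℂ 2 μ, φ = (lam μ ℂ).kn m ε θ g c ψ := ⟨_, rfl⟩
    have h5 : oneT μ R ((orbitField U0 v0).op μ φ) = piOp μ hα a0 (tens μ (y (ξ n)) φ) := by
      apply Lp.ext
      filter_upwards [oneT_ae μ R ((orbitField U0 v0).op μ φ), (orbitField U0 v0).op_ae μ φ,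
        piOp_tens_ae μ hα a0 (y (ξ n)) φ] with k h1 h2 h3
      rw [h1, h2, h3]
      change R ((φ k : ℂ) • U0.U k⁻¹ v0) = _
      rw [map_smul, hRv]
    have h6 : tens μ (y (ξ n)) φ = (lam μ H).kn m ε θ g c (tens μ (y (ξ n)) ψ) := by
      rw [hφ]
      exact (lam μ ℂ).kn_intertwine (lam μ H) (tens μ (y (ξ n))) (fun s η => tens_lam μ _ s η)
        m ε θ g c ψ
    have h7 : oneT μ R ((lam μ E0).kp m ε θ g c ((orbitField U0 v0).op μ φ))
        = (lam μ H).kp m ε θ g c (oneT μ R ((orbitField U0 v0).op μ φ)) :=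
      (lam μ E0).kp_intertwine (lam μ H) (oneT μ R) (fun s η => oneT_lam μ R s η) m ε θ g c _
    have h8 : (lam μ E0).kp m ε θ g c ((orbitField U0 v0).op μ φ) = 0 := by
      rw [hφ]
      exact near_argument μ U0 v0 m ε0 ε hε h8 hgap θ g c ψ
    rw [h8, map_zero, h5, h6] at h7
    exact h7.symm

theorem transfer_sub (ξ : ℕ → H) (h : IsTracialFamily M ξ) (hα : IsAction M α)
    (S : TrAct G (trAlgOf M ξ h)) (hS : ∀ g x, S.α g x = actHom hα g x)
    (L0 : Submodule ℂ (L2 M ξ h)) [CompleteSpace L0]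
    (hL0 : ∀ s, ∀ η ∈ L0, S.U.U s η ∈ L0)
    (a0 : Alg M) (ha0 : (trAlgOf M ξ h).ι a0 ∈ L0)
    (m : Measure G) [IsProbabilityMeasure m] (ε0 ε : ℝ) (hε : 0 ≤ ε) (h8 : 8 * ε < ε0)
    (hgap : ∀ η ∈ L0, ε0 * ‖η‖ ^ 2 ≤ ∫ s, ‖S.U.U s η - η‖ ^ 2 ∂m) (θ : ℂ) (g : G) (c : ℝ) :
    (lam μ H).kp m ε θ g c * piOp μ hα a0 * (lam μ H).kn m ε θ g c = 0 :=
  transfer μ ξ h hα S hS L0.subtypeL (S.U.restrict L0 hL0) (fun s η => rfl) a0 ⟨_, ha0⟩ rfl
    m ε0 ε hε h8 (fun η => hgap η.1 η.2) θ g c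

variable [T2Space G] [NoncompactSpace G]

/-- Step A for actions of noncompact abelian groups with factorial crossed product -/
theorem stepA_of_factor (ξ : ℕ → H) (h : IsTracialFamily M ξ)
    (hα : IsAction M α) (hcross : CrossedProductIsFactor μ M α)
    (S : TrAct G (trAlgOf M ξ h)) (hS : ∀ g x, S.α g x = actHom hα g x) : S.StepA := by
  intro m hm hcpt b1 b2 hb1f hb2f hb1 hb2 ε0 hε0
  obtain ⟨C, hC, hmC⟩ := hcpt
  by_contra hcon
  push Not at hcon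
  obtain ⟨ε, hε⟩ : ∃ ε, ε = ε0 / 16 := ⟨_, rfl⟩
  have hεp : 0 < ε := by rw [hε]; positivity
  obtain ⟨g, θ, c, hk1, hk2⟩ := exists_windows μ m C hC hmC ε hεp
  have hb1f' : ∀ g, actHom hα g b1 = b1 := fun g => by rw [← hS]; exact hb1f g
  have hb2f' : ∀ g, actHom hα g b2 = b2 := fun g => by rw [← hS]; exact hb2f g
  obtain ⟨x, hx⟩ := exists_window_element μ hα hcross m ε θ g c hk1 hk2 b1 b2 hb1 hb2 hb1f' hb2f'
  -- subtract the conditional expectation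
  obtain ⟨e, he⟩ : ∃ e, e = S.E (b1 * x * b2) := ⟨_, rfl⟩
  obtain ⟨a0, ha0⟩ : ∃ a0, a0 = b1 * x * b2 - e := ⟨_, rfl⟩
  have hEe : e = b1 * S.E x * b2 := by
    rw [he, S.E_mul_right hb2f, S.E_mul_left hb1f]
  have ha0mem : a0 ∈ S.corner b1 b2 := by
    refine ⟨?_, x - S.E x, ?_⟩
    · rw [ha0, he, S.E_sub, S.E_of_fixed (S.E_fixed _), sub_self]
    · rw [ha0, hEe]
      noncomm_ring
  have hef : ∀ g, actHom hα g e = e := fun g => by
    rw [← hS, he]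
    exact S.E_fixed _ g
  have hcomm : ∀ s, (lam μ H).U s * piOp μ hα e = piOp μ hα e * (lam μ H).U s := by
    intro s
    rw [lam_mul_piOp, hef]
  have hzero : (lam μ H).kp m ε θ g c * piOp μ hα e * (lam μ H).kn m ε θ g c = 0 := by
    rw [← (lam μ H).kp_comm m ε θ g c (piOp μ hα e) (fun s => (hcomm s).symm), mul_assoc,
      (lam μ H).kp_mul_kn, mul_zero]
  have hne : (lam μ H).kp m ε θ g c * piOp μ hα a0 * (lam μ H).kn m ε θ g c ≠ 0 := by
    rw [ha0, piOp_sub, mul_sub, sub_mul, hzero, sub_zero]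
    exact hx
  -- the gap
  have hgap0 : ∀ a ∈ S.corner b1 b2, ε0 * ‖(trAlgOf M ξ h).ι a‖ ^ 2
      ≤ ∫ s, ‖S.U.U s ((trAlgOf M ξ h).ι a) - (trAlgOf M ξ h).ι a‖ ^ 2 ∂m := by
    rintro a ⟨haE, y, hy⟩
    by_cases h0 : a = 0
    · have h1 : (trAlgOf M ξ h).ι a = 0 := by rw [h0, map_zero]
      rw [h1, norm_zero]
      simp
    · simp only [S.U_ι]
      exact hcon a y hy h0 haE
  exact hne (transfer_sub μ ξ h hα S hS (S.cornerL b1 b2)
    (fun s η hη => S.cornerL_invariant hb1f hb2f s η hη) a0 (S.ι_mem_cornerL ha0mem)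
    m ε0 ε hεp.le (by rw [hε]; linarith)
    (fun η hη => S.gap_of_corner b1 b2 m ε0 hgap0 η hη) θ g c)

end

end Pool.Agent.AbCoc
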