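import Pool.Agent.Lib_MP_418a80_ab.Cond

set_option autoImplicit false
set_option linter.unusedVariables false
set_option linter.unusedSectionVars false

open Topology Filter MeasureTheory

namespace Pool.Agent.AbCoc

universe u v w

section
variable {A : Type u} [CStarAlgebra A] {K : Type v} [NormedAddCommGroup K]
  [InnerProductSpace ℂ K] [CompleteSpace K]

section
variable (T : TrAlg A K)

/-- the quadratic form `re ⟪[z,p],[z,y]⟫` -/
noncomputable def TrAlg.q (p y z : A) : ℝ :=
  (inner ℂ (T.ι (z * p - p * z)) (T.ι (z * y - y * z))).re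

theorem polarK (B C B' C' : K) : (inner ℂ (B + C) (B' + C')).re
    + (inner ℂ (Complex.I • (B - C)) (Complex.I • (B' - C'))).re
    = 2 * ((inner ℂ B B').re + (inner ℂ C C').re) := by
  have h1 : inner ℂ (Complex.I • (B - C)) (Complex.I • (B' - C')) = inner ℂ (B - C) (B' - C') := by
    rw [inner_smul_left, inner_smul_right, ← mul_assoc, Complex.conj_I, neg_mul, Complex.I_mul_I,
      neg_neg, one_mul]
  rw [h1]
  simp only [inner_add_left, inner_add_right, inner_sub_left, inner_sub_right, Complex.add_re,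
    Complex.sub_re]
  ring

theorem TrAlg.q_polar (p y b c : A) :
    T.q p y (b + c) + T.q p y (Complex.I • (b - c)) = 2 * (T.q p y b + T.q p y c) := by
  unfold TrAlg.q
  have e1 : (b + c) * p - p * (b + c) = (b * p - p * b) + (c * p - p * c) := by noncomm_ring
  have e2 : (b + c) * y - y * (b + c) = (b * y - y * b) + (c * y - y * c) := by noncomm_ring
  have e3 : (Complex.I • (b - c)) * p - p * (Complex.I • (b - c))
      = Complex.I • ((b * p - p * b) - (c * p - p * c)) := by
    rw [smul_mul_assoc, mul_smul_comm, ← smul_sub]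
    congr 1
    noncomm_ring
  have e4 : (Complex.I • (b - c)) * y - y * (Complex.I • (b - c))
      = Complex.I • ((b * y - y * b) - (c * y - y * c)) := by
    rw [smul_mul_assoc, mul_smul_comm, ← smul_sub]
    congr 1
    noncomm_ring
  rw [e1, e2, e3, e4, map_add T.ι (b * p - p * b), map_add T.ι (b * y - y * b), map_smul, map_smul,
    map_sub T.ι (b * p - p * b), map_sub T.ι (b * y - y * b)]
  exact polarK _ _ _ _

theorem TrAlg.par (b c : K) : ‖b + c‖ ^ 2 + ‖Complex.I • (b - c)‖ ^ 2 = 2 * (‖b‖ ^ 2 + ‖c‖ ^ 2) := by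
  rw [norm_smul, Complex.norm_I, one_mul, @norm_add_sq ℂ, @norm_sub_sq ℂ]
  ring

/-- `q` is linear in `y` -/
theorem TrAlg.q_eq (p y z : A) :
    T.q p y z = (inner ℂ (T.ι (star z * (z * p - p * z) - (z * p - p * z) * star z))
      (T.ι y)).re := by
  unfold TrAlg.q
  rw [map_sub T.ι (z * y), inner_sub_right, map_sub T.ι (star z * _), inner_sub_left, T.left',
    T.right']

theorem TrAlg.q_self (p z : A) : T.q p p z = ‖T.ι (z * p - p * z)‖ ^ 2 := by
  unfold TrAlg.q
  rw [inner_self_eq_norm_sq_to_K]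
  norm_cast

/-- `|a e|² = ⟪a* a, e²⟫` for `e` self-adjoint -/
theorem TrAlg.norm_mul_sa (a e : A) (he : IsSelfAdjoint e) :
    ‖T.ι (a * e)‖ ^ 2 = (inner ℂ (T.ι (star a * a)) (T.ι (e * e))).re := by
  have h1 : inner ℂ (T.ι (star a * a)) (T.ι (e * e)) = inner ℂ (T.ι (a * e)) (T.ι (a * e)) := by
    rw [T.left' a (e * e) a]
    have h2 := T.right a (a * e) e
    rw [he.star_eq, mul_assoc] at h2
    exact h2.symm
  rw [h1, inner_self_eq_norm_sq_to_K]
  norm_cast

theorem TrAlg.norm_sa_mul (a e : A) (he : IsSelfAdjoint e) :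
    ‖T.ι (e * a)‖ ^ 2 = (inner ℂ (T.ι (a * star a)) (T.ι (e * e))).re := by
  have h1 := T.norm_mul_sa (star a) e he
  rw [star_star] at h1
  rw [← h1, ← T.norm_star, star_mul, he.star_eq]

end
end

end Pool.Agent.AbCoc
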