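import Pool.Agent.Lib_MP_418a80_ab.StepC2

set_option autoImplicit false
set_option linter.unusedVariables false
set_option linter.unusedSectionVars false

open Topology Filter MeasureTheory

namespace Pool.Agent.AbCoc

universe u v w

section
variable {A : Type u} [CStarAlgebra A] {K : Type v} [NormedAddCommGroup K]
  [InnerProductSpace ℂ K] [CompleteSpace K]
variable {G : Type w} [CommGroup G] [TopologicalSpace G] [IsTopologicalGroup G]
  [SecondCountableTopology G] [MeasurableSpace G] [BorelSpace G] {T : TrAlg A K} (S : TrAct G T)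

theorem TrAct.norm_α_sub (s k : G) (a : A) :
    ‖T.ι (S.α s (S.α k a) - S.α k a)‖ = ‖T.ι (S.α s a - a)‖ := by
  rw [S.comm s k, ← map_sub, S.norm_map]

/-- moving a translate: `q` at `α_k a` against `y` is `q` at `a` against `α_{k⁻¹} y` -/
theorem TrAct.q_translate (p y a : A) (hp : S.Fixed p) (k : G) :
    T.q p y (S.α k a) = T.q p (S.α k⁻¹ y) a := by
  unfold TrAlg.q
  have h1 : S.α k a * p - p * S.α k a = S.α k (a * p - p * a) := by
    rw [map_sub, map_mul, map_mul, hp k]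
  have h2 : S.α k a * y - y * S.α k a = S.α k (a * S.α k⁻¹ y - S.α k⁻¹ y * a) := by
    rw [map_sub, map_mul, map_mul, S.apply_inv]
  rw [h1, h2, S.inner_map]

theorem TrAct.norm_translate_mul (a d : A) (k : G) :
    ‖T.ι (S.α k a * d)‖ = ‖T.ι (a * S.α k⁻¹ d)‖ := by
  have h : S.α k a * d = S.α k (a * S.α k⁻¹ d) := by rw [map_mul, S.apply_inv]
  rw [h, S.norm_map]

theorem TrAct.norm_mul_translate (a d : A) (k : G) :
    ‖T.ι (d * S.α k a)‖ = ‖T.ι (S.α k⁻¹ d * a)‖ := by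
  have h : d * S.α k a = S.α k (S.α k⁻¹ d * a) := by rw [map_mul, S.apply_inv]
  rw [h, S.norm_map]

/-- the bound for the `E`-terms at a translate -/
theorem TrAct.E_comm_bound (F : Finset G) (w : G → ℝ) (hw : ∀ g, 0 ≤ w g)
    (hs : ∑ g ∈ F, w g = 1) (a : A) (hEa : S.E a = 0) (y : A) (hy : IsSelfAdjoint y) (k : G)
    (R : ℝ) (hR : ∑ g ∈ F, w g * ‖T.ι (S.α g a - a)‖ ≤ R) :
    ‖T.ι (S.E (S.α k a * y - y * S.α k a))‖ ^ 2
      + ‖T.ι (S.E (star (S.α k a) * y - y * star (S.α k a)))‖ ^ 2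
      ≤ 8 * (inner ℂ (T.ι (star a * a + a * star a))
          (T.ι (S.α k⁻¹ ((S.avg F w y - S.E y) * (S.avg F w y - S.E y))))).re
        + 16 * (‖y‖ * R) ^ 2 := by
  set d := S.avg F w y - S.E y with hd
  have havg : star (S.avg F w y) = S.avg F w y := by
    unfold TrAct.avg
    rw [star_sum]
    refine Finset.sum_congr rfl fun g _ => ?_
    rw [star_smul, star_trivial, ← map_star, hy.star_eq]
  have hdsa : IsSelfAdjoint d := by
    rw [isSelfAdjoint_iff, hd, star_sub, havg, (S.E_isSelfAdjoint hy).star_eq]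
  have hEa' : S.E (star a) = 0 := by rw [S.E_star, hEa, star_zero]
  have hR' : ∑ g ∈ F, w g * ‖T.ι (S.α g (star a) - star a)‖ ≤ R := by
    refine le_of_eq_of_le (Finset.sum_congr rfl fun g _ => ?_) hR
    rw [map_star, ← star_sub, T.norm_star]
  have hR0 : 0 ≤ R := le_trans (Finset.sum_nonneg fun g _ => mul_nonneg (hw g) (norm_nonneg _)) hR
  set e := S.α k⁻¹ d with he
  have hesa : IsSelfAdjoint e := by rw [isSelfAdjoint_iff, he, ← map_star, hdsa.star_eq]
  -- the four basic bounds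
  have b1 := S.E_mul_bound F w hw hs a hEa y k R hR
  have b2 := S.E_mul_bound F w hw hs (star a) hEa' y k R hR'
  rw [← hd, S.norm_translate_mul, ← he] at b1 b2
  have c1 : ‖T.ι (S.E (y * S.α k a))‖ ≤ ‖T.ι (star a * e)‖ + ‖y‖ * R := by
    have : S.E (y * S.α k a) = star (S.E (S.α k (star a) * y)) := by
      rw [← S.E_star, star_mul, hy.star_eq, map_star, star_star]
    rw [this, T.norm_star]
    exact b2
  have c2 : ‖T.ι (S.E (y * star (S.α k a)))‖ ≤ ‖T.ι (a * e)‖ + ‖y‖ * R := by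
    have : S.E (y * star (S.α k a)) = star (S.E (S.α k a * y)) := by
      rw [← S.E_star, star_mul, hy.star_eq]
    rw [this, T.norm_star]
    exact b1
  have b2' : ‖T.ι (S.E (star (S.α k a) * y))‖ ≤ ‖T.ι (star a * e)‖ + ‖y‖ * R := by
    rw [← map_star]
    exact b2
  have n1 : ‖T.ι (S.E (S.α k a * y - y * S.α k a))‖
      ≤ (‖T.ι (a * e)‖ + ‖y‖ * R) + (‖T.ι (star a * e)‖ + ‖y‖ * R) := by
    rw [S.E_sub, map_sub]
    exact (norm_sub_le _ _).trans (add_le_add b1 c1)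
  have n2 : ‖T.ι (S.E (star (S.α k a) * y - y * star (S.α k a)))‖
      ≤ (‖T.ι (star a * e)‖ + ‖y‖ * R) + (‖T.ι (a * e)‖ + ‖y‖ * R) := by
    rw [S.E_sub, map_sub]
    exact (norm_sub_le _ _).trans (add_le_add b2' c2)
  have hX : (inner ℂ (T.ι (star a * a + a * star a)) (T.ι (S.α k⁻¹ (d * d)))).re
      = ‖T.ι (a * e)‖ ^ 2 + ‖T.ι (star a * e)‖ ^ 2 := by
    have h2 : ‖T.ι (star a * e)‖ ^ 2
        = (inner ℂ (T.ι (a * star a)) (T.ι (e * e))).re := by
      have := T.norm_mul_sa (star a) e hesa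
      rwa [star_star] at this
    rw [T.norm_mul_sa a e hesa, h2, ← Complex.add_re, ← inner_add_left, ← map_add, map_mul, he]
  rw [hX]
  have p1 := pow_le_pow_left₀ (norm_nonneg _) n1 2
  have p2 := pow_le_pow_left₀ (norm_nonneg _) n2 2
  have hyR : 0 ≤ ‖y‖ * R := mul_nonneg (norm_nonneg _) hR0
  nlinarith [sq_nonneg (‖T.ι (a * e)‖ - ‖T.ι (star a * e)‖),
    sq_nonneg (‖T.ι (a * e)‖ + ‖T.ι (star a * e)‖ - 2 * (‖y‖ * R)),
    norm_nonneg (T.ι (a * e)), norm_nonneg (T.ι (star a * e))]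

/-- (STAR): the second order condition averaged over the translates of `a` -/
theorem TrAct.star_bound (J : Type) [Fintype J] (y : J → A) (hy : ∀ j, IsSelfAdjoint (y j))
    (m0 : Measure G) [IsProbabilityMeasure m0] (L ε : ℝ) (hL : 0 ≤ L) (hsoc : S.SOC J y m0 L ε)
    (F : Finset G) (w : G → ℝ) (hw : ∀ g, 0 ≤ w g)
    (hs : ∑ g ∈ F, w g = 1) (a : A) (hEa : S.E a = 0)
    (R : ℝ) (hR : ∑ g ∈ F, w g * ‖T.ι (S.α g a - a)‖ ≤ R) :
    ∑ j, (‖T.ι (a * S.E (y j) - S.E (y j) * a)‖ ^ 2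
        + ‖T.ι (star a * S.E (y j) - S.E (y j) * star a)‖ ^ 2)
      ≤ 8 * ∑ j, (inner ℂ (T.ι (star a * a + a * star a))
          (T.ι (S.E ((S.avg F w (y j) - S.E (y j)) * (S.avg F w (y j) - S.E (y j)))))).re
        + (16 * ∑ j, (‖y j‖ * R) ^ 2 + 32 * L * (‖T.ι a‖ * ∫ s, ‖T.ι (S.α s a - a)‖ ∂m0)
          + 2 * ε * ‖T.ι a‖ ^ 2) := by
  classical
  set d : J → A := fun j => S.avg F w (y j) - S.E (y j) with hd
  set C0 := 16 * ∑ j, (‖y j‖ * R) ^ 2 + 32 * L * (‖T.ι a‖ * ∫ s, ‖T.ι (S.α s a - a)‖ ∂m0)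
          + 2 * ε * ‖T.ι a‖ ^ 2 with hC0
  set Z : J → A := fun j =>
    (star a * (a * S.E (y j) - S.E (y j) * a) - (a * S.E (y j) - S.E (y j) * a) * star a)
    + (star (star a) * (star a * S.E (y j) - S.E (y j) * star a)
      - (star a * S.E (y j) - S.E (y j) * star a) * star (star a)) with hZ
  have hq : ∀ (j : J) (z : A), T.q (S.E (y j)) z a + T.q (S.E (y j)) z (star a)
      = (inner ℂ (T.ι (Z j)) (T.ι z)).re := by
    intro j z
    rw [T.q_eq, T.q_eq, ← Complex.add_re, ← inner_add_left, ← map_add]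
  -- the inequality at every translate
  have key : ∀ g : G, ∑ j : J ⊕ J,
      (inner ℂ (T.ι (Sum.elim Z (fun _ => (-8 : ℂ) • (star a * a + a * star a)) j))
        (T.ι (S.α g (Sum.elim y (fun j => d j * d j) j)))).re ≤ C0 := by
    intro g
    have h1 := S.soc_sym J y m0 L ε hL hsoc (S.α g⁻¹ a)
    have h2 : ∀ j, T.q (S.E (y j)) (y j) (S.α g⁻¹ a) + T.q (S.E (y j)) (y j) (star (S.α g⁻¹ a))
        = (inner ℂ (T.ι (Z j)) (T.ι (S.α g (y j)))).re := by
      intro j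
      rw [← map_star, S.q_translate _ _ _ (S.E_fixed _), S.q_translate _ _ _ (S.E_fixed _),
        inv_inv]
      exact hq j _
    simp only [h2] at h1
    have h3 : ∑ j, (‖T.ι (S.E (S.α g⁻¹ a * y j - y j * S.α g⁻¹ a))‖ ^ 2
          + ‖T.ι (S.E (star (S.α g⁻¹ a) * y j - y j * star (S.α g⁻¹ a)))‖ ^ 2)
        ≤ ∑ j, (8 * (inner ℂ (T.ι (star a * a + a * star a)) (T.ι (S.α g (d j * d j)))).re
          + 16 * (‖y j‖ * R) ^ 2) := by
      refine Finset.sum_le_sum fun j _ => ?_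
      have := S.E_comm_bound F w hw hs a hEa (y j) (hy j) g⁻¹ R hR
      rwa [inv_inv] at this
    have e3 : ∑ j, (8 * (inner ℂ (T.ι (star a * a + a * star a)) (T.ι (S.α g (d j * d j)))).re
          + 16 * (‖y j‖ * R) ^ 2)
        = 8 * ∑ j, (inner ℂ (T.ι (star a * a + a * star a)) (T.ι (S.α g (d j * d j)))).re
          + 16 * ∑ j, (‖y j‖ * R) ^ 2 := by
      rw [Finset.sum_add_distrib, Finset.mul_sum, Finset.mul_sum]
    rw [e3] at h3
    have h4 : ∀ s, ‖T.ι (S.α s (S.α g⁻¹ a) - S.α g⁻¹ a)‖ = ‖T.ι (S.α s a - a)‖ :=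
      fun s => S.norm_α_sub s _ a
    simp only [h4] at h1
    rw [S.norm_map] at h1
    rw [Fintype.sum_sum_type]
    simp only [Sum.elim_inl, Sum.elim_inr]
    have h5 : ∀ j, (inner ℂ (T.ι ((-8 : ℂ) • (star a * a + a * star a)))
        (T.ι (S.α g (d j * d j)))).re
        = -8 * (inner ℂ (T.ι (star a * a + a * star a)) (T.ι (S.α g (d j * d j)))).re := by
      intro j
      rw [map_smul, inner_smul_left]
      have : (starRingEnd ℂ) (-8 : ℂ) = ((-8 : ℝ) : ℂ) := by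
        rw [map_neg, map_ofNat]
        push_cast
        rfl
      rw [this, Complex.re_ofReal_mul]
    simp only [h5]
    rw [← Finset.mul_sum]
    linarith
  have h6 := S.re_inner_family_le (J ⊕ J) (Sum.elim y (fun j => d j * d j))
    (Sum.elim Z (fun _ => (-8 : ℂ) • (star a * a + a * star a))) C0 key
  rw [Fintype.sum_sum_type] at h6
  simp only [Sum.elim_inl, Sum.elim_inr] at h6
  have h7 : ∀ j, (inner ℂ (T.ι ((-8 : ℂ) • (star a * a + a * star a)))
      (T.ι (S.E (d j * d j)))).re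
      = -8 * (inner ℂ (T.ι (star a * a + a * star a)) (T.ι (S.E (d j * d j)))).re := by
    intro j
    rw [map_smul, inner_smul_left]
    have : (starRingEnd ℂ) (-8 : ℂ) = ((-8 : ℝ) : ℂ) := by
      rw [map_neg, map_ofNat]
      push_cast
      rfl
    rw [this, Complex.re_ofReal_mul]
  have h8 : ∀ j, (inner ℂ (T.ι (Z j)) (T.ι (S.E (y j)))).re
      = ‖T.ι (a * S.E (y j) - S.E (y j) * a)‖ ^ 2
        + ‖T.ι (star a * S.E (y j) - S.E (y j) * star a)‖ ^ 2 := by
    intro j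
    rw [← hq j, T.q_self, T.q_self]
  simp only [h7, h8] at h6
  rw [← Finset.mul_sum] at h6
  linarith

end

end Pool.Agent.AbCoc
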