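import Pool.Agent.Lib_MP_418a80_ab.StepC3

set_option autoImplicit false
set_option linter.unusedVariables false
set_option linter.unusedSectionVars false

open Topology Filter MeasureTheory

namespace Pool.Agent.AbCoc

universe u v w

attribute [local instance] CStarAlgebra.spectralOrder CStarAlgebra.spectralOrderedRing

section
variable {A : Type u} [CStarAlgebra A] {K : Type v} [NormedAddCommGroup K]
  [InnerProductSpace ℂ K]

theorem TrAlg.re_τ_mul_nonneg (T : TrAlg A K) (a b : A) (ha : 0 ≤ a) (hb : 0 ≤ b) :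
    0 ≤ (T.τ (a * b)).re := by
  obtain ⟨z, rfl⟩ := CStarAlgebra.nonneg_iff_eq_star_mul_self.1 ha
  have h1 : T.τ (star z * z * b) = T.τ (star (star z) * b * star z) := by
    rw [mul_assoc, T.τ_mul_comm, star_star]
  rw [h1]
  exact T.re_τ_conj_nonneg (star z) b hb

theorem map_nonneg' (φ : A →⋆ₐ[ℂ] A) (a : A) (ha : 0 ≤ a) : 0 ≤ φ a := by
  obtain ⟨z, rfl⟩ := CStarAlgebra.nonneg_iff_eq_star_mul_self.1 ha
  rw [map_mul, map_star]
  exact star_mul_self_nonneg _

theorem posPart_mul_self (p : A) (hp : IsSelfAdjoint p) : p⁺ * p = p⁺ * p⁺ := by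
  have h := CFC.posPart_sub_negPart p hp
  calc p⁺ * p = p⁺ * (p⁺ - p⁻) := by rw [h]
    _ = p⁺ * p⁺ := by rw [mul_sub, CFC.posPart_mul_negPart, sub_zero]

theorem self_mul_posPart (p : A) (hp : IsSelfAdjoint p) : p * p⁺ = p⁺ * p⁺ := by
  have h := CFC.posPart_sub_negPart p hp
  calc p * p⁺ = (p⁺ - p⁻) * p⁺ := by rw [h]
    _ = p⁺ * p⁺ := by rw [sub_mul, CFC.negPart_mul_posPart, sub_zero]

theorem TrAlg.norm_posPart_add (T : TrAlg A K) (p : A) (hp : IsSelfAdjoint p) :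
    ‖T.ι p‖ ^ 2 = ‖T.ι p⁺‖ ^ 2 + ‖T.ι p⁻‖ ^ 2 := by
  have hps : star p⁺ = p⁺ := (IsSelfAdjoint.of_nonneg (CFC.posPart_nonneg p)).star_eq
  have hns : star p⁻ = p⁻ := (IsSelfAdjoint.of_nonneg (CFC.negPart_nonneg p)).star_eq
  have h0 : inner ℂ (T.ι p⁺) (T.ι p⁻) = (0 : ℂ) := by
    rw [T.inner_eq_τ, hps, CFC.posPart_mul_negPart]
    unfold TrAlg.τ
    rw [map_zero, inner_zero_right]
  have h1 : T.ι p = T.ι p⁺ - T.ι p⁻ := by
    rw [← map_sub, CFC.posPart_sub_negPart p hp]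
  rw [h1, @norm_sub_sq ℂ, h0]
  simp

theorem TrAlg.re_τ_le (T : TrAlg A K) (a : A) : (T.τ a).re ≤ ‖T.ι a‖ := by
  refine (Complex.re_le_norm _).trans ((norm_inner_le_norm _ _).trans ?_)
  rw [T.norm_one, one_mul]

theorem re_τ_real_smul (T : TrAlg A K) (c : ℝ) (a : A) :
    (T.τ (c • a)).re = c * (T.τ a).re := by
  have : c • a = (c : ℂ) • a := rfl
  rw [this, T.τ_smul, Complex.re_ofReal_mul]

/-- `p` has a nonzero window above `θ + λ c` -/
theorem window_ne_zero (T : TrAlg A K) (p c : A) (hp : IsSelfAdjoint p) (hc : IsSelfAdjoint c)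
    (l θ : ℝ) (hl : 0 ≤ l) (hθ : θ = ‖T.ι p⁺‖ / 2) (hθ0 : 0 < θ)
    (hcpos : (T.τ (p⁺ * c)).re ≤ ‖p⁺‖ * (T.τ c).re)
    (hsmall : l * (‖p⁺‖ * (T.τ c).re) < 2 * θ ^ 2) :
    (p - l • c - θ • (1 : A))⁺ ≠ 0 := by
  intro h0
  have hX : IsSelfAdjoint (p - l • c - θ • (1 : A)) := by
    rw [isSelfAdjoint_iff, star_sub, star_sub, star_smul, star_smul, hp.star_eq, hc.star_eq,
      star_one, star_trivial, star_trivial]
  have h1 : p - l • c - θ • (1 : A) = -(p - l • c - θ • (1 : A))⁻ := by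
    have := CFC.posPart_sub_negPart _ hX
    rw [h0, zero_sub] at this
    exact this.symm
  have h2 : (T.τ (p⁺ * (p - l • c - θ • (1 : A)))).re ≤ 0 := by
    rw [h1, mul_neg, T.τ_neg, Complex.neg_re]
    have := T.re_τ_mul_nonneg p⁺ _ (CFC.posPart_nonneg p)
      (CFC.negPart_nonneg (p - l • c - θ • (1 : A)))
    linarith
  have h3 : p⁺ * (p - l • c - θ • (1 : A)) = p⁺ * p⁺ - l • (p⁺ * c) - θ • p⁺ := by
    rw [mul_sub, mul_sub, posPart_mul_self p hp, mul_smul_comm, mul_smul_comm, mul_one]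
  rw [h3, T.τ_sub, T.τ_sub, Complex.sub_re, Complex.sub_re, re_τ_real_smul, re_τ_real_smul] at h2
  have h4 : (T.τ (p⁺ * p⁺)).re = ‖T.ι p⁺‖ ^ 2 := by
    have hps : star p⁺ = p⁺ := (IsSelfAdjoint.of_nonneg (CFC.posPart_nonneg p)).star_eq
    have := T.norm_sq p⁺
    rw [hps] at this
    exact this.symm
  have h5 := T.re_τ_le p⁺
  have h6 : ‖T.ι p⁺‖ = 2 * θ := by rw [hθ]; ring
  rw [h4] at h2
  rw [h6] at h2 h5
  have h7 := mul_le_mul_of_nonneg_left hcpos hl
  nlinarith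

/-- the commutator estimate in the corner -/
theorem corner_bound (T : TrAlg A K) (p c : A) (hp : IsSelfAdjoint p) (hc : IsSelfAdjoint c)
    (l θ1 θ2 : ℝ) (x a : A)
    (ha' : a = ((p - l • c - θ1 • (1 : A))⁺ * x) * (-p - l • c - θ2 • (1 : A))⁺) :
    (θ1 + θ2) * ‖T.ι a‖ ^ 2 + l * (inner ℂ (T.ι (star a * a + a * star a)) (T.ι c)).re
      ≤ ‖T.ι a‖ * ‖T.ι (a * p - p * a)‖ := by
  have hX1 : IsSelfAdjoint (p - l • c - θ1 • (1 : A)) := by
    rw [isSelfAdjoint_iff, star_sub, star_sub, star_smul, star_smul, hp.star_eq, hc.star_eq,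
      star_one, star_trivial, star_trivial]
  have hX2 : IsSelfAdjoint (-p - l • c - θ2 • (1 : A)) := by
    rw [isSelfAdjoint_iff, star_sub, star_sub, star_smul, star_smul, star_neg, hp.star_eq,
      hc.star_eq, star_one, star_trivial, star_trivial]
  set X1 := p - l • c - θ1 • (1 : A) with hX1d
  set X2 := -p - l • c - θ2 • (1 : A) with hX2d
  have hb1 : star X1⁺ = X1⁺ := (IsSelfAdjoint.of_nonneg (CFC.posPart_nonneg X1)).star_eq
  have hb2 : star X2⁺ = X2⁺ := (IsSelfAdjoint.of_nonneg (CFC.posPart_nonneg X2)).star_eq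
  have ha : a = X1⁺ * (x * X2⁺) := by rw [ha', mul_assoc]
  have hs1 : star a * X1 = star a * X1⁺ := by
    rw [ha, star_mul, hb1, mul_assoc, mul_assoc, posPart_mul_self X1 hX1]
  have hs2 : a * X2 = a * X2⁺ := by
    rw [ha', mul_assoc (X1⁺ * x), posPart_mul_self X2 hX2, ← mul_assoc]
  have h1 : 0 ≤ (T.τ (star a * X1 * a)).re := by
    rw [hs1]
    exact T.re_τ_conj_nonneg _ _ (CFC.posPart_nonneg X1)
  have h2 : 0 ≤ (T.τ (a * X2 * star a)).re := by
    rw [hs2]
    have := T.re_τ_conj_nonneg (star a) _ (CFC.posPart_nonneg X2)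
    rwa [star_star] at this
  clear_value X1 X2
  clear ha ha' hs1 hs2
  have e1 : star a * X1 * a = star a * (p * a) - l • (star a * (c * a)) - θ1 • (star a * a) := by
    rw [hX1d, mul_sub, mul_sub, sub_mul, sub_mul, mul_smul_comm, mul_smul_comm, mul_one,
      smul_mul_assoc, smul_mul_assoc, mul_assoc, mul_assoc]
  have e2 : a * X2 * star a
      = -(a * (p * star a)) - l • (a * (c * star a)) - θ2 • (a * star a) := by
    rw [hX2d, mul_sub, mul_sub, sub_mul, sub_mul, mul_smul_comm, mul_smul_comm, mul_one,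
      smul_mul_assoc, smul_mul_assoc, mul_neg, neg_mul, mul_assoc, mul_assoc]
  rw [e1, T.τ_sub, T.τ_sub, Complex.sub_re, Complex.sub_re, re_τ_real_smul, re_τ_real_smul] at h1
  rw [e2, T.τ_sub, T.τ_sub, T.τ_neg, Complex.sub_re, Complex.sub_re, re_τ_real_smul,
    re_τ_real_smul, Complex.neg_re] at h2
  have n1 : (T.τ (star a * a)).re = ‖T.ι a‖ ^ 2 := (T.norm_sq a).symm
  have n2 : (T.τ (a * star a)).re = ‖T.ι a‖ ^ 2 := by rw [T.τ_mul_comm, n1]
  have hX : (inner ℂ (T.ι (star a * a + a * star a)) (T.ι c)).re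
      = (T.τ (star a * (c * a))).re + (T.τ (a * (c * star a))).re := by
    rw [T.inner_eq_τ]
    have e3 : star (star a * a + a * star a) * c = star a * a * c + a * star a * c := by
      rw [star_add, star_mul, star_mul, star_star, add_mul]
    rw [e3, T.τ_add, Complex.add_re]
    have e4 : T.τ (star a * a * c) = T.τ (a * (c * star a)) := by
      rw [mul_assoc, T.τ_mul_comm, mul_assoc]
    have e5 : T.τ (a * star a * c) = T.τ (star a * (c * a)) := by
      rw [mul_assoc, T.τ_mul_comm, mul_assoc]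
    rw [e4, e5]
    ring
  have hcomm : (inner ℂ (T.ι a) (T.ι (p * a - a * p))).re
      = (T.τ (star a * (p * a))).re - (T.τ (a * (p * star a))).re := by
    rw [T.inner_eq_τ, mul_sub, T.τ_sub, Complex.sub_re]
    have e6 : T.τ (star a * (a * p)) = T.τ (a * (p * star a)) := by
      rw [T.τ_mul_comm, mul_assoc]
    rw [e6]
  have hcs : (inner ℂ (T.ι a) (T.ι (p * a - a * p))).re ≤ ‖T.ι a‖ * ‖T.ι (a * p - p * a)‖ := by
    refine (Complex.re_le_norm _).trans ((norm_inner_le_norm _ _).trans (le_of_eq ?_))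
    rw [← neg_sub (a * p) (p * a), map_neg, norm_neg]
  rw [hX]
  rw [hcomm] at hcs
  rw [n1] at h1
  rw [n2] at h2
  linarith

end

end Pool.Agent.AbCoc
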