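import Pool.Agent.Lib_MP_418a80_ab.Defs

/-!
# The crossed product, in the form used in the final statements

`LTwo μ H` is the Hilbert space `L²(G, H)`, i.e. Mathlib's `Lp H 2 μ`, and `LTwoOp μ H` is the
algebra of bounded linear operators on it, both under names of their own; `μ` is a left Haar
measure of `G`.
-/

set_option autoImplicit false

open MeasureTheory

namespace Pool.Agent.ErgCP

open Pool.Agent.AbCoc

universe u v

variable {G : Type v} [MeasurableSpace G]

/-- The space `L²(G, H)` (Mathlib's `Lp H 2 μ`). -/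
def LTwo (μ : Measure G) (H : Type u) [NormedAddCommGroup H] : Type (max v u) := Lp H 2 μ

/-- The usual norm of `L²(G, H)`. -/
noncomputable instance LTwo.normed (μ : Measure G) (H : Type u) [NormedAddCommGroup H] :
    NormedAddCommGroup (LTwo μ H) :=
  (Lp.instNormedAddCommGroup : NormedAddCommGroup (Lp H 2 μ))

/-- The usual inner product of `L²(G, H)`. -/
noncomputable instance LTwo.innerProduct (μ : Measure G) (H : Type u) [NormedAddCommGroup H]
    [InnerProductSpace ℂ H] : InnerProductSpace ℂ (LTwo μ H) :=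
  (L2.innerProductSpace : InnerProductSpace ℂ (Lp H 2 μ))

/-- The bounded linear operators on `L²(G, H)`. -/
def LTwoOp (μ : Measure G) (H : Type u) [NormedAddCommGroup H] [InnerProductSpace ℂ H] :
    Type (max v u) := LTwo μ H →L[ℂ] LTwo μ H

/-- The function `G → H` (defined up to null sets) underlying an element of `L²(G, H)`. -/
noncomputable def LTwo.fn {μ : Measure G} {H : Type u} [NormedAddCommGroup H] (ξ : LTwo μ H) :
    G → H :=
  ((show Lp H 2 μ from ξ : Lp H 2 μ) : G → H)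

/-- The value of an operator on `L²(G, H)` at a vector. -/
noncomputable def LTwoOp.app {μ : Measure G} {H : Type u} [NormedAddCommGroup H]
    [InnerProductSpace ℂ H] (T : LTwoOp μ H) (ξ : LTwo μ H) : LTwo μ H :=
  (show LTwo μ H →L[ℂ] LTwo μ H from T) ξ

/-- `T` is a scalar multiple of the identity of `L²(G, H)`. -/
def LTwoOp.IsScalar {μ : Measure G} {H : Type u} [NormedAddCommGroup H] [InnerProductSpace ℂ H]
    (T : LTwoOp μ H) : Prop :=
  ∃ c : ℂ, ∀ ξ : LTwo μ H, (T.app ξ).fn =ᵐ[μ] fun g => c • ξ.fn g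

/-- The commutant of a set of operators on `L²(G, H)`. -/
def commutant {μ : Measure G} {H : Type u} [NormedAddCommGroup H] [InnerProductSpace ℂ H]
    (P : Set (LTwoOp μ H)) : Set (LTwoOp μ H) :=
  {T | ∀ S ∈ P, ∀ ξ : LTwo μ H, S.app (T.app ξ) = T.app (S.app ξ)}

variable [Group G] (μ : Measure G)

/-- The operators `π(x)`, `x ∈ M`, on `L²(G, H)`, given by `(π(x) ξ)(g) = α_{g⁻¹}(x) ξ(g)`. -/
def piOps {H : Type u} [NormedAddCommGroup H] [InnerProductSpace ℂ H] [CompleteSpace H]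
    (M : VonNeumannAlgebra H) (α : G → (H →L[ℂ] H) → (H →L[ℂ] H)) : Set (LTwoOp μ H) :=
  {T | ∃ x ∈ M, ∀ ξ : LTwo μ H, (T.app ξ).fn =ᵐ[μ] fun g => α g⁻¹ x (ξ.fn g)}

/-- The translation operators `λ_h`, `h ∈ G`, on `L²(G, H)`, given by
`(λ_h ξ)(g) = ξ(h⁻¹ g)`. -/
def translationOps (H : Type u) [NormedAddCommGroup H] [InnerProductSpace ℂ H] :
    Set (LTwoOp μ H) :=
  {T | ∃ h : G, ∀ ξ : LTwo μ H, (T.app ξ).fn =ᵐ[μ] fun g => ξ.fn (h⁻¹ * g)}

variable {H : Type u} [NormedAddCommGroup H] [InnerProductSpace ℂ H] [CompleteSpace H]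

/-- The von Neumann crossed product `M ⋊_α G`: the bicommutant of the self-adjoint set
`π(M) ∪ λ(G)` of operators on `L²(G, H)`. -/
def crossedProduct (M : VonNeumannAlgebra H) (α : G → (H →L[ℂ] H) → (H →L[ℂ] H)) :
    Set (LTwoOp μ H) :=
  commutant (commutant (piOps μ M α ∪ translationOps μ H))

/-- The action `α` is strictly outer: `M' ∩ (M ⋊_α G) = ℂ 1`. -/
def IsStrictlyOuter (M : VonNeumannAlgebra H) (α : G → (H →L[ℂ] H) → (H →L[ℂ] H)) : Prop :=
  ∀ T ∈ crossedProduct μ M α, T ∈ commutant (piOps μ M α) → T.IsScalar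

/-- The crossed product `M ⋊_α G` is a factor. -/
def CrossedProductIsFactor (M : VonNeumannAlgebra H) (α : G → (H →L[ℂ] H) → (H →L[ℂ] H)) : Prop :=
  ∀ T ∈ crossedProduct μ M α, T ∈ commutant (crossedProduct μ M α) → T.IsScalar

omit [Group G] [CompleteSpace H] in
theorem commutant_eq (P : Set (Lp H 2 μ →L[ℂ] Lp H 2 μ)) :
    (commutant (μ := μ) (H := H) P : Set (Lp H 2 μ →L[ℂ] Lp H 2 μ)) = Set.centralizer P := by
  have h1 : ∀ T : Lp H 2 μ →L[ℂ] Lp H 2 μ,
      (∀ S ∈ P, ∀ ξ : Lp H 2 μ, S (T ξ) = T (S ξ)) ↔ T ∈ Set.centralizer P := fun T =>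
    ⟨fun h => Set.mem_centralizer_iff.2 fun S hS => ContinuousLinearMap.ext fun ξ => h S hS ξ,
      fun h S hS ξ => congrArg (fun R : Lp H 2 μ →L[ℂ] Lp H 2 μ => R ξ)
        (Set.mem_centralizer_iff.1 h S hS)⟩
  exact Set.ext h1

omit [Group G] [CompleteSpace H] in
theorem isScalar_iff (T : Lp H 2 μ →L[ℂ] Lp H 2 μ) :
    LTwoOp.IsScalar (μ := μ) (H := H) T ↔ ∃ c : ℂ, T = c • (1 : Lp H 2 μ →L[ℂ] Lp H 2 μ) := by
  refine exists_congr fun c => ⟨fun h => ?_, fun h => ?_⟩
  · refine ContinuousLinearMap.ext fun ξ => Lp.ext ?_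
    filter_upwards [h ξ, Lp.coeFn_smul c ξ] with g h1 h2
    exact h1.trans h2.symm
  · intro ξ
    subst h
    exact Lp.coeFn_smul c ξ

theorem piOps_eq (M : VonNeumannAlgebra H) (α : G → (H →L[ℂ] H) → (H →L[ℂ] H)) :
    piOps μ M α = (AbCoc.piOps μ M α : Set (Lp H 2 μ →L[ℂ] Lp H 2 μ)) := rfl

omit [CompleteSpace H] in
theorem translationOps_eq :
    translationOps μ H = (AbCoc.translationOps μ H : Set (Lp H 2 μ →L[ℂ] Lp H 2 μ)) := rfl

theorem crossedProduct_eq (M : VonNeumannAlgebra H) (α : G → (H →L[ℂ] H) → (H →L[ℂ] H)) :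
    crossedProduct μ M α = (AbCoc.crossedProduct μ M α : Set (Lp H 2 μ →L[ℂ] Lp H 2 μ)) := by
  unfold crossedProduct AbCoc.crossedProduct
  rw [piOps_eq, translationOps_eq]
  exact (congrArg (fun P : Set (LTwoOp μ H) => commutant (μ := μ) (H := H) P)
    (commutant_eq μ _)).trans (commutant_eq μ _)

theorem isStrictlyOuter_iff (M : VonNeumannAlgebra H) (α : G → (H →L[ℂ] H) → (H →L[ℂ] H)) :
    IsStrictlyOuter μ M α ↔ AbCoc.IsStrictlyOuter μ M α := by
  constructor
  · intro h T hT hc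
    refine (isScalar_iff μ T).1 (h T ?_ ?_)
    · rw [crossedProduct_eq]
      exact hT
    · intro S hS ξ
      exact congrArg (fun R : Lp H 2 μ →L[ℂ] Lp H 2 μ => R ξ) (hc S hS).symm
  · intro h T hT hc
    refine (isScalar_iff μ T).2 (h T ?_ ?_)
    · rw [crossedProduct_eq] at hT
      exact hT
    · intro S hS
      exact ContinuousLinearMap.ext fun ξ => (hc S hS ξ).symm

theorem crossedProductIsFactor_iff (M : VonNeumannAlgebra H)
    (α : G → (H →L[ℂ] H) → (H →L[ℂ] H)) :
    CrossedProductIsFactor μ M α ↔ AbCoc.CrossedProductIsFactor μ M α := by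
  constructor
  · intro h T hT hc
    refine (isScalar_iff μ T).1 (h T ?_ ?_)
    · rw [crossedProduct_eq]
      exact hT
    · intro S hS ξ
      rw [crossedProduct_eq] at hS
      exact congrArg (fun R : Lp H 2 μ →L[ℂ] Lp H 2 μ => R ξ) (hc S hS).symm
  · intro h T hT hc
    refine (isScalar_iff μ T).2 (h T ?_ ?_)
    · rw [crossedProduct_eq] at hT
      exact hT
    · intro S hS
      refine ContinuousLinearMap.ext fun ξ => (hc S ?_ ξ).symm
      rw [crossedProduct_eq]
      exact hS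

end Pool.Agent.ErgCP
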