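import Pool.Agent.Lib_MP_418a80_ab.Cond
import Pool.Agent.Lib_MP_418a80_ab.Exp

set_option autoImplicit false
set_option linter.unusedVariables false

open Topology Filter

namespace Pool.Agent.AbCoc

universe u v w

/-- W3a: a calculus lemma -/
theorem second_deriv_ge (F F' : ℝ → ℝ) (F'' C : ℝ) (h1 : ∀ t, HasDerivAt F (F' t) t)
    (h2 : HasDerivAt F' F'' 0) (h : ∀ t, -(C * t ^ 2) ≤ F t + F (-t) - 2 * F 0) : -C ≤ F'' := by
  by_contra hcon
  push Not at hcon
  let G : ℝ → ℝ := fun t => F t + F (-t) - 2 * F 0 + C * t ^ 2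
  let G' : ℝ → ℝ := fun t => F' t - F' (-t) + 2 * C * t
  have hGd : ∀ t, HasDerivAt G (G' t) t := by
    intro t
    have a1 := h1 t
    have a2 : HasDerivAt (fun t => F (-t)) (F' (-t) * (-1)) t :=
      (h1 (-t)).comp t (hasDerivAt_neg t)
    have a3 : HasDerivAt (fun t : ℝ => C * t ^ 2) (C * (2 * t)) t := by
      simpa using (hasDerivAt_pow 2 t).const_mul C
    have := ((a1.add a2).sub_const (2 * F 0)).add a3
    exact HasDerivAt.congr_deriv (f := G) this (by simp only [G']; ring)
  have hG'd : HasDerivAt G' (F'' + F'' + 2 * C) 0 := by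
    have a2 : HasDerivAt (fun t => F' (-t)) (F'' * (-1)) 0 := by
      have h3 : HasDerivAt F' F'' (-0) := by simpa using h2
      exact h3.comp 0 (hasDerivAt_neg 0)
    have a3 : HasDerivAt (fun t : ℝ => 2 * C * t) (2 * C * 1) 0 :=
      (hasDerivAt_id 0).const_mul (2 * C)
    have := (h2.sub a2).add a3
    exact HasDerivAt.congr_deriv (f := G') this (by ring)
  have hG0 : G' 0 = 0 := by simp [G']
  have hGz : G 0 = 0 := by simp [G]; ring
  have hsl := hasDerivAt_iff_tendsto_slope.1 hG'd
  have hneg : F'' + F'' + 2 * C < 0 := by linarith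
  have hev := hsl.eventually (gt_mem_nhds hneg)
  rw [eventually_nhdsWithin_iff, Metric.eventually_nhds_iff] at hev
  obtain ⟨δ, hδ, hball⟩ := hev
  obtain ⟨c, hc, hceq⟩ := exists_hasDerivAt_eq_slope G G' hδ
    (fun x _ => (hGd x).continuousAt.continuousWithinAt) (fun x _ => hGd x)
  have hc1 : 0 < c := hc.1
  have hc2 : c < δ := hc.2
  have hd : dist c 0 < δ := by
    rw [Real.dist_eq, sub_zero, abs_of_pos hc1]
    exact hc2
  have hs := hball hd (by simpa using hc1.ne')
  rw [slope_def_field, hG0, sub_zero, sub_zero] at hs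
  have hneg2 : G' c < 0 := by
    by_contra hh
    push Not at hh
    have := div_nonneg hh hc1.le
    linarith
  rw [hceq, hGz, sub_zero, sub_zero] at hneg2
  have hpos : 0 ≤ G δ := by
    have := h δ
    simp only [G]
    linarith
  have := div_nonneg hpos hδ.le
  linarith

section
variable {A : Type u} [CStarAlgebra A] {K : Type v} [NormedAddCommGroup K]
  [InnerProductSpace ℂ K] [CompleteSpace K]
variable {G : Type w} [Group G] [TopologicalSpace G] {T : TrAlg A K} (S : TrAct G T)

private noncomputable def Vari_L : A →L[ℂ] K :=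
  LinearMap.mkContinuous
    { toFun := fun a => T.ι (S.E a)
      map_add' := fun a b => by rw [S.E_add, map_add]
      map_smul' := fun c a => by rw [S.E_smul, map_smul]; rfl } 1
    (fun a => by
      rw [one_mul]
      exact (S.norm_E_le a).trans (T.norm_le a))

private theorem Vari_L_apply (a : A) : Vari_L S a = T.ι (S.E a) := rfl

/-- the derivative of `Ad (ex t h) y` -/
private theorem Vari_hasDerivAt_Ad (h y : A) (t : ℝ) :
    HasDerivAt (fun t : ℝ => ex t h * y * ex (-t) h)
      (ex t h * (Complex.I • (h * y - y * h)) * ex (-t) h) t := by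
  have a1 := hasDerivAt_ex h t
  have a2 : HasDerivAt (fun t : ℝ => ex (-t) h) ((-1 : ℝ) • ((Complex.I • h) * ex (-t) h)) t :=
    HasDerivAt.scomp t (hasDerivAt_ex' h (-t)) (hasDerivAt_neg t)
  have := (a1.mul_const y).mul a2
  refine HasDerivAt.congr_deriv (f := fun t : ℝ => ex t h * y * ex (-t) h) this ?_
  rw [neg_one_smul]
  simp only [smul_mul_assoc, mul_smul_comm, mul_sub, sub_mul, smul_sub, mul_neg, mul_assoc]
  abel

private theorem Vari_hasDerivAt_L (h y : A) (t : ℝ) :
    HasDerivAt (fun t : ℝ => T.ι (S.E (ex t h * y * ex (-t) h)))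
      (T.ι (S.E (ex t h * (Complex.I • (h * y - y * h)) * ex (-t) h))) t := by
  have := ((Vari_L S).restrictScalars ℝ).hasFDerivAt.comp_hasDerivAt t (Vari_hasDerivAt_Ad h y t)
  exact this

/-- W3b: second variation of the main term -/
theorem second_variation (J : Type) [Fintype J] (y : J → A) (hy : ∀ j, IsSelfAdjoint (y j))
    (h : A) (hh : IsSelfAdjoint h) (C : ℝ)
    (hC : ∀ t : ℝ, -(C * t ^ 2) ≤ ∑ j, ‖T.ι (S.E (ex t h * y j * ex (-t) h))‖ ^ 2
      + ∑ j, ‖T.ι (S.E (ex (-t) h * y j * ex t h))‖ ^ 2 - 2 * ∑ j, ‖T.ι (S.E (y j))‖ ^ 2) :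
    ∑ j, (inner ℂ (T.ι (h * S.E (y j) - S.E (y j) * h)) (T.ι (h * y j - y j * h))).re
      ≤ ∑ j, ‖T.ι (S.E (h * y j - y j * h))‖ ^ 2 + C / 2 := by
  -- abbreviations
  let f : J → ℝ → K := fun j t => T.ι (S.E (ex t h * y j * ex (-t) h))
  let f' : J → ℝ → K := fun j t =>
    T.ι (S.E (ex t h * (Complex.I • (h * y j - y j * h)) * ex (-t) h))
  let f'' : J → K := fun j => T.ι (S.E (Complex.I • (h * (Complex.I • (h * y j - y j * h))
    - (Complex.I • (h * y j - y j * h)) * h)))
  have hf : ∀ j t, HasDerivAt (f j) (f' j t) t := fun j t => Vari_hasDerivAt_L S h (y j) t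
  have hf' : ∀ j, HasDerivAt (f' j) (f'' j) 0 := by
    intro j
    have := Vari_hasDerivAt_L S h (Complex.I • (h * y j - y j * h)) 0
    simpa only [neg_zero, ex_zero, one_mul, mul_one] using this
  have hnorm : ∀ ξ : K, ‖ξ‖ ^ 2 = (inner ℂ ξ ξ).re := by
    intro ξ
    rw [inner_self_eq_norm_sq_to_K]
    norm_cast
  -- derivative of the main term
  have hre : ∀ (g : ℝ → ℂ) (g' : ℂ) (t : ℝ), HasDerivAt g g' t →
      HasDerivAt (fun t => (g t).re) g'.re t := by
    intro g g' t hg
    exact Complex.reCLM.hasFDerivAt.comp_hasDerivAt t hg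
  have hF : ∀ t, HasDerivAt (fun t => ∑ j, ‖f j t‖ ^ 2)
      (∑ j, 2 * (inner ℂ (f j t) (f' j t)).re) t := by
    intro t
    apply HasDerivAt.fun_sum
    intro j _
    have := hre _ _ t (HasDerivAt.inner ℂ (hf j t) (hf j t))
    have e : (fun t => ‖f j t‖ ^ 2) = fun t => (inner ℂ (f j t) (f j t)).re :=
      funext fun s => hnorm _
    rw [e]
    refine this.congr_deriv ?_
    rw [Complex.add_re, ← inner_conj_symm (f' j t) (f j t), Complex.conj_re]
    ring
  have hF' : HasDerivAt (fun t => ∑ j, 2 * (inner ℂ (f j t) (f' j t)).re)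
      (∑ j, 2 * ((inner ℂ (f j 0) (f'' j)).re + (inner ℂ (f' j 0) (f' j 0)).re)) 0 := by
    apply HasDerivAt.fun_sum
    intro j _
    have := (hre _ _ 0 (HasDerivAt.inner ℂ (hf j 0) (hf' j))).const_mul 2
    rw [Complex.add_re] at this
    exact this
  have hkey := second_deriv_ge _ _ _ C hF hF' (by
    intro t
    have := hC t
    simp only [f, neg_neg, neg_zero, ex_zero, one_mul, mul_one]
    exact this)
  -- compute the second derivative
  have hval : ∀ j, (inner ℂ (f j 0) (f'' j)).re + (inner ℂ (f' j 0) (f' j 0)).re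
      = ‖T.ι (S.E (h * y j - y j * h))‖ ^ 2
        - (inner ℂ (T.ι (h * S.E (y j) - S.E (y j) * h)) (T.ι (h * y j - y j * h))).re := by
    intro j
    have e1 : inner ℂ (f' j 0) (f' j 0)
        = inner ℂ (T.ι (S.E (h * y j - y j * h))) (T.ι (S.E (h * y j - y j * h))) := by
      simp only [f', neg_zero, ex_zero, one_mul, mul_one]
      rw [S.E_smul, map_smul, inner_smul_left, inner_smul_right, ← mul_assoc]
      simp
    have e2 : inner ℂ (f j 0) (f'' j)
        = -inner ℂ (T.ι (h * S.E (y j) - S.E (y j) * h)) (T.ι (h * y j - y j * h)) := by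
      have e3 : (Complex.I • (h * (Complex.I • (h * y j - y j * h))
          - (Complex.I • (h * y j - y j * h)) * h))
          = -(h * (h * y j - y j * h) - (h * y j - y j * h) * h) := by
        rw [mul_smul_comm, smul_mul_assoc, ← smul_sub, smul_smul, Complex.I_mul_I, neg_one_smul]
      simp only [f, f'', neg_zero, ex_zero, one_mul, mul_one]
      rw [e3, S.inner_E _ _ (S.fixedVec_of_fixed (S.E_fixed (y j))), map_neg, inner_neg_right,
        map_sub T.ι (h * (h * y j - y j * h)), inner_sub_right, ← T.left', ← T.right',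
        hh.star_eq, ← inner_sub_left, ← map_sub]
    rw [e1, e2, ← hnorm, Complex.neg_re]
    ring
  simp only [hval] at hkey
  rw [← Finset.mul_sum, Finset.sum_sub_distrib] at hkey
  linarith

end

end Pool.Agent.AbCoc
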