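import Pool.Agent.Lib_MP_418a80_ab.LpOps
import Pool.Agent.Lib_MP_418a80_ab.Pos

set_option autoImplicit false
set_option linter.unusedVariables false
set_option linter.unusedSectionVars false

open MeasureTheory
open scoped ENNReal

namespace Pool.Agent.AbCoc

universe u v w

section
variable {G : Type u} [Group G] [TopologicalSpace G] [IsTopologicalGroup G]
  [SecondCountableTopology G] [MeasurableSpace G] [BorelSpace G]
  {K : Type v} [NormedAddCommGroup K] [InnerProductSpace ℂ K] [CompleteSpace K]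
  {K' : Type w} [NormedAddCommGroup K'] [InnerProductSpace ℂ K'] [CompleteSpace K']

namespace URep

/-- `(T_W - (1 - ε))⁺` -/
noncomputable def Kop (W : URep G K) (m : Measure G) [IsProbabilityMeasure m] (ε : ℝ) :
    K →L[ℂ] K := (W.T m - ((1 - ε : ℝ) : ℂ) • (1 : K →L[ℂ] K))⁺

/-- `(θ W_g + conj θ W_g*) / 2` -/
noncomputable def Aop (W : URep G K) (θ : ℂ) (g : G) : K →L[ℂ] K :=
  (1 / 2 : ℂ) • (θ • W.U g + (starRingEnd ℂ θ) • W.U g⁻¹)

/-- `(A - c)⁺` -/
noncomputable def Apos (W : URep G K) (θ : ℂ) (g : G) (c : ℝ) : K →L[ℂ] K :=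
  (W.Aop θ g - (c : ℂ) • (1 : K →L[ℂ] K))⁺

/-- `(A - c)⁻` -/
noncomputable def Aneg (W : URep G K) (θ : ℂ) (g : G) (c : ℝ) : K →L[ℂ] K :=
  (W.Aop θ g - (c : ℂ) • (1 : K →L[ℂ] K))⁻

theorem isSelfAdjoint_real_smul (c : ℝ) : IsSelfAdjoint ((c : ℂ) • (1 : K →L[ℂ] K)) := by
  rw [isSelfAdjoint_iff, star_smul, star_one, RCLike.star_def, Complex.conj_ofReal]

theorem Kop_base_sa (W : URep G K) (m : Measure G) [IsProbabilityMeasure m] (ε : ℝ) :
    IsSelfAdjoint (W.T m - ((1 - ε : ℝ) : ℂ) • (1 : K →L[ℂ] K)) :=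
  (W.T_isSelfAdjoint m).sub (isSelfAdjoint_real_smul _)

theorem Aop_sa (W : URep G K) (θ : ℂ) (g : G) : IsSelfAdjoint (W.Aop θ g) := by
  rw [ContinuousLinearMap.isSelfAdjoint_iff_isSymmetric]
  intro ξ η
  change inner ℂ ((1 / 2 : ℂ) • (θ • W.U g ξ + (starRingEnd ℂ θ) • W.U g⁻¹ ξ)) η
    = inner ℂ ξ ((1 / 2 : ℂ) • (θ • W.U g η + (starRingEnd ℂ θ) • W.U g⁻¹ η))
  rw [inner_smul_left, inner_add_left, inner_smul_left, inner_smul_left, inner_smul_right,
    inner_add_right, inner_smul_right, inner_smul_right, W.adj, W.adj']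
  have h2 : (starRingEnd ℂ) (1 / 2 : ℂ) = 1 / 2 := by
    rw [map_div₀, map_one, map_ofNat]
  rw [h2, Complex.conj_conj]
  ring

theorem Apos_base_sa (W : URep G K) (θ : ℂ) (g : G) (c : ℝ) :
    IsSelfAdjoint (W.Aop θ g - (c : ℂ) • (1 : K →L[ℂ] K)) :=
  (W.Aop_sa θ g).sub (isSelfAdjoint_real_smul _)

variable (W : URep G K) (W' : URep G K') (C : K →L[ℂ] K')
  (h : ∀ s ξ, C (W.U s ξ) = W'.U s (C ξ))

include h in
theorem Kop_intertwine (m : Measure G) [IsProbabilityMeasure m] (ε : ℝ) (ξ : K) :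
    C (W.Kop m ε ξ) = W'.Kop m ε (C ξ) := by
  refine posPart_intertwine _ _ (W.Kop_base_sa m ε) (W'.Kop_base_sa m ε) C (fun η => ?_) ξ
  simp only [sub_apply, map_sub, smul_apply, one_apply_eq_self, map_smul,
    W.T_intertwine m W' C h]

include h in
theorem Aop_intertwine (θ : ℂ) (g : G) (ξ : K) : C (W.Aop θ g ξ) = W'.Aop θ g (C ξ) := by
  simp only [Aop, smul_apply, add_apply, map_smul, map_add, h]

include h in
theorem Apos_intertwine (θ : ℂ) (g : G) (c : ℝ) (ξ : K) :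
    C (W.Apos θ g c ξ) = W'.Apos θ g c (C ξ) := by
  refine posPart_intertwine _ _ (W.Apos_base_sa θ g c) (W'.Apos_base_sa θ g c) C (fun η => ?_) ξ
  simp only [sub_apply, map_sub, smul_apply, one_apply_eq_self, map_smul,
    W.Aop_intertwine W' C h]

include h in
theorem Aneg_intertwine (θ : ℂ) (g : G) (c : ℝ) (ξ : K) :
    C (W.Aneg θ g c ξ) = W'.Aneg θ g c (C ξ) := by
  refine negPart_intertwine _ _ (W.Apos_base_sa θ g c) (W'.Apos_base_sa θ g c) C (fun η => ?_) ξ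
  simp only [sub_apply, map_sub, smul_apply, one_apply_eq_self, map_smul,
    W.Aop_intertwine W' C h]

theorem Apos_mul_Aneg (θ : ℂ) (g : G) (c : ℝ) : W.Apos θ g c * W.Aneg θ g c = 0 :=
  CFC.posPart_mul_negPart _

theorem Aneg_mul_Apos (θ : ℂ) (g : G) (c : ℝ) : W.Aneg θ g c * W.Apos θ g c = 0 :=
  CFC.negPart_mul_posPart _

/-- vectors in the range of `Kop` are nearly invariant -/
theorem near_of_range (m : Measure G) [IsProbabilityMeasure m] (ε : ℝ) (η : K) :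
    ∫ s, ‖W.U s (W.Kop m ε η) - W.Kop m ε η‖ ^ 2 ∂m ≤ 2 * ε * ‖W.Kop m ε η‖ ^ 2 := by
  rw [W.integral_norm_sub m]
  have h1 := inner_posPart_nonneg _ (W.Kop_base_sa m ε) η
  rw [← Kop] at h1
  simp only [sub_apply, smul_apply, one_apply_eq_self, inner_sub_left,
    inner_smul_left, Complex.conj_ofReal, Complex.sub_re, Complex.re_ofReal_mul] at h1
  have h2 : (inner ℂ (W.Kop m ε η) (W.Kop m ε η)).re = ‖W.Kop m ε η‖ ^ 2 := by
    rw [inner_self_eq_norm_sq_to_K]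
    norm_cast
  rw [h2] at h1
  nlinarith

end URep
end

end Pool.Agent.AbCoc
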