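import Pool.Agent.Lib_MP_418a80_ab.Win
import Pool.Agent.Lib_MP_418a80_ab.PiOps
import Pool.Agent.Lib_MP_418a80_ab.Factor

set_option autoImplicit false
set_option linter.unusedVariables false
set_option linter.unusedSectionVars false

open MeasureTheory Topology Filter
open scoped ENNReal

namespace Pool.Agent.AbCoc

universe u v w

section
variable {G : Type u} [Group G] [TopologicalSpace G] [IsTopologicalGroup G]
  [SecondCountableTopology G] [MeasurableSpace G] [BorelSpace G]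
  {K : Type v} [NormedAddCommGroup K] [InnerProductSpace ℂ K] [CompleteSpace K]
  {K' : Type w} [NormedAddCommGroup K'] [InnerProductSpace ℂ K'] [CompleteSpace K']

namespace URep

/-- `K_W (A - c)⁺` -/
noncomputable def kp (W : URep G K) (m : Measure G) [IsProbabilityMeasure m] (ε : ℝ) (θ : ℂ)
    (g : G) (c : ℝ) : K →L[ℂ] K := W.Kop m ε * W.Apos θ g c

/-- `K_W (A - c)⁻` -/
noncomputable def kn (W : URep G K) (m : Measure G) [IsProbabilityMeasure m] (ε : ℝ) (θ : ℂ)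
    (g : G) (c : ℝ) : K →L[ℂ] K := W.Kop m ε * W.Aneg θ g c

variable (W : URep G K) (W' : URep G K') (C : K →L[ℂ] K')
  (h : ∀ s ξ, C (W.U s ξ) = W'.U s (C ξ)) (m : Measure G) [IsProbabilityMeasure m] (ε : ℝ)
  (θ : ℂ) (g : G) (c : ℝ)

include h in
theorem kp_intertwine (ξ : K) : C (W.kp m ε θ g c ξ) = W'.kp m ε θ g c (C ξ) := by
  change C (W.Kop m ε (W.Apos θ g c ξ)) = W'.Kop m ε (W'.Apos θ g c (C ξ))
  rw [W.Kop_intertwine W' C h, W.Apos_intertwine W' C h]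

include h in
theorem kn_intertwine (ξ : K) : C (W.kn m ε θ g c ξ) = W'.kn m ε θ g c (C ξ) := by
  change C (W.Kop m ε (W.Aneg θ g c ξ)) = W'.Kop m ε (W'.Aneg θ g c (C ξ))
  rw [W.Kop_intertwine W' C h, W.Aneg_intertwine W' C h]

/-- an operator commuting with the representation commutes with the window operators -/
theorem kp_comm (D : K →L[ℂ] K) (hD : ∀ s, D * W.U s = W.U s * D) :
    D * W.kp m ε θ g c = W.kp m ε θ g c * D := by
  ext1 ξ
  exact W.kp_intertwine W D (fun s η => congrArg (fun Z : K →L[ℂ] K => Z η) (hD s)) m ε θ g c ξ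

theorem kn_comm (D : K →L[ℂ] K) (hD : ∀ s, D * W.U s = W.U s * D) :
    D * W.kn m ε θ g c = W.kn m ε θ g c * D := by
  ext1 ξ
  exact W.kn_intertwine W D (fun s η => congrArg (fun Z : K →L[ℂ] K => Z η) (hD s)) m ε θ g c ξ

end URep
end

section
variable {G : Type u} [CommGroup G] [TopologicalSpace G] [IsTopologicalGroup G]
  [SecondCountableTopology G] [MeasurableSpace G] [BorelSpace G]
  {K : Type v} [NormedAddCommGroup K] [InnerProductSpace ℂ K] [CompleteSpace K]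

theorem URep.U_comm (W : URep G K) (s t : G) : W.U s * W.U t = W.U t * W.U s := by
  rw [← W.mul, mul_comm, W.mul]

theorem URep.kp_mul_kn (W : URep G K) (m : Measure G) [IsProbabilityMeasure m] (ε : ℝ)
    (θ : ℂ) (g : G) (c : ℝ) : W.kp m ε θ g c * W.kn m ε θ g c = 0 := by
  have h1 : ∀ (s : G) (ξ : K), W.Apos θ g c (W.U s ξ) = W.U s (W.Apos θ g c ξ) := by
    intro s ξ
    exact (W.Apos_intertwine W (W.U s)
      (fun t η => congrArg (fun Z : K →L[ℂ] K => Z η) (W.U_comm s t)) θ g c ξ).symm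
  have h2 : W.Apos θ g c * W.Kop m ε = W.Kop m ε * W.Apos θ g c := by
    ext1 ξ
    exact W.Kop_intertwine W (W.Apos θ g c) h1 m ε ξ
  have h3 : W.kp m ε θ g c * W.kn m ε θ g c
      = W.Kop m ε * (W.Apos θ g c * W.Kop m ε) * W.Aneg θ g c := by
    unfold URep.kp URep.kn
    noncomm_ring
  have h4 : W.Kop m ε * (W.Kop m ε * W.Apos θ g c) * W.Aneg θ g c
      = W.Kop m ε * W.Kop m ε * (W.Apos θ g c * W.Aneg θ g c) := by
    noncomm_ring
  rw [h3, h2, h4, W.Apos_mul_Aneg, mul_zero]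

end

section
variable {H : Type u} [NormedAddCommGroup H] [InnerProductSpace ℂ H] [CompleteSpace H]
variable {G : Type v} [CommGroup G] [TopologicalSpace G] [IsTopologicalGroup G]
  [SecondCountableTopology G] [LocallyCompactSpace G] [MeasurableSpace G] [BorelSpace G]
  (μ : Measure G) [μ.IsHaarMeasure]
  {M : VonNeumannAlgebra H} {α : G → (H →L[ℂ] H) → (H →L[ℂ] H)}

theorem tens_lam (η : H) (s : G) (ψ : Lp ℂ 2 μ) :
    tens μ η ((lam μ ℂ).U s ψ) = (lam μ H).U s (tens μ η ψ) := oneT_lam μ _ s ψ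

theorem oneT_tens (b : H →L[ℂ] H) (η : H) (ψ : Lp ℂ 2 μ) :
    oneT μ b (tens μ η ψ) = tens μ (b η) ψ := by
  apply Lp.ext
  filter_upwards [oneT_ae μ b (tens μ η ψ), tens_ae μ η ψ, tens_ae μ (b η) ψ] with g h1 h2 h3
  rw [h1, h2, h3, map_smul]

/-- the window operators do not vanish on `π(b)`, `b` fixed and not zero -/
theorem kp_piOp_ne_zero (hα : IsAction M α) (m : Measure G) [IsProbabilityMeasure m] (ε : ℝ)
    (θ : ℂ) (g : G) (c : ℝ) (hk : (lam μ ℂ).kp m ε θ g c ≠ 0) (b : Alg M) (hb : b ≠ 0)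
    (hbf : ∀ g, actHom hα g b = b) :
    (lam μ H).kp m ε θ g c * piOp μ hα b ≠ 0 := by
  intro h0
  obtain ⟨ψ, hψ⟩ : ∃ ψ, (lam μ ℂ).kp m ε θ g c ψ ≠ 0 := by
    by_contra hcon
    push Not at hcon
    exact hk (ContinuousLinearMap.ext hcon)
  obtain ⟨v, hv⟩ : ∃ v, (b : H →L[ℂ] H) v ≠ 0 := by
    by_contra hcon
    push Not at hcon
    exact hb (Subtype.ext (ContinuousLinearMap.ext hcon))
  have h1 : ((lam μ H).kp m ε θ g c * piOp μ hα b) (tens μ v ψ) = 0 := by rw [h0]; rfl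
  have h2 : ((lam μ H).kp m ε θ g c * piOp μ hα b) (tens μ v ψ)
      = tens μ ((b : H →L[ℂ] H) v) ((lam μ ℂ).kp m ε θ g c ψ) := by
    change (lam μ H).kp m ε θ g c (piOp μ hα b (tens μ v ψ)) = _
    rw [piOp_fixed μ hα b hbf, oneT_tens]
    exact ((lam μ ℂ).kp_intertwine (lam μ H) (tens μ ((b : H →L[ℂ] H) v))
      (fun s η => tens_lam μ _ s η) m ε θ g c ψ).symm
  rw [h2] at h1
  have h3 := norm_tens μ ((b : H →L[ℂ] H) v) ((lam μ ℂ).kp m ε θ g c ψ)
  rw [h1, norm_zero] at h3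
  rcases mul_eq_zero.1 h3.symm with h4 | h4
  · exact hψ (norm_eq_zero.1 h4)
  · exact hv (norm_eq_zero.1 h4)

theorem kn_piOp_ne_zero (hα : IsAction M α) (m : Measure G) [IsProbabilityMeasure m] (ε : ℝ)
    (θ : ℂ) (g : G) (c : ℝ) (hk : (lam μ ℂ).kn m ε θ g c ≠ 0) (b : Alg M) (hb : b ≠ 0)
    (hbf : ∀ g, actHom hα g b = b) :
    (lam μ H).kn m ε θ g c * piOp μ hα b ≠ 0 := by
  intro h0
  obtain ⟨ψ, hψ⟩ : ∃ ψ, (lam μ ℂ).kn m ε θ g c ψ ≠ 0 := by
    by_contra hcon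
    push Not at hcon
    exact hk (ContinuousLinearMap.ext hcon)
  obtain ⟨v, hv⟩ : ∃ v, (b : H →L[ℂ] H) v ≠ 0 := by
    by_contra hcon
    push Not at hcon
    exact hb (Subtype.ext (ContinuousLinearMap.ext hcon))
  have h1 : ((lam μ H).kn m ε θ g c * piOp μ hα b) (tens μ v ψ) = 0 := by rw [h0]; rfl
  have h2 : ((lam μ H).kn m ε θ g c * piOp μ hα b) (tens μ v ψ)
      = tens μ ((b : H →L[ℂ] H) v) ((lam μ ℂ).kn m ε θ g c ψ) := by
    change (lam μ H).kn m ε θ g c (piOp μ hα b (tens μ v ψ)) = _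
    rw [piOp_fixed μ hα b hbf, oneT_tens]
    exact ((lam μ ℂ).kn_intertwine (lam μ H) (tens μ ((b : H →L[ℂ] H) v))
      (fun s η => tens_lam μ _ s η) m ε θ g c ψ).symm
  rw [h2] at h1
  have h3 := norm_tens μ ((b : H →L[ℂ] H) v) ((lam μ ℂ).kn m ε θ g c ψ)
  rw [h1, norm_zero] at h3
  rcases mul_eq_zero.1 h3.symm with h4 | h4
  · exact hψ (norm_eq_zero.1 h4)
  · exact hv (norm_eq_zero.1 h4)

/-- there is `x ∈ M` with `k₁ π(b₁ x b₂) k₂ ≠ 0` -/
theorem exists_window_element (hα : IsAction M α) (hfac : CrossedProductIsFactor μ M α)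
    (m : Measure G) [IsProbabilityMeasure m] (ε : ℝ)
    (θ : ℂ) (g : G) (c : ℝ) (hk1 : (lam μ ℂ).kp m ε θ g c ≠ 0)
    (hk2 : (lam μ ℂ).kn m ε θ g c ≠ 0) (b1 b2 : Alg M) (hb1 : b1 ≠ 0) (hb2 : b2 ≠ 0)
    (hb1f : ∀ g, actHom hα g b1 = b1) (hb2f : ∀ g, actHom hα g b2 = b2) :
    ∃ x : Alg M, (lam μ H).kp m ε θ g c * piOp μ hα (b1 * x * b2) * (lam μ H).kn m ε θ g c ≠ 0 := by
  have hcomm : ∀ (b : Alg M), (∀ g, actHom hα g b = b) → ∀ s,
      (lam μ H).U s * piOp μ hα b = piOp μ hα b * (lam μ H).U s := by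
    intro b hb s
    rw [lam_mul_piOp, hb]
  obtain ⟨p, hp, hne⟩ := factor_argument (piOps μ M α) (translationOps μ H)
    (by rw [← piOp_one μ hα]; exact piOp_mem μ hα 1)
    (by
      intro p hp q hq
      obtain ⟨x, rfl⟩ := exists_piOp μ hα hp
      obtain ⟨y, rfl⟩ := exists_piOp μ hα hq
      rw [← piOp_mul]
      exact piOp_mem μ hα _)
    (by
      intro p hp
      obtain ⟨x, rfl⟩ := exists_piOp μ hα hp
      rw [← piOp_star]
      exact piOp_mem μ hα _)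
    (by rw [← (lam μ H).one]; exact lam_mem μ 1)
    (by
      intro l hl k hk
      obtain ⟨s, rfl⟩ := exists_lam μ hl
      obtain ⟨t, rfl⟩ := exists_lam μ hk
      rw [← (lam μ H).mul]
      exact lam_mem μ _)
    (by
      intro l hl
      obtain ⟨s, rfl⟩ := exists_lam μ hl
      rw [lam_star]
      exact lam_mem μ _)
    (by
      intro l hl p hp
      obtain ⟨s, rfl⟩ := exists_lam μ hl
      obtain ⟨x, rfl⟩ := exists_piOp μ hα hp
      exact ⟨_, piOp_mem μ hα _, lam_mul_piOp μ hα s x⟩)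
    hfac (piOp μ hα b1) (piOp μ hα b2) ((lam μ H).kp m ε θ g c) ((lam μ H).kn m ε θ g c)
    (piOp_mem μ hα b1) (piOp_mem μ hα b2)
    (by
      intro l hl
      obtain ⟨s, rfl⟩ := exists_lam μ hl
      exact hcomm b2 hb2f s)
    (by
      intro l hl
      obtain ⟨s, rfl⟩ := exists_lam μ hl
      exact (lam μ H).kn_comm m ε θ g c _ fun t => (lam μ H).U_comm s t)
    (((lam μ H).kn_comm m ε θ g c (piOp μ hα b2) fun t => (hcomm b2 hb2f t).symm).symm)
    (by
      intro y hy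
      refine (lam μ H).kn_comm m ε θ g c y fun t => ?_
      exact (hy _ (Set.mem_union_right _ (lam_mem μ t))).symm)
    (kp_piOp_ne_zero μ hα m ε θ g c hk1 b1 hb1 hb1f)
    (kn_piOp_ne_zero μ hα m ε θ g c hk2 b2 hb2 hb2f)
  obtain ⟨x, rfl⟩ := exists_piOp μ hα hp
  refine ⟨x, ?_⟩
  rwa [piOp_mul, piOp_mul]

end

end Pool.Agent.AbCoc
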